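import Mathlib

/-!
# PROJECT SI, part B: Bezout for minimal primes and the sharp zero estimate for `K^r`

(helper16, 4 Dec; paper proofs in the docstrings.)

`K` is a field, `R = K[x_s : s in sigma]`, `sigma` finite.  The final statement is `S_ZE`
(Masser; Wuestholz): if `P /= 0` has degree `<= M` and vanishes at all points
`sum l_j phi_j`, `0 <= l_j <= r D`, then there is a proper subspace `U` of `K^r` with
`(D+1)^{|J|} <= 2^r (M+1)^{r - dim U}` for every `J` such that the `phi_j (j in J)` are
linearly independent over `Q` modulo `U`.

No Hilbert functions: the number of isolated zeros of a square system `g` is bounded with the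
deformation `g_i + eps x_i^(M+1)`, where everything is a free computation over `K[eps]`.

Order: `S_B1`, (`S_Red`, `S_Def` => `S_Cnt`), `S_Sq`, `S_Loc`, then `S_Free`, `S_Bez`, `S_Stab`,
`S_ZE`.  The implications between them are trivial to state, each item file proves
`theorem X_pf (h1 : S_..) ... : S_X` from the statements named in its docstring.
-/

set_option autoImplicit false

namespace Pool.Agent.Work.MP_8da9ea_nt.SI

open MvPolynomial

/-! ## 1. Heights of maximal ideals -/

/-- **B1.**  Every maximal ideal of `K[x_s : s in sigma]` has height `|sigma|`.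

Proof.  Induction over `sigma` (`Finite.induction_empty_option`, as in
`MvPolynomial.ringKrullDim_of_isNoetherianRing`).  Equivalences: `RingEquiv.height_comap`,
`RingEquiv.height_map`.  Empty type: `MvPolynomial.isEmptyRingEquiv`, a maximal ideal of a field is `0`, of
height `0`.  `Option sigma`: `MvPolynomial.optionEquivLeft` identifies the ring with
`A[X]`, `A = K[x_sigma]`; for a maximal ideal `P` of `A[X]` the ideal `p = P.under A` is maximal
(`A` is a Jacobson ring: `Ideal.Polynomial.isMaximal_comap_C_of_isJacobsonRing` or
`Polynomial.isMaximal_comap_C_of_isJacobsonRing`) and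
`Polynomial.height_eq_height_add_one p P`. -/
def S_B1 : Prop :=
  ∀ (K : Type) [Field K] (σ : Type) [Finite σ] (P : Ideal (MvPolynomial σ K)),
    P.IsMaximal → P.height = ((Nat.card σ : ℕ) : ℕ∞)

/-! ## 2. Isolated zeros of square systems -/

/-- The ideal of `A[eps]`, `A = K[x]`, generated by the `g_i + eps x_i^(M+1)`. -/
noncomputable def defIdeal {K : Type} [Field K] {σ : Type} (M : ℕ) (g : σ → MvPolynomial σ K) :
    Ideal (Polynomial (MvPolynomial σ K)) :=
  Ideal.span (Set.range fun i =>
    Polynomial.C (g i) + Polynomial.X * Polynomial.C ((X i : MvPolynomial σ K) ^ (M + 1)))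

/-- **Red.**  Modulo `defIdeal M g` (`deg g_i <= M`) a power of `eps` times `f` is a combination of
the monomials with all exponents `<= M`, with coefficients in `K[eps]`.

Proof.  The set of `f` with this property is closed under addition (take the larger of the two
powers) and multiplication by scalars.  So take a monomial `x^s` and induct on its degree: if all
`s_i <= M`, take `t = 0`.  If `s_i >= M + 1`, `s = s' + (M+1) e_i`, then
`eps x^s = x^(s') (g_i + eps x_i^(M+1)) - x^(s') g_i`, and `x^(s') g_i` has degree
`<= |s| - (M+1) + M < |s|`, so it has the property (linear combination of monomials of smaller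
degree), with a power `eps^t`; take `eps^(t+1)` for `x^s`. -/
def S_Red : Prop :=
  ∀ (K : Type) [Field K] (σ : Type) [Fintype σ] [DecidableEq σ] (M : ℕ)
    (g : σ → MvPolynomial σ K), (∀ i, (g i).totalDegree ≤ M) → ∀ f : MvPolynomial σ K,
    ∃ (t : ℕ) (b : (σ → Fin (M + 1)) → Polynomial K),
      (Polynomial.X ^ t * Polynomial.C f
        - ∑ α : σ → Fin (M + 1), (b α).map (MvPolynomial.C : K →+* MvPolynomial σ K) *
            Polynomial.C (∏ i, (X i : MvPolynomial σ K) ^ ((α i : ℕ)))) ∈ defIdeal M g

/-- **Def.**  Isolated zeros deform: if the maximal ideal `P` is a minimal prime of `(g)`, there is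
a prime `Q` of `A[eps]` over `defIdeal M g`, not containing `eps`, all of whose elements have
constant term in `P`.

Proof (uses `S_B1`).  `MM = comap (eval eps = 0) P` is a maximal ideal of `A[eps]`
(`Ideal.comap_isMaximal_of_surjective`), contains `defIdeal` and lies over `P`
(`Polynomial.C`-comap is `P`), so `height MM = height P + 1 = |sigma| + 1`
(`Polynomial.height_eq_height_add_one`, `S_B1`).  Let `Q <= MM` be a minimal prime of `defIdeal`
(`Ideal.exists_minimalPrimes_le`); by Krull's height theorem `height Q <= |sigma|`.  If `eps in Q`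
then `comap C Q` is a prime containing all `g_i`, contained in `P`, hence equal to `P`; and then
every `f in MM`, `f = C (f 0) + eps h`, is in `Q`; so `Q = MM`, contradiction. -/
def S_Def : Prop :=
  ∀ (K : Type) [Field K] (σ : Type) [Fintype σ] (M : ℕ) (g : σ → MvPolynomial σ K)
    (P : Ideal (MvPolynomial σ K)),
    P.IsMaximal → P ∈ (Ideal.span (Set.range g)).minimalPrimes →
    ∃ Q : Ideal (Polynomial (MvPolynomial σ K)), Q.IsPrime ∧ defIdeal M g ≤ Q ∧
      Polynomial.X ∉ Q ∧ ∀ f ∈ Q, Polynomial.coeff f 0 ∈ P

/-- **Cnt.**  A square system of degree `<= M` in `n` variables has at most `(M+1)^n` isolated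
zeros.

Proof (from `S_Red`, `S_Def`).  Suppose `N = (M+1)^n + 1` different such maximal ideals `P_k`.
Choose `a_k in P_l` for all `l /= k`, `a_k` not in `P_k` (product of elements of `P_l` outside
`P_k`).  By `S_Red`, `eps^t a_k` is congruent to `sum_alpha b_{k alpha} x^alpha` (the same `t`).
`N > (M+1)^n` vectors over the domain `K[eps]` have a relation `sum_k c_k b_{k alpha} = 0` with
`c /= 0`; dividing by a power of `eps` we may assume `c_{k0}(0) /= 0` for some `k0`.  (Divide after
the next step, or choose the relation so.)  So `eps^t' sum_k c_k a_k in defIdeal <= Q`, where `Q`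
belongs to `P_{k0}` by `S_Def`, hence `sum_k c_k a_k in Q` and its constant term
`sum_k c_k(0) a_k` is in `P_{k0}`; but modulo `P_{k0}` it is `c_{k0}(0) a_{k0}`, not zero. -/
def S_Cnt : Prop :=
  ∀ (K : Type) [Field K] (σ : Type) [Fintype σ] (M : ℕ) (g : σ → MvPolynomial σ K),
    (∀ i, (g i).totalDegree ≤ M) → ∀ F : Finset (Ideal (MvPolynomial σ K)),
    (∀ P ∈ F, P.IsMaximal ∧ P ∈ (Ideal.span (Set.range g)).minimalPrimes) →
    F.card ≤ (M + 1) ^ (Fintype.card σ)

/-- **Sq.**  Reduction to square systems: `n` combinations of the generators are enough.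

Proof (from `S_B1`; only `height P <= n` is used).  `K` is infinite.  Let `V` be the `K`-span of
`G` (elements of degree `<= M`; the ideal spanned by `V` is `(G)`).  Construct `g_1, g_2, ...` in
`V` such that for all `j`:  (*) every prime `q >= (g_1, ..., g_j)` which is contained in some
`P in F` satisfies `height q >= j` or `G <= q`.  `j = 0`: clear.  Step: the set of minimal primes
of `(g_1, ..., g_j)` is finite (Noetherian); for those, `q`, which do not contain `G`, `V ∩ q` is a
proper subspace of `V`, so some `g_{j+1} in V` is in none of them (a vector space over an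
infinite field is not a finite union of proper subspaces).  If `q >= (g_1, ..., g_{j+1})`,
`q <= P`, take a minimal prime `q0 <= q` of `(g_1, ..., g_j)`; if `G <= q0` fine; otherwise
`height q0 >= j` by (*) and `q0 /= q` as `g_{j+1}` is not in `q0`, so `height q >= j + 1`.
At `j = n`: let `P in F`, `q` a minimal prime of `(g_1, ..., g_n)` inside `P`.  If `G <= q`, then
`q = P` as `P` is minimal over `(G)`.  Otherwise `height q >= n = height P`, so `q = P`. -/
def S_Sq : Prop :=
  ∀ (K : Type) [Field K] [Infinite K] (σ : Type) [Fintype σ] (M : ℕ)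
    (G : Set (MvPolynomial σ K)), (∀ g ∈ G, g.totalDegree ≤ M) →
    ∀ F : Finset (Ideal (MvPolynomial σ K)),
    (∀ P ∈ F, P.IsMaximal ∧ P ∈ (Ideal.span G).minimalPrimes) →
    ∃ g : σ → MvPolynomial σ K, (∀ i, (g i).totalDegree ≤ M) ∧
      ∀ P ∈ F, P ∈ (Ideal.span (Set.range g)).minimalPrimes

/-! ## 3. Localisation at a free set of variables -/

/-- The variables `x_s`, `s in S`, are algebraically independent modulo `P`. -/
def FreeFor {K : Type} [Field K] {σ : Type} (P : Ideal (MvPolynomial σ K)) (S : Set σ) : Prop :=
  ∀ f : MvPolynomial S K, rename (Subtype.val : S → σ) f ∈ P → f = 0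

/-- `S` is a maximal free set of variables for `P`. -/
def MaxFree {K : Type} [Field K] {σ : Type} (P : Ideal (MvPolynomial σ K)) (S : Set σ) : Prop :=
  FreeFor P S ∧ ∀ i, i ∉ S → ¬ FreeFor P (insert i S)

/-- **Loc.**  Localisation at the nonzero polynomials in the variables of `S`.

Proof.  `K' = FractionRing (MvPolynomial S K)`, `tau = S^c`; `phi` is the composition
`K[x_sigma] = K[x_S][x_tau] -> K'[x_tau]` (`MvPolynomial.sumAlgEquiv`, `renameEquiv`,
`MvPolynomial.map (algebraMap ..)`), i.e. `phi` sends `x_s` to `C (algebraMap (X s))` for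
`s in S` and to `X s` for the others; it can be defined as `eval₂Hom`.  It is the localisation of
`K[x_sigma]` at the images of the nonzero elements of `K[x_S]` (`MvPolynomial.isLocalization`).
Degrees: a monomial of degree `d` goes to a constant times a monomial of degree `<= d`.
`K'` is infinite (if `K` is infinite it contains `K`).
Let `P` be prime, `S` free for `P`, maximal.  `P` is disjoint from the multiplicative set, so
`P' = P.map phi` is prime, `comap P' = P` (`IsLocalization.comap_map_of_isPrime_disjoint`, or
`under_map_...`), the heights agree (`IsLocalization.height_map_of_disjoint`) and minimal primes go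
to minimal primes (`IsLocalization.minimalPrimes_map`).  `P'` is maximal: in the domain
`K'[x_tau]/P'` every `x_j`, `j not in S`, is algebraic over `K'` because `insert j S` is not free: there is
`0 /= f in K[x_S][x_j]` in `P`; as a polynomial in `x_j` over `K[x_S]` it is not zero, so it is a
nonzero polynomial over `K'` which kills the class of `x_j`.  So the quotient is a domain
generated by integral elements over the field `K'`, i.e. integral over `K'`, hence a field
(`isField_of_isIntegral_of_isField'`). -/
def S_Loc : Prop :=
  ∀ (K : Type) [Field K] [Infinite K] (σ : Type) [Fintype σ] (S : Set σ),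
    ∃ (K' : Type) (_ : Field K') (_ : Infinite K')
      (φ : MvPolynomial σ K →+* MvPolynomial {i : σ // i ∉ S} K'),
      (∀ g, (φ g).totalDegree ≤ g.totalDegree) ∧
      ∀ P : Ideal (MvPolynomial σ K), P.IsPrime → MaxFree P S →
        (P.map φ).IsMaximal ∧ (P.map φ).comap φ = P ∧ (P.map φ).height = P.height ∧
        ∀ I : Ideal (MvPolynomial σ K), P ∈ I.minimalPrimes → P.map φ ∈ (I.map φ).minimalPrimes

/-- **Free.**  A maximal free set has exactly `|sigma| - height P` elements.

Proof (from `S_B1`, `S_Loc`).  `height P = height (P.map phi) = |sigma \ S|`. -/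
def S_Free : Prop :=
  ∀ (K : Type) [Field K] [Infinite K] (σ : Type) [Fintype σ] (P : Ideal (MvPolynomial σ K))
    (S : Set σ), P.IsPrime → MaxFree P S →
    P.height = ((Nat.card {i : σ // i ∉ S} : ℕ) : ℕ∞)

/-- **Bez.**  BEZOUT: an ideal of `K[x_1, ..., x_r]` generated by elements of degree `<= M` has at
most `2^r (M+1)^c` minimal primes of height `c`.

Proof (from `S_Cnt`, `S_Sq`, `S_Loc`, `S_Free`).  Every prime `P /= R` has a maximal free set
`S(P)` (start with the empty set, which is free as `P` contains no constants; finite type).  For a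
given `S` the primes `P` in `F` with `S(P) = S` give, with `S_Loc`, different (comap of map is the
identity) maximal ideals of `K'[x_{S^c}]`, minimal over the ideal generated by the `phi g`,
`g in G` (`Ideal.map_span`), of degree `<= M`.  By `S_Sq` and `S_Cnt` there are at most
`(M+1)^|S^c|` and `|S^c| = c` by `S_Free`.  Sum over the `2^r` sets `S`. -/
def S_Bez : Prop :=
  ∀ (K : Type) [Field K] [Infinite K] (σ : Type) [Fintype σ] (M c : ℕ)
    (G : Set (MvPolynomial σ K)), (∀ g ∈ G, g.totalDegree ≤ M) →
    ∀ F : Finset (Ideal (MvPolynomial σ K)),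
    (∀ P ∈ F, P ∈ (Ideal.span G).minimalPrimes ∧ P.height = (c : ℕ∞)) →
    F.card ≤ 2 ^ (Fintype.card σ) * (M + 1) ^ c

/-! ## 4. Translations -/

/-- Translation by `v`: `f(x) |-> f(x + v)`. -/
noncomputable def tr {K : Type} [Field K] {σ : Type} (v : σ → K) :
    MvPolynomial σ K →ₐ[K] MvPolynomial σ K :=
  aeval fun i => (X i + C (v i) : MvPolynomial σ K)

/-- **Stab.**  In characteristic `0` the stabiliser of a prime ideal of height `c` is a linear
subspace of dimension `<= |sigma| - c`.

Proof (from `S_Free`).  `tr (v + w) = tr v . tr w`, `tr 0 = id`, so `tr v` is an automorphism with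
inverse `tr (-v)`, and `U = {v : comap (tr v) P = P}` is a subgroup.  Let `v in U`, `f in P`.
Then `f(x + n v) in P` for all natural `n`.  `f(x + t v) = sum_i t^i f_i(x)` (finite sum, e.g. the
image of `f` under `aeval (X i + T v_i)` to `R[T]`); `sum_i n^i f_i in P` for all `n in N`, and
`R/P` is a `K`-vector space, `K` of characteristic `0`, so all `f_i in P` (a polynomial over the
domain `R/P` of characteristic zero with infinitely many zeros vanishes) and `f(x + t v) in P`
for all `t in K`.  So `tr (t v)` maps `P` into `P` for all `t`, and for `-t` as well: `t v in U`.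
Dimension: let `u = dim U`.  The coordinate functions restricted to `U` span the dual of `U`,
so there is a set `T` of `u` coordinates such that `U -> K^T` is bijective.  `T` is free for `P`:
let `0 /= f in K[x_T]` with `f in P` of minimal degree.  `f` is not constant (`P` is proper), so
`f(x + v) - f(x) /= 0` for some `v in K^T` (otherwise `f` is constant on
`K^T`, `K` infinite), it has smaller degree and is in `P` since `v` is the projection
of an element of `U`: contradiction.  Extend `T` to a maximal free set `S`; by `S_Free`
`height P = |sigma| - |S| <= |sigma| - u`. -/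
def S_Stab : Prop :=
  ∀ (K : Type) [Field K] [CharZero K] (σ : Type) [Fintype σ] (P : Ideal (MvPolynomial σ K)),
    P.IsPrime → ∃ U : Submodule K (σ → K), (∀ v, v ∈ U ↔ P.comap (tr v) = P) ∧
      P.height + ((Module.finrank K U : ℕ) : ℕ∞) ≤ ((Fintype.card σ : ℕ) : ℕ∞)

/-- **ZE.**  SHARP ZERO ESTIMATE.  `P /= 0` of degree `<= M` with `P(sum l_j phi_j) = 0` for all
`0 <= l_j <= r D`.  Then there is a proper subspace `U` of `K^r` such that
`(D+1)^{|J|} <= 2^r (M+1)^{r - dim U}` for all `J` for which the `phi_j (j in J)` are linearly independent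
over `Q` modulo `U`.

Proof (from `S_Bez`, `S_Stab`).  `I_k` = ideal generated by the `tr (l phi) P`,
`0 <= l_j <= k D`, for `k = 0, ..., r`; all generators have degree `<= M`.  All `I_k`, `k <= r`, are
contained in the ideal of the origin, so `I_k /= R`, `height I_k <= r`
(`Ideal.height_le_ringKrullDim_of_ne_top` or `S_B1`).  `height I_0 >= 1` as `P /= 0`
(a domain: a prime of height `0` is `0`).  `I_k <= I_{k+1}`, so the heights do not decrease
(`Ideal.height_mono`) and there is `k < r` with `height I_k = height I_{k+1} = c`, `1 <= c <= r`.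
Let `p` be a minimal prime of `I_{k+1}` of height `c` (`Ideal.height` is the infimum over the
minimal primes).  For `0 <= l_j <= D`: `tr (l phi) I_k <= I_{k+1} <= p`, so
`p_l = comap (tr (l phi)) p` is a prime over `I_k` of height `c` (`RingEquiv.height_comap`), hence a
minimal prime of `I_k` (a smaller prime over `I_k` would have height `< c`, all heights are
finite).  By `S_Bez` the number of different `p_l` is `<= 2^r (M+1)^c`.  Let `U` be the stabiliser
(`S_Stab`): `c <= r - dim U`; in particular `U` is proper as `c >= 1`.  If `l, l'` are supported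
in `J` and `p_l = p_l'` then `(l - l') phi in U`, so `l = l'`: there are `(D+1)^{|J|}` different
`p_l`. -/
def S_ZE : Prop :=
  ∀ (K : Type) [Field K] [CharZero K] (r m : ℕ) (φ : Fin m → Fin r → K) (M D : ℕ)
    (P : MvPolynomial (Fin r) K), P ≠ 0 → P.totalDegree ≤ M →
    (∀ l : Fin m → ℕ, (∀ j, l j ≤ r * D) → eval (∑ j, (l j : K) • φ j) P = 0) →
    ∃ U : Submodule K (Fin r → K), U ≠ ⊤ ∧ ∀ J : Finset (Fin m),
      (∀ a : Fin m → ℤ, (∀ j, j ∉ J → a j = 0) → (∑ j, (a j : K) • φ j) ∈ U → a = 0) →
      (D + 1) ^ J.card ≤ 2 ^ r * (M + 1) ^ (r - Module.finrank K U)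

end Pool.Agent.Work.MP_8da9ea_nt.SI
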