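import Mathlib
import Pool.Agent.Work.MP_327059_nt.FR.Stmts2
import Pool.Agent.Work.MP_8da9ea_nt.S.Defs
import Pool.Agent.Work.MP_8da9ea_nt.SI.StmtsB

/-!
# PROJECT SI: definitions

Theorem S-inf: for all `m`, `δ` there is `n₀` such that for all algebraic `b_1, …, b_m`, linearly
independent over `ℚ` and with `[ℚ(b) : ℚ] ≤ δ`, and every finite dimensional `ℚ`-space `V` of
complex numbers, all `z` in `V` with `tr.deg (b_j z, e^(b_j z)) < m` lie in finitely many subspaces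
of dimension at most `n₀`.
-/

set_option autoImplicit false

namespace Pool.Agent.Work.MP_8da9ea_nt.SI

open MvPolynomial Pool.Agent.Work.MP_327059_nt.GL Pool.Agent.Work.MP_327059_nt.FR

/-- The criterion of algebraic independence with separate degree `X` and height `h`. -/
def S_CritE : Prop :=
  ∀ (σ : Type) [Fintype σ] (τ : ℕ) (θ : σ → ℂ), TrLe τ θ →
    ∃ C : ℝ, 1 ≤ C ∧ ∀ (X : ℕ) (h V : ℝ), 1 ≤ X → (X : ℝ) ≤ h → C * h * (X : ℝ) ^ τ ≤ V →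
      ∀ PP : Set (MvPolynomial σ ℤ),
        (∀ P ∈ PP, P.totalDegree ≤ X ∧ len P ≤ Real.exp h ∧ ‖aeval θ P‖ ≤ Real.exp (-V)) →
        ∃ θ' : σ → ℂ, (∀ P ∈ PP, aeval θ' P = 0) ∧
          ∀ i, ‖θ' i - θ i‖ ≤ Real.exp (-V / (C * (X : ℝ) ^ τ))

/-- The number of independent integral relations of the forms `φ_j` modulo the subspace `U`. -/
noncomputable def rkU {r m : ℕ} (φ : Fin m → Fin r → ℂ) (U : Submodule ℂ (Fin r → ℂ)) : ℕ :=
  Module.finrank ℚ ((U.restrictScalars ℚ).comap (Fintype.linearCombination ℚ φ))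

/-- Minimality: every proper subspace `U` contains at most `s dim U` independent forms. -/
def Mn {r m : ℕ} (s : ℕ) (φ : Fin m → Fin r → ℂ) : Prop :=
  ∀ U : Submodule ℂ (Fin r → ℂ), U ≠ ⊤ → rkU φ U ≤ s * Module.finrank ℂ U

/-- The point `w_t = ∑ t_i w_i`. -/
noncomputable def wt {r N : ℕ} (w : Fin N → Fin r → ℂ) (t : Fin N → ℤ) : Fin r → ℂ :=
  fun k => ∑ i, (t i : ℂ) * w i k

/-- The point of index `x` in the box: `∑ x_j φ_j`. -/
noncomputable def bx {r m D : ℕ} (φ : Fin m → Fin r → ℂ) (x : Fin m → Fin D) : Fin r → ℂ :=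
  fun k => ∑ j, ((x j : ℕ) : ℂ) * φ j k

/-- All numbers `e^(φ_j w_i)` (`e = 0`), resp. all numbers `w_ik` and `e^(φ_j w_i)` (`e = 1`),
have transcendence degree at most `τ`. -/
def TLe {r m N : ℕ} (e τ : ℕ) (φ : Fin m → Fin r → ℂ) (w : Fin N → Fin r → ℂ) : Prop :=
  (e = 1 ∧ TrLe τ (cdr w (ey φ w))) ∨ (e = 0 ∧ TrLe τ (fun q : Fin N × Fin m => ey φ w q.1 q.2))

/-- Robust independence for the forms in the span of the `φ_j` only. -/
def RobP {r m N : ℕ} (κ : ℕ) (φ : Fin m → Fin r → ℂ) (w : Fin N → Fin r → ℂ) : Prop :=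
  ∀ W : Fin m → ℚ, W ≠ 0 →
    κ ≤ Module.finrank ℚ (Submodule.span ℚ (Set.range fun i => ∑ k, (∑ j, (W j : ℂ) * φ j k) * w i k))

/-- The matrix `c` describes the subspace `z_k = ∑_l c_kl z_(K l)` of dimension `h` of `ℂ^r`. -/
def Chart {r h : ℕ} (K : Fin h → Fin r) (c : Fin r → Fin h → ℂ) : Prop :=
  (∀ k l, ‖c k l‖ ≤ 2 ^ (r - h)) ∧ ∀ l l', c (K l) l' = if l = l' then 1 else 0

/-- The points `w_(t_j)`, `j < N'`, `t_j` independent and of size at most `T^a`, are extremely close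
to the subspace given by `K`, `c`. -/
def IsNear {r N h N' : ℕ} (T Q a : ℕ) (w : Fin N → Fin r → ℂ) (K : Fin h → Fin r)
    (c : Fin r → Fin h → ℂ) (t : Fin N' → Fin N → ℤ) : Prop :=
  Chart K c ∧ LinearIndependent ℚ (fun j => (fun i => (t j i : ℚ))) ∧
    (∀ j i, |t j i| ≤ ((T ^ a : ℕ) : ℤ)) ∧
    ∀ j k, ‖wt w (t j) k - ∑ l, c k l * wt w (t j) (K l)‖ ≤ Real.exp (-((T : ℝ) ^ Q))

/-- There is a subspace of dimension `h` to which `N'` independent points are extremely close. -/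
def Near {r N : ℕ} (T Q a : ℕ) (w : Fin N → Fin r → ℂ) (h N' : ℕ) : Prop :=
  ∃ (K : Fin h → Fin r) (c : Fin r → Fin h → ℂ) (t : Fin N' → Fin N → ℤ), IsNear T Q a w K c t

/-- A normalised linear form `χ` in the coordinates `z_(K l)` is tiny at many points of the lattice
generated by the `w_(t_j)`. -/
def SmallF {r N h N' : ℕ} (T Q B : ℕ) (w : Fin N → Fin r → ℂ) (K : Fin h → Fin r)
    (t : Fin N' → Fin N → ℤ) : Prop :=
  ∃ (χ : Fin h → ℂ) (l0 : Fin h), χ l0 = 1 ∧ (∀ l, ‖χ l‖ ≤ 1) ∧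
    (T + 1) ^ N' ≤ T ^ B * Set.ncard {s : Fin N' → ℤ | (∀ j, |s j| ≤ ((2 * T : ℕ) : ℤ)) ∧
      ‖∑ l, χ l * ∑ j, (s j : ℂ) * wt w (t j) (K l)‖ ≤ Real.exp (-((T : ℝ) ^ Q))}

/-- The data of a non-standard exceptional point, with two independent relations. -/
def NS2 {n m : ℕ} (x : Fin n → ℂ) (b : Fin m → ℂ) (ι : ℂ →+* ℂ)
    (xd : Derivation ℚ ℂ ℂ → Derivation ℚ ℂ ℂ) (v : Fin n → ℂ)
    (a : Fin 2 → Option (Fin m) → ℂ) : Prop :=
  (∀ δ c, xd δ (ι c) = ι (δ c)) ∧ (∀ δ i, xd δ (v i) = 0) ∧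
  (∀ c : Fin n → ℂ, ∑ i, v i * ι (c i) = 0 → c = 0) ∧ LinearIndependent ℂ a ∧
  ∀ (u : Fin 2) (δ : Derivation ℚ ℂ ℂ), a u none * ∑ i, v i * ι (δ (x i)) +
    ∑ j, a u (some j) * ∑ i, v i * (ι (δ (Complex.exp (b j * x i))) /
      ι (Complex.exp (b j * x i))) = 0

end Pool.Agent.Work.MP_8da9ea_nt.SI
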