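import Mathlib
import Pool.Agent.Work.MP_8da9ea_nt.SI.Defs
import Pool.Agent.Work.MP_327059_nt.AA.Defs

/-!
# PROJECT SI: statements, parts N (near the origin) and H (the chain of subspaces)

Useful lemmas: `GL.Val_len_add, _sum, _mul, _prod, _pow, _C, _X, _monomial` (file Bd/B11.lean of
MP_327059_nt) for `len` of multivariate integer polynomials, `AA.NL_len_*` (Bd/B03.lean) for
`lenP` (`= AA.len`) of integer polynomials in one variable.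
-/

set_option autoImplicit false

namespace Pool.Agent.Work.MP_8da9ea_nt.SI

open MvPolynomial Pool.Agent.Work.MP_327059_nt.GL Pool.Agent.Work.MP_327059_nt.FR

/-- The length of an integer polynomial in one variable. -/
noncomputable abbrev lenP (B : Polynomial ℤ) : ℝ := Pool.Agent.Work.MP_327059_nt.AA.len B

/-! ## Part N: near the origin -/

/-- **RedN.** Values of integer polynomials at algebraic numbers, in terms of a generator.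
Proof. `ℚ(φ)` is a number field; let `γ` be a primitive element (`Field.exists_primitive_element`
for `IntermediateField.adjoin ℚ (Set.range φ)`), which may be taken integral over `ℤ` (multiply by
an integer); `g = minpoly ℤ γ`, monic of degree `d`. Every `φ_i` is `b_i(γ)/q` with one integer
`q ≥ 1` and `b_i ∈ ℤ[x]`. Let `ℤ[γ]` have the basis `1, …, γ^(d-1)`. There is a constant `C₁` with:
for `B` of degree `< d` and every `i` there is `B'` of degree `< d` with `B'(γ) = b_i(γ) B(γ)` and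
`len B' ≤ C₁ len B` (reduction modulo `g`: `b_i(γ) γ^j = ∑ c_ijk γ^k`, linear in `B`). So by
induction `∏ (q φ_i)^(e_i) = B_e(γ)`, `len B_e ≤ C₁^|e|`; for `A = ∑ a_e x^e`,
`q^n A(φ) = ∑ a_e q^(n-|e|) B_e(γ)`, and `C = max q C₁`. -/
def S_RedN : Prop := ∀ (σ : Type) [Fintype σ] (φ : σ → ℂ), (∀ i, IsAlgebraic ℚ (φ i)) →
  ∃ (γ : ℂ) (q C : ℕ) (g : Polynomial ℤ), IsAlgebraic ℚ γ ∧ 1 ≤ q ∧ 1 ≤ C ∧ g ≠ 0 ∧
    Polynomial.aeval γ g = 0 ∧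
    ∀ (n : ℕ) (A : MvPolynomial σ ℤ), A.totalDegree ≤ n → ∃ B : Polynomial ℤ,
      B.natDegree ≤ g.natDegree ∧ (q : ℂ) ^ n * aeval φ A = Polynomial.aeval γ B ∧
      lenP B ≤ len A * (C : ℝ) ^ (n + 1)

/-- The `j`-th signed minor of the rows `i` and the columns `l`. -/
noncomputable def mnr {I Λ : Type} {ρ : ℕ} (A : I → Λ → ℂ) (i : Fin ρ → I) (l : Fin (ρ + 1) → Λ)
    (j : Fin (ρ + 1)) : ℂ :=
  (-1) ^ (j : ℕ) * Matrix.det (Matrix.of fun a b : Fin ρ => A (i a) (l (j.succAbove b)))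

/-- **Minor.** A vector orthogonal to all minor vectors in the kernel of `A` is in the row space.
Proof. Let `ρ` be the rank of `A`; choose `ρ` rows `i` and `ρ` columns `l0` (both injective) with
non-zero determinant `Δ` (`Matrix.rank`, or: rows forming a basis of the row space, then columns).
`c` = the solution of `∑_a c_a A(i_a, l0_b) = v(l0_b)`. For a column `x` in the range of `l0` we are
done. Otherwise take `l = Fin.cons x l0` (injective): for each row `α` the sum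
`∑_j mnr_j A(α, l_j)` is the determinant of the `ρ+1` rows `α, i` and columns `l` (Laplace
expansion along the first row, `Matrix.det_succ_row_zero`), which is `0` because the rank is `ρ`.
So the hypothesis gives `∑_j mnr_j v(l_j) = 0`, i.e. `Δ v(x) = -∑_(j≥1) mnr_j v(l_j)`
`= -∑_a c_a ∑_(j≥1) mnr_j A(i_a, l_j) = ∑_a c_a Δ A(i_a, x)`. -/
def S_Minor : Prop := ∀ (I Λ : Type) [Fintype I] [Fintype Λ] (A : I → Λ → ℂ) (v : Λ → ℂ),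
  (∀ (ρ : ℕ) (i : Fin ρ → I) (l : Fin (ρ + 1) → Λ), ρ ≤ Fintype.card I →
    Function.Injective l → (∀ α : I, ∑ j, mnr A i l j * A α (l j) = 0) →
      ∑ j, mnr A i l j * v (l j) = 0) →
  ∃ c : I → ℂ, ∀ x, v x = ∑ α, c α * A α x

/-- **UpE.** Upper bound for functions vanishing to order `M` at the origin.
Proof. For `n < M` the multinomial formula (`Finset.sum_pow_eq_sum_piAntidiag` or similar) gives
`∑_x p_x (∑_k bx φ x k * z k)^n = 0`. So the sum is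
`∑_x p_x (exp u_x - ∑_(n<M) u_x^n/n!)`, `u_x = ∑_k bx φ x k * z k`, and `Complex.exp_bound`
(`‖u‖ ≤ 1`, `0 < M`) gives `‖exp u - ∑_(n<M) u^n/n!‖ ≤ ‖u‖^M (M+1)/(M! M) ≤ 2 ‖u‖^M`. -/
def S_UpE : Prop := ∀ (r m D M : ℕ) (φ : Fin m → Fin r → ℂ) (p : (Fin m → Fin D) → ℂ)
  (z : Fin r → ℂ) (δ : ℝ), 1 ≤ M →
  (∀ α : Fin r → ℕ, ∑ k, α k < M → ∑ x, p x * ∏ k, bx φ x k ^ α k = 0) →
  (∀ x : Fin m → Fin D, ‖∑ k, bx φ x k * z k‖ ≤ δ) → 0 ≤ δ → δ ≤ 1 →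
    ‖∑ x, p x * Complex.exp (∑ k, bx φ x k * z k)‖ ≤ (∑ x, ‖p x‖) * (2 * δ ^ M)

/-- **Fam.** The family of integer polynomials (in `γ` and `Y`, with exponents in the box of side
`D`) whose value at `e^φ` vanishes to order `M` at the origin.
Proof. Rows: `I = {α : Fin r → Fin M // ∑ α < M}`, `card I ≤ M^r`; columns: `Fin m → Fin D`;
`A α x = ∏_k (bx φ x k)^(α k)`, the value at `φ` of an integer polynomial (variables indexed by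
`Fin m × Fin r`) of degree `≤ M` and length `≤ (m D)^M`. For `ρ ≤ card I`, `i`, `l` injective, with
`∑_j mnr_j A(α, l_j) = 0` for all `α`, the number `mnr_j` is the value of an integer polynomial of
degree `≤ n = M^(r+1)` and length `≤ ρ! (m D + 1)^(M ρ)`, so (`S_RedN`)
`q^n mnr_j = B_j(γ)`; put `P x = B_j` if `x = l_j`, and `P x = 0` if `x` is not in the range of `l`.
`FF` = set of these `P`. Lengths: `∑_x len (P x) ≤ (ρ+1) ρ! (mD+1)^(Mρ) C₀^(n+1)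
≤ exp(C (D M)^(r+2))`. Upper bound: `S_UpE` with `p_x = P_x(γ)`, `δ = C D ε`,
`‖P_x(γ)‖ ≤ len (P x) max(1, ‖γ‖)^(deg g)`. Last part: `S_Minor` gives `v x = ∑_α c_α A α x`,
`B = ∑ c_α X^α`. (The exponent `r + m + 3` leaves much room.) -/
def S_Fam : Prop := ∀ (r m : ℕ) (φ : Fin m → Fin r → ℂ), (∀ j k, IsAlgebraic ℚ (φ j k)) →
  ∃ (γ : ℂ) (g : Polynomial ℤ) (C : ℝ), IsAlgebraic ℚ γ ∧ g ≠ 0 ∧ Polynomial.aeval γ g = 0 ∧
    1 ≤ C ∧ ∀ D M : ℕ, 1 ≤ D → 1 ≤ M → ∃ FF : Set ((Fin m → Fin D) → Polynomial ℤ),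
      (∀ P ∈ FF, ∀ x, (P x).natDegree ≤ g.natDegree) ∧
      (∀ P ∈ FF, ∑ x, lenP (P x) ≤ Real.exp (C * ((D : ℝ) * M) ^ (r + m + 3))) ∧
      (∀ P ∈ FF, ∀ (z : Fin r → ℂ) (ε : ℝ), 0 ≤ ε → (∀ k, ‖z k‖ ≤ ε) → C * D * ε ≤ 1 →
        ‖∑ x, Polynomial.aeval γ (P x) * Complex.exp (∑ k, bx φ x k * z k)‖ ≤
          Real.exp (C * ((D : ℝ) * M) ^ (r + m + 3)) * (C * D * ε) ^ M) ∧
      ∀ v : (Fin m → Fin D) → ℂ, (∀ P ∈ FF, ∑ x, Polynomial.aeval γ (P x) * v x = 0) →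
        ∃ B : MvPolynomial (Fin r) ℂ, B.totalDegree ≤ M ∧ ∀ x, v x = eval (bx φ x) B

/-- **Dual.** From the zero estimate `S_ZE` (part B; take `J` with `J.card = m - rkU φ U`:
a maximal set of `φ_j` which is linearly independent over `ℚ` modulo `U`).
Proof. For each `j` let `R = tr (φ j) B - C (η j) * B` (`SI.tr`), `totalDegree R ≤ M`; at the points
`bx φ x`, all `x_i ≤ r D`, it is `∏ η^(x + e_j) - η_j ∏ η^x = 0`. If `R ≠ 0`, `S_ZE` gives a proper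
`U` with `(D+1)^(m - rkU φ U) ≤ 2^r (M+1)^(r - dim U)`, contradiction. So `tr (φ j) B = η_j B`.
`B ≠ 0` as `B(0) = 1`. The homogeneous component of top degree of `tr (φ j) B` is that of `B`, so
`η_j = 1` (or: compare the leading coefficient for the degree-lexicographic order; or: if
`B(x + v) = η B(x)` then `B(n v) = η^n B(0) = η^n` for all `n`, a polynomial in `n`: if `|η| ≠ 1`
this is impossible for growth reasons...; the homogeneous component argument is simplest). -/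
def S_Dual : Prop := ∀ (r m : ℕ) (φ : Fin m → Fin r → ℂ) (D M : ℕ),
  (∀ U : Submodule ℂ (Fin r → ℂ), U ≠ ⊤ →
    2 ^ r * (M + 1) ^ (r - Module.finrank ℂ U) < (D + 1) ^ (m - rkU φ U)) →
  ∀ (η : Fin m → ℂ) (B : MvPolynomial (Fin r) ℂ), B.totalDegree ≤ M →
    (∀ x : Fin m → Fin (r * D + 2), ∏ j, η j ^ (x j : ℕ) = eval (bx φ x) B) → ∀ j, η j = 1

/-- **NOa.** The application of the criterion.
Proof. `σ = Unit ⊕ (Fin N × Fin m) ⊕ (Fin N × Fin m)`, `θ = (γ, y, y⁻¹)`, `y = ey φ w`;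
`TrLe τ θ` (`γ` algebraic; `AlgOver`, `GL.S_TrCount`, `GL.S_TrBasis`: theorems `GL.pr_TrCount`,
`GL.pr_TrBasis` in Bd/B09.lean). For `P ∈ FF` (`S_Fam`) let `P~ = ∑_x P_x(X_γ) ∏_j
(∏_i X_(y_ij)^(t_i^+) X_(y'_ij)^(t_i^-))^(x_j)`: degree `≤ deg g + m D N A`, length
`≤ ∑_x len (P_x)`, value at `θ`: `∑_x P_x(γ) exp(bx φ x · w_t)`. The set `PP`: all `P~`,
the polynomials `X_(y_ij) X_(y'_ij) - 1`, and `g(X_γ)`.
`X = C₁ D A`, `h = C₁ (D M)^(r+m+3)`, `V = (M/2) L`: `‖P~(θ)‖ ≤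
exp(C (DM)^(r+m+3)) (C D e^(-L))^M ≤ exp(-V)` because `L` is large. Condition `C₀ h X^τ ≤ V`: as
`A ≤ M`, `C₀ C₁^(τ+1) (D M)^(r+m+3) (D M)^τ ≤ L/2`. The new point `θ'` satisfies
`‖θ' - θ‖ ≤ exp(-(M/2) L/(C₀ (C₁ D A)^τ)) ≤ exp(-3L)` because `M ≥ C (D A)^τ`. `γ' = γ` since
`g(γ') = 0` and the zeros of `g` are isolated (`L` is large). `η_j = ∏_i y'_ij^(t_i)` where
`y'_ij ≠ 0` and the inverse variable is the inverse. `‖η_j - ∏_i y_ij^(t_i)‖ ≤ exp(-2L)` as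
`N A` is small compared with `L`. All `P(η) = ∑ P_x(γ) η^x = 0`, so the last part of
`S_Fam` gives `B`. -/
def S_NOa : Prop := ∀ (r m τ : ℕ) (φ : Fin m → Fin r → ℂ), (∀ j k, IsAlgebraic ℚ (φ j k)) →
  ∀ (N : ℕ) (w : Fin N → Fin r → ℂ), TrLe τ (fun q : Fin N × Fin m => ey φ w q.1 q.2) →
  ∃ C : ℝ, 1 ≤ C ∧ ∀ (D M A : ℕ) (L : ℝ) (t : Fin N → ℤ), 1 ≤ D → 1 ≤ A → A ≤ M →
    C * ((D : ℝ) * A) ^ τ ≤ M → C * ((D : ℝ) * M) ^ (r + m + 4 + τ) ≤ L →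
    (∀ i, |t i| ≤ (A : ℤ)) → (∀ k, ‖wt w t k‖ ≤ Real.exp (-L)) →
    ∃ (η : Fin m → ℂ) (B : MvPolynomial (Fin r) ℂ),
      (∀ j, ‖η j - Complex.exp (∑ k, φ j k * wt w t k)‖ ≤ Real.exp (-(2 * L))) ∧
      B.totalDegree ≤ M ∧ ∀ x : Fin m → Fin D, ∏ j, η j ^ (x j : ℕ) = eval (bx φ x) B

/-- **NO.** No point `w_t ≠ 0` is extremely close to the origin (from `S_NOa`, `S_Dual`).
Proof. Put `q = a (τ + 1) + a + 2`, `D₀ = T^(2rq)`, `D = r D₀ + 2`, `A = T^a`, `M = T^((2rs+1)q)`,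
`Q` large. Let `w_t ≠ 0`, `ε = max ‖w_tk‖ ≤ exp(-T^Q)`, `L = log(1/ε) ≥ T^Q`. The conditions of
`S_NOa`: `(D A)^τ ≤ C' T^((2rq + a) τ)` and `(2rq + a) τ ≤ 2rqs + aτ < (2rs+1) q` as `τ ≤ s`. The
condition of `S_Dual`: for a proper `U` of dimension `u` one has `rkU φ U ≤ s u` (`Mn`), so
`m - rkU ≥ m - s u ≥ s (r-u) + 1` and `(D₀+1)^(m-rkU) ≥ T^(2rq (s(r-u)+1))`, against
`2^r (M+1)^(r-u) ≤ 4^r T^((2rs+1) q (r-u))`, and `2rq - q(r-u) ≥ 1`. So all `η_j = 1`, i.e.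
`‖exp(φ_j·w_t) - 1‖ ≤ ε²` and `‖φ_j·w_t‖ ≤ 2 ε²` (as `φ_j·w_t` is small). The `φ_j` span `ℂ^r`
(otherwise their span `U ≠ ⊤` has `rkU φ U = m ≤ s dim U ≤ s r < m`), so the unit vectors are
combinations of the `φ_j` and `ε = max ‖w_tk‖ ≤ C'' ε²`, a contradiction for large `T`. -/
def S_NO : Prop := ∀ r m s τ a : ℕ, 1 ≤ r → s * r < m → τ ≤ s → ∃ Q : ℕ,
  ∀ φ : Fin m → Fin r → ℂ, (∀ j k, IsAlgebraic ℚ (φ j k)) → Mn s φ →
  ∀ (N : ℕ) (w : Fin N → Fin r → ℂ), TrLe τ (fun q : Fin N × Fin m => ey φ w q.1 q.2) →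
  ∃ T₀ : ℕ, ∀ T : ℕ, T₀ ≤ T → ∀ t : Fin N → ℤ, (∀ i, |t i| ≤ ((T ^ a : ℕ) : ℤ)) →
    (∀ k, ‖wt w t k‖ ≤ Real.exp (-((T : ℝ) ^ Q))) → wt w t = 0

/-! ## Part H: the chain of subspaces -/

/-- **PsiU.** `FR.S_Psir`, uniformly in `φ` (same proof, file FR/I_Psir.lean). -/
def S_PsiU : Prop := ∀ (r m e τ q : ℕ), e ≤ 1 → 1 ≤ r → r * (τ + 1) < e * r + m →
  2 * r * (τ + 3) ≤ q → ∀ (Φ R0 : ℝ), 1 ≤ Φ → 1 ≤ R0 → ∃ T₀ : ℕ, ∀ T : ℕ, T₀ ≤ T →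
  ∀ φ : Fin m → Fin r → ℂ, (∀ j k, ‖φ j k‖ ≤ Φ) →
    ∃ p : (Fin (2 * τ + 4) → Ixr r m (T ^ (q * e)) (T ^ q)) → ℤ,
      p ≠ 0 ∧ (∀ x, |p x| ≤ (2 : ℤ) ^ (T ^ (q + 1))) ∧
      ∀ z : Fin (2 * τ + 4) → Fin r → ℂ, (∀ g k, ‖z g k‖ ≤ R0 * T) →
        ‖∑ x, (p x : ℂ) * ∏ g, fr φ (x g) (z g)‖ ≤
          Real.exp (-((T : ℝ) ^ ((q + 1) * (τ + 1) + 2) / 4))

/-- **SubJ.** Among the forms `φ_j` restricted to the subspace there are `s (h+1) + 1` without small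
relations (the dimension is `h + 1`).
Proof. `c~` = constant with: a determinant of order `≤ r` of numbers `∑_j W_j φ_jk`, `|W| ≤ T^a`, is
`0` or at least `T^(-c~)` for `T ≥ T₀` (Liouville: `AA.S_Liou`, theorem `AA.pr_Liou AA.full_NL`, see
FR/I_LiV.lean and the end of Bd/B10.lean). Let `b = c~ + r a + r + 2`. For `J ⊆ Fin m` say
`P(J)`: every integral `W ≠ 0` with support in `J` and `|W| ≤ T^a` has a coordinate `l` with
`T^(-b) ≤ ‖∑_k ψ_k c_kl‖`, `ψ = ∑ W_j φ_j`. `P(∅)` holds. Take `J` of maximal cardinality with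
`P(J)`; assume `J.card ≤ s (h+1)`. For every `j ∉ J` there is a bad `W^j` with support in
`J ∪ {j}`, and `W^j_j ≠ 0`. These `m - J.card` vectors are independent. The forms
`ψ^j = ∑ W^j_i φ_i` almost vanish on the subspace: since `c_(K l) = e_l`,
`ψ^j_(K l) = -∑_(k ∉ range K) ψ^j_k c_kl + O(T^(-b))`; so up to `O(T^(-b))` they lie in a space of
dimension `r - (h+1)`, all `(r-h) × (r-h)` minors are `O(T^(r a) T^(-b)) < T^(-c~)`, hence `0`. So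
the span `U` of the `ψ^j` has dimension at most `r - (h+1) < r`, and
`rkU φ U ≥ m - J.card > s r - s (h+1) ≥ s dim U`, which contradicts `Mn`.
(If `J.card > s (h+1)` restrict to a subset.) -/
def S_SubJ : Prop := ∀ (r m s a : ℕ) (φ : Fin m → Fin r → ℂ), (∀ j k, IsAlgebraic ℚ (φ j k)) →
  Mn s φ → s * r < m → ∃ b T₀ : ℕ, ∀ T : ℕ, T₀ ≤ T → ∀ h : ℕ, h < r →
  ∀ (K : Fin (h + 1) → Fin r) (c : Fin r → Fin (h + 1) → ℂ), Chart K c →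
    ∃ J : Fin (s * (h + 1) + 1) → Fin m, Function.Injective J ∧
      ∀ W : Fin (s * (h + 1) + 1) → ℤ, W ≠ 0 → (∀ j, |W j| ≤ ((T ^ a : ℕ) : ℤ)) →
        ∃ l, ((T : ℝ) ^ b)⁻¹ ≤ ‖∑ j, (W j : ℂ) * ∑ k, φ (J j) k * c k l‖

/-- **TrI.** Adding inverses (and zeros in place of the `w_ik` if `e = 0`); from `GL.S_TrCount`,
`GL.S_TrBasis` (theorems `GL.pr_TrCount`, `GL.pr_TrBasis`). -/
def S_TrI : Prop := ∀ (r m N e τ : ℕ) (φ : Fin m → Fin r → ℂ) (w : Fin N → Fin r → ℂ),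
  TLe e τ φ w → TrLe τ (Sum.elim (fun q : Fin N × Fin r => if e = 1 then w q.1 q.2 else 0)
    (Sum.elim (fun q : Fin N × Fin m => ey φ w q.1 q.2)
      (fun q : Fin N × Fin m => (ey φ w q.1 q.2)⁻¹)))

/-- Substitution of `∑_i t_ji w_i,K(l)` and `∏_i y_i,J(l)^(t_ji)` (with inverses as separate
variables). -/
noncomputable def sbt {r m N N' h m' : ℕ} (K : Fin h → Fin r) (J : Fin m' → Fin m)
    (t : Fin N' → Fin N → ℤ) : (Fin N' × Fin h) ⊕ (Fin N' × Fin m') →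
      MvPolynomial ((Fin N × Fin r) ⊕ ((Fin N × Fin m) ⊕ (Fin N × Fin m))) ℤ :=
  Sum.elim (fun q => ∑ i, C (t q.1 i) * X (Sum.inl (i, K q.2)))
    (fun q => ∏ i, (X (Sum.inr (Sum.inl (i, J q.2))) ^ (t q.1 i).toNat *
      X (Sum.inr (Sum.inr (i, J q.2))) ^ (-(t q.1 i)).toNat))

/-- **Sbt.** Values, degree and length after this substitution. -/
def S_Sbt : Prop := ∀ (r m N N' h m' A : ℕ) (K : Fin h → Fin r) (J : Fin m' → Fin m)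
  (t : Fin N' → Fin N → ℤ), 1 ≤ A → 1 ≤ N → (∀ j i, |t j i| ≤ (A : ℤ)) →
  ∀ P : MvPolynomial ((Fin N' × Fin h) ⊕ (Fin N' × Fin m')) ℤ,
    (∀ (u : Fin N → Fin r → ℂ) (y : Fin N → Fin m → ℂ), (∀ i j, y i j ≠ 0) →
      aeval (Sum.elim (fun q : Fin N × Fin r => u q.1 q.2)
        (Sum.elim (fun q : Fin N × Fin m => y q.1 q.2) (fun q : Fin N × Fin m => (y q.1 q.2)⁻¹)))
          (bind₁ (sbt K J t) P) =
        aeval (cdr (fun j l => ∑ i, (t j i : ℂ) * u i (K l))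
          (fun j l => ∏ i, y i (J l) ^ t j i)) P) ∧
    (bind₁ (sbt K J t) P).totalDegree ≤ P.totalDegree * (N * A) ∧
    len (bind₁ (sbt K J t) P) ≤ len P * ((N : ℝ) * A) ^ P.totalDegree

/-- **StV.** Smallness of the values. `T_h = T^(a+1)`.
Proof. `S_PsiU` at `T_h` (`T_h ≥ T₀` for large `T`) with `r := h+1`, `m := s(h+1)+1`
(`(h+1)(τ+1) = (h+1)(s+e) < e(h+1) + m`), for the restricted forms
`φ~_jl = ∑_k φ_(J j) k c_kl`, `‖φ~‖ ≤ r 2^r Φ`, and `R0 = N 2^(…) N max‖w‖`: the points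
`z_l = ∑_j s_j w_(t_j), K l` satisfy `‖z_l‖ ≤ N' 2^(…) T N T^a max‖w‖ ≤ R0 T_h` (`N' ≤ N` as the
`t_j` are independent). By `FR.S_Valr` (1) (with `evr`, `rpt`) the value of `PSr p s` at
`cdr u y` is `∑_x p_x ∏_g (∏_l z_l^(..)) exp(∑_j x_j φ_(J j)·w_(t_s))`; by `IsNear`
`‖φ_(J j)·w_(t_s) - φ~_j·z‖ ≤ r Φ N' 2^(…) T exp(-T^Q)`, the exponents `x_j` are `< T_h^q`, all
terms are bounded by `exp(C T_h^(q+1))`, and the number of terms and the coefficients as well, so the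
difference to the value of the function of `S_PsiU` is at most
`exp(C T_h^(q+1)) exp(-T^Q) ≤ exp(-T_h^((q+1)(τ+1)+2))` for
`Q = (a+1)((q+1)(τ+1)+3) + 1`. The numbers `N'`, `h`, `K`, `c`, `t`, `J` vary with `T`: all
constants depend only on `r, m, s, e, τ, a, q, φ, N, w` (finitely many `h < r`, so take the maximum
of the `T₀(h)` of `S_PsiU`). -/
def S_StV : Prop := ∀ (r m s e τ a q : ℕ), e ≤ 1 → 1 ≤ r → s + e = τ + 1 →
  2 * r * (τ + 3) ≤ q → ∃ Q : ℕ, ∀ (φ : Fin m → Fin r → ℂ) (N : ℕ) (w : Fin N → Fin r → ℂ),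
  ∃ T₀ : ℕ, ∀ T : ℕ, T₀ ≤ T → ∀ (h N' : ℕ), h < r → ∀ (K : Fin (h + 1) → Fin r)
    (c : Fin r → Fin (h + 1) → ℂ) (t : Fin N' → Fin N → ℤ)
    (J : Fin (s * (h + 1) + 1) → Fin m), IsNear T Q a w K c t →
    ∃ p : (Fin (2 * τ + 4) → Ixr (h + 1) (s * (h + 1) + 1) ((T ^ (a + 1)) ^ (q * e))
        ((T ^ (a + 1)) ^ q)) → ℤ,
      p ≠ 0 ∧ (∀ x, |p x| ≤ (2 : ℤ) ^ ((T ^ (a + 1)) ^ (q + 1))) ∧
      ∀ sg : Fin (2 * τ + 4) → Fin N' → ℕ,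
        (∀ g i, sg g i ≤ 2 ^ ((s * (h + 1) + 1) + (h + 1)) * T) →
        ‖aeval (cdr (fun j l => wt w (t j) (K l))
          (fun j l => Complex.exp (∑ k, φ (J l) k * wt w (t j) k))) (PSr p sg)‖ ≤
            Real.exp (-(((T : ℝ) ^ (a + 1)) ^ ((q + 1) * (τ + 1) + 2) / 8))

/-- **StA.** The criterion: perturbed numbers at which all polynomials vanish.
Proof. `p` from `S_StV`; `Θ` the family of `S_TrI`, `TrLe τ Θ`. The polynomials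
`bind₁ (sbt K J t) (PSr p s)`, all `s` in the box of side `2^(m'+h') T`
(`h' = h+1`, `m' = s h' + 1`), and `X_y X_(y⁻¹) - 1`. Values at `Θ`: `S_Sbt` with
`u = w` (`e = 1`) or `u = 0` (`e = 0`), `∏_i y_i,J(l)^(t_ji) = exp(φ_(J l)·w_(t_j))`; if `e = 0` all
exponents of the variables `inl` are `0` (`Fin ((..)^0) = Fin 1`), so the value does not depend on
`u` (`FR.S_Valr` (1)). Degree (`S_Valr` (3), `S_Sbt`): `≤ (2τ+4)(h' T_h^q + T_h^q 2^(m'+h') T N' m')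
N T^a ≤ C₁ T_h^(q+1) =: X`, length `≤ exp(C₁ T_h^(q+1))` as well (`S_Valr` (4); if `N' = 0`
or `N = 0` the statement is trivial: there is nothing to perturb and
`(PSr p s)` is a constant, an integer of absolute value `< 1`).
`V = T_h^((q+1)(τ+1)+2)/8 ≥ C X^(τ+1)`. `GL.S_Crit` gives `Θ'` within
`exp(-V/(C X^τ)) ≤ exp(-T_h^(q+2))`. Put `y'_jl = ∏_i Y'_i,J(l)^(t_ji)`,
`u'_jl = ∑_i t_ji W'_i,K(l)` (`e = 1`), `u'_jl = w_(t_j),K l` (`e = 0`);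
the distances are `≤ exp(-T^Q1)` if `q ≥ Q1` (products of at most `N T^a` factors of size
`exp(±C)`). -/
def S_StA : Prop := ∀ (r m s e τ a Q1 : ℕ), e ≤ 1 → 1 ≤ r → s + e = τ + 1 → ∃ Q q : ℕ,
  1 ≤ q ∧ ∀ (φ : Fin m → Fin r → ℂ) (N : ℕ) (w : Fin N → Fin r → ℂ), TLe e τ φ w →
  ∃ T₀ : ℕ, ∀ T : ℕ, T₀ ≤ T → ∀ (h N' : ℕ), h < r → ∀ (K : Fin (h + 1) → Fin r)
    (c : Fin r → Fin (h + 1) → ℂ) (t : Fin N' → Fin N → ℤ)
    (J : Fin (s * (h + 1) + 1) → Fin m), IsNear T Q a w K c t →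
    ∃ (u' : Fin N' → Fin (h + 1) → ℂ) (y' : Fin N' → Fin (s * (h + 1) + 1) → ℂ)
      (p : (Fin (2 * τ + 4) → Ixr (h + 1) (s * (h + 1) + 1) ((T ^ (a + 1)) ^ (q * e))
        ((T ^ (a + 1)) ^ q)) → ℤ),
      (∀ j l, ‖u' j l - wt w (t j) (K l)‖ ≤ Real.exp (-((T : ℝ) ^ Q1))) ∧
      (∀ j l, ‖y' j l - Complex.exp (∑ k, φ (J l) k * wt w (t j) k)‖ ≤
        Real.exp (-((T : ℝ) ^ Q1))) ∧
      (∀ j l, y' j l ≠ 0) ∧ p ≠ 0 ∧
      ∀ sg : Fin (2 * τ + 4) → Fin N' → ℕ,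
        (∀ g i, sg g i ≤ 2 ^ ((s * (h + 1) + 1) + (h + 1)) * T) →
        ∑ x, (p x : ℂ) * ∏ g, evr (x g) (rpt u' y' (sg g)) = 0

/-- **StZ.** Tensor and zero estimate: the vanishing gives relations.
Proof. `GL.S_Tensor` with `κ = {s : Fin N' → ℕ // all s_i ≤ 2^(m'+h') T}` gives `r ≠ 0` with
`∑_x r_x evr x (rpt u' y' s) = 0` for all `s` in the box; `P = ∑ r_x X^x` is a non-zero polynomial
with all partial degrees `≤ T_h^q`, `T_h = T^(a+1)`; `FR.S_ZEr` (constants `c` for `(m', h')`) with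
`S = T`, `B = T_h^q`. `A`: `(2 T^((a+1) q))^c ≤ T^A` for `T ≥ 2`, `A = max over h < r of
((a+1) q + 1) c(h)`. See the end of FR/I_TIr.lean. -/
def S_StZ : Prop := ∀ (r s e τ a q : ℕ), e ≤ 1 → 1 ≤ q → ∃ A : ℕ, ∀ (T h N' : ℕ), 2 ≤ T → h < r →
  ∀ (u' : Fin N' → Fin (h + 1) → ℂ) (y' : Fin N' → Fin (s * (h + 1) + 1) → ℂ)
    (p : (Fin (2 * τ + 4) → Ixr (h + 1) (s * (h + 1) + 1) ((T ^ (a + 1)) ^ (q * e))
      ((T ^ (a + 1)) ^ q)) → ℤ), (∀ j l, y' j l ≠ 0) → p ≠ 0 →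
    (∀ sg : Fin (2 * τ + 4) → Fin N' → ℕ,
      (∀ g i, sg g i ≤ 2 ^ ((s * (h + 1) + 1) + (h + 1)) * T) →
        ∑ x, (p x : ℂ) * ∏ g, evr (x g) (rpt u' y' (sg g)) = 0) →
    (∃ W : Fin (s * (h + 1) + 1) → ℤ, W ≠ 0 ∧ (∀ l, |W l| ≤ ((T ^ A : ℕ) : ℤ)) ∧
      (T + 1) ^ N' ≤ T ^ A * cntY T y' W) ∨
    (∃ c' : Fin (h + 1) → ℂ, c' ≠ 0 ∧
      (T + 1) ^ N' ≤ T ^ A * cntL T (fun i => ∑ k, c' k * u' i k))

/-- **StB.** Multiplicative relations give a small form.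
Proof. Let `y_jl = exp(φ_(J l)·w_(t_j))`, `exp(-C T^a) ≤ |y_jl|`. So `y'_jl = y_jl exp(ρ_jl)`,
`|ρ_jl| ≤ 2 exp(C T^a) exp(-T^Q1) ≤ exp(-T^Q1/2)` (`ρ` = logarithm of `y'/y`, close to `1`). For
`s` in the set counted by `cntY`: `exp(∑_j s_j ∑_l W_l (φ_(J l)·w_(t_j) + ρ_jl)) = 1`, so
`∑_j s_j ψ·w_(t_j) = 2πi k_s - ∑_j s_j ∑_l W_l ρ_jl`, `ψ = ∑_l W_l φ_(J l)`, `|k_s| ≤ T^(A+a+2)/3`.
Pigeonhole: for one `k` there are at least `card/T^(A+a+3)` such `s`; subtract one of them,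
`s₀`: for the differences `s - s₀` (in the box `2T`) `‖ψ·w_(t_(s-s₀))‖ ≤ exp(-T^Q1/3)`. By
`IsNear T Q1`: `‖ψ·w_t - ∑_l ψ~_l w_t,(K l)‖ ≤ r T^(A+1) … exp(-T^Q1)`, `ψ~_l = ∑_k ψ_k c_kl`;
divide by `ψ~_l0`, `l0` with maximal `‖ψ~_l‖ ≥ T^(-b)`: `χ = ψ~/ψ~_l0`. `Q1 = max(Q2, a) + 1`,
`B = 2 A + a + 3`. -/
def S_StB : Prop := ∀ (r m s a Q2 : ℕ), ∃ Q1 : ℕ, Q2 ≤ Q1 ∧ ∀ A : ℕ, ∃ B : ℕ,
  ∀ (φ : Fin m → Fin r → ℂ) (b N : ℕ) (w : Fin N → Fin r → ℂ),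
  ∃ T₀ : ℕ, ∀ T : ℕ, T₀ ≤ T → ∀ (h N' : ℕ), h < r → ∀ (K : Fin (h + 1) → Fin r)
    (c : Fin r → Fin (h + 1) → ℂ) (t : Fin N' → Fin N → ℤ)
    (J : Fin (s * (h + 1) + 1) → Fin m), IsNear T Q1 a w K c t →
    ∀ y' : Fin N' → Fin (s * (h + 1) + 1) → ℂ,
    (∀ j l, ‖y' j l - Complex.exp (∑ k, φ (J l) k * wt w (t j) k)‖ ≤
      Real.exp (-((T : ℝ) ^ Q1))) → (∀ j l, y' j l ≠ 0) →
    ∀ W : Fin (s * (h + 1) + 1) → ℤ, (∀ l, |W l| ≤ ((T ^ A : ℕ) : ℤ)) →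
      (T + 1) ^ N' ≤ T ^ A * cntY T y' W →
      (∃ l, ((T : ℝ) ^ b)⁻¹ ≤ ‖∑ j, (W j : ℂ) * ∑ k, φ (J j) k * c k l‖) →
      SmallF T Q2 B w K t

/-- **StC.** Additive relations give a small form: normalise `c'` (divide by a coordinate of
maximal absolute value); for `s` counted by `cntL`,
`‖∑_k c'_k ∑_j s_j w_(t_j),K k‖ ≤ N' T (h+1) exp(-T^Q1)`. `Q1 = Q2 + 1`. -/
def S_StC : Prop := ∀ (r Q2 : ℕ), ∃ Q1 : ℕ, ∀ (N : ℕ) (w : Fin N → Fin r → ℂ),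
  ∃ T₀ : ℕ, ∀ T : ℕ, T₀ ≤ T → ∀ (A h N' : ℕ), h < r → N' ≤ N → ∀ (K : Fin (h + 1) → Fin r)
    (t : Fin N' → Fin N → ℤ) (u' : Fin N' → Fin (h + 1) → ℂ),
    (∀ j l, ‖u' j l - wt w (t j) (K l)‖ ≤ Real.exp (-((T : ℝ) ^ Q1))) →
    ∀ c' : Fin (h + 1) → ℂ, c' ≠ 0 →
      (T + 1) ^ N' ≤ T ^ A * cntL T (fun i => ∑ k, c' k * u' i k) → SmallF T Q2 A w K t

/-- **StD.** A small form lowers the dimension of the subspace.
Proof. If `N' ≤ κ` take `t` empty. Otherwise `GL.S_ManyInd` (`n := N'`, `S := 2T`,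
`r := N' - κ - 1`, `κ = B + 1`; `(4T+1)^(N'-κ-1) T^B < (T+1)^N'` for `T ≥ T₀(N)`) gives
independent `σ_i`, `i < N' - κ`, in the set of `SmallF`. `t'_i = ∑_j σ_ij t_j` (independent,
`|t'| ≤ 2 N T T^a ≤ T^(a+2)`), `K' = K ∘ l0.succAbove`,
`c'_kl = c_k,(l0.succAbove l) - χ_(l0.succAbove l) c_k,l0`, `‖c'‖ ≤ 2^(r-(h+1)) 2 = 2^(r-h)`,
`‖w_t'k - ∑_l c'_kl w_t',(K' l)‖ ≤ ‖w_t'k - ∑_l c_kl w_t',(K l)‖ + ‖c_k,l0‖ ‖∑_l χ_l w_t',(K l)‖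
≤ 2 N T exp(-T^Q2) + 2^r exp(-T^Q2)`. `Q2 = Q' + 1`. -/
def S_StD : Prop := ∀ (r a Q' : ℕ), ∃ Q2 : ℕ, ∀ B : ℕ, ∃ κ : ℕ, ∀ (N : ℕ)
  (w : Fin N → Fin r → ℂ), ∃ T₀ : ℕ, ∀ T : ℕ, T₀ ≤ T → ∀ (h N' : ℕ), h < r →
  ∀ (K : Fin (h + 1) → Fin r) (c : Fin r → Fin (h + 1) → ℂ) (t : Fin N' → Fin N → ℤ),
    IsNear T Q2 a w K c t → SmallF T Q2 B w K t → Near T Q' (a + 2) w h (N' - κ)

/-- **Step.** (from `S_SubJ`, `S_StA`, `S_StZ`, `S_StB`, `S_StC`, `S_StD`). Order of the choices: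
`Q'` → `Q2` (`StD`) → `Q1` (maximum of the ones of `StB`, `StC`) → `Q`, `q` (`StA`) → `A` (`StZ`) →
`B` (`StB`; `max B A`) → `κ` (`StD`). `IsNear` is monotone in `Q` (`T ≥ 1`), `SmallF` in `B`. -/
def S_Step : Prop := ∀ (r m s e τ a Q' : ℕ), e ≤ 1 → 1 ≤ r → s + e = τ + 1 → s * r < m →
  ∃ Q κ : ℕ, ∀ φ : Fin m → Fin r → ℂ, (∀ j k, IsAlgebraic ℚ (φ j k)) → Mn s φ →
  ∀ (N : ℕ) (w : Fin N → Fin r → ℂ), TLe e τ φ w → ∃ T₀ : ℕ, ∀ T : ℕ, T₀ ≤ T →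
  ∀ h N' : ℕ, h < r → Near T Q a w (h + 1) N' → Near T Q' (a + 2) w h (N' - κ)

/-- **Chain.** (from `S_Step`): start with `Near T Q 0 w r N` (`K = id`, `c = 1`, `t = 1`; any
`Q`), go down `r` times. By induction on `i`: for all `Q'` there are `Q`, `κ` such that
`Near T Q a w (h+i) N'` implies `Near T Q' (a+2i) w h (N'-κ)`. -/
def S_Chain : Prop := ∀ (r m s e τ Q' : ℕ), e ≤ 1 → 1 ≤ r → s + e = τ + 1 → s * r < m →
  ∃ κ : ℕ, ∀ φ : Fin m → Fin r → ℂ, (∀ j k, IsAlgebraic ℚ (φ j k)) → Mn s φ →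
  ∀ (N : ℕ) (w : Fin N → Fin r → ℂ), TLe e τ φ w → ∃ T₀ : ℕ, ∀ T : ℕ, T₀ ≤ T →
    Near T Q' (2 * r) w 0 (N - κ)

/-- **TISm.** (from `S_Chain`, `S_NO`). `Q'` = the exponent of `S_NO` for `a = 2r`. Take a large
`T`: the points `t_j`, `j < N - κ`, of `Near T Q' (2r) w 0 (N-κ)` satisfy
`‖w_(t_j) k‖ ≤ exp(-T^Q')` (`h = 0`: the sum over `Fin 0` is `0`), so `w_(t_j) = 0` by `S_NO`
(`TrLe τ` for the `e^(φ_j w_i)` follows from `TLe`: a subfamily). So the kernel of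
`ℚ^N → ℂ^r` (`t ↦ w_t`) has dimension `≥ N - κ`, and for `W` = a unit vector (`m ≥ 1`) the
numbers `∑_k φ_jk w_ik` have rank at most `κ`; contradiction with `RobP (κ+1)`.
(`τ ≤ s` as `s + e = τ + 1`, `e ≤ 1`.) -/
def S_TISm : Prop := ∀ (r m s e τ : ℕ), e ≤ 1 → 1 ≤ r → s + e = τ + 1 → s * r < m →
  ∃ κ : ℕ, ∀ φ : Fin m → Fin r → ℂ, (∀ j k, IsAlgebraic ℚ (φ j k)) → Mn s φ →
  ∀ (N : ℕ) (w : Fin N → Fin r → ℂ), RobP κ φ w → ¬ TLe e τ φ w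

/-- **TIS.** The transcendence theorem without hypothesis on the points (from `S_TISm`).
Proof. `s = τ + 1 - e`, so `r s < m`. Among the subspaces `U` of `ℂ^r` with
`s dim U < rkU φ U` (`⊤` is one: `rkU φ ⊤ = m`) take one of minimal dimension `r'`. `r' ≥ 1` as
`rkU φ ⊥ = 0` (`LinearIndependent ℚ φ`). The span of the `ψ_W = ∑ W_j φ_j`, `W` in the comap, is
contained in `U` and has the same `rkU`, so it is `U` by minimality. Choose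
`W_1, …, W_r'` integral with `ψ_(W_l)` a basis of `U`, and an integral basis
`W^(1), …, W^(m')` of the rational space `{W : ψ_W ∈ U}`, `m' = rkU φ U > s r'`; write
`ψ_(W^(j)) = ∑_l φ'_jl ψ_(W_l)`: the `φ'_jl` are algebraic (Cramer's rule, or: a linear system with
coefficients in the algebraically closed field of algebraic numbers which has a solution in `ℂ`,
unique). `w'_i = (ψ_(W_l)·w_i)_l`, so `φ'_j·w'_i = ψ_(W^(j))·w_i`,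
`e^(φ'_j·w'_i) = ∏_k (e^(φ_k·w_i))^(W^(j)_k)`: `TLe e τ φ w` implies `TLe e τ φ' w'`
(`GL.AlgOver`, `GL.S_TrCount`, `GL.S_TrBasis`). `Mn s φ'`: a proper `U'` of `ℂ^r'` corresponds to a
proper subspace `U''` of `U`, `rkU φ' U' ≤ rkU φ U'' ≤ s dim U''` by minimality. `RobP κ φ w` implies
`RobP κ φ' w'`. So `S_TISm` for `(r', m')` applies; `κ` = the maximum over `r' ≤ r`, `m' ≤ m`. -/
def S_TIS : Prop := ∀ (r m e τ : ℕ), e ≤ 1 → r * (τ + 1) < e * r + m →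
  ∃ κ : ℕ, ∀ φ : Fin m → Fin r → ℂ, (∀ j k, IsAlgebraic ℚ (φ j k)) → LinearIndependent ℚ φ →
  ∀ (N : ℕ) (w : Fin N → Fin r → ℂ), RobP κ φ w → ¬ TLe e τ φ w

end Pool.Agent.Work.MP_8da9ea_nt.SI
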