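import Mathlib
import Pool.Agent.Work.MP_8da9ea_nt.SI.Stmts

/-!
# Item Chain: going down `r` times
-/

set_option autoImplicit false

namespace Pool.Agent.Work.MP_8da9ea_nt.SI

open Pool.Agent.Work.MP_327059_nt.GL Pool.Agent.Work.MP_327059_nt.FR

/-- The start: the whole space. -/
theorem Chain_start {r N : ℕ} (T Q : ℕ) (w : Fin N → Fin r → ℂ) : Near T Q 0 w r N := by
  classical
  refine ⟨id, fun k l => if k = l then 1 else 0, fun j i => if i = j then 1 else 0, ?_, ?_, ?_, ?_⟩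
  · refine ⟨?_, ?_⟩
    · intro k l
      dsimp only
      rw [Nat.sub_self, pow_zero]
      split_ifs
      · simp
      · simp
    · intro l l'
      rfl
  · have h : (fun j : Fin N => (fun i : Fin N => (((if i = j then 1 else 0 : ℤ)) : ℚ))) =
        fun j : Fin N => (Pi.basisFun ℚ (Fin N)) j := by
      funext j i
      rw [Pi.basisFun_apply]
      by_cases hij : i = j
      · subst hij
        simp
      · simp [hij]
    rw [h]
    exact (Pi.basisFun ℚ (Fin N)).linearIndependent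
  · intro j i
    dsimp only
    rw [pow_zero]
    split_ifs
    · simp
    · simp
  · intro j k
    have h1 : ∑ l : Fin r, (if k = l then (1 : ℂ) else 0) *
        wt w (fun i => if i = j then 1 else 0) (id l) =
        wt w (fun i => if i = j then 1 else 0) k := by
      simp
    rw [h1, sub_self, norm_zero]
    exact (Real.exp_pos _).le

/-- `i` steps. -/
theorem Chain_steps (hS : S_Step) (r m s e τ : ℕ) (he : e ≤ 1) (hr : 1 ≤ r)
    (hst : s + e = τ + 1) (hm : s * r < m) (i : ℕ) : ∀ Q' : ℕ, ∃ κ : ℕ,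
    ∀ φ : Fin m → Fin r → ℂ, (∀ j k, IsAlgebraic ℚ (φ j k)) → Mn s φ →
    ∀ (N : ℕ) (w : Fin N → Fin r → ℂ), TLe e τ φ w → ∃ T₀ : ℕ, ∀ T : ℕ, T₀ ≤ T →
      ∀ h : ℕ, h + i = r → Near T Q' (2 * i) w h (N - κ) := by
  induction i with
  | zero =>
    intro Q'
    refine ⟨0, fun φ _ _ N w _ => ⟨0, fun T _ h hh => ?_⟩⟩
    rw [add_zero] at hh
    subst hh
    exact Chain_start T Q' w
  | succ i ih =>
    intro Q'
    obtain ⟨Q, κ2, h2⟩ := hS r m s e τ (2 * i) Q' he hr hst hm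
    obtain ⟨κ1, h1⟩ := ih Q
    refine ⟨κ1 + κ2, fun φ hφ hM N w hw => ?_⟩
    obtain ⟨T1, hT1⟩ := h1 φ hφ hM N w hw
    obtain ⟨T2, hT2⟩ := h2 φ hφ hM N w hw
    refine ⟨max T1 T2, fun T hT h hh => ?_⟩
    have a1 := hT1 T ((le_max_left _ _).trans hT) (h + 1) (by omega)
    have a2 := hT2 T ((le_max_right _ _).trans hT) h (N - κ1) (by omega) a1
    rw [Nat.sub_sub] at a2
    exact a2

theorem pr_Chain (hS : S_Step) : S_Chain := by
  intro r m s e τ Q' he hr hst hm
  obtain ⟨κ, hκ⟩ := Chain_steps hS r m s e τ he hr hst hm r Q'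
  refine ⟨κ, fun φ hφ hM N w hw => ?_⟩
  obtain ⟨T₀, hT₀⟩ := hκ φ hφ hM N w hw
  exact ⟨T₀, fun T hT => hT₀ T hT 0 (by omega)⟩

end Pool.Agent.Work.MP_8da9ea_nt.SI
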