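import Pool.Agent.Work.MP_8da9ea_nt.SI.Stmts2
import Pool.Agent.Work.MP_327059_nt.FR.CovR

/-!
# CoreS: the contradiction
-/

set_option autoImplicit false

namespace Pool.Agent.Work.MP_8da9ea_nt.SI

open Pool.Agent.Work.MP_327059_nt.GL Pool.Agent.Work.MP_327059_nt.FR

/-- Independence of the exponents. -/
theorem CoreS_LI {m r r' : ℕ} (b : Fin m → ℂ) (hb : LinearIndependent ℚ b)
    (J : Finset (Fin m)) (c : J → Fin m → ℂ)
    (hc : ∀ j j' : J, c j j' = if j = j' then 1 else 0) (g : Fin r → ℂ) (h : Fin r' → ℂ)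
    (hh : LinearIndependent ℚ h) (q : J → Fin r' → Fin m → Fin r → ℚ)
    (hq : ∀ j a k, h a * c j k = ∑ p, (q j a k p : ℂ) * g p) :
    LinearIndependent ℚ
      (fun ja : J × Fin r' => fun p => ∑ k, b k * (q ja.1 ja.2 k p : ℂ)) := by
  classical
  rw [Fintype.linearIndependent_iff]
  intro x hx
  have hp : ∀ p, ∀ k, ∑ ja : J × Fin r', x ja * q ja.1 ja.2 k p = 0 := by
    intro p
    rw [Fintype.linearIndependent_iff] at hb
    apply hb
    have h1 := congrFun hx p
    rw [Finset.sum_apply] at h1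
    simp only [Pi.smul_apply, Pi.zero_apply] at h1
    rw [← h1]
    simp only [Rat.smul_def, Finset.mul_sum]
    push_cast
    simp only [Finset.sum_mul]
    rw [Finset.sum_comm]
    exact Finset.sum_congr rfl fun ja _ => Finset.sum_congr rfl fun k _ => by ring
  rintro ⟨j, a⟩
  have h1 : ∑ a, x (j, a) • h a = 0 := by
    have h2 : ∑ ja : J × Fin r', (x ja : ℂ) * (h ja.2 * c ja.1 j) = 0 := by
      simp only [hq, Finset.mul_sum]
      rw [Finset.sum_comm]
      refine Finset.sum_eq_zero fun p _ => ?_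
      have h3 := hp p (j : Fin m)
      have h4 : ((∑ ja : J × Fin r', x ja * q ja.1 ja.2 j p : ℚ) : ℂ) = 0 := by
        rw [h3, Rat.cast_zero]
      push_cast at h4
      have h5 : ∑ ja : J × Fin r', (x ja : ℂ) *
          ((q ja.1 ja.2 j p : ℂ) * g p) =
          (∑ ja : J × Fin r', (x ja : ℂ) * (q ja.1 ja.2 j p : ℂ)) * g p := by
        rw [Finset.sum_mul]
        exact Finset.sum_congr rfl fun ja _ => by ring
      rw [h5, h4, zero_mul]
    rw [Fintype.sum_prod_type, Finset.sum_eq_single j] at h2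
    · rw [← h2]
      refine Finset.sum_congr rfl fun a _ => ?_
      rw [hc, if_pos rfl, mul_one, Rat.smul_def]
    · intro j' _ hj'
      refine Finset.sum_eq_zero fun a _ => ?_
      rw [hc, if_neg hj', mul_zero, mul_zero]
    · intro h3
      exact absurd (Finset.mem_univ j) h3
  exact (Fintype.linearIndependent_iff.1 hh) (fun a => x (j, a)) h1 a

theorem pr_CoreS (h1 : S_FunD) (h2 : S_RobA) (h3 : S_TIS) (h4 : S_TrCount) : S_CoreS := by
  classical
  intro δ m s r r' hr hrr
  have hn1' : ∃ n1 : ℕ, 1 ≤ s → ∀ φ : Fin (s * r') → Fin r → ℂ,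
      (∀ j k, IsAlgebraic ℚ (φ j k)) → LinearIndependent ℚ φ →
      ∀ (N : ℕ) (w : Fin N → Fin r → ℂ), RobP n1 φ w → ¬ TLe 1 (s - 1) φ w := by
    by_cases hs : 1 ≤ s
    · obtain ⟨n1, hn1⟩ := h3 r (s * r') 1 (s - 1) le_rfl (by
        have h8 : s - 1 + 1 = s := by omega
        rw [h8]
        nlinarith)
      exact ⟨n1, fun _ => hn1⟩
    · exact ⟨0, fun h => absurd h hs⟩
  have hn2' : ∃ n2 : ℕ, 2 ≤ s → ∀ φ : Fin (s * r') → Fin r → ℂ,
      (∀ j k, IsAlgebraic ℚ (φ j k)) → LinearIndependent ℚ φ →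
      ∀ (N : ℕ) (w : Fin N → Fin r → ℂ), RobP n2 φ w → ¬ TLe 0 (s - 2) φ w := by
    by_cases hs : 2 ≤ s
    · obtain ⟨n2, hn2⟩ := h3 r (s * r') 0 (s - 2) (Nat.zero_le 1) (by
        obtain ⟨s', rfl⟩ : ∃ s', s = s' + 2 := ⟨s - 2, by omega⟩
        have h8 : s' + 2 - 2 + 1 = s' + 1 := by omega
        rw [h8]
        nlinarith)
      exact ⟨n2, fun _ => hn2⟩
    · exact ⟨0, fun h => absurd h hs⟩
  obtain ⟨n1, hn1⟩ := hn1'
  obtain ⟨n2, hn2⟩ := hn2'
  refine ⟨δ * (n1 + n2), ?_⟩
  intro n b x v k0 f G J c g h q hn hba hb hδ hv hx hG hJ hc hξ hg hh hq halt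
  let Z : Submodule ℚ ℂ := Submodule.span ℚ (Set.range fun q : Fin r × Fin n => g q.1 * v q.2)
  obtain ⟨N, μ, hμ⟩ := h1 Z (FiniteDimensional.span_of_finite ℚ (Set.finite_range _))
  have hcard : Fintype.card (J × Fin r') = s * r' := by
    rw [Fintype.card_prod, Fintype.card_fin, Fintype.card_coe, hJ]
  let e : Fin (s * r') ≃ (J × Fin r') := (Fintype.equivFinOfCardEq hcard).symm
  let Φ : J × Fin r' → Fin r → ℂ := fun ja : J × Fin r' => fun p => ∑ k, b k * (q ja.1 ja.2 k p : ℂ)
  let φ : Fin (s * r') → Fin r → ℂ := fun y => Φ (e y)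
  let w : Fin N → Fin r → ℂ := fun i k => ∑ a, (μ i (g k * v a) : ℂ) * x a
  have hΦa : ∀ y k, IsAlgebraic ℚ (Φ y k) := by
    rintro ⟨j, a⟩ k
    change IsAlgebraic ℚ (∑ k', b k' * (q j a k' k : ℂ))
    refine (mem_algebraicClosure_iff (F := ℚ) (E := ℂ)).1 (sum_mem fun k' _ => ?_)
    exact mem_algebraicClosure_iff.2 ((hba k').mul (isAlgebraic_ratCast ℚ _))
  have hφi : LinearIndependent ℚ φ :=
    (CoreS_LI b hb J c hc g h hh q hq).comp e e.injective
  -- robust independence
  have hrob : ∀ κ : ℕ, κ ≤ n1 + n2 → RobP κ φ w := by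
    intro κ hκ W hW
    let W' : J × Fin r' → ℚ := fun ja => W (e.symm ja)
    let H : Fin m → ℂ := fun k => ∑ ja : J × Fin r', (W' ja : ℂ) * (h ja.2 * c ja.1 k)
    have hH0 : H ≠ 0 := by
      intro h0
      apply hW
      funext y
      have h5 : ∑ a, W' ((e y).1, a) • h a = 0 := by
        have h6 : H ((e y).1 : Fin m) = 0 := congrFun h0 _
        change ∑ ja : J × Fin r', (W' ja : ℂ) * (h ja.2 * c ja.1 ((e y).1 : Fin m)) = 0 at h6
        rw [Fintype.sum_prod_type, Finset.sum_eq_single (e y).1] at h6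
        · rw [← h6]
          refine Finset.sum_congr rfl fun a _ => ?_
          rw [hc, if_pos rfl, mul_one, Rat.smul_def]
        · intro j' _ hj'
          refine Finset.sum_eq_zero fun a _ => ?_
          rw [hc, if_neg hj', mul_zero, mul_zero]
        · intro h7
          exact absurd (Finset.mem_univ _) h7
      have h6 := (Fintype.linearIndependent_iff.1 hh) (fun a => W' ((e y).1, a)) h5 (e y).2
      change W (e.symm ((e y).1, (e y).2)) = 0 at h6
      rwa [Prod.mk.eta, Equiv.symm_apply_apply] at h6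
    have hHq : ∀ k, H k = ∑ p, ((∑ ja : J × Fin r', W' ja * q ja.1 ja.2 k p : ℚ) : ℂ) * g p := by
      intro k
      change ∑ ja : J × Fin r', (W' ja : ℂ) * (h ja.2 * c ja.1 k) = _
      simp only [hq, Finset.mul_sum]
      rw [Finset.sum_comm]
      refine Finset.sum_congr rfl fun p _ => ?_
      push_cast
      rw [Finset.sum_mul]
      exact Finset.sum_congr rfl fun ja _ => by ring
    have hHZ : ∀ k a, H k * v a ∈ Z := by
      intro k a
      rw [hHq, Finset.sum_mul]
      refine Submodule.sum_mem _ fun p _ => ?_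
      have h5 : ((∑ ja : J × Fin r', W' ja * q ja.1 ja.2 k p : ℚ) : ℂ) * g p * v a =
          (∑ ja : J × Fin r', W' ja * q ja.1 ja.2 k p : ℚ) • (g p * v a) := by
        rw [Rat.smul_def, mul_assoc]
      rw [h5]
      exact Submodule.smul_mem _ _ (Submodule.subset_span ⟨(p, a), rfl⟩)
    have h5 := h2 n m δ N b x v H μ Z hba hb hx hv hH0 hHZ hμ hδ
    have h6 : (fun i => ∑ k, ∑ a, b k * x a * (μ i (H k * v a) : ℂ)) =
        fun i => ∑ k, (∑ j, (W j : ℂ) * φ j k) * w i k := by
      funext i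
      have h7 : ∀ k a, (μ i (H k * v a) : ℂ) =
          ∑ p, (∑ ja : J × Fin r', (W' ja : ℂ) * (q ja.1 ja.2 k p : ℂ)) * (μ i (g p * v a) : ℂ) := by
        intro k a
        have h8 : H k * v a = ∑ p, (∑ ja : J × Fin r', W' ja * q ja.1 ja.2 k p : ℚ) •
            (g p * v a) := by
          rw [hHq, Finset.sum_mul]
          exact Finset.sum_congr rfl fun p _ => by rw [Rat.smul_def, mul_assoc]
        rw [h8, map_sum]
        push_cast
        refine Finset.sum_congr rfl fun p _ => ?_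
        rw [map_smul, smul_eq_mul]
        push_cast
        rfl
      have h9 : ∀ p, ∑ j, (W j : ℂ) * φ j p = ∑ ja : J × Fin r', (W' ja : ℂ) *
          ∑ k, b k * (q ja.1 ja.2 k p : ℂ) := by
        intro p
        rw [← Equiv.sum_comp e]
        refine Finset.sum_congr rfl fun y _ => ?_
        change _ = (W (e.symm (e y)) : ℂ) * _
        rw [Equiv.symm_apply_apply]
      simp only [h7, h9]
      change _ = ∑ p, (∑ ja : J × Fin r', (W' ja : ℂ) * ∑ k, b k * (q ja.1 ja.2 k p : ℂ)) *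
        ∑ a, (μ i (g p * v a) : ℂ) * x a
      have e1 : ∀ p, (∑ ja : J × Fin r', (W' ja : ℂ) * ∑ k, b k * (q ja.1 ja.2 k p : ℂ)) *
        ∑ a, (μ i (g p * v a) : ℂ) * x a = ∑ k, ∑ a, b k * x a *
          ((∑ ja : J × Fin r', (W' ja : ℂ) * (q ja.1 ja.2 k p : ℂ)) * (μ i (g p * v a) : ℂ)) := by
        intro p
        have e2 : (∑ ja : J × Fin r', (W' ja : ℂ) * ∑ k, b k * (q ja.1 ja.2 k p : ℂ)) =
            ∑ k, b k * ∑ ja : J × Fin r', (W' ja : ℂ) * (q ja.1 ja.2 k p : ℂ) := by
          simp only [Finset.mul_sum]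
          rw [Finset.sum_comm]
          exact Finset.sum_congr rfl fun k _ => Finset.sum_congr rfl fun ja _ => by ring
        rw [e2, Finset.sum_mul]
        refine Finset.sum_congr rfl fun k _ => ?_
        rw [Finset.mul_sum]
        exact Finset.sum_congr rfl fun a _ => by ring
      refine Eq.trans ?_ (Finset.sum_congr rfl fun p (_ : p ∈ Finset.univ) => (e1 p).symm)
      refine Eq.trans ?_ Finset.sum_comm
      refine Finset.sum_congr rfl fun k _ => ?_
      refine Eq.trans ?_ Finset.sum_comm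
      refine Finset.sum_congr rfl fun a _ => ?_
      rw [Finset.mul_sum]
    rw [h6] at h5
    by_contra hcon
    push Not at hcon
    have h7 : δ * Module.finrank ℚ (Submodule.span ℚ
        (Set.range fun i => ∑ k, (∑ j, (W j : ℂ) * φ j k) * w i k)) + δ ≤ δ * (n1 + n2) := by
      rw [← Nat.mul_succ]
      exact Nat.mul_le_mul_left _ (by omega)
    have h8 : 0 < δ := by
      have h9 : 0 < Module.finrank ℚ (IntermediateField.adjoin ℚ (Set.range b)) := by
        have : FiniteDimensional ℚ (IntermediateField.adjoin ℚ (Set.range b)) := by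
          refine IntermediateField.finiteDimensional_adjoin ?_
          rintro _ ⟨k, rfl⟩
          exact (hba k).isIntegral
        exact Module.finrank_pos
      omega
    omega
  have hey : ∀ i y, AlgOver f (ey φ w i y) := by
    intro i y
    exact CovR_exp b x v f G hG J c hξ g h q hq (μ i) (e y).1 (e y).2
  rcases halt with ⟨hli, hk0⟩ | hk0
  · refine hn1 (by omega) φ (fun x k => hΦa _ k) hφi N w (hrob n1 (by omega)) (Or.inl ⟨rfl, ?_⟩)
    refine CovR_TrLe h4 f _ ?_ (by omega)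
    rintro (⟨i, k⟩ | ⟨i, y⟩)
    · exact CovR_sum f _ x hli
    · exact hey i y
  · refine hn2 (by omega) φ (fun x k => hΦa _ k) hφi N w (hrob n2 (by omega)) (Or.inr ⟨rfl, ?_⟩)
    exact CovR_TrLe h4 f _ (fun x => hey x.1 x.2) (by omega)

end Pool.Agent.Work.MP_8da9ea_nt.SI
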