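import Pool.Agent.Work.MP_8da9ea_nt.SI.Stmts2
import Pool.Agent.Work.MP_327059_nt.FR.CovR
import Pool.Agent.Work.MP_8da9ea_nt.Der

/-!
# CovS: covering by proper subspaces
-/

set_option autoImplicit false

namespace Pool.Agent.Work.MP_8da9ea_nt.SI

open Pool.Agent.ED Pool.Agent.Work.MP_327059_nt.GL Pool.Agent.Work.MP_327059_nt.FR

/-- If `Sch b z` fails, no `m` of the numbers `z`, `e^(b_j z)` are algebraically independent. -/
theorem CovS_sch {m : ℕ} (b : Fin m → ℂ) (hba : ∀ k, IsAlgebraic ℚ (b k))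
    (hb0 : ∀ k, b k ≠ 0) (z : ℂ) (hz : ¬ S.Sch b z) (s : Fin m → Option (Fin m)) :
    ¬ AlgebraicIndependent ℚ (fun i => ((s i).elim z (fun j => Complex.exp (b j * z)) : ℂ)) := by
  classical
  intro hai
  apply hz
  -- the new family
  let F : Fin m ⊕ Fin m → ℂ :=
    fun q => Sum.elim (fun j => b j * z) (fun j => Complex.exp (b j * z)) q
  obtain ⟨t, ht, hrank⟩ := exists_finset_rank (K := ℚ) F
  have hD : ∀ a : Fin m, ∃ D : Derivation ℚ ℂ ℂ, ∀ i,
      D ((s i).elim z (fun j => Complex.exp (b j * z))) = if a = i then 1 else 0 :=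
    fun a => exists_derivation hai _
  choose D hD using hD
  let s' : Fin m → Fin m ⊕ Fin m := fun i => (s i).elim (Sum.inl i) Sum.inr
  have hDb : ∀ (E : Derivation ℚ ℂ ℂ) (j : Fin m), E (b j * z) = b j * E z := by
    intro E j
    have h1 : E (b j) = 0 := by
      refine der_zero_alg (K := ℚ) (⊥ : IntermediateField ℚ ℂ) E ?_ (b j)
        ((hba j).extendScalars (algebraMap ℚ (⊥ : IntermediateField ℚ ℂ)).injective)
      intro y hy
      obtain ⟨q, rfl⟩ := IntermediateField.mem_bot.1 hy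
      exact E.map_algebraMap q
    rw [Derivation.leibniz, h1, smul_zero, add_zero, smul_eq_mul]
  have hli : LinearIndependent ℂ (fun a : Fin m => (fun q => D a (F q))) := by
    rw [Fintype.linearIndependent_iff]
    intro c hc i
    have h1 := congrFun hc (s' i)
    rw [Finset.sum_apply] at h1
    simp only [Pi.smul_apply, smul_eq_mul, Pi.zero_apply] at h1
    have h2 : ∃ e : ℂ, e ≠ 0 ∧ ∀ a, D a (F (s' i)) = e * if a = i then 1 else 0 := by
      cases hs : s i with
      | none =>
        refine ⟨b i, hb0 i, fun a => ?_⟩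
        have h3 := hD a i
        rw [hs] at h3
        change D a (F ((s i).elim (Sum.inl i) Sum.inr)) = _
        rw [hs]
        change D a (b i * z) = _
        rw [hDb, ← h3]
        rfl
      | some j =>
        refine ⟨1, one_ne_zero, fun a => ?_⟩
        have h3 := hD a i
        rw [hs] at h3
        change D a (F ((s i).elim (Sum.inl i) Sum.inr)) = _
        rw [hs, one_mul, ← h3]
        rfl
    obtain ⟨e, he, h3⟩ := h2
    simp only [h3] at h1
    rw [Finset.sum_eq_single i] at h1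
    · rw [if_pos rfl, mul_one] at h1
      exact (mul_eq_zero.1 h1).resolve_right he
    · intro a _ ha
      rw [if_neg ha, mul_zero, mul_zero]
    · intro h4
      exact absurd (Finset.mem_univ i) h4
  have hcard : m ≤ t.card := by
    rw [← hrank]
    have h1 : Submodule.span ℂ (Set.range fun a : Fin m => (fun q => D a (F q))) ≤
        Submodule.span ℂ (Set.range fun X : Derivation ℚ ℂ ℂ => fun i => X (F i)) := by
      refine Submodule.span_mono ?_
      rintro _ ⟨a, rfl⟩
      exact ⟨D a, rfl⟩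
    have h2 := Submodule.finrank_mono h1
    rw [finrank_span_eq_card hli, Fintype.card_fin] at h2
    exact h2
  have h0 : Fintype.card (Fin m) ≤ Fintype.card t := by
    rw [Fintype.card_fin, Fintype.card_coe]
    exact hcard
  obtain ⟨e⟩ := Function.Embedding.nonempty_of_card_le h0
  exact ⟨fun i => (e i : Fin m ⊕ Fin m), ht.comp e e.injective⟩

/-- Algebraic numbers are in the range of every embedding of `ℂ`. -/
theorem CovS_range (ι : ℂ →+* ℂ) (z : ℂ) (hz : IsAlgebraic ℚ z) : ∃ y, ι y = z := by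
  obtain ⟨p, hp, hpz⟩ := hz
  have h1 : (p.map (algebraMap ℚ ℂ)).Splits := IsAlgClosed.splits _
  have h2 : p.map (algebraMap ℚ ℂ) ≠ 0 := (Polynomial.map_ne_zero_iff (algebraMap ℚ ℂ).injective).2 hp
  have h3 : z ∈ (p.map (algebraMap ℚ ℂ)).roots := by
    rw [Polynomial.mem_roots h2, Polynomial.IsRoot.def, Polynomial.eval_map_algebraMap]
    exact hpz
  have h4 : (p.map (algebraMap ℚ ℂ)).map ι = p.map (algebraMap ℚ ℂ) := by
    rw [Polynomial.map_map]
    congr 1
    exact Subsingleton.elim _ _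
  have h5 := h1.roots_map ι
  rw [h4] at h5
  rw [h5] at h3
  obtain ⟨y, _, hy⟩ := Multiset.mem_map.1 h3
  exact ⟨y, hy⟩

theorem pr_CovS (h1 : S_UPC2) (h2 : S_Ax22) (h3 : S_Lin2) (h4 : S_Grow) (h5 : S_CoreS) :
    S_CovS := by
  classical
  intro m δ
  choose D1 hD1 using fun s => h4 (m * m) s
  have hcore : ∀ s r r' : ℕ, ∃ n₀ : ℕ, 1 ≤ r → s * r < s * r' + r → CovPS δ m s r r' n₀ := by
    intro s r r'
    by_cases h : 1 ≤ r ∧ s * r < s * r' + r
    · obtain ⟨n₀, hn₀⟩ := h5 δ m s r r' h.1 h.2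
      exact ⟨n₀, fun _ _ => hn₀⟩
    · exact ⟨0, fun a b => absurd ⟨a, b⟩ h⟩
  choose n0 hn0 using hcore
  refine ⟨∑ s ∈ Finset.range (m + 1), ∑ r ∈ Finset.range (D1 s + 1),
    ∑ r' ∈ Finset.range (D1 s + 1), n0 s r r', ?_⟩
  intro b hba hb hδ n hn x hx
  by_contra hcov
  push Not at hcov
  obtain ⟨ι, xd, v, a, hNS⟩ := h1 n m x b (by omega) (by
    intro T hT
    obtain ⟨t, ht, ht'⟩ := hcov T hT
    exact ⟨t, ht', fun s => CovS_sch b hba (fun k => hb.ne_zero k) _ ht s⟩)
  obtain ⟨G, k0, f, hf, hG, hk0, halt⟩ := h2 n m x b ι xd v a hNS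
  obtain ⟨J, c, hJ, hc, hξ⟩ := h3 n m G v
  have hvι : ∀ c : Fin n → ℂ, ∑ i, v i * ι (c i) = 0 → c = 0 := hNS.2.2.1
  have hv : ∀ c : Fin n → ℂ, (∀ i, IsAlgebraic ℚ (c i)) → ∑ i, v i * c i = 0 → c = 0 := by
    intro c hc h8
    choose y hy using fun i => CovS_range ι (c i) (hc i)
    have h9 := hvι y (by simp only [hy]; exact h8)
    funext i
    rw [← hy, congrFun h9 i]
    exact map_zero ι
  let tt : Fin m × Fin m → ℂ := fun jk => if h : jk.1 ∈ J then c ⟨jk.1, h⟩ jk.2 else 0
  let t : Fin (m * m) → ℂ := fun q => tt (finProdFinEquiv.symm q)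
  have ht : ∀ (j : J) (k : Fin m), t (finProdFinEquiv ((j : Fin m), k)) = c j k := by
    intro j k
    change tt (finProdFinEquiv.symm (finProdFinEquiv ((j : Fin m), k))) = _
    rw [Equiv.symm_apply_apply]
    change (if h : (j : Fin m) ∈ J then c ⟨(j : Fin m), h⟩ k else 0) = _
    rw [dif_pos j.2]
  obtain ⟨D, hD1', hD2, hD3, hD4⟩ := hD1 J.card t
  have hfin := hD3
  have hfin0 : FiniteDimensional ℚ (AD t D) :=
    Submodule.finiteDimensional_of_le (CovR_AD_mono t D)
  have hrr' : Module.finrank ℚ (AD t D) ≤ Module.finrank ℚ (AD t (D + 1)) :=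
    Submodule.finrank_mono (CovR_AD_mono t D)
  have hr1 : 1 ≤ Module.finrank ℚ (AD t (D + 1)) := by
    by_contra h8
    have h9 : Module.finrank ℚ (AD t (D + 1)) = 0 := by omega
    have h10 : Module.finrank ℚ (AD t D) = 0 := by omega
    rw [h9, h10] at hD4
    omega
  have hJm : J.card ≤ m := by omega
  have hP := hn0 J.card _ _ hr1 hD4
  set r := Module.finrank ℚ (AD t (D + 1)) with hr
  set r' := Module.finrank ℚ (AD t D) with hr'
  let B := Module.finBasis ℚ (AD t (D + 1))
  let B' := Module.finBasis ℚ (AD t D)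
  let g : Fin r → ℂ := fun i => (B i : ℂ)
  let h : Fin r' → ℂ := fun i => (B' i : ℂ)
  have hg : LinearIndependent ℚ g :=
    B.linearIndependent.map' (Submodule.subtype _) (Submodule.ker_subtype _)
  have hh : LinearIndependent ℚ h :=
    B'.linearIndependent.map' (Submodule.subtype _) (Submodule.ker_subtype _)
  have hmem : ∀ (j : J) (a : Fin r') (k : Fin m), h a * c j k ∈ AD t (D + 1) := by
    intro j a k
    rw [← ht j k]
    exact CovR_AD_mul t D _ (B' a).2
  let q : J → Fin r' → Fin m → Fin r → ℚ := fun j a k p => B.repr ⟨h a * c j k, hmem j a k⟩ p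
  have hq : ∀ j a k, h a * c j k = ∑ p, (q j a k p : ℂ) * g p := by
    intro j a k
    have h8 := congrArg (Submodule.subtype _) (B.sum_repr ⟨h a * c j k, hmem j a k⟩)
    rw [map_sum] at h8
    change _ = h a * c j k at h8
    rw [← h8]
    refine Finset.sum_congr rfl fun p _ => ?_
    rw [map_smul, Rat.smul_def]
    rfl
  refine hP n b x v k0 f G J c g h q ?_ hba hb hδ hv hx hG rfl hc hξ hg hh hq ?_
  · refine le_trans ?_ hn.le
    refine le_trans ?_ (Finset.single_le_sum (fun _ _ => Nat.zero_le _)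
      (Finset.mem_range.2 (show J.card < m + 1 by omega)))
    refine le_trans ?_ (Finset.single_le_sum (fun _ _ => Nat.zero_le _)
      (Finset.mem_range.2 (show r < D1 J.card + 1 by omega)))
    exact Finset.single_le_sum (f := fun r' => n0 J.card r r') (fun _ _ => Nat.zero_le _)
      (Finset.mem_range.2 (show r' < D1 J.card + 1 by omega))
  · rcases halt with h8 | h8
    · exact Or.inl ⟨h8, by omega⟩
    · exact Or.inr (by omega)

end Pool.Agent.Work.MP_8da9ea_nt.SI
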