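import Mathlib
import Pool.Agent.Work.MP_327059_nt.GL.Asm
import Pool.Agent.Work.MP_8da9ea_nt.SI.Defs

/-!
# PROJECT SI, part C: the criterion of algebraic independence with separate degree and height
-/

set_option autoImplicit false

namespace Pool.Agent.Work.MP_8da9ea_nt.SI

open MvPolynomial Pool.Agent.Work.MP_327059_nt.GL

namespace CritE

/-- One step of the descent, degree `X`, height `η X`. -/
def S_CStep0E : Prop := ∀ (σ : Type) [Fintype σ] (k : ℕ) (θ : σ → ℂ) (c : ℝ), 1 ≤ c →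
  ∃ c' : ℝ, 1 ≤ c' ∧ ∀ (F : MvPolynomial (Fin (k + 1) × Option σ) ℤ)
    (u : Fin (k + 1) → Option σ → ℂ) (ζ : Option σ → ℂ), Dat F u ζ → Inv0 F →
    ∀ (X : ℕ) (V ρ η : ℝ), 1 ≤ X → 3 ≤ ρ → 1 ≤ η →
      ρ * (X : ℝ) ^ (k + 1) * (Real.log (len F) + c' * η * F.totalDegree) ≤ V →
      lenC (th θ F) ≤
        Real.exp (-(ρ * (X : ℝ) ^ (k + 1) * (Real.log (len F) + c' * η * F.totalDegree))) →
      ∀ P : MvPolynomial (Option σ) ℤ, P.IsHomogeneous X → len P ≤ Real.exp (η * X) →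
        ‖aeval (hat θ) P‖ ≤ Real.exp (-V) → aeval ζ P ≠ 0 →
        1 ≤ k ∧ ∃ (G : MvPolynomial (Fin k × Option σ) ℤ) (w : Fin k → Option σ → ℂ)
          (ζ' : Option σ → ℂ), Dat G w ζ' ∧
          (X : ℝ) ^ k * (Real.log (len G) + c * η * G.totalDegree) ≤
            (X : ℝ) ^ (k + 1) * (Real.log (len F) + c' * η * F.totalDegree) ∧
          lenC (th θ G) ≤
            Real.exp (-((ρ - 2) * (X : ℝ) ^ k * (Real.log (len G) + c * η * G.totalDegree)))

/-- One step of the descent, any group of variables. -/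
def S_CStepE : Prop := ∀ (σ : Type) [Fintype σ] (k : ℕ) (θ : σ → ℂ) (c : ℝ), 1 ≤ c →
  ∃ c' : ℝ, 1 ≤ c' ∧ ∀ (F : MvPolynomial (Fin (k + 1) × Option σ) ℤ)
    (u : Fin (k + 1) → Option σ → ℂ) (ζ : Option σ → ℂ), Dat F u ζ →
    ∀ (X : ℕ) (V ρ η : ℝ), 1 ≤ X → 3 ≤ ρ → 1 ≤ η →
      ρ * (X : ℝ) ^ (k + 1) * (Real.log (len F) + c' * η * F.totalDegree) ≤ V →
      lenC (th θ F) ≤
        Real.exp (-(ρ * (X : ℝ) ^ (k + 1) * (Real.log (len F) + c' * η * F.totalDegree))) →
      ∀ P : MvPolynomial (Option σ) ℤ, P.IsHomogeneous X → len P ≤ Real.exp (η * X) →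
        ‖aeval (hat θ) P‖ ≤ Real.exp (-V) → aeval ζ P ≠ 0 →
        1 ≤ k ∧ ∃ (G : MvPolynomial (Fin k × Option σ) ℤ) (w : Fin k → Option σ → ℂ)
          (ζ' : Option σ → ℂ), Dat G w ζ' ∧
          (X : ℝ) ^ k * (Real.log (len G) + c * η * G.totalDegree) ≤
            (X : ℝ) ^ (k + 1) * (Real.log (len F) + c' * η * F.totalDegree) ∧
          lenC (th θ G) ≤
            Real.exp (-((ρ - 2) * (X : ℝ) ^ k * (Real.log (len G) + c * η * G.totalDegree)))

/-- The descent. -/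
def S_DescE : Prop := ∀ (σ : Type) [Fintype σ] (k : ℕ) (θ : σ → ℂ),
  ∃ c : ℝ, 1 ≤ c ∧ ∀ (F : MvPolynomial (Fin (k + 1) × Option σ) ℤ)
    (u : Fin (k + 1) → Option σ → ℂ) (ζ : Option σ → ℂ), Dat F u ζ →
    ∀ (X : ℕ) (V ρ η : ℝ), 1 ≤ X → 2 * (k : ℝ) + 3 ≤ ρ → 1 ≤ η →
      ρ * (X : ℝ) ^ (k + 1) * (Real.log (len F) + c * η * F.totalDegree) ≤ V →
      lenC (th θ F) ≤
        Real.exp (-(ρ * (X : ℝ) ^ (k + 1) * (Real.log (len F) + c * η * F.totalDegree))) →
      ∀ PP : Set (MvPolynomial (Option σ) ℤ),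
        (∀ P ∈ PP, P.IsHomogeneous X ∧ len P ≤ Real.exp (η * X) ∧
          ‖aeval (hat θ) P‖ ≤ Real.exp (-V)) →
        ∃ (k' : ℕ) (G : MvPolynomial (Fin (k' + 1) × Option σ) ℤ)
          (w : Fin (k' + 1) → Option σ → ℂ) (ζ' : Option σ → ℂ), Dat G w ζ' ∧ k' ≤ k ∧
          (∀ P ∈ PP, aeval ζ' P = 0) ∧
          lenC (th θ G) ≤
            Real.exp (-((ρ - 2 * k) * (X : ℝ) ^ (k' + 1) * (η * G.totalDegree)))

theorem pr_CStep0E (h1 : S_Spec0) (h2 : S_StepAlg) (h3 : S_MetH) (h4 : S_MetTh) (h5 : S_Pick)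
    (h6 : S_LenEv) (h7 : S_ThEv) : S_CStep0E := by
  classical
  obtain ⟨-, -, hLE3, -⟩ := h6
  intro σ _ k θ c hc
  obtain ⟨B3, hB3, h3⟩ := h3 (Option σ) k
  obtain ⟨B4, hB4, h4⟩ := h4 σ k θ
  obtain ⟨B2, hB2, h5⟩ := h5 σ k
  set B1 : ℝ := max B3 B4 with hB1def
  have hB1 : 1 ≤ B1 := hB3.trans (le_max_left _ _)
  have hb0 : 0 ≤ Real.log B1 := Real.log_nonneg hB1
  set b : ℝ := Real.log B1 with hb
  refine ⟨1 + b + c + B2, by linarith, ?_⟩
  set c' : ℝ := 1 + b + c + B2 with hc'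
  intro F u ζ hDat hInv X V ρ η hX hρ hη hV hF P hP hlenP hPV hζP
  set D : ℕ := F.totalDegree with hD
  have hD1 : 1 ≤ D := by
    obtain ⟨j, hj⟩ := hInv
    have : F.degreeOf (0, j) ≤ F.totalDegree := degreeOf_le_totalDegree F (0, j)
    omega
  have hF0 : F ≠ 0 := hDat.1.ne_zero
  have hlenF : 1 ≤ len F := hLE3 _ F hF0
  set lam : ℝ := Real.log (len F) with hlam
  have hlam0 : 0 ≤ lam := Real.log_nonneg hlenF
  have hP0 : P ≠ 0 := by
    rintro rfl; simp at hζP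
  have hlenP1 : 1 ≤ len P := hLE3 _ P hP0
  obtain ⟨d, hdD, hd1, hS⟩ := h1 (Option σ) k F u ζ hDat
  have hd1 := hd1 hInv
  obtain ⟨H, hH0, hH⟩ := hS X P hP
  have hH0 := hH0 hζP
  have hRel : Rel F H P X d := by
    intro w
    obtain ⟨a, ξ, -, h2, h3⟩ := hH w
    exact ⟨a, ξ, h2, h3⟩
  have hlenH1 : 1 ≤ len H := hLE3 _ H hH0
  obtain ⟨hdegH, hlenH⟩ := h3 F H P X d hRel hP hdD
  have hXr : (1 : ℝ) ≤ X := by exact_mod_cast hX
  have hDr : (1 : ℝ) ≤ D := by exact_mod_cast hD1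
  have hdDr : (d : ℝ) ≤ D := by exact_mod_cast hdD
  have hXk : (1 : ℝ) ≤ (X : ℝ) ^ k := one_le_pow₀ hXr
  have hη0 : 0 < η := by linarith
  have hDη : (1 : ℝ) ≤ η * D := one_le_mul_of_one_le_of_one_le hη hDr
  have hDDη : (D : ℝ) ≤ η * D := le_mul_of_one_le_left (by linarith) hη
  -- the common bound
  have hexp : ∀ B : ℝ, 1 ≤ B → B ≤ B1 →
      B ^ (X * D) * len F ^ X * len P ^ d ≤ Real.exp (X * (lam + (1 + b) * (η * D))) := by
    intro B hB hBB
    have e1 : B ^ (X * D) ≤ Real.exp (b * (X * D)) := by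
      have : Real.exp (b * (X * D)) = B1 ^ (X * D) := by
        rw [hb, mul_comm, ← Nat.cast_mul, Real.exp_nat_mul, Real.exp_log (by linarith)]
      rw [this]
      exact pow_le_pow_left₀ (by linarith) hBB _
    have e2 : len F ^ X = Real.exp (lam * X) := by
      rw [hlam, mul_comm, Real.exp_nat_mul, Real.exp_log (by linarith)]
    have e3 : len P ^ d ≤ Real.exp (η * X * d) := by
      rw [mul_comm (η * (X : ℝ)) (d : ℝ), Real.exp_nat_mul]
      exact pow_le_pow_left₀ (by linarith) hlenP _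
    calc B ^ (X * D) * len F ^ X * len P ^ d
        ≤ Real.exp (b * (X * D)) * Real.exp (lam * X) * Real.exp (η * X * d) := by
          rw [e2]; gcongr
      _ = Real.exp (b * (X * D) + lam * X + η * X * d) := by rw [Real.exp_add, Real.exp_add]
      _ ≤ _ := by
          apply Real.exp_le_exp.mpr
          have f1 : η * X * d ≤ η * X * D := mul_le_mul_of_nonneg_left hdDr (by positivity)
          have f2 : b * (X * D) ≤ b * (X * (η * D)) := by
            apply mul_le_mul_of_nonneg_left _ hb0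
            exact mul_le_mul_of_nonneg_left hDDη (by positivity)
          calc b * (X * D) + lam * X + η * X * d ≤ b * (X * (η * D)) + lam * X + η * X * D := by
                linarith
            _ = X * (lam + (1 + b) * (η * D)) := by ring
  have hlogH : Real.log (len H) ≤ X * (lam + (1 + b) * (η * D)) := by
    rw [Real.log_le_iff_le_exp (by linarith)]
    exact hlenH.trans (hexp B3 hB3 (le_max_left _ _))
  have hassoc : c' * η * (D : ℝ) = c' * (η * D) := by ring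
  rw [hassoc] at hV hF ⊢
  set A : ℝ := (X : ℝ) ^ (k + 1) * (lam + c' * (η * D)) with hA
  have hc'0 : 1 ≤ c' := by rw [hc']; linarith
  have hcD : 1 ≤ c' * (η * D) := one_le_mul_of_one_le_of_one_le hc'0 hDη
  have hXk1 : (X : ℝ) ^ (k + 1) = X ^ k * X := pow_succ _ _
  have hXX : (X : ℝ) ≤ (X : ℝ) ^ (k + 1) := by
    rw [hXk1]; exact le_mul_of_one_le_left (by linarith) hXk
  have hA1 : 1 ≤ A := by
    rw [hA]
    exact one_le_mul_of_one_le_of_one_le (one_le_pow₀ hXr) (by linarith)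
  have hηD0 : (0 : ℝ) ≤ η * D := by linarith
  have hA2 : X * (lam + (1 + b) * (η * D)) ≤ A := by
    rw [hA]
    refine mul_le_mul hXX ?_ (by positivity) (by positivity)
    rw [hc']
    nlinarith [mul_nonneg (by linarith : (0 : ℝ) ≤ c + B2) hηD0]
  have hVA : ρ * A ≤ V := by rw [hA, ← mul_assoc]; exact hV
  have hV0 : 0 ≤ V := le_trans (by nlinarith) hVA
  have hmax : max (Real.exp (-V)) (lenC (th θ F)) ≤ Real.exp (-(ρ * A)) := by
    refine max_le (Real.exp_le_exp.mpr (by linarith)) ?_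
    rw [hA, ← mul_assoc]; exact hF
  have hT := h4 F H P X d V hRel hP hdD hX hd1 hF0 hP0 hV0 hPV
  have hTH : lenC (th θ H) ≤ Real.exp (-((ρ - 1) * A)) := by
    refine hT.trans ?_
    have hm0 : 0 ≤ max (Real.exp (-V)) (lenC (th θ F)) := le_max_of_le_left (Real.exp_pos _).le
    calc B4 ^ (X * D) * len F ^ X * len P ^ d * max (Real.exp (-V)) (lenC (th θ F))
        ≤ Real.exp (X * (lam + (1 + b) * (η * D))) * Real.exp (-(ρ * A)) :=
          mul_le_mul (hexp B4 hB4 (le_max_right _ _)) hmax hm0 (Real.exp_pos _).le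
      _ = Real.exp (X * (lam + (1 + b) * (η * D)) + -(ρ * A)) := by rw [Real.exp_add]
      _ ≤ _ := Real.exp_le_exp.mpr (by linarith)
  have hTH1 : lenC (th θ H) < 1 := by
    refine hTH.trans_lt ?_
    rw [Real.exp_lt_one_iff]
    nlinarith
  have hk : 1 ≤ k := by
    by_contra hk
    have hk0 : k = 0 := by omega
    subst hk0
    have hdeg0 : H.totalDegree = 0 := by
      rw [totalDegree_eq_zero_iff]
      intro m _ x
      exact x.1.elim0
    have := (h7 σ 0 θ H).2.2 hdeg0 hH0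
    linarith
  refine ⟨hk, ?_⟩
  set DH : ℕ := H.totalDegree with hDH
  have hDHr : (DH : ℝ) ≤ X * D := by exact_mod_cast hdegH
  have hDH0 : (0 : ℝ) ≤ DH := Nat.cast_nonneg _
  have hDHη : η * (DH : ℝ) ≤ X * (η * D) := by
    calc η * (DH : ℝ) ≤ η * (X * D) := mul_le_mul_of_nonneg_left hDHr hη0.le
      _ = _ := by ring
  have hDHη' : (DH : ℝ) ≤ η * DH := le_mul_of_one_le_left hDH0 hη
  have hsum : Real.log (len H) + (c * η + B2) * DH ≤ X * (lam + c' * (η * D)) := by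
    have e1 : (c * η + B2) * (DH : ℝ) ≤ (c + B2) * (η * DH) := by
      have : B2 * (DH : ℝ) ≤ B2 * (η * DH) := mul_le_mul_of_nonneg_left hDHη' (by linarith)
      calc (c * η + B2) * (DH : ℝ) = c * (η * DH) + B2 * DH := by ring
        _ ≤ c * (η * DH) + B2 * (η * DH) := by linarith
        _ = _ := by ring
    have e2 : (c + B2) * (η * (DH : ℝ)) ≤ (c + B2) * (X * (η * D)) :=
      mul_le_mul_of_nonneg_left hDHη (by linarith)
    calc Real.log (len H) + (c * η + B2) * DH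
        ≤ X * (lam + (1 + b) * (η * D)) + (c + B2) * (X * (η * D)) := by linarith
      _ = X * (lam + c' * (η * D)) := by rw [hc']; ring
  have hρP : 0 ≤ (ρ - 2) * (X : ℝ) ^ k := mul_nonneg (by linarith) (by linarith)
  obtain ⟨G, hGirr, hGH, hGdeg, hGT, hGl⟩ := h5 θ H (c * η) ((ρ - 2) * (X : ℝ) ^ k) hH0
    (by positivity) hρP hTH1 (by
      refine hTH.trans (Real.exp_le_exp.mpr (neg_le_neg ?_))
      have e1 : (ρ - 2) * (X : ℝ) ^ k * (Real.log (len H) + (c * η + B2) * DH) ≤ (ρ - 2) * A := by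
        calc (ρ - 2) * (X : ℝ) ^ k * (Real.log (len H) + (c * η + B2) * DH)
            ≤ (ρ - 2) * (X : ℝ) ^ k * (X * (lam + c' * (η * D))) :=
              mul_le_mul_of_nonneg_left hsum hρP
          _ = (ρ - 2) * A := by rw [hA, hXk1]; ring
      have e2 : B2 * (DH : ℝ) ≤ A := by
        calc B2 * (DH : ℝ) ≤ B2 * (X * D) := mul_le_mul_of_nonneg_left hDHr (by linarith)
          _ = X * (B2 * D) := by ring
          _ ≤ (X : ℝ) ^ (k + 1) * (lam + c' * (η * D)) := by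
              refine mul_le_mul hXX ?_ (by positivity) (by positivity)
              have e3 : B2 * (D : ℝ) ≤ B2 * (η * D) :=
                mul_le_mul_of_nonneg_left hDDη (by linarith)
              have e4 : B2 * (η * D) ≤ c' * (η * D) :=
                mul_le_mul_of_nonneg_right (by rw [hc']; linarith) hηD0
              linarith
      linarith)
  obtain ⟨w, ζ', hDG⟩ := h2 (Option σ) k F u ζ hDat hInv d X P H hP hζP hH G hGirr hGH hGdeg
  refine ⟨G, w, ζ', hDG, ?_, ?_⟩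
  · calc (X : ℝ) ^ k * (Real.log (len G) + c * η * G.totalDegree)
        ≤ (X : ℝ) ^ k * (X * (lam + c' * (η * D))) :=
          mul_le_mul_of_nonneg_left (hGl.trans hsum) (by positivity)
      _ = (X : ℝ) ^ (k + 1) * (lam + c' * (η * D)) := by rw [hXk1]; ring
  · exact hGT

theorem pr_CStepE (h1 : S_CStep0E) (h2 : S_PermD) (h3 : S_PermM) : S_CStepE := by
  classical
  intro σ _ k θ c hc
  obtain ⟨c', hc', H⟩ := h1 σ k θ c hc
  refine ⟨c', hc', ?_⟩
  intro F u ζ hD X V ρ η hX hρ hη hV hth P hP hlen hval hne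
  obtain ⟨i0, j, hij⟩ := cStep_exists_var F u ζ hD
  have hD' := h2 (Option σ) (k + 1) F u ζ (Equiv.swap i0 0) hD
  obtain ⟨e1, e2, e3, e4⟩ := h3 σ (k + 1) F (Equiv.swap i0 0) θ
  have hI : Inv0 (rename (fun p : Fin (k + 1) × Option σ => ((Equiv.swap i0 0) p.1, p.2)) F) := by
    refine ⟨j, ?_⟩
    have := e4 i0 j
    rw [Equiv.swap_apply_left] at this
    rw [this]
    exact hij
  have H' := H _ _ ζ hD' hI X V ρ η hX hρ hη
  rw [e1, e2, e3] at H'
  exact H' hV hth P hP hlen hval hne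

theorem pr_DescE (h1 : S_CStepE) (h2 : S_LenEv) : S_DescE := by
  intro σ _ k θ
  have hlen : ∀ {m : ℕ} (F : MvPolynomial (Fin m × Option σ) ℤ), F ≠ 0 →
      0 ≤ Real.log (len F) := fun F hF => Real.log_nonneg (h2.2.2.1 _ F hF)
  induction k with
  | zero =>
    obtain ⟨c, hc, hs⟩ := h1 σ 0 θ 1 le_rfl
    refine ⟨c, hc, fun F u ζ hD X V ρ η hX hρ hη hV hF PP hPP => ?_⟩
    have hF0 : F ≠ 0 := hD.1.ne_zero
    have hη0 : 0 < η := by linarith
    by_cases hall : ∀ P ∈ PP, aeval ζ P = 0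
    · refine ⟨0, F, u, ζ, hD, le_rfl, hall, hF.trans (Real.exp_le_exp.mpr (neg_le_neg ?_))⟩
      have hρ' : (3 : ℝ) ≤ ρ := by simpa using hρ
      rw [mul_assoc c η]
      exact Desc_cmp (by positivity) (by simpa using (by linarith : (0 : ℝ) ≤ ρ)) (by positivity)
        (hlen F hF0) hc (by positivity)
    · exfalso
      simp only [not_forall] at hall
      obtain ⟨P, hP, hne⟩ := hall
      have hρ' : (3 : ℝ) ≤ ρ := by simpa using hρ
      have := (hs F u ζ hD X V ρ η hX hρ' hη hV hF P (hPP P hP).1 (hPP P hP).2.1 (hPP P hP).2.2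
        hne).1
      omega
  | succ k ih =>
    obtain ⟨c0, hc0, hi⟩ := ih
    obtain ⟨c, hc, hs⟩ := h1 σ (k + 1) θ c0 hc0
    refine ⟨c, hc, fun F u ζ hD X V ρ η hX hρ hη hV hF PP hPP => ?_⟩
    have hF0 : F ≠ 0 := hD.1.ne_zero
    have hη0 : 0 < η := by linarith
    have hk : (0 : ℝ) ≤ k := Nat.cast_nonneg k
    push_cast at hρ
    have hρ3 : (3 : ℝ) ≤ ρ := by linarith
    by_cases hall : ∀ P ∈ PP, aeval ζ P = 0
    · refine ⟨k + 1, F, u, ζ, hD, le_rfl, hall, hF.trans (Real.exp_le_exp.mpr (neg_le_neg ?_))⟩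
      rw [mul_assoc c η]
      exact Desc_cmp (by positivity) (by push_cast; linarith) (by positivity) (hlen F hF0) hc
        (by positivity)
    · simp only [not_forall] at hall
      obtain ⟨P, hP, hne⟩ := hall
      obtain ⟨_, G, w, ζ', hG, hle, hlC⟩ := hs F u ζ hD X V ρ η hX hρ3 hη hV hF P (hPP P hP).1
        (hPP P hP).2.1 (hPP P hP).2.2 hne
      have hA : 0 ≤ (X : ℝ) ^ (k + 1 + 1) * (Real.log (len F) + c * η * F.totalDegree) :=
        mul_nonneg (by positivity) (add_nonneg (hlen F hF0) (by positivity))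
      have hV' : (ρ - 2) * (X : ℝ) ^ (k + 1) * (Real.log (len G) + c0 * η * G.totalDegree) ≤ V := by
        have e1 : (ρ - 2) * ((X : ℝ) ^ (k + 1) * (Real.log (len G) + c0 * η * G.totalDegree)) ≤
            (ρ - 2) * ((X : ℝ) ^ (k + 1 + 1) * (Real.log (len F) + c * η * F.totalDegree)) :=
          mul_le_mul_of_nonneg_left hle (by linarith)
        have e2 : (ρ - 2) * ((X : ℝ) ^ (k + 1 + 1) * (Real.log (len F) + c * η * F.totalDegree)) ≤
            ρ * ((X : ℝ) ^ (k + 1 + 1) * (Real.log (len F) + c * η * F.totalDegree)) :=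
          mul_le_mul_of_nonneg_right (by linarith) hA
        rw [mul_assoc] at hV ⊢
        linarith
      obtain ⟨k', G', w', ζ'', hG', hk', hz, hfin⟩ := hi G w ζ' hG X V (ρ - 2) η hX
        (by linarith) hη hV' hlC PP hPP
      refine ⟨k', G', w', ζ'', hG', by omega, hz, hfin.trans (le_of_eq ?_)⟩
      congr 1
      push_cast
      ring

/-- The final numerical contradiction. -/
theorem crit_numE {k τ X : ℕ} (hk : k ≤ τ) (hX : 1 ≤ X) {A L V C ρ η : ℝ}
    (hA : 1 ≤ A) (hL : 0 ≤ L)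
    (hC : C = 2 * (2 * ((k : ℝ) + 1) * A) * (L + 1) + (4 * (k : ℝ) + 3) * A)
    (hV : C * (X : ℝ) ^ (τ + 1) ≤ V) (hρ : ρ * η = V / (X ^ (k + 1) * A))
    (hmain : ρ / 2 * X * η ≤ ((k : ℝ) + 1) * (V / (C * (X : ℝ) ^ τ) + L)) : False := by
  have hX1 : (1 : ℝ) ≤ X := by exact_mod_cast hX
  have hX0 : (0 : ℝ) < X := by linarith
  have hk0 : (0 : ℝ) ≤ k := Nat.cast_nonneg k
  set M : ℝ := 2 * ((k : ℝ) + 1) * A with hM
  have hM0 : 0 < M := by positivity
  have hC0 : 0 < C := by rw [hC]; positivity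
  have hCM : 2 * M ≤ C := by
    rw [hC]
    have : 0 ≤ (4 * (k : ℝ) + 3) * A := by positivity
    nlinarith [mul_nonneg hM0.le hL]
  have hCL : 2 * M * L < C := by
    rw [hC]
    have : 0 ≤ (4 * (k : ℝ) + 3) * A := by positivity
    nlinarith [mul_nonneg hM0.le hL]
  have hV0 : 0 < V := lt_of_lt_of_le (by positivity) hV
  -- put y = V / X ^ τ
  have hXτ : (0 : ℝ) < X ^ τ := by positivity
  set y : ℝ := V / X ^ τ with hy
  have hy1 : C ≤ y := by
    rw [hy, le_div_iff₀ hXτ]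
    calc C * (X : ℝ) ^ τ ≤ C * X ^ (τ + 1) :=
          mul_le_mul_of_nonneg_left (pow_le_pow_right₀ hX1 (by omega)) hC0.le
      _ ≤ V := hV
  have hy0 : 0 < y := lt_of_lt_of_le hC0 hy1
  have h3 : V / (C * (X : ℝ) ^ τ) = y / C := by
    rw [hy]; field_simp
  have h4 : y / (2 * A) ≤ ρ / 2 * X * η := by
    have e1 : ρ / 2 * X * η = V / X ^ k / (2 * A) := by
      have e2 : ρ / 2 * X * η = (ρ * η) * X / 2 := by ring
      rw [e2, hρ, pow_succ]; field_simp
    rw [e1]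
    apply div_le_div_of_nonneg_right _ (by positivity)
    rw [hy]
    exact div_le_div_of_nonneg_left hV0.le (by positivity) (pow_le_pow_right₀ hX1 hk)
  have h5 : y / (2 * A) ≤ ((k : ℝ) + 1) * (y / C + L) := by
    rw [← h3]; exact le_trans h4 hmain
  have h6 : y / M ≤ y / C + L := by
    have : y / M = y / (2 * A) / ((k : ℝ) + 1) := by
      rw [hM]; field_simp
    rw [this, div_le_iff₀ (by positivity)]
    linarith
  have h7 : y / C ≤ y / (2 * M) := div_le_div_of_nonneg_left hy0.le (by positivity) hCM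
  have h8 : y / M = y / (2 * M) + y / (2 * M) := by field_simp; ring
  have h9 : y / (2 * M) ≤ L := by linarith
  rw [div_le_iff₀ (by positivity)] at h9
  linarith

theorem pr_CritE (h1 : S_Init) (h2 : S_DescE) (h3 : S_Far) (h4 : S_Hom) (h5 : S_LenEv) :
    S_CritE := by
  intro σ _ τ θ hτ
  obtain ⟨k, hk, F0, u0, hF0, hth⟩ := h1 σ τ θ hτ
  obtain ⟨c, hc, hdesc⟩ := h2 σ k θ
  have hfar := fun k' : ℕ => h3 σ (k' + 1) θ
  choose Bf hBf1 hBf using hfar
  set Bm : ℝ := ∑ k' ∈ Finset.range (k + 1), Bf k' with hBm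
  have hBle : ∀ k' ≤ k, Bf k' ≤ Bm := fun k' hk' =>
    Finset.single_le_sum (f := Bf) (fun j _ => by linarith [hBf1 j])
      (Finset.mem_range.mpr (by omega))
  have hBm1 : 1 ≤ Bm := le_trans (hBf1 0) (hBle 0 (Nat.zero_le k))
  have hS : 0 ≤ ∑ j, ‖θ j‖ := Finset.sum_nonneg fun j _ => norm_nonneg _
  set T : ℝ := 2 + ∑ j, ‖θ j‖ with hT
  have hT1 : 1 ≤ T := by linarith
  set A0 : ℝ := Real.log (len F0) + c * F0.totalDegree with hA0
  have hF0ne : F0 ≠ 0 := hF0.1.ne_zero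
  have hlenF0 : 1 ≤ len F0 := h5.2.2.1 _ F0 hF0ne
  have hlog0 : 0 ≤ Real.log (len F0) := Real.log_nonneg hlenF0
  have hA0nn : 0 ≤ A0 := by positivity
  set A : ℝ := A0 + 1 with hA
  have hA1 : 1 ≤ A := by linarith
  set L : ℝ := Real.log (T * Bm) with hL
  have hL0 : 0 ≤ L := Real.log_nonneg (by nlinarith)
  set C : ℝ := 2 * (2 * ((k : ℝ) + 1) * A) * (L + 1) + (4 * (k : ℝ) + 3) * A with hC
  have hk0 : (0 : ℝ) ≤ k := Nat.cast_nonneg k
  have hC1 : 1 ≤ C := by
    have e1 : 0 ≤ 2 * (2 * ((k : ℝ) + 1) * A) * (L + 1) := by positivity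
    have e2 : 3 ≤ (4 * (k : ℝ) + 3) * A := by nlinarith
    linarith
  refine ⟨C, hC1, ?_⟩
  intro X h V hX hXh hV PP hPP
  by_contra hcon
  push Not at hcon
  have hX1 : (1 : ℝ) ≤ X := by exact_mod_cast hX
  have hX0 : (0 : ℝ) < X := by linarith
  have hC0 : 0 < C := by linarith
  -- `h = η X`
  set η : ℝ := h / X with hηdef
  have hη1 : 1 ≤ η := by rw [hηdef, le_div_iff₀ hX0]; linarith
  have hη0 : 0 < η := by linarith
  have hηX : η * X = h := by rw [hηdef]; field_simp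
  have hV2 : C * η * (X : ℝ) ^ (τ + 1) ≤ V := by
    calc C * η * (X : ℝ) ^ (τ + 1) = C * (η * X) * (X : ℝ) ^ τ := by ring
      _ = C * h * (X : ℝ) ^ τ := by rw [hηX]
      _ ≤ V := hV
  have hV1 : C * (X : ℝ) ^ (τ + 1) ≤ V := by
    refine le_trans ?_ hV2
    apply mul_le_mul_of_nonneg_right _ (by positivity)
    nlinarith
  have hV0 : 0 < V := lt_of_lt_of_le (by positivity) hV1
  set R1 : ℝ := Real.exp (-V / (C * (X : ℝ) ^ τ)) with hR1
  have hR10 : 0 < R1 := Real.exp_pos _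
  have hR11 : R1 ≤ 1 := by
    rw [hR1, Real.exp_le_one_iff]
    exact div_nonpos_of_nonpos_of_nonneg (by linarith) (by positivity)
  -- descent
  set ρ : ℝ := V / (X ^ (k + 1) * A * η) with hρ
  have hXk : (0 : ℝ) < X ^ (k + 1) := by positivity
  have hpow : (X : ℝ) ^ (k + 1) ≤ (X : ℝ) ^ (τ + 1) := pow_le_pow_right₀ hX1 (by omega)
  have hρη : ρ * η = V / (X ^ (k + 1) * A) := by
    rw [hρ]; field_simp
  have hρ1 : 4 * (k : ℝ) + 3 ≤ ρ := by
    rw [hρ, le_div_iff₀ (by positivity)]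
    calc (4 * (k : ℝ) + 3) * (X ^ (k + 1) * A * η)
        = ((4 * (k : ℝ) + 3) * A) * (η * X ^ (k + 1)) := by ring
      _ ≤ C * (η * X ^ (k + 1)) := by
          apply mul_le_mul_of_nonneg_right _ (by positivity)
          have e1 : 0 ≤ 2 * (2 * ((k : ℝ) + 1) * A) * (L + 1) := by positivity
          linarith
      _ ≤ C * (η * X ^ (τ + 1)) :=
          mul_le_mul_of_nonneg_left (mul_le_mul_of_nonneg_left hpow hη0.le) hC0.le
      _ = C * η * X ^ (τ + 1) := by ring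
      _ ≤ V := hV2
  have hρV : ρ * (X : ℝ) ^ (k + 1) * (Real.log (len F0) + c * η * F0.totalDegree) ≤ V := by
    have e1 : ρ * (X : ℝ) ^ (k + 1) * (η * A) = V := by
      rw [hρ]; field_simp
    have e3 : Real.log (len F0) + c * η * F0.totalDegree ≤ η * A := by
      have e4 : Real.log (len F0) ≤ η * Real.log (len F0) := le_mul_of_one_le_left hlog0 hη1
      calc Real.log (len F0) + c * η * F0.totalDegree
          ≤ η * Real.log (len F0) + c * η * F0.totalDegree := by linarith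
        _ = η * A0 := by rw [hA0]; ring
        _ ≤ η * A := mul_le_mul_of_nonneg_left (by linarith) hη0.le
    rw [← e1]
    apply mul_le_mul_of_nonneg_left e3
    apply mul_nonneg (by linarith) hXk.le
  have hlen0 : lenC (th θ F0) = 0 := by
    rw [hth]; simp [lenC]
  obtain ⟨k', G, w, ζ', hG, hk', hζ', hlenG⟩ := hdesc F0 u0 (hat θ) hF0 X V ρ η hX (by linarith)
    hη1 hρV (by rw [hlen0]; exact (Real.exp_pos _).le) (hom X '' PP) (by
      rintro _ ⟨P, hP, rfl⟩
      obtain ⟨hd, hl, hv⟩ := hPP P hP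
      obtain ⟨hh, hhl, hhe, -⟩ := h4 σ X P hd
      exact ⟨hh, le_trans hhl (by rw [hηX]; exact hl), by rw [hhe]; exact hv⟩)
  -- the degree of G is positive
  have hD : 1 ≤ G.totalDegree := by
    rw [Nat.one_le_iff_ne_zero]
    intro h0
    have h6 := totalDegree_eq_zero_iff_eq_C.mp h0
    have h7 : ev w G = 0 := (hG.2.2.2.1 G).mpr dvd_rfl
    rw [h6] at h7
    simp only [ev, algHom_C] at h7
    have h8 : G.coeff 0 = 0 := by simpa using h7
    rw [h8, map_zero] at h6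
    exact hG.1.ne_zero h6
  have hfarG := hBf k' G w ζ' hG (R1 / T) (by positivity) (by
    rw [div_le_one (by linarith)]; linarith) (by
      intro ξ _ hξ
      exact crit_far h4 θ X PP (fun P hP => (hPP P hP).1) R1 hR10 hR11
        (fun θ' hθ' => hcon θ' hθ') ζ' (fun P hP => hζ' _ ⟨P, hP, rfl⟩) ξ hξ)
  set D : ℕ := G.totalDegree with hDdef
  have hBm0 : 0 < Bm := by linarith
  have hT0 : 0 < T := by linarith
  have hBf0 : 0 < Bf k' := by linarith [hBf1 k']
  have hle1 : R1 / T / Bm ≤ R1 / T / Bf k' :=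
    div_le_div_of_nonneg_left (by positivity) hBf0 (hBle k' hk')
  have hle2 : (R1 / T / Bm) ^ ((k' + 1) * D) ≤
      Real.exp (-((ρ - 2 * k) * (X : ℝ) ^ (k' + 1) * (η * D))) :=
    le_trans (le_trans (pow_le_pow_left₀ (by positivity) hle1 _) hfarG) hlenG
  have hlog := Real.log_le_log (by positivity) hle2
  rw [Real.log_exp, Real.log_pow] at hlog
  have hlogR : Real.log (R1 / T / Bm) = -(V / (C * (X : ℝ) ^ τ) + L) := by
    rw [div_div, Real.log_div hR10.ne' (by positivity), hR1, Real.log_exp, hL]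
    ring
  rw [hlogR] at hlog
  have hD0 : (0 : ℝ) < D := by exact_mod_cast hD
  have hmain : (ρ - 2 * k) * (X : ℝ) ^ (k' + 1) * η ≤
      ((k' : ℝ) + 1) * (V / (C * (X : ℝ) ^ τ) + L) := by
    have e1 : ((ρ - 2 * k) * (X : ℝ) ^ (k' + 1) * η) * D ≤
        (((k' : ℝ) + 1) * (V / (C * (X : ℝ) ^ τ) + L)) * D := by
      push_cast at hlog
      have f1 : ((ρ - 2 * k) * (X : ℝ) ^ (k' + 1) * η) * D =
          (ρ - 2 * k) * (X : ℝ) ^ (k' + 1) * (η * D) := by ring
      have f2 : (((k' : ℝ) + 1) * (V / (C * (X : ℝ) ^ τ) + L)) * D =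
          -(((k' : ℝ) + 1) * D * -(V / (C * (X : ℝ) ^ τ) + L)) := by ring
      rw [f1, f2]
      linarith
    exact le_of_mul_le_mul_right e1 hD0
  have hnn : 0 ≤ V / (C * (X : ℝ) ^ τ) + L := by positivity
  have hk'1 : ((k' : ℝ) + 1) ≤ (k : ℝ) + 1 := by
    have : (k' : ℝ) ≤ k := by exact_mod_cast hk'
    linarith
  refine crit_numE hk hX hA1 hL0 hC hV1 hρη ?_
  refine le_trans ?_ (hmain.trans (mul_le_mul_of_nonneg_right hk'1 hnn))
  apply mul_le_mul_of_nonneg_right _ hη0.le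
  have e1 : (X : ℝ) ≤ (X : ℝ) ^ (k' + 1) := by
    calc (X : ℝ) = (X : ℝ) ^ 1 := (pow_one _).symm
      _ ≤ _ := pow_le_pow_right₀ hX1 (by omega)
  have e2 : ρ / 2 ≤ ρ - 2 * k := by linarith
  exact mul_le_mul e2 e1 hX0.le (by linarith)

end CritE

/-- The criterion with separate degree and height (unconditional). -/
theorem CritE_pf : S_CritE :=
  CritE.pr_CritE x_Init
    (CritE.pr_DescE (CritE.pr_CStepE (CritE.pr_CStep0E x_Spec0 x_StepAlg x_MetH x_MetTh x_Pick
      x_LenEv x_ThEv) x_PermD x_PermM) x_LenEv) x_Far x_Hom x_LenEv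

end Pool.Agent.Work.MP_8da9ea_nt.SI
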