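import Pool.Agent.Work.MP_8da9ea_nt.SI.Stmts

set_option autoImplicit false

namespace Pool.Agent.Work.MP_8da9ea_nt.SI

open MvPolynomial

lemma Dual_eval_tr {σ : Type} (v x : σ → ℂ) (f : MvPolynomial σ ℂ) :
    eval x (tr v f) = eval (x + v) f := by
  have : ((aeval x : MvPolynomial σ ℂ →ₐ[ℂ] ℂ).comp (tr v)) = aeval (x + v) := by
    ext i
    simp [tr]
  have h := congrArg (fun F : MvPolynomial σ ℂ →ₐ[ℂ] ℂ => F f) this
  simpa [aeval_eq_eval] using h

lemma Dual_totalDegree_tr {σ : Type} (v : σ → ℂ) (f : MvPolynomial σ ℂ) :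
    (tr v f).totalDegree ≤ f.totalDegree := by
  unfold tr
  rw [aeval_def, eval₂_eq]
  refine (totalDegree_finsetSum _ _).trans (Finset.sup_le fun d hd => ?_)
  refine (totalDegree_mul _ _).trans ?_
  have h1 : ((algebraMap ℂ (MvPolynomial σ ℂ)) (coeff d f)).totalDegree = 0 := by
    rw [algebraMap_eq]; exact totalDegree_C _
  rw [h1, zero_add]
  refine (totalDegree_finsetProd _ _).trans ?_
  refine (Finset.sum_le_sum (g := fun i => d i) fun i _ => ?_).trans ?_
  · refine (totalDegree_pow _ _).trans ?_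
    have : (X i + C (v i) : MvPolynomial σ ℂ).totalDegree ≤ 1 := by
      refine (totalDegree_add _ _).trans (max_le ?_ ?_)
      · exact (totalDegree_X (R := ℂ) i).le
      · simp
    nlinarith
  · exact le_totalDegree hd

/-- a maximal independent subset modulo `U` -/
lemma Dual_J {r m : ℕ} (φ : Fin m → Fin r → ℂ) (U : Submodule ℂ (Fin r → ℂ)) :
    ∃ J : Finset (Fin m), J.card = m - rkU φ U ∧
      ∀ a : Fin m → ℤ, (∀ j, j ∉ J → a j = 0) → (∑ j, (a j : ℂ) • φ j) ∈ U → a = 0 := by
  classical
  let N : Submodule ℚ (Fin m → ℚ) :=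
    (U.restrictScalars ℚ).comap (Fintype.linearCombination ℚ φ)
  let e : Fin m → (Fin m → ℚ) ⧸ N := fun j => N.mkQ (Pi.single j 1)
  obtain ⟨κ, a, ha, hspan, hli⟩ := exists_linearIndependent' ℚ e
  have : Fintype κ := Fintype.ofInjective a ha
  have htop : Submodule.span ℚ (Set.range e) = ⊤ := by
    have h1 : Set.range e = N.mkQ '' (Set.range (fun j : Fin m => (Pi.single j 1 : Fin m → ℚ))) := by
      rw [← Set.range_comp]; rfl
    rw [h1, Submodule.span_image]
    have h2 : Submodule.span ℚ (Set.range (fun j : Fin m => (Pi.single j 1 : Fin m → ℚ))) = ⊤ := by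
      convert (Pi.basisFun ℚ (Fin m)).span_eq using 4
      rw [Pi.basisFun_apply]
    rw [h2, Submodule.map_top, Submodule.range_mkQ]
  have hcard : Fintype.card κ = m - rkU φ U := by
    have h1 := finrank_span_eq_card hli
    rw [hspan, htop, finrank_top] at h1
    rw [← h1, Submodule.finrank_quotient]
    simp only [Module.finrank_fin_fun, rkU]
    rfl
  refine ⟨Finset.univ.image a, ?_, ?_⟩
  · rw [Finset.card_image_of_injective _ ha, Finset.card_univ, hcard]
  · intro c hc hU
    have h1 : ∑ k : κ, ((c (a k) : ℤ) : ℚ) • (e ∘ a) k = 0 := by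
      have h2 : ∑ k : κ, ((c (a k) : ℤ) : ℚ) • (e ∘ a) k = ∑ j, ((c j : ℤ) : ℚ) • e j := by
        rw [← Finset.sum_subset (Finset.subset_univ (Finset.univ.image a))]
        · rw [Finset.sum_image (fun x _ y _ h => ha h)]
          rfl
        · intro j _ hj
          rw [hc j hj]; simp
      rw [h2]
      have h3 : ∑ j, ((c j : ℤ) : ℚ) • e j = N.mkQ (fun j => ((c j : ℤ) : ℚ)) := by
        have h4 : (fun j => ((c j : ℤ) : ℚ)) = ∑ j, ((c j : ℤ) : ℚ) • (Pi.single j 1 : Fin m → ℚ) := by
          have := pi_eq_sum_univ (fun j => ((c j : ℤ) : ℚ))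
          conv_lhs => rw [this]
          refine Finset.sum_congr rfl fun j _ => ?_
          congr 1
          funext i
          simp [Pi.single_apply, eq_comm]
        rw [h4, map_sum]
        refine Finset.sum_congr rfl fun j _ => ?_
        rw [map_smul]
      rw [h3, Submodule.mkQ_apply, Submodule.Quotient.mk_eq_zero]
      change Fintype.linearCombination ℚ φ (fun j => ((c j : ℤ) : ℚ)) ∈ U
      rw [Fintype.linearCombination_apply]
      convert hU using 1
      refine Finset.sum_congr rfl fun j _ => ?_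
      funext i
      simp [Rat.smul_def]
    have h5 := (Fintype.linearIndependent_iff.mp hli) _ h1
    funext j
    by_cases hj : j ∈ Finset.univ.image a
    · obtain ⟨k, -, rfl⟩ := Finset.mem_image.mp hj
      exact_mod_cast h5 k
    · exact hc j hj

/-- the multiplier is one -/
lemma Dual_one {r : ℕ} (v : Fin r → ℂ) (η : ℂ) (B : MvPolynomial (Fin r) ℂ)
    (h0 : eval (0 : Fin r → ℂ) B = 1) (h : tr v B = C η * B) : η = 1 := by
  let g : Polynomial ℂ := aeval (fun k => Polynomial.C (v k) * Polynomial.X) B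
  have hg : ∀ t : ℂ, Polynomial.eval t g = eval (t • v) B := by
    intro t
    have h1 : Polynomial.eval t g = Polynomial.aeval t g := by
      rw [Polynomial.coe_aeval_eq_eval]
    rw [h1]
    have h2 : ((Polynomial.aeval t : Polynomial ℂ →ₐ[ℂ] ℂ).comp
        (aeval (fun k => Polynomial.C (v k) * Polynomial.X) :
          MvPolynomial (Fin r) ℂ →ₐ[ℂ] Polynomial ℂ)) = aeval (t • v) := by
      ext k
      rw [AlgHom.comp_apply, aeval_X, aeval_X, map_mul, Polynomial.aeval_C, Polynomial.aeval_X,
        Pi.smul_apply, smul_eq_mul, mul_comm]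
      rfl
    have h3 := congrArg (fun F : MvPolynomial (Fin r) ℂ →ₐ[ℂ] ℂ => F B) h2
    simpa [aeval_eq_eval] using h3
  have hg0 : g ≠ 0 := by
    intro hz
    have h1 := hg 0
    rw [hz, Polynomial.eval_zero, zero_smul, h0] at h1
    exact zero_ne_one h1
  have hcomp : g.comp (Polynomial.X + Polynomial.C 1) = Polynomial.C η * g := by
    refine Polynomial.funext fun t => ?_
    rw [Polynomial.eval_comp, Polynomial.eval_mul, Polynomial.eval_C, hg]
    simp only [Polynomial.eval_add, Polynomial.eval_X, Polynomial.eval_C]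
    rw [hg, add_smul, one_smul, ← Dual_eval_tr, h, eval_mul, eval_C]
  have hlc := congrArg Polynomial.leadingCoeff hcomp
  rw [Polynomial.leadingCoeff_comp (by rw [Polynomial.natDegree_X_add_C]; exact one_ne_zero),
    Polynomial.leadingCoeff_X_add_C, one_pow, mul_one, Polynomial.leadingCoeff_mul,
    Polynomial.leadingCoeff_C] at hlc
  have hne : g.leadingCoeff ≠ 0 := Polynomial.leadingCoeff_ne_zero.mpr hg0
  exact (mul_right_cancel₀ hne (by rw [one_mul]; exact hlc)).symm

theorem pr_Dual (h : S_ZE) : S_Dual := by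
  classical
  intro r m φ D M hU η B hB hval
  have hbx : ∀ x : Fin m → Fin (r * D + 2),
      bx φ x = ∑ j, (((x j : ℕ)) : ℂ) • φ j := by
    intro x
    funext k
    simp [bx, Finset.sum_apply]
  have hB0 : eval (0 : Fin r → ℂ) B = 1 := by
    have h1 := hval (fun _ => 0)
    rw [hbx] at h1
    simpa using h1.symm
  intro j
  refine Dual_one (φ j) (η j) B hB0 ?_
  by_contra hne
  have hR : tr (φ j) B - C (η j) * B ≠ 0 := sub_ne_zero.mpr hne
  have hdeg : (tr (φ j) B - C (η j) * B).totalDegree ≤ M := by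
    refine (totalDegree_sub _ _).trans (max_le ((Dual_totalDegree_tr _ _).trans hB) ?_)
    refine (totalDegree_mul _ _).trans ?_
    rw [totalDegree_C, zero_add]
    exact hB
  obtain ⟨U, hUt, hJ⟩ := h ℂ r m φ M D _ hR hdeg (by
    intro l hl
    rw [map_sub, eval_mul, eval_C, Dual_eval_tr]
    have hl2 : ∀ i, l i < r * D + 2 := fun i => by have := hl i; omega
    have hl3 : ∀ i, l i + (if i = j then 1 else 0) < r * D + 2 := fun i => by
      have := hl i
      split_ifs <;> omega
    have e1 := hval (fun i => ⟨l i, hl2 i⟩)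
    have e2 := hval (fun i => ⟨l i + (if i = j then 1 else 0), hl3 i⟩)
    rw [hbx] at e1 e2
    simp only at e1 e2
    have e3 : ∑ i, (((l i + if i = j then 1 else 0 : ℕ)) : ℂ) • φ i
        = ∑ i, ((l i : ℕ) : ℂ) • φ i + φ j := by
      simp only [Nat.cast_add, add_smul, Finset.sum_add_distrib]
      congr 1
      simp
    rw [e3] at e2
    rw [← e1, ← e2]
    simp only [pow_add, Finset.prod_mul_distrib]
    have e4 : ∏ i, η i ^ (if i = j then 1 else 0) = η j := by
      rw [Finset.prod_eq_single j]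
      · simp
      · intro b _ hb; simp [hb]
      · intro hb; exact absurd (Finset.mem_univ _) hb
    rw [e4]
    ring)
  obtain ⟨J, hJc, hJi⟩ := Dual_J φ U
  have h1 := hJ J hJi
  rw [hJc] at h1
  exact absurd h1 (not_le.mpr (hU U hUt))

end Pool.Agent.Work.MP_8da9ea_nt.SI
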