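import Pool.Agent.Work.MP_8da9ea_nt.SI.Stmts2

/-!
# PROJECT SI: item EmbS (embeddings of a number field)

The dual functional of `b_k` is `y ↦ Tr(c y)`, and the trace is the sum over the embeddings.
-/

set_option autoImplicit false

namespace Pool.Agent.Work.MP_8da9ea_nt.SI

/-- the coordinates with respect to independent elements are given by the trace form -/
theorem EmbS_dual (B : IntermediateField ℚ ℂ) [FiniteDimensional ℚ B] {m : ℕ} {b : Fin m → B}
    (hb : LinearIndependent ℚ b) (k₀ : Fin m) :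
    ∃ c : B, ∀ k, Algebra.trace ℚ B (c * b k) = if k = k₀ then 1 else 0 := by
  obtain ⟨g, hg⟩ := LinearMap.exists_extend ((Module.Basis.span hb).coord k₀)
  have hgb : ∀ k, g (b k) = if k = k₀ then 1 else 0 := by
    intro k
    have h1 := LinearMap.congr_fun hg (Module.Basis.span hb k)
    rw [Module.Basis.coord_apply, Module.Basis.repr_self, Finsupp.single_apply] at h1
    rw [← h1, LinearMap.comp_apply, Submodule.subtype_apply, Module.Basis.span_apply]
  have hnd : (Algebra.traceForm ℚ B).Nondegenerate := traceForm_nondegenerate ℚ B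
  refine ⟨((Algebra.traceForm ℚ B).toDual hnd).symm g, fun k => ?_⟩
  rw [← hgb k, ← Algebra.traceForm_apply]
  exact LinearMap.BilinForm.apply_toDual_symm_apply g (b k)

theorem pr_EmbS : S_EmbS := by
  intro B m b h hB hb hh
  by_contra hcon
  push Not at hcon
  apply hh
  funext k₀
  obtain ⟨c, hc⟩ := EmbS_dual B hb k₀
  have h1 : h k₀ = ∑ k, ((Algebra.trace ℚ B (c * b k) : ℚ) : ℂ) * h k := by
    rw [Finset.sum_eq_single k₀]
    · simp [hc]
    · intro k _ hk
      simp [hc, hk]
    · simp
  have h2 : ∀ k, ((Algebra.trace ℚ B (c * b k) : ℚ) : ℂ) = ∑ σ : B →ₐ[ℚ] ℂ, σ c * σ (b k) := by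
    intro k
    have h3 := trace_eq_sum_embeddings (K := ℚ) (L := B) ℂ (x := c * b k)
    simp only [map_mul] at h3
    simpa using h3
  rw [h1]
  simp only [h2]
  have h4 : ∀ k, (∑ σ : B →ₐ[ℚ] ℂ, σ c * σ (b k)) * h k =
      ∑ σ : B →ₐ[ℚ] ℂ, σ c * (σ (b k) * h k) := by
    intro k
    rw [Finset.sum_mul]
    exact Finset.sum_congr rfl fun σ _ => by ring
  simp only [h4]
  rw [Finset.sum_comm]
  simp only [← Finset.mul_sum, hcon, mul_zero, Finset.sum_const_zero, Pi.zero_apply]

end Pool.Agent.Work.MP_8da9ea_nt.SI
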