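import Mathlib
import Pool.Agent.Work.MP_8da9ea_nt.SI.Stmts
import Pool.Agent.Work.MP_327059_nt.Bd.B11

set_option autoImplicit false

namespace Pool.Agent.Work.MP_8da9ea_nt.SI

open MvPolynomial Pool.Agent.Work.MP_327059_nt.GL Pool.Agent.Work.MP_327059_nt.FR

/-- The coordinate of the box point as an integer polynomial in the `φ_jk`. -/
noncomputable def Fam_bp {r m D : ℕ} (x : Fin m → Fin D) (k : Fin r) :
    MvPolynomial (Fin m × Fin r) ℤ := ∑ j, C (((x j : ℕ) : ℤ)) * X (j, k)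

theorem Fam_bp_val {r m D : ℕ} (φ : Fin m → Fin r → ℂ) (x : Fin m → Fin D) (k : Fin r) :
    aeval (fun q : Fin m × Fin r => φ q.1 q.2) (Fam_bp x k) = bx φ x k := by
  simp [Fam_bp, bx]

theorem Fam_bp_deg {r m D : ℕ} (x : Fin m → Fin D) (k : Fin r) :
    (Fam_bp x k).totalDegree ≤ 1 := by
  unfold Fam_bp
  refine totalDegree_finsetSum_le ?_
  intro j _
  refine (totalDegree_mul _ _).trans ?_
  rw [totalDegree_C, totalDegree_X]

theorem Fam_bp_len {r m D : ℕ} (x : Fin m → Fin D) (k : Fin r) :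
    len (Fam_bp x k) ≤ (m : ℝ) * D := by
  unfold Fam_bp
  refine (Val_len_sum _ _).trans ?_
  have h : ∀ j ∈ (Finset.univ : Finset (Fin m)),
      len (C (((x j : ℕ) : ℤ)) * X (j, k) : MvPolynomial (Fin m × Fin r) ℤ) ≤ (D : ℝ) := by
    intro j _
    refine (Val_len_mul _ _).trans ?_
    have h1 : len (C (((x j : ℕ) : ℤ)) : MvPolynomial (Fin m × Fin r) ℤ) ≤ (D : ℝ) := by
      refine (Val_len_C _).trans ?_
      have h2 : ((x j : ℕ) : ℝ) ≤ D := by exact_mod_cast (x j).2.le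
      push_cast
      rw [abs_of_nonneg (by positivity)]
      exact h2
    have h2 : len (X (j, k) : MvPolynomial (Fin m × Fin r) ℤ) ≤ 1 := Val_len_X _
    calc _ ≤ (D : ℝ) * 1 := mul_le_mul h1 h2 (Val_len_nonneg _) (by positivity)
      _ = D := mul_one _
  refine (Finset.sum_le_sum h).trans ?_
  simp

/-- The product of the powers of the coordinates. -/
noncomputable def Fam_ap {r m D : ℕ} (α : Fin r → ℕ) (x : Fin m → Fin D) :
    MvPolynomial (Fin m × Fin r) ℤ := ∏ k, Fam_bp x k ^ α k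

theorem Fam_ap_val {r m D : ℕ} (φ : Fin m → Fin r → ℂ) (α : Fin r → ℕ) (x : Fin m → Fin D) :
    aeval (fun q : Fin m × Fin r => φ q.1 q.2) (Fam_ap α x) = ∏ k, bx φ x k ^ α k := by
  simp [Fam_ap, map_prod, map_pow, Fam_bp_val]

theorem Fam_ap_deg {r m D : ℕ} (α : Fin r → ℕ) (x : Fin m → Fin D) :
    (Fam_ap α x).totalDegree ≤ ∑ k, α k := by
  unfold Fam_ap
  refine (totalDegree_finsetProd _ _).trans ?_
  refine Finset.sum_le_sum ?_
  intro k _
  refine (totalDegree_pow _ _).trans ?_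
  calc α k * (Fam_bp x k).totalDegree ≤ α k * 1 := Nat.mul_le_mul_left _ (Fam_bp_deg x k)
    _ = α k := mul_one _

theorem Fam_ap_len {r m D : ℕ} (α : Fin r → ℕ) (x : Fin m → Fin D) :
    len (Fam_ap α x) ≤ ((m : ℝ) * D + 1) ^ (∑ k, α k) := by
  unfold Fam_ap
  refine (Val_len_prod _ _).trans ?_
  rw [← Finset.prod_pow_eq_pow_sum]
  refine Finset.prod_le_prod (fun k _ => Val_len_nonneg _) ?_
  intro k _
  refine (Val_len_pow _ _).trans ?_
  refine pow_le_pow_left₀ (Val_len_nonneg _) ?_ _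
  have := Fam_bp_len x k
  linarith

theorem Fam_det_deg {σ : Type} {ρ d : ℕ} (A : Matrix (Fin ρ) (Fin ρ) (MvPolynomial σ ℤ))
    (h : ∀ a b, (A a b).totalDegree ≤ d) : A.det.totalDegree ≤ ρ * d := by
  rw [Matrix.det_apply']
  refine totalDegree_finsetSum_le ?_
  intro s _
  refine (totalDegree_mul _ _).trans ?_
  have h1 : ((((Equiv.Perm.sign s : ℤˣ) : ℤ) : MvPolynomial σ ℤ)).totalDegree = 0 := by
    rw [← map_intCast (C : ℤ →+* MvPolynomial σ ℤ), totalDegree_C]
  rw [h1, zero_add]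
  refine (totalDegree_finsetProd _ _).trans ?_
  refine (Finset.sum_le_sum (fun i _ => h (s i) i)).trans ?_
  simp

theorem Fam_det_len {σ : Type} {ρ : ℕ} (H : ℝ) (A : Matrix (Fin ρ) (Fin ρ) (MvPolynomial σ ℤ))
    (h : ∀ a b, len (A a b) ≤ H) : len A.det ≤ ρ.factorial * H ^ ρ := by
  rw [Matrix.det_apply']
  refine (Val_len_sum _ _).trans ?_
  have h2 : ∀ s ∈ (Finset.univ : Finset (Equiv.Perm (Fin ρ))),
      len ((((Equiv.Perm.sign s : ℤˣ) : ℤ) : MvPolynomial σ ℤ) * ∏ i, A (s i) i) ≤ H ^ ρ := by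
    intro s _
    refine (Val_len_mul _ _).trans ?_
    have h1 : len ((((Equiv.Perm.sign s : ℤˣ) : ℤ) : MvPolynomial σ ℤ)) ≤ 1 := by
      rw [← map_intCast (C : ℤ →+* MvPolynomial σ ℤ)]
      refine (Val_len_C _).trans ?_
      rcases Int.units_eq_one_or (Equiv.Perm.sign s) with h' | h' <;> simp [h']
    have h3 : len (∏ i, A (s i) i) ≤ H ^ ρ := by
      refine (Val_len_prod _ _).trans ?_
      refine (Finset.prod_le_prod (fun i _ => Val_len_nonneg _) (fun i _ => h (s i) i)).trans ?_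
      simp
    calc _ ≤ 1 * H ^ ρ := mul_le_mul h1 h3 (Val_len_nonneg _) zero_le_one
      _ = H ^ ρ := one_mul _
  refine (Finset.sum_le_sum h2).trans ?_
  simp [Fintype.card_perm]

theorem Fam_mnr {r m D M ρ : ℕ} (φ : Fin m → Fin r → ℂ) (al : Fin ρ → Fin r → ℕ)
    (hal : ∀ a, ∑ k, al a k < M) (l : Fin (ρ + 1) → (Fin m → Fin D)) (j : Fin (ρ + 1)) :
    ∃ Q : MvPolynomial (Fin m × Fin r) ℤ, Q.totalDegree ≤ ρ * M ∧
      len Q ≤ ρ.factorial * ((m : ℝ) * D + 1) ^ (M * ρ) ∧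
      aeval (fun q : Fin m × Fin r => φ q.1 q.2) Q =
        (-1) ^ (j : ℕ) * Matrix.det (Matrix.of fun a b : Fin ρ =>
          ∏ k, bx φ (l (j.succAbove b)) k ^ al a k) := by
  set A : Matrix (Fin ρ) (Fin ρ) (MvPolynomial (Fin m × Fin r) ℤ) :=
    Matrix.of fun a b : Fin ρ => Fam_ap (al a) (l (j.succAbove b)) with hA
  have hdeg : A.det.totalDegree ≤ ρ * M := Fam_det_deg A (fun a b => by
    rw [hA]
    exact (Fam_ap_deg _ _).trans (hal a).le)
  have h1 : (1 : ℝ) ≤ (m : ℝ) * D + 1 := by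
    have : (0 : ℝ) ≤ (m : ℝ) * D := by positivity
    linarith
  have hlen : len A.det ≤ ρ.factorial * (((m : ℝ) * D + 1) ^ M) ^ ρ := Fam_det_len _ A
    (fun a b => by
      rw [hA]
      exact (Fam_ap_len _ _).trans (pow_le_pow_right₀ h1 (hal a).le))
  have hval : aeval (fun q : Fin m × Fin r => φ q.1 q.2) A.det =
      Matrix.det (Matrix.of fun a b : Fin ρ => ∏ k, bx φ (l (j.succAbove b)) k ^ al a k) := by
    have h := RingHom.map_det
      ((aeval (fun q : Fin m × Fin r => φ q.1 q.2) : MvPolynomial (Fin m × Fin r) ℤ →ₐ[ℤ] ℂ) :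
        MvPolynomial (Fin m × Fin r) ℤ →+* ℂ) A
    have h' : (aeval (fun q : Fin m × Fin r => φ q.1 q.2)) A.det =
      ((aeval (fun q : Fin m × Fin r => φ q.1 q.2) : MvPolynomial (Fin m × Fin r) ℤ →ₐ[ℤ] ℂ) :
        MvPolynomial (Fin m × Fin r) ℤ →+* ℂ) A.det := rfl
    rw [h', h]
    congr 1
    ext a b
    rw [hA]
    simp [Fam_ap_val]
  refine ⟨C ((-1) ^ (j : ℕ)) * A.det, ?_, ?_, ?_⟩
  · refine (totalDegree_mul _ _).trans ?_
    rw [totalDegree_C, zero_add]
    exact hdeg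
  · refine (Val_len_mul _ _).trans ?_
    have h2 : len (C ((-1) ^ (j : ℕ)) : MvPolynomial (Fin m × Fin r) ℤ) ≤ 1 := by
      refine (Val_len_C _).trans ?_
      push_cast
      rw [abs_pow]
      simp
    calc _ ≤ 1 * (ρ.factorial * (((m : ℝ) * D + 1) ^ M) ^ ρ) :=
          mul_le_mul h2 hlen (Val_len_nonneg _) zero_le_one
      _ = ρ.factorial * ((m : ℝ) * D + 1) ^ (M * ρ) := by rw [one_mul, ← pow_mul]
  · rw [map_mul, hval, aeval_C]
    simp

/-- The numerical estimate. -/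
theorem Fam_num (r m D M ρ C₀ : ℕ) (hD : 1 ≤ D) (hM : 1 ≤ M) (hρ : ρ ≤ M ^ r) :
    ((ρ : ℝ) + 1) * (ρ.factorial * ((m : ℝ) * D + 1) ^ (M * ρ) * (C₀ : ℝ) ^ (M ^ (r + 1) + 1)) ≤
      Real.exp ((2 * (1 + r) + m + 2 * C₀) * ((D : ℝ) * M) ^ (r + m + 3)) := by
  have hMr : (1 : ℝ) ≤ M := by exact_mod_cast hM
  have hDr : (1 : ℝ) ≤ D := by exact_mod_cast hD
  have hDM : (1 : ℝ) ≤ (D : ℝ) * M := by nlinarith
  set E : ℝ := ((D : ℝ) * M) ^ (r + m + 3) with hE
  have hP : (1 : ℝ) ≤ (M : ℝ) ^ (r + 1) := one_le_pow₀ hMr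
  have hE1 : (D : ℝ) * (M : ℝ) ^ (r + 1) ≤ E := by
    calc (D : ℝ) * (M : ℝ) ^ (r + 1) ≤ (D : ℝ) ^ (r + 1) * (M : ℝ) ^ (r + 1) := by
          refine mul_le_mul_of_nonneg_right ?_ (by positivity)
          calc (D : ℝ) = (D : ℝ) ^ 1 := (pow_one _).symm
            _ ≤ (D : ℝ) ^ (r + 1) := pow_le_pow_right₀ hDr (by omega)
      _ = ((D : ℝ) * M) ^ (r + 1) := (mul_pow _ _ _).symm
      _ ≤ E := pow_le_pow_right₀ hDM (by omega)
  have hE2 : (M : ℝ) ^ (r + 1) ≤ E := by
    calc (M : ℝ) ^ (r + 1) = 1 * (M : ℝ) ^ (r + 1) := (one_mul _).symm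
      _ ≤ (D : ℝ) * (M : ℝ) ^ (r + 1) := mul_le_mul_of_nonneg_right hDr (by positivity)
      _ ≤ E := hE1
  have hρr : (ρ : ℝ) ≤ (M : ℝ) ^ r := by exact_mod_cast hρ
  have hMr0 : (1 : ℝ) ≤ (M : ℝ) ^ r := one_le_pow₀ hMr
  -- the factorial
  have e1 : ((ρ : ℝ) + 1) * ρ.factorial ≤ Real.exp (2 * (1 + r) * E) := by
    have h1 : ((ρ : ℝ) + 1) * ρ.factorial ≤ ((ρ : ℝ) + 1) ^ (ρ + 1) := by
      have := Nat.factorial_le_pow (ρ + 1)
      rw [Nat.factorial_succ] at this
      exact_mod_cast this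
    have h2 : ((ρ : ℝ) + 1) ≤ Real.exp (1 + r * M) := by
      calc ((ρ : ℝ) + 1) ≤ 2 * (M : ℝ) ^ r := by linarith
        _ ≤ Real.exp 1 * Real.exp M ^ r := by
            refine mul_le_mul ?_ ?_ (by positivity) (Real.exp_pos _).le
            · have := Real.add_one_le_exp (1 : ℝ)
              linarith
            · refine pow_le_pow_left₀ (by positivity) ?_ _
              have := Real.add_one_le_exp (M : ℝ)
              linarith
        _ = Real.exp (1 + r * M) := by rw [← Real.exp_nat_mul, ← Real.exp_add]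
    calc ((ρ : ℝ) + 1) * ρ.factorial ≤ ((ρ : ℝ) + 1) ^ (ρ + 1) := h1
      _ ≤ Real.exp (1 + r * M) ^ (ρ + 1) := pow_le_pow_left₀ (by positivity) h2 _
      _ = Real.exp (((ρ + 1 : ℕ) : ℝ) * (1 + r * M)) := by rw [← Real.exp_nat_mul]
      _ ≤ Real.exp (2 * (1 + r) * E) := by
          refine Real.exp_le_exp.mpr ?_
          push_cast
          calc ((ρ : ℝ) + 1) * (1 + r * M) ≤ (2 * (M : ℝ) ^ r) * ((1 + r) * M) := by
                refine mul_le_mul (by linarith) ?_ (by positivity) (by positivity)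
                nlinarith
            _ = 2 * (1 + r) * (M : ℝ) ^ (r + 1) := by ring
            _ ≤ 2 * (1 + r) * E := mul_le_mul_of_nonneg_left hE2 (by positivity)
  have e2 : ((m : ℝ) * D + 1) ^ (M * ρ) ≤ Real.exp (m * E) := by
    calc ((m : ℝ) * D + 1) ^ (M * ρ) ≤ Real.exp (m * D) ^ (M * ρ) :=
          pow_le_pow_left₀ (by positivity) (Real.add_one_le_exp _) _
      _ = Real.exp (((M * ρ : ℕ) : ℝ) * (m * D)) := by rw [← Real.exp_nat_mul]
      _ ≤ Real.exp (m * E) := by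
          refine Real.exp_le_exp.mpr ?_
          push_cast
          calc (M : ℝ) * ρ * (m * D) ≤ (M : ℝ) * (M : ℝ) ^ r * (m * D) := by
                refine mul_le_mul_of_nonneg_right ?_ (by positivity)
                exact mul_le_mul_of_nonneg_left hρr (by positivity)
            _ = m * (D * (M : ℝ) ^ (r + 1)) := by ring
            _ ≤ m * E := mul_le_mul_of_nonneg_left hE1 (by positivity)
  have e3 : (C₀ : ℝ) ^ (M ^ (r + 1) + 1) ≤ Real.exp (2 * C₀ * E) := by
    calc (C₀ : ℝ) ^ (M ^ (r + 1) + 1) ≤ Real.exp C₀ ^ (M ^ (r + 1) + 1) := by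
          refine pow_le_pow_left₀ (by positivity) ?_ _
          have := Real.add_one_le_exp (C₀ : ℝ)
          linarith
      _ = Real.exp (((M ^ (r + 1) + 1 : ℕ) : ℝ) * C₀) := by rw [← Real.exp_nat_mul]
      _ ≤ Real.exp (2 * C₀ * E) := by
          refine Real.exp_le_exp.mpr ?_
          push_cast
          calc ((M : ℝ) ^ (r + 1) + 1) * C₀ ≤ (2 * E) * C₀ :=
                mul_le_mul_of_nonneg_right (by linarith) (by positivity)
            _ = 2 * C₀ * E := by ring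
  calc ((ρ : ℝ) + 1) * (ρ.factorial * ((m : ℝ) * D + 1) ^ (M * ρ) *
        (C₀ : ℝ) ^ (M ^ (r + 1) + 1))
      = (((ρ : ℝ) + 1) * ρ.factorial) * ((m : ℝ) * D + 1) ^ (M * ρ) *
        (C₀ : ℝ) ^ (M ^ (r + 1) + 1) := by ring
    _ ≤ Real.exp (2 * (1 + r) * E) * Real.exp (m * E) * Real.exp (2 * C₀ * E) := by
        refine mul_le_mul (mul_le_mul e1 e2 (by positivity) (Real.exp_pos _).le) e3
          (by positivity) (by positivity)
    _ = Real.exp ((2 * (1 + r) + m + 2 * C₀) * E) := by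
        rw [← Real.exp_add, ← Real.exp_add]
        congr 1
        ring

/-- Values of an integer polynomial. -/
theorem Fam_val_le (γ : ℂ) (d : ℕ) (B : Polynomial ℤ) (hB : B.natDegree ≤ d) :
    ‖Polynomial.aeval γ B‖ ≤ lenP B * (max 1 ‖γ‖) ^ d := by
  rw [Polynomial.aeval_eq_sum_range]
  refine (norm_sum_le _ _).trans ?_
  have h1 : lenP B = ∑ i ∈ Finset.range (B.natDegree + 1), |(B.coeff i : ℝ)| := by
    apply Pool.Agent.Work.MP_327059_nt.AA.NL_len_eq
    intro i hi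
    rw [Finset.mem_range]
    exact Nat.lt_succ_of_le (Polynomial.le_natDegree_of_mem_supp i hi)
  rw [h1, Finset.sum_mul]
  refine Finset.sum_le_sum ?_
  intro i hi
  rw [zsmul_eq_mul, norm_mul, norm_pow]
  have h2 : ‖((B.coeff i : ℤ) : ℂ)‖ = |(B.coeff i : ℝ)| := by
    rw [Complex.norm_intCast]
  rw [h2]
  refine mul_le_mul_of_nonneg_left ?_ (abs_nonneg _)
  calc ‖γ‖ ^ i ≤ (max 1 ‖γ‖) ^ i := pow_le_pow_left₀ (norm_nonneg _) (le_max_right _ _) _
    _ ≤ (max 1 ‖γ‖) ^ d := pow_le_pow_right₀ (le_max_left _ _) (by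
        rw [Finset.mem_range] at hi
        omega)

/-- Sums over the box of functions supported on the range of an injective `l`. -/
theorem Fam_sum {Λ R : Type} [Fintype Λ] [AddCommMonoid R] {n : ℕ} (l : Fin n → Λ)
    (hl : Function.Injective l) (f : Λ → R) (hf : ∀ x, x ∉ Set.range l → f x = 0) :
    ∑ x, f x = ∑ j, f (l j) := by
  classical
  rw [← Finset.sum_image (s := Finset.univ) (g := l) (f := f) (fun a _ b _ h => hl h)]
  symm
  apply Finset.sum_subset (Finset.subset_univ _)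
  intro x _ hx
  apply hf
  rintro ⟨j, rfl⟩
  exact hx (Finset.mem_image_of_mem _ (Finset.mem_univ _))

theorem pr_Fam (h1 : S_RedN) (h2 : S_Minor) (h3 : S_UpE) : S_Fam := by
  classical
  intro r m φ hφ
  obtain ⟨γ, q, C₀, g, hγ, hq, hC₀, hg, hgγ, hred⟩ := h1 (Fin m × Fin r)
    (fun p => φ p.1 p.2) (fun p => hφ p.1 p.2)
  set G1 : ℝ := (max 1 ‖γ‖) ^ g.natDegree with hG1d
  have hG1 : 1 ≤ G1 := one_le_pow₀ (le_max_left _ _)
  set Φ : ℝ := ∑ k, ∑ j, ‖φ j k‖ with hΦd
  have hΦ : 0 ≤ Φ := Finset.sum_nonneg fun k _ => Finset.sum_nonneg fun j _ => norm_nonneg _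
  set C1 : ℝ := 2 * (1 + r) + m + 2 * C₀ with hC1
  have hC1' : 0 ≤ C1 := by rw [hC1]; positivity
  refine ⟨γ, g, C1 + 2 * G1 + Φ, hγ, hg, hgγ, by linarith, ?_⟩
  intro D M hD hM
  have hMr : (1 : ℝ) ≤ M := by exact_mod_cast hM
  have hDr : (1 : ℝ) ≤ D := by exact_mod_cast hD
  have hDM : (1 : ℝ) ≤ (D : ℝ) * M := by nlinarith
  set E : ℝ := ((D : ℝ) * M) ^ (r + m + 3) with hE
  have hE1 : 1 ≤ E := one_le_pow₀ hDM
  set n : ℕ := M ^ (r + 1) with hn
  have hcard : Fintype.card {α : Fin r → Fin M // ∑ k, (α k : ℕ) < M} ≤ M ^ r := by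
    refine (Fintype.card_subtype_le _).trans ?_
    simp
  let A : {α : Fin r → Fin M // ∑ k, (α k : ℕ) < M} → (Fin m → Fin D) → ℂ :=
    fun α x => ∏ k, bx φ x k ^ ((α.1 k : ℕ))
  let FF : Set ((Fin m → Fin D) → Polynomial ℤ) := {P |
    ∃ (ρ : ℕ) (i : Fin ρ → {α : Fin r → Fin M // ∑ k, (α k : ℕ) < M})
      (l : Fin (ρ + 1) → (Fin m → Fin D)), ρ ≤ M ^ r ∧ Function.Injective l ∧
      (∀ α, ∑ j, mnr A i l j * A α (l j) = 0) ∧
      (∀ j, (P (l j)).natDegree ≤ g.natDegree) ∧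
      (∀ j, (q : ℂ) ^ n * mnr A i l j = Polynomial.aeval γ (P (l j))) ∧
      (∀ j, lenP (P (l j)) ≤ ρ.factorial * ((m : ℝ) * D + 1) ^ (M * ρ) *
        (C₀ : ℝ) ^ (n + 1)) ∧
      (∀ x, x ∉ Set.range l → P x = 0)}
  have hdeg : ∀ P ∈ FF, ∀ x, (P x).natDegree ≤ g.natDegree := by
    rintro P ⟨ρ, i, l, hρ, hl, hA, hd, hv, hle, h0⟩ x
    by_cases hx : x ∈ Set.range l
    · obtain ⟨j, rfl⟩ := hx
      exact hd j
    · rw [h0 x hx]
      simp
  have hlen : ∀ P ∈ FF, ∑ x, lenP (P x) ≤ Real.exp (C1 * E) := by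
    rintro P ⟨ρ, i, l, hρ, hl, hA, hd, hv, hle, h0⟩
    rw [Fam_sum l hl (fun x => lenP (P x)) (fun x hx => by
      simp only [h0 x hx]
      exact Pool.Agent.Work.MP_327059_nt.AA.NL_len_zero)]
    refine (Finset.sum_le_sum (fun j _ => hle j)).trans ?_
    rw [Finset.sum_const, Finset.card_univ, Fintype.card_fin, nsmul_eq_mul]
    have := Fam_num r m D M ρ C₀ hD hM hρ
    push_cast
    exact this
  refine ⟨FF, hdeg, ?_, ?_, ?_⟩
  · intro P hP
    refine (hlen P hP).trans ?_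
    refine Real.exp_le_exp.mpr ?_
    refine mul_le_mul_of_nonneg_right ?_ (by linarith)
    linarith
  · intro P hP z ε hε hz hδ
    have hsum : ∑ x, ‖Polynomial.aeval γ (P x)‖ ≤ Real.exp (C1 * E) * G1 := by
      calc ∑ x, ‖Polynomial.aeval γ (P x)‖ ≤ ∑ x, lenP (P x) * G1 :=
            Finset.sum_le_sum (fun x _ => Fam_val_le γ _ _ (hdeg P hP x))
        _ = (∑ x, lenP (P x)) * G1 := by rw [Finset.sum_mul]
        _ ≤ Real.exp (C1 * E) * G1 := mul_le_mul_of_nonneg_right (hlen P hP) (by linarith)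
    have hCC : 0 ≤ C1 + 2 * G1 + Φ := by linarith
    have hδ0 : 0 ≤ (C1 + 2 * G1 + Φ) * D * ε := by positivity
    have hup := h3 r m D M φ (fun x => Polynomial.aeval γ (P x)) z
      ((C1 + 2 * G1 + Φ) * D * ε) hM ?_ ?_ hδ0 hδ
    · refine hup.trans ?_
      calc (∑ x, ‖Polynomial.aeval γ (P x)‖) * (2 * ((C1 + 2 * G1 + Φ) * D * ε) ^ M)
          ≤ (Real.exp (C1 * E) * G1) * (2 * ((C1 + 2 * G1 + Φ) * D * ε) ^ M) :=
            mul_le_mul_of_nonneg_right hsum (by positivity)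
        _ = (Real.exp (C1 * E) * (2 * G1)) * ((C1 + 2 * G1 + Φ) * D * ε) ^ M := by ring
        _ ≤ Real.exp ((C1 + 2 * G1 + Φ) * E) * ((C1 + 2 * G1 + Φ) * D * ε) ^ M := by
            refine mul_le_mul_of_nonneg_right ?_ (by positivity)
            calc Real.exp (C1 * E) * (2 * G1) ≤ Real.exp (C1 * E) * Real.exp (2 * G1 * E) := by
                  refine mul_le_mul_of_nonneg_left ?_ (Real.exp_pos _).le
                  have h5 := Real.add_one_le_exp (2 * G1 * E)
                  have h6 : 2 * G1 ≤ 2 * G1 * E := by nlinarith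
                  linarith
              _ = Real.exp (C1 * E + 2 * G1 * E) := (Real.exp_add _ _).symm
              _ ≤ Real.exp ((C1 + 2 * G1 + Φ) * E) := by
                  refine Real.exp_le_exp.mpr ?_
                  nlinarith
    · intro α hα
      obtain ⟨ρ, i, l, hρ, hl, hA, hd, hv, hle, h0⟩ := hP
      rw [Fam_sum l hl (fun x => Polynomial.aeval γ (P x) * ∏ k, bx φ x k ^ α k)
        (fun x hx => by simp only [h0 x hx, map_zero, zero_mul])]
      have hlt : ∀ k, α k < M := fun k =>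
        (Finset.single_le_sum (f := α) (fun _ _ => Nat.zero_le _) (Finset.mem_univ k)).trans_lt hα
      have h6 := hA ⟨fun k => ⟨α k, hlt k⟩, hα⟩
      calc ∑ j, Polynomial.aeval γ (P (l j)) * ∏ k, bx φ (l j) k ^ α k
          = ∑ j, (q : ℂ) ^ n * (mnr A i l j * A ⟨fun k => ⟨α k, hlt k⟩, hα⟩ (l j)) := by
            refine Finset.sum_congr rfl ?_
            intro j _
            rw [← hv j, mul_assoc]
        _ = 0 := by rw [← Finset.mul_sum, h6, mul_zero]
    · intro x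
      have h7 : ∀ k, ‖bx φ x k‖ ≤ D * ∑ j, ‖φ j k‖ := by
        intro k
        unfold bx
        refine (norm_sum_le _ _).trans ?_
        rw [Finset.mul_sum]
        refine Finset.sum_le_sum ?_
        intro j _
        rw [norm_mul]
        refine mul_le_mul_of_nonneg_right ?_ (norm_nonneg _)
        rw [Complex.norm_natCast]
        exact_mod_cast (x j).2.le
      calc ‖∑ k, bx φ x k * z k‖ ≤ ∑ k, ‖bx φ x k * z k‖ := norm_sum_le _ _
        _ ≤ ∑ k, (D * ∑ j, ‖φ j k‖) * ε := by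
            refine Finset.sum_le_sum ?_
            intro k _
            rw [norm_mul]
            exact mul_le_mul (h7 k) (hz k) (norm_nonneg _) (by positivity)
        _ = D * Φ * ε := by rw [← Finset.sum_mul, ← Finset.mul_sum]
        _ ≤ (C1 + 2 * G1 + Φ) * D * ε := by
            refine mul_le_mul_of_nonneg_right ?_ hε
            nlinarith
  · intro v hv
    have hex2 : ∃ c : {α : Fin r → Fin M // ∑ k, (α k : ℕ) < M} → ℂ,
        ∀ x, v x = ∑ α, c α * A α x := by
      refine h2 {α : Fin r → Fin M // ∑ k, (α k : ℕ) < M} (Fin m → Fin D) A v ?_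
      intro ρ i l hρ hl hA
      have hρ' : ρ ≤ M ^ r := hρ.trans hcard
      have hex : ∀ j : Fin (ρ + 1), ∃ B : Polynomial ℤ, B.natDegree ≤ g.natDegree ∧
          (q : ℂ) ^ n * mnr A i l j = Polynomial.aeval γ B ∧
          lenP B ≤ ρ.factorial * ((m : ℝ) * D + 1) ^ (M * ρ) * (C₀ : ℝ) ^ (n + 1) := by
        intro j
        obtain ⟨Q, hQ1, hQ2, hQ3⟩ := Fam_mnr φ (fun a k => ((i a).1 k : ℕ))
          (fun a => (i a).2) l j
        have hQn : Q.totalDegree ≤ n := by
          refine hQ1.trans ?_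
          rw [hn, pow_succ]
          exact Nat.mul_le_mul_right _ hρ'
        obtain ⟨B, hB1, hB2, hB3⟩ := hred n Q hQn
        refine ⟨B, hB1, ?_, ?_⟩
        · rw [← hB2, hQ3]
          rfl
        · refine hB3.trans ?_
          exact mul_le_mul_of_nonneg_right hQ2 (by positivity)
      choose B hB1 hB2 hB3 using hex
      let P : (Fin m → Fin D) → Polynomial ℤ := fun x =>
        if h : x ∈ Set.range l then B h.choose else 0
      have hPl : ∀ j, P (l j) = B j := by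
        intro j
        have hmem : l j ∈ Set.range l := ⟨j, rfl⟩
        have : hmem.choose = j := hl hmem.choose_spec
        simp only [P]
        rw [dif_pos hmem, this]
      have hP0 : ∀ x, x ∉ Set.range l → P x = 0 := by
        intro x hx
        simp only [P]
        rw [dif_neg hx]
      have hPF : P ∈ FF := by
        refine ⟨ρ, i, l, hρ', hl, hA, ?_, ?_, ?_, hP0⟩
        · intro j
          rw [hPl j]
          exact hB1 j
        · intro j
          rw [hPl j]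
          exact hB2 j
        · intro j
          rw [hPl j]
          exact hB3 j
      have h8 := hv P hPF
      rw [Fam_sum l hl (fun x => Polynomial.aeval γ (P x) * v x)
        (fun x hx => by simp only [hP0 x hx, map_zero, zero_mul])] at h8
      have h9 : (q : ℂ) ^ n * ∑ j, mnr A i l j * v (l j) = 0 := by
        rw [← h8, Finset.mul_sum]
        refine Finset.sum_congr rfl ?_
        intro j _
        rw [hPl j, ← hB2 j, mul_assoc]
      rcases mul_eq_zero.mp h9 with h10 | h10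
      · exfalso
        have : (q : ℂ) ≠ 0 := by
          have : q ≠ 0 := by omega
          exact_mod_cast this
        exact pow_ne_zero n this h10
      · exact h10
    · obtain ⟨c, hc⟩ := hex2
      refine ⟨∑ α : {α : Fin r → Fin M // ∑ k, (α k : ℕ) < M},
        C (c α) * ∏ k, X k ^ ((α.1 k : ℕ)), ?_, ?_⟩
      · refine totalDegree_finsetSum_le ?_
        intro α _
        refine (totalDegree_mul _ _).trans ?_
        rw [totalDegree_C, zero_add]
        refine (totalDegree_finsetProd _ _).trans ?_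
        refine le_trans (Finset.sum_le_sum (g := fun k => (α.1 k : ℕ)) ?_) α.2.le
        intro k _
        refine (totalDegree_pow _ _).trans ?_
        rw [totalDegree_X, mul_one]
      · intro x
        rw [hc x, map_sum]
        refine Finset.sum_congr rfl ?_
        intro α _
        simp [A]

end Pool.Agent.Work.MP_8da9ea_nt.SI
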