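import Mathlib
import Pool.Agent.Work.MP_8da9ea_nt.SI.Stmts

/-!
# PROJECT SI: statements, part A (algebra) and the main theorem
-/

set_option autoImplicit false

namespace Pool.Agent.Work.MP_8da9ea_nt.SI

open MvPolynomial Pool.Agent.Work.MP_327059_nt.GL Pool.Agent.Work.MP_327059_nt.FR

/-! ## Functionals -/

/-- **FunD.** Enough functionals: the dual basis of a basis of `Z`, extended to `ℂ`
(`LinearMap.exists_extend`). -/
def S_FunD : Prop := ∀ Z : Submodule ℚ ℂ, FiniteDimensional ℚ Z →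
  ∃ (N : ℕ) (μ : Fin N → ℂ →ₗ[ℚ] ℚ), ∀ z ∈ Z, (∀ i, μ i z = 0) → z = 0

/-- **EmbS.** For numbers `b_k` in a number field `B`, linearly independent over `ℚ`, and complex
`h ≠ 0` there is an embedding `σ` of `B` with `∑ σ(b_k) h_k ≠ 0`.
Proof. Otherwise `∑_k σ(b_k) h_k = 0` for all `σ : B →ₐ[ℚ] ℂ`. Complete the `b_k` to a basis
`β_1, …, β_d` of `B` (`d = [B : ℚ] =` number of embeddings) and `h` by zeros: the matrix
`(σ(β_i))` is invertible (`Algebra.discr_not_zero_of_basis`, `Algebra.discr_eq_det_embeddingsMatrixReindex_pow_two`,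
or Dedekind's `linearIndependent_monoidHom`: a row vector `(c_σ)` with `∑_σ c_σ σ(β_i) = 0` for all
`i` is `0`, and a square matrix with independent rows is invertible), so `h = 0`. -/
def S_EmbS : Prop := ∀ (B : IntermediateField ℚ ℂ) (m : ℕ) (b : Fin m → B) (h : Fin m → ℂ),
  FiniteDimensional ℚ B → LinearIndependent ℚ b → h ≠ 0 →
    ∃ σ : B →ₐ[ℚ] ℂ, ∑ k, σ (b k) * h k ≠ 0

/-- **RobA.** The rank of the points, tested on the forms `∑ b_k ⊗ h_k` (from `S_EmbS`).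
Proof. `B = ℚ(b)`, `[B : ℚ] ≤ δ` (`IntermediateField.adjoin ℚ (Set.range b)`, finite dimensional).
Let `y_i = ∑_(k,a) b_k x_a μ_i(h_k v_a)`, `Y` their `ℚ`-span and `BY` their `B`-span:
`dim_ℚ BY ≤ δ dim_ℚ Y`. Suppose `δ dim Y < n = dim_ℚ span(x)`. Then some `x_a0 ∉ BY`, so there is
a `B`-linear `ω : ℂ → B` with `ω(BY) = 0`, `ω(x_a0) ≠ 0` (`Submodule.exists_le_ker_of_notMem` or
similar). Apply `ω` to `y_i`: `∑_(k,a) b_k ω(x_a) μ_i(h_k v_a) = 0` in `B`, for all `i`. Let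
`β_1, …, β_d` be a basis of `B` over `ℚ`, `b_k ω(x_a) = ∑_l q_kal β_l`: then
`μ_i(∑_(k,a) q_kal h_k v_a) = 0` for all `i`, `l`, and `∑_(k,a) q_kal h_k v_a ∈ Z`, so it is `0`
for all `l`. For an embedding `σ : B → ℂ`: `∑_l σ(β_l) ∑_(k,a) q_kal h_k v_a = 0`, i.e.
`(∑_k σ(b_k) h_k) (∑_a σ(ω(x_a)) v_a) = 0`. Choose `σ` by `S_EmbS` (the `b_k` as elements of `B`
are independent): `∑_a σ(ω(x_a)) v_a = 0` with algebraic coefficients, so `σ(ω(x_a)) = 0` for all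
`a`, and `σ` is injective: contradiction with `ω(x_a0) ≠ 0`. -/
def S_RobA : Prop := ∀ (n m δ N : ℕ) (b : Fin m → ℂ) (x v : Fin n → ℂ) (h : Fin m → ℂ)
  (μ : Fin N → ℂ →ₗ[ℚ] ℚ) (Z : Submodule ℚ ℂ), (∀ k, IsAlgebraic ℚ (b k)) →
  LinearIndependent ℚ b → LinearIndependent ℚ x →
  (∀ c : Fin n → ℂ, (∀ i, IsAlgebraic ℚ (c i)) → ∑ i, v i * c i = 0 → c = 0) → h ≠ 0 →
  (∀ k a, h k * v a ∈ Z) → (∀ z ∈ Z, (∀ i, μ i z = 0) → z = 0) →
  Module.finrank ℚ (IntermediateField.adjoin ℚ (Set.range b)) ≤ δ →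
    n ≤ δ * Module.finrank ℚ (Submodule.span ℚ (Set.range fun i =>
      ∑ k, ∑ a, b k * x a * (μ i (h k * v a) : ℂ)))

/-! ## The ultrapower -/

/-- **Rel2.** Two independent relations between the differentials (adapt `FR.UPC_rel`, file
FR/UPC.lean: `exists_finset_rank` gives a finite set `s` of indices, algebraically independent,
`s.card` = dimension of the space `D` of all `(δ F_i)_i`; `s.card ≤ m - 1`, otherwise `m` of the `F_i`
are independent; so the annihilator of `D` in `ℂ^(m+1)` has dimension at least `2`: take two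
independent functionals and multiply the coordinates `some j` by `F (some j)`). -/
def S_Rel2 : Prop := ∀ (m : ℕ) (F : Option (Fin m) → ℂ), (∀ j, F (some j) ≠ 0) →
  (∀ s : Fin m → Option (Fin m), ¬ AlgebraicIndependent ℚ (fun i => F (s i))) →
  ∃ a : Fin 2 → Option (Fin m) → ℂ, LinearIndependent ℂ a ∧
    ∀ (u : Fin 2) (δ : Derivation ℚ ℂ ℂ),
      a u none * δ (F none) + ∑ j, a u (some j) * (δ (F (some j)) / F (some j)) = 0

/-- **UPC2.** The ultrapower (adapt `FR.pr_UPC`, from `S_Rel2`). New: the two vectors of relations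
stay independent: for each bad `t` there are `o, o'` with
`a t 0 o * a t 1 o' - a t 0 o' * a t 1 o ≠ 0`; the ultrafilter makes the pair `(o, o')` constant
(finitely many pairs), so this `2 × 2` minor is not `0` in the ultrapower either. -/
def S_UPC2 : Prop := ∀ (n m : ℕ) (x : Fin n → ℂ) (b : Fin m → ℂ), 0 < n →
  (∀ T : Finset (Submodule ℚ (Fin n → ℚ)), (∀ W ∈ T, W ≠ ⊤) →
    ∃ t : Fin n → ℚ, (∀ W ∈ T, t ∉ W) ∧ ∀ s : Fin m → Option (Fin m),
      ¬ AlgebraicIndependent ℚ (fun i => ((s i).elim (Fintype.linearCombination ℚ x t)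
        (fun j => Complex.exp (b j * Fintype.linearCombination ℚ x t)) : ℂ))) →
  ∃ (ι : ℂ →+* ℂ) (xd : Derivation ℚ ℂ ℂ → Derivation ℚ ℂ ℂ) (v : Fin n → ℂ)
    (a : Fin 2 → Option (Fin m) → ℂ), NS2 x b ι xd v a

/-- **Ax22.** The output of the Ax type argument (adapt `FR.pr_Ax2`, file FR/Ax2.lean). The space of
the forms is contained in the kernel of two independent functionals on `ℂ^(m+1)`, of dimension
`m - 1` (`m ≥ 1` automatically), so `rk + 1 ≤ m` and both conclusions improve by `1`. -/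
def S_Ax22 : Prop := ∀ (n m : ℕ) (x : Fin n → ℂ) (b : Fin m → ℂ) (ι : ℂ →+* ℂ)
  (xd : Derivation ℚ ℂ ℂ → Derivation ℚ ℂ ℂ) (v : Fin n → ℂ)
  (a : Fin 2 → Option (Fin m) → ℂ),
  NS2 x b ι xd v a → ∃ (G : AddSubgroup (Fin n → Fin m → ℤ)) (k0 : ℕ) (f : Fin k0 → ℂ),
    AlgebraicIndependent ℚ f ∧
    (∀ ξ ∈ G, AlgOver f (mon (fun i j => Complex.exp (b j * x i)) ξ)) ∧
    ug G v + k0 + 1 ≤ m ∧ ((∀ i, AlgOver f (x i)) ∨ ug G v + k0 + 2 ≤ m)

/-! ## Conclusion -/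

/-- The contradiction. -/
def CovPS (δ m s r r' n₀ : ℕ) : Prop :=
  ∀ (n : ℕ) (b : Fin m → ℂ) (x v : Fin n → ℂ) (k0 : ℕ) (f : Fin k0 → ℂ)
      (G : AddSubgroup (Fin n → Fin m → ℤ)) (J : Finset (Fin m)) (c : J → Fin m → ℂ)
      (g : Fin r → ℂ) (h : Fin r' → ℂ) (q : J → Fin r' → Fin m → Fin r → ℚ),
      n₀ ≤ n → (∀ k, IsAlgebraic ℚ (b k)) → LinearIndependent ℚ b →
      Module.finrank ℚ (IntermediateField.adjoin ℚ (Set.range b)) ≤ δ →
      (∀ c : Fin n → ℂ, (∀ i, IsAlgebraic ℚ (c i)) → ∑ i, v i * c i = 0 → c = 0) →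
      LinearIndependent ℚ x →
      (∀ ξ ∈ G, AlgOver f (mon (fun i j => Complex.exp (b j * x i)) ξ)) →
      J.card = s → (∀ j j' : J, c j j' = if j = j' then 1 else 0) →
      (∀ (j : J) (μ : ℂ →ₗ[ℚ] ℚ), ∃ N : ℕ, N ≠ 0 ∧ ∃ ξ ∈ G, ∀ i k,
        (ξ i k : ℚ) = N * μ (v i * c j k)) →
      LinearIndependent ℚ g → LinearIndependent ℚ h →
      (∀ j a k, h a * c j k = ∑ p, (q j a k p : ℂ) * g p) →
      ((∀ i, AlgOver f (x i)) ∧ k0 + 1 ≤ s ∨ k0 + 2 ≤ s) → False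

/-- **CoreS.** (from `S_FunD`, `S_RobA`, `S_TIS`, `GL.S_TrCount`; adapt `FR.CovR_core`,
file FR/CovR.lean.)
Proof. `Z` = span of the `g_p v_a`, `μ` from `S_FunD`, `w_i = (∑_a μ_i(g_p v_a) x_a)_p`, forms
`φ_(j,a) = (∑_k b_k q(j,a,k,p))_p`, indexed by `J × Fin r'`, `m' = s r'` of them; they are algebraic and
linearly independent (as in `FR.CovR_LI`, without the unit vectors); `e^(φ_(j,a)·w_i)` is algebraic
over `ℚ(f)` (`FR.CovR_exp`). `RobP κ φ w` if `n ≥ δ κ`: for `W ≠ 0` on `J × Fin r'` let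
`H_k = ∑ W_(j,a) h_a c_jk`; `H ≠ 0` since `H_j = ∑_a W_(j,a) h_a` for `j ∈ J`;
`H_k v_a = ∑_p (∑ W_(j,a') q(j,a',k,p)) g_p v_a ∈ Z`, and
`∑_p (∑ W φ)_p w_ip = ∑_k ∑_a b_k x_a μ_i(H_k v_a)`: `S_RobA` gives `n ≤ δ rank`. (`δ ≥ 1` since a
field has positive degree; if `n ≥ δ κ` then `rank ≥ κ`.)
First case: `S_TIS` for `(r, s r', 1, s-1)`: `r s < r + s r'`; `TLe 1 (s-1)` since
`k0 ≤ s - 1` and the `x_i`, hence the `w_ip`, are algebraic over `ℚ(f)` (`FR.CovR_sum`,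
`FR.CovR_TrLe`). Second case: `S_TIS` for `(r, s r', 0, s-2)`: `r (s-1) < s r'`, `k0 ≤ s-2`. -/
def S_CoreS : Prop := ∀ δ m s r r' : ℕ, 1 ≤ r → s * r < s * r' + r → ∃ n₀ : ℕ,
  CovPS δ m s r r' n₀

/-- **CovS.** Covering by proper subspaces (from `S_UPC2`, `S_Ax22`, `FR.S_Lin2`, `FR.S_Grow`,
`S_CoreS`; adapt `FR.pr_CovB`). If `¬ Sch b z` then no `m` of the `m + 1` numbers `z`,
`e^(b_j z)` are algebraically independent (replace `z` by `b_j0 z`, `b_j0 ≠ 0` algebraic; `m ≥ 1`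
because `Sch b z` holds for `m = 0`). `v` is independent over the algebraic numbers: `NS2` says so over
the range of `ι`, and every algebraic number is in the range of `ι : ℂ → ℂ` (its minimal
polynomial splits in the range). -/
def S_CovS : Prop := ∀ m δ : ℕ, ∃ n₀ : ℕ, ∀ b : Fin m → ℂ, (∀ k, IsAlgebraic ℚ (b k)) →
  LinearIndependent ℚ b → Module.finrank ℚ (IntermediateField.adjoin ℚ (Set.range b)) ≤ δ →
  ∀ n : ℕ, n₀ < n → ∀ x : Fin n → ℂ, LinearIndependent ℚ x →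
    ∃ T : Finset (Submodule ℚ (Fin n → ℚ)), (∀ W ∈ T, W ≠ ⊤) ∧
      ∀ t : Fin n → ℚ, ¬ S.Sch b (Fintype.linearCombination ℚ x t) → ∃ W ∈ T, t ∈ W

/-- **SI.** Theorem S-inf (from `S_CovS` by induction on the dimension of `V`; compare
`FL.descent` in FL/Fin.lean). -/
def S_SI : Prop := ∀ m δ : ℕ, ∃ n₀ : ℕ, ∀ b : Fin m → ℂ, (∀ k, IsAlgebraic ℚ (b k)) →
  LinearIndependent ℚ b → Module.finrank ℚ (IntermediateField.adjoin ℚ (Set.range b)) ≤ δ →
  ∀ V : Submodule ℚ ℂ, FiniteDimensional ℚ V →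
    ∃ T : Finset (Submodule ℚ ℂ), (∀ W ∈ T, W ≤ V ∧ Module.finrank ℚ W ≤ n₀) ∧
      ∀ z ∈ V, ¬ S.Sch b z → ∃ W ∈ T, z ∈ W

end Pool.Agent.Work.MP_8da9ea_nt.SI
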