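import Mathlib
import Pool.Agent.Work.MP_8da9ea_nt.SI.Stmts2

/-!
# Item FunD: enough functionals
-/

set_option autoImplicit false

namespace Pool.Agent.Work.MP_8da9ea_nt.SI

theorem pr_FunD : S_FunD := by
  intro Z hZ
  obtain ⟨b⟩ : Nonempty (Module.Basis (Fin (Module.finrank ℚ Z)) ℚ Z) :=
    ⟨Module.finBasis ℚ Z⟩
  have hex : ∀ i, ∃ μ : ℂ →ₗ[ℚ] ℚ, μ.comp Z.subtype = b.coord i := fun i =>
    LinearMap.exists_extend (b.coord i)
  choose μ hμ using hex
  refine ⟨Module.finrank ℚ Z, μ, ?_⟩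
  intro z hz h
  have h1 : (⟨z, hz⟩ : Z) = 0 := by
    apply b.repr.injective
    ext i
    have h2 : μ i z = b.coord i ⟨z, hz⟩ := by
      rw [← hμ i]
      rfl
    rw [map_zero, Finsupp.zero_apply]
    rw [h i] at h2
    exact h2.symm
  exact congrArg Subtype.val h1

end Pool.Agent.Work.MP_8da9ea_nt.SI
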