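import Pool.Agent.Work.MP_8da9ea_nt.SI.Stmts

/-! Item Minor: a vector orthogonal to all minor vectors in the kernel is in the row space. -/

set_option autoImplicit false

namespace Pool.Agent.Work.MP_8da9ea_nt.SI

open Matrix

/-- the sizes of the non-zero minors -/
def Minor_P {I Λ : Type} (A : I → Λ → ℂ) (ρ : ℕ) : Prop :=
  ∃ (i : Fin ρ → I) (l : Fin ρ → Λ), Matrix.det (Matrix.of fun a b : Fin ρ => A (i a) (l b)) ≠ 0

lemma Minor_inj_row {I Λ : Type} (A : I → Λ → ℂ) {ρ : ℕ} {i : Fin ρ → I} {l : Fin ρ → Λ}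
    (h : Matrix.det (Matrix.of fun a b : Fin ρ => A (i a) (l b)) ≠ 0) :
    Function.Injective i := by
  intro a b hab
  by_contra hne
  exact h (Matrix.det_zero_of_row_eq hne (by
    funext c
    simp only [Matrix.of_apply, hab]))

lemma Minor_inj_col {I Λ : Type} (A : I → Λ → ℂ) {ρ : ℕ} {i : Fin ρ → I} {l : Fin ρ → Λ}
    (h : Matrix.det (Matrix.of fun a b : Fin ρ => A (i a) (l b)) ≠ 0) :
    Function.Injective l := by
  intro a b hab
  by_contra hne
  exact h (Matrix.det_zero_of_column_eq hne (fun c => by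
    simp only [Matrix.of_apply, hab]))

lemma Minor_sum {I Λ : Type} (A : I → Λ → ℂ) {ρ : ℕ} (i : Fin ρ → I) (l : Fin (ρ + 1) → Λ)
    (α : I) : ∑ j, mnr A i l j * A α (l j) =
      Matrix.det (Matrix.of fun a b : Fin (ρ + 1) => A ((Fin.cons α i : Fin (ρ + 1) → I) a) (l b)) := by
  rw [Matrix.det_succ_row_zero]
  refine Finset.sum_congr rfl fun j _ => ?_
  have e1 : (Matrix.of fun a b : Fin (ρ + 1) =>
      A ((Fin.cons α i : Fin (ρ + 1) → I) a) (l b)) 0 j = A α (l j) := rfl
  have e2 : (Matrix.of fun a b : Fin (ρ + 1) =>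
      A ((Fin.cons α i : Fin (ρ + 1) → I) a) (l b)).submatrix Fin.succ j.succAbove =
      Matrix.of fun a b : Fin ρ => A (i a) (l (j.succAbove b)) := by
    ext a b
    rfl
  rw [e1, e2]
  unfold mnr
  ring

theorem pr_Minor : S_Minor := by
  intro I Λ _ _ A v hyp
  classical
  -- the maximal size
  have hbd : ∀ ρ, Minor_P A ρ → ρ ≤ Fintype.card I := by
    rintro ρ ⟨i, l, h⟩
    have := Fintype.card_le_of_injective i (Minor_inj_row A h)
    rwa [Fintype.card_fin] at this
  have h0 : Minor_P A 0 := ⟨Fin.elim0, Fin.elim0, by rw [Matrix.det_isEmpty]; exact one_ne_zero⟩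
  obtain ⟨ρ, hρ, hmax⟩ : ∃ ρ, Minor_P A ρ ∧ ¬ Minor_P A (ρ + 1) := by
    by_contra hcon
    push Not at hcon
    have : ∀ n, Minor_P A n := by
      intro n
      induction n with
      | zero => exact h0
      | succ n ih => exact hcon n ih
    have := hbd _ (this (Fintype.card I + 1))
    omega
  have hρI := hbd ρ hρ
  obtain ⟨i, l0, hΔ⟩ := hρ
  have hli := Minor_inj_col A hΔ
  obtain ⟨N, hN⟩ : ∃ N : Matrix (Fin ρ) (Fin ρ) ℂ, N = Matrix.of fun a b => A (i a) (l0 b) :=
    ⟨_, rfl⟩
  rw [← hN] at hΔ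
  have hNu : IsUnit N.det := isUnit_iff_ne_zero.mpr hΔ
  obtain ⟨c, hc⟩ : ∃ c : Fin ρ → ℂ, ∀ b, ∑ a, c a * A (i a) (l0 b) = v (l0 b) := by
    refine ⟨(fun b => v (l0 b)) ᵥ* N⁻¹, fun b => ?_⟩
    have h1 : ((fun b => v (l0 b)) ᵥ* N⁻¹) ᵥ* N = fun b => v (l0 b) := by
      rw [Matrix.vecMul_vecMul, Matrix.nonsing_inv_mul N hNu, Matrix.vecMul_one]
    have h2 := congrFun h1 b
    rw [← h2]
    simp only [Matrix.vecMul, dotProduct, hN, Matrix.of_apply]
  -- the main formula
  have key : ∀ x, v x = ∑ a, c a * A (i a) x := by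
    intro x
    by_cases hx : x ∈ Set.range l0
    · obtain ⟨b, rfl⟩ := hx
      exact (hc b).symm
    · obtain ⟨l, hl⟩ : ∃ l : Fin (ρ + 1) → Λ, l = Fin.cons x l0 := ⟨_, rfl⟩
      have hlinj : Function.Injective l := by
        rw [hl, Fin.cons_injective_iff]
        exact ⟨hx, hli⟩
      have hz : ∀ α : I, ∑ j, mnr A i l j * A α (l j) = 0 := by
        intro α
        rw [Minor_sum]
        by_contra hne
        exact hmax ⟨Fin.cons α i, l, hne⟩
      have hv := hyp ρ i l hρI hlinj hz
      have hm0 : mnr A i l 0 = N.det := by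
        unfold mnr
        rw [hN, hl]
        simp only [Fin.val_zero, pow_zero, one_mul]
        rfl
      have hl0 : l 0 = x := by rw [hl]; rfl
      have hls : ∀ j : Fin ρ, l j.succ = l0 j := fun j => by rw [hl]; rfl
      rw [Fin.sum_univ_succ, hm0, hl0] at hv
      simp only [hls] at hv
      have hA : ∀ a : Fin ρ, N.det * A (i a) x = - ∑ j : Fin ρ, mnr A i l j.succ * A (i a) (l0 j) := by
        intro a
        have h1 := hz (i a)
        rw [Fin.sum_univ_succ, hm0, hl0] at h1
        simp only [hls] at h1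
        linear_combination h1
      have h2 : N.det * v x = N.det * ∑ a, c a * A (i a) x := by
        have h3 : N.det * v x = - ∑ j : Fin ρ, mnr A i l j.succ * v (l0 j) := by
          linear_combination hv
        rw [h3, Finset.mul_sum]
        have h4 : ∀ a, N.det * (c a * A (i a) x) =
            - ∑ j : Fin ρ, c a * (mnr A i l j.succ * A (i a) (l0 j)) := by
          intro a
          rw [← Finset.mul_sum]
          linear_combination (c a) * hA a
        rw [Finset.sum_congr rfl fun a _ => h4 a, Finset.sum_neg_distrib, Finset.sum_comm]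
        congr 1
        refine Finset.sum_congr rfl fun j _ => ?_
        rw [← hc j, Finset.mul_sum]
        refine Finset.sum_congr rfl fun a _ => ?_
        ring
      exact mul_left_cancel₀ hΔ h2
  refine ⟨fun α => ∑ a, if i a = α then c a else 0, fun x => ?_⟩
  rw [key x]
  have h5 : ∀ α, (∑ a, if i a = α then c a else 0) * A α x =
      ∑ a, if i a = α then c a * A (i a) x else 0 := by
    intro α
    rw [Finset.sum_mul]
    refine Finset.sum_congr rfl fun a _ => ?_
    split_ifs with h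
    · rw [h]
    · rw [zero_mul]
  rw [Finset.sum_congr rfl fun α _ => h5 α, Finset.sum_comm]
  refine Finset.sum_congr rfl fun a _ => ?_
  rw [Finset.sum_ite_eq]
  simp

end Pool.Agent.Work.MP_8da9ea_nt.SI
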