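import Mathlib
import Pool.Agent.Work.MP_8da9ea_nt.SI.Stmts
import Pool.Agent.Work.MP_327059_nt.Bd.B09
import Pool.Agent.Work.MP_327059_nt.Bd.B11

/-!
# NOa: application of the criterion near the origin
-/

set_option autoImplicit false

namespace Pool.Agent.Work.MP_8da9ea_nt.SI

open MvPolynomial Pool.Agent.Work.MP_327059_nt.GL Pool.Agent.Work.MP_327059_nt.FR
open Pool.Agent.Work.MP_327059_nt

/-- Inverses and algebraic numbers do not change the transcendence degree. -/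
theorem NOa_tr {α β : Type} [Fintype α] [Fintype β] (τ : ℕ) (θ : α → ℂ) (θ₂ : β → ℂ)
    (h : TrLe τ θ) (h2 : ∀ i, IsAlgebraic ℚ (θ₂ i) ∨ ∃ j, θ₂ i = θ j ∨ θ₂ i = (θ j)⁻¹) :
    TrLe τ θ₂ := by
  intro s hs
  obtain ⟨r, s0, hAI, halg⟩ := pr_TrBasis α θ
  have hr : r ≤ τ := by
    by_contra hlt
    push Not at hlt
    exact h (fun i => s0 (Fin.castLE hlt i))
      (hAI.comp (Fin.castLE hlt) (Fin.castLE_injective hlt))
  have h3 : Fintype.card (Fin (τ + 1)) ≤ Fintype.card (Fin r) := by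
    refine pr_TrCount (Fin (τ + 1)) (Fin r) (fun i => θ₂ (s i)) (fun i => θ (s0 i)) hs
      (fun i => ?_)
    rcases h2 (s i) with h4 | ⟨j, h4 | h4⟩
    · exact h4.tower_top _
    · have h5 := halg j
      rw [← h4] at h5
      exact h5
    · have h5 : AlgOver (fun i => θ (s0 i)) (θ j)⁻¹ := (halg j).inv
      rw [← h4] at h5
      exact h5
  simp only [Fintype.card_fin] at h3
  omega

/-- An integer polynomial in the variable `i`. -/
noncomputable def NOa_u {σ : Type} (i : σ) (p : Polynomial ℤ) : MvPolynomial σ ℤ :=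
  Polynomial.aeval (X i) p

theorem NOa_u_val {σ : Type} (θ : σ → ℂ) (i : σ) (p : Polynomial ℤ) :
    aeval θ (NOa_u i p) = Polynomial.aeval (θ i) p := by
  have h := Polynomial.aeval_algHom_apply (aeval θ : MvPolynomial σ ℤ →ₐ[ℤ] ℂ) (X i) p
  rw [aeval_X] at h
  exact h.symm

theorem NOa_u_eq {σ : Type} (i : σ) (p : Polynomial ℤ) :
    NOa_u i p = ∑ n ∈ Finset.range (p.natDegree + 1), C (p.coeff n) * (X i : MvPolynomial σ ℤ) ^ n := by
  unfold NOa_u
  rw [Polynomial.aeval_eq_sum_range]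
  refine Finset.sum_congr rfl fun n _ => ?_
  rw [MvPolynomial.smul_eq_C_mul]

theorem NOa_u_deg {σ : Type} (i : σ) (p : Polynomial ℤ) :
    (NOa_u i p).totalDegree ≤ p.natDegree := by
  rw [NOa_u_eq]
  refine totalDegree_finsetSum_le fun n hn => ?_
  refine (totalDegree_mul _ _).trans ?_
  rw [totalDegree_C, zero_add]
  refine (totalDegree_pow _ _).trans ?_
  rw [totalDegree_X, mul_one]
  exact Nat.lt_succ_iff.1 (Finset.mem_range.1 hn)

theorem NOa_len_Xpow {σ : Type} (i : σ) (n : ℕ) : len ((X i : MvPolynomial σ ℤ) ^ n) ≤ 1 := by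
  refine (Val_len_pow _ _).trans ?_
  exact pow_le_one₀ (Val_len_nonneg _) (Val_len_X i)

theorem NOa_u_len {σ : Type} (i : σ) (p : Polynomial ℤ) : len (NOa_u i p) ≤ lenP p := by
  have h : lenP p = ∑ n ∈ Finset.range (p.natDegree + 1), |(p.coeff n : ℝ)| :=
    AA.NL_len_eq p (Finset.range (p.natDegree + 1)) (by
      intro n hn
      rw [Finset.mem_range]
      exact Nat.lt_succ_of_le (Polynomial.le_natDegree_of_mem_supp n hn))
  rw [NOa_u_eq, h]
  refine (Val_len_sum _ _).trans (Finset.sum_le_sum fun n _ => ?_)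
  refine (Val_len_mul _ _).trans ?_
  calc len (C (p.coeff n) : MvPolynomial σ ℤ) * len ((X i : MvPolynomial σ ℤ) ^ n)
      ≤ |(p.coeff n : ℝ)| * 1 := mul_le_mul (Val_len_C _) (NOa_len_Xpow i n)
        (Val_len_nonneg _) (abs_nonneg _)
    _ = |(p.coeff n : ℝ)| := mul_one _

/-- The monomial `∏_j (∏_i X_ij^(t_i))^(x_j)`. -/
noncomputable def NOa_mon {N m D : ℕ} (t : Fin N → ℕ) (x : Fin m → Fin D) :
    MvPolynomial (Option (Fin N × Fin m)) ℤ :=
  ∏ j, (∏ i, X (some (i, j)) ^ t i) ^ (x j : ℕ)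

theorem NOa_mon_val {N m D : ℕ} (t : Fin N → ℕ) (x : Fin m → Fin D)
    (θ : Option (Fin N × Fin m) → ℂ) :
    aeval θ (NOa_mon t x) = ∏ j, (∏ i, θ (some (i, j)) ^ t i) ^ (x j : ℕ) := by
  unfold NOa_mon
  simp only [map_prod, map_pow, aeval_X]

theorem NOa_mon_deg {N m D A : ℕ} (t : Fin N → ℕ) (ht : ∀ i, t i ≤ A) (x : Fin m → Fin D) :
    (NOa_mon t x).totalDegree ≤ m * (D * (N * A)) := by
  unfold NOa_mon
  refine (totalDegree_finsetProd _ _).trans ?_
  have h1 : ∀ j ∈ (Finset.univ : Finset (Fin m)),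
      ((∏ i, X (some (i, j)) ^ t i : MvPolynomial (Option (Fin N × Fin m)) ℤ) ^
        (x j : ℕ)).totalDegree ≤ D * (N * A) := by
    intro j _
    refine (totalDegree_pow _ _).trans ?_
    refine Nat.mul_le_mul (x j).isLt.le ?_
    refine (totalDegree_finsetProd _ _).trans ?_
    have h2 : ∀ i ∈ (Finset.univ : Finset (Fin N)),
        ((X (some (i, j)) : MvPolynomial (Option (Fin N × Fin m)) ℤ) ^ t i).totalDegree ≤ A := by
      intro i _
      refine (totalDegree_pow _ _).trans ?_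
      rw [totalDegree_X, mul_one]
      exact ht i
    refine (Finset.sum_le_card_nsmul _ _ _ h2).trans ?_
    simp
  refine (Finset.sum_le_card_nsmul _ _ _ h1).trans ?_
  simp

theorem NOa_mon_len {N m D : ℕ} (t : Fin N → ℕ) (x : Fin m → Fin D) :
    len (NOa_mon t x) ≤ 1 := by
  unfold NOa_mon
  refine (Val_len_prod _ _).trans ?_
  refine Finset.prod_le_one (fun _ _ => Val_len_nonneg _) fun j _ => ?_
  refine (Val_len_pow _ _).trans ?_
  refine pow_le_one₀ (Val_len_nonneg _) ?_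
  refine (Val_len_prod _ _).trans ?_
  exact Finset.prod_le_one (fun _ _ => Val_len_nonneg _) fun i _ => NOa_len_Xpow _ _

theorem NOa_exp1 {r m N : ℕ} (φ : Fin m → Fin r → ℂ) (w : Fin N → Fin r → ℂ) (t : Fin N → ℕ)
    (j : Fin m) : ∏ i, ey φ w i j ^ t i =
      Complex.exp (∑ k, φ j k * wt w (fun i => (t i : ℤ)) k) := by
  have h : ∀ i, ey φ w i j ^ t i = Complex.exp ((t i : ℂ) * ∑ k, φ j k * w i k) := by
    intro i
    unfold ey
    rw [← Complex.exp_nat_mul]
  simp only [h]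
  rw [← Complex.exp_sum]
  congr 1
  unfold wt
  simp only [Finset.mul_sum]
  rw [Finset.sum_comm]
  refine Finset.sum_congr rfl fun k _ => Finset.sum_congr rfl fun i _ => ?_
  push_cast
  ring

theorem NOa_exp2 {r m N D : ℕ} (φ : Fin m → Fin r → ℂ) (w : Fin N → Fin r → ℂ) (t : Fin N → ℕ)
    (x : Fin m → Fin D) : ∏ j, (∏ i, ey φ w i j ^ t i) ^ (x j : ℕ) =
      Complex.exp (∑ k, bx φ x k * wt w (fun i => (t i : ℤ)) k) := by
  simp only [NOa_exp1]
  have h : ∀ j, Complex.exp (∑ k, φ j k * wt w (fun i => (t i : ℤ)) k) ^ (x j : ℕ) =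
      Complex.exp (((x j : ℕ) : ℂ) * ∑ k, φ j k * wt w (fun i => (t i : ℤ)) k) := by
    intro j
    rw [← Complex.exp_nat_mul]
  simp only [h]
  rw [← Complex.exp_sum]
  congr 1
  unfold bx
  simp only [Finset.mul_sum, Finset.sum_mul]
  rw [Finset.sum_comm]
  refine Finset.sum_congr rfl fun k _ => Finset.sum_congr rfl fun i _ => ?_
  ring

/-- The zeros of `g` are isolated. -/
theorem NOa_iso (γ : ℂ) (g : Polynomial ℤ) (hg : g ≠ 0) :
    ∃ δ : ℝ, 0 < δ ∧ ∀ z : ℂ, Polynomial.aeval z g = 0 → ‖z - γ‖ < δ → z = γ := by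
  have hfin : (g.rootSet ℂ \ {γ}).Finite := (Polynomial.rootSet_finite g ℂ).subset Set.sdiff_subset
  have hop : IsOpen (g.rootSet ℂ \ {γ})ᶜ := hfin.isClosed.isOpen_compl
  have hmem : γ ∈ (g.rootSet ℂ \ {γ})ᶜ := fun h => h.2 rfl
  obtain ⟨δ, hδ, hb⟩ := Metric.isOpen_iff.1 hop γ hmem
  refine ⟨δ, hδ, fun z hz hd => ?_⟩
  by_contra hne
  have h1 : z ∈ Metric.ball γ δ := by
    rw [Metric.mem_ball, dist_eq_norm]
    exact hd
  exact hb h1 ⟨by rw [Polynomial.mem_rootSet]; exact ⟨hg, hz⟩, hne⟩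

theorem NOa_prod {N : ℕ} (a b : Fin N → ℂ) (t : Fin N → ℕ) (R ε : ℝ) (hR : 1 ≤ R) (hε : 0 ≤ ε)
    (ha : ∀ i, ‖a i‖ ≤ R) (hb : ∀ i, ‖b i‖ ≤ R) (hab : ∀ i, ‖a i - b i‖ ≤ ε) :
    ‖∏ i, a i ^ t i - ∏ i, b i ^ t i‖ ≤ Real.exp ((1 + R) * (∑ i, t i : ℕ)) * ε := by
  have h := PLm_prod (Finset.univ : Finset (Σ i : Fin N, Fin (t i))) (fun q => a q.1)
    (fun q => b q.1) R ε (by linarith) hε (fun q => ha q.1) (fun q => hb q.1) (fun q => hab q.1)
  have h1 : ∀ c : Fin N → ℂ, ∏ q : (Σ i : Fin N, Fin (t i)), c q.1 = ∏ i, c i ^ t i := by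
    intro c
    rw [Fintype.prod_sigma]
    refine Finset.prod_congr rfl fun i _ => ?_
    simp
  rw [h1, h1] at h
  have hc : (Finset.univ : Finset (Σ i : Fin N, Fin (t i))).card = ∑ i, t i := by
    rw [Finset.card_univ, Fintype.card_sigma]
    simp
  rw [hc] at h
  set n : ℕ := ∑ i, t i with hn
  have h2 : ‖∏ i, a i ^ t i - ∏ i, b i ^ t i‖ ≤ ‖∏ i, a i ^ t i - ∏ i, b i ^ t i‖ * R := by
    have := norm_nonneg (∏ i, a i ^ t i - ∏ i, b i ^ t i)
    nlinarith
  refine h2.trans (h.trans ?_)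
  have h3 : (n : ℝ) ≤ Real.exp n := by
    have := Real.add_one_le_exp (n : ℝ)
    linarith
  have h4 : R ^ n ≤ Real.exp (n * R) := Psi_pow_le R (by linarith) n
  have h5 : (n : ℝ) * R ^ n ≤ Real.exp ((1 + R) * n) := by
    calc (n : ℝ) * R ^ n ≤ Real.exp n * Real.exp (n * R) :=
          mul_le_mul h3 h4 (by positivity) (Real.exp_pos _).le
      _ = Real.exp ((1 + R) * n) := by rw [← Real.exp_add]; ring_nf
  exact mul_le_mul_of_nonneg_right h5 hε

theorem NOa_main (h1 : S_CritE) (r m τ : ℕ) (φ : Fin m → Fin r → ℂ) (γ : ℂ) (g : Polynomial ℤ)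
    (CF : ℝ) (hγ : IsAlgebraic ℚ γ) (hg : g ≠ 0) (hgγ : Polynomial.aeval γ g = 0) (hCF : 1 ≤ CF)
    (hF : ∀ D M : ℕ, 1 ≤ D → 1 ≤ M → ∃ FF : Set ((Fin m → Fin D) → Polynomial ℤ),
      (∀ P ∈ FF, ∀ x, (P x).natDegree ≤ g.natDegree) ∧
      (∀ P ∈ FF, ∑ x, lenP (P x) ≤ Real.exp (CF * ((D : ℝ) * M) ^ (r + m + 3))) ∧
      (∀ P ∈ FF, ∀ (z : Fin r → ℂ) (ε : ℝ), 0 ≤ ε → (∀ k, ‖z k‖ ≤ ε) → CF * D * ε ≤ 1 →
        ‖∑ x, Polynomial.aeval γ (P x) * Complex.exp (∑ k, bx φ x k * z k)‖ ≤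
          Real.exp (CF * ((D : ℝ) * M) ^ (r + m + 3)) * (CF * D * ε) ^ M) ∧
      ∀ v : (Fin m → Fin D) → ℂ, (∀ P ∈ FF, ∑ x, Polynomial.aeval γ (P x) * v x = 0) →
        ∃ B : MvPolynomial (Fin r) ℂ, B.totalDegree ≤ M ∧ ∀ x, v x = eval (bx φ x) B)
    (N : ℕ) (w : Fin N → Fin r → ℂ)
    (hT : TrLe τ (fun q : Fin N × Fin m => ey φ w q.1 q.2)) :
    ∃ C : ℝ, 1 ≤ C ∧ ∀ (D M A : ℕ) (L : ℝ) (t : Fin N → ℕ), 1 ≤ D → 1 ≤ A → A ≤ M →
      C * ((D : ℝ) * A) ^ τ ≤ M → C * ((D : ℝ) * M) ^ (r + m + 4 + τ) ≤ L →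
      (∀ i, t i ≤ A) → (∀ k, ‖wt w (fun i => (t i : ℤ)) k‖ ≤ Real.exp (-L)) →
      ∃ (η : Fin m → ℂ) (B : MvPolynomial (Fin r) ℂ),
        (∀ j, ‖η j - Complex.exp (∑ k, φ j k * wt w (fun i => (t i : ℤ)) k)‖ ≤
          Real.exp (-(2 * L))) ∧
        B.totalDegree ≤ M ∧ ∀ x : Fin m → Fin D, ∏ j, η j ^ (x j : ℕ) = eval (bx φ x) B := by
  classical
  let θ : Option (Fin N × Fin m) → ℂ := fun o => o.elim γ (fun q => ey φ w q.1 q.2)
  have hθ : TrLe τ θ := by
    refine NOa_tr τ _ θ hT ?_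
    rintro (_ | q)
    · exact Or.inl hγ
    · exact Or.inr ⟨q, Or.inl rfl⟩
  obtain ⟨C₀, hC₀, hCr⟩ := h1 _ τ θ hθ
  obtain ⟨δ0, hδ0, hiso⟩ := NOa_iso γ g hg
  set c1 : ℕ := g.natDegree + m * N + 1 with hc1
  set lg : ℝ := lenP g with hlg
  have hlg0 : 0 ≤ lg := AA.NL_len_nonneg g
  set c2 : ℝ := CF + c1 + lg with hc2
  set R : ℝ := 1 + ∑ q : Fin N × Fin m, ‖ey φ w q.1 q.2‖ with hR
  have hsn : 0 ≤ ∑ q : Fin N × Fin m, ‖ey φ w q.1 q.2‖ :=
    Finset.sum_nonneg fun _ _ => norm_nonneg _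
  have hR1 : 1 ≤ R := by linarith
  have hc1p : (1 : ℝ) ≤ c1 := by exact_mod_cast (Nat.le_add_left 1 _)
  have hc2p : 0 ≤ c2 := by positivity
  set a1 : ℝ := 4 * CF with ha1
  set a2 : ℝ := 2 * C₀ * c2 * (c1 : ℝ) ^ τ with ha2
  set a3 : ℝ := 6 * C₀ * (c1 : ℝ) ^ τ with ha3
  set a4 : ℝ := 1 / δ0 with ha4
  set a5 : ℝ := (1 + R) * N with ha5
  have hC₀p : 0 < C₀ := by linarith
  have h0a1 : 0 ≤ a1 := by positivity
  have h0a2 : 0 ≤ a2 := by positivity
  have h0a3 : 0 ≤ a3 := by positivity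
  have h0a4 : 0 ≤ a4 := by positivity
  have h0a5 : 0 ≤ a5 := by positivity
  refine ⟨a1 + a2 + a3 + a4 + a5 + 1, by linarith, ?_⟩
  intro D M A L t hD hA hAM hM hL ht hz
  have hM1 : 1 ≤ M := hA.trans hAM
  set q : ℝ := (D : ℝ) * M with hq
  have hDr : (1 : ℝ) ≤ D := by exact_mod_cast hD
  have hMr : (1 : ℝ) ≤ M := by exact_mod_cast hM1
  have hAr : (1 : ℝ) ≤ A := by exact_mod_cast hA
  have hAMr : (A : ℝ) ≤ M := by exact_mod_cast hAM
  have hq1 : 1 ≤ q := by nlinarith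
  have hDq : (D : ℝ) ≤ q := by nlinarith
  have hMq : (M : ℝ) ≤ q := by nlinarith
  have hAq : (A : ℝ) ≤ q := hAMr.trans hMq
  have hDAq : (D : ℝ) * A ≤ q := by nlinarith
  have hDA1 : (1 : ℝ) ≤ (D : ℝ) * A := by nlinarith
  -- the basic estimate for the constants
  have hkey : ∀ (c : ℝ) (e : ℕ), 0 ≤ c → c ≤ a1 + a2 + a3 + a4 + a5 + 1 → e ≤ r + m + 4 + τ →
      c * q ^ e ≤ L := by
    intro c e hc hcC he
    refine le_trans ?_ hL
    exact mul_le_mul hcC (pow_le_pow_right₀ hq1 he) (by positivity) (hc.trans hcC)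
  have hL1 : 1 ≤ L := by
    have := hkey 1 0 zero_le_one (by linarith) (Nat.zero_le _)
    simpa using this
  have hb1 : CF * q ^ (r + m + 3) ≤ L / 4 := by
    have := hkey a1 (r + m + 3) h0a1 (by linarith) (by omega)
    rw [ha1] at this
    linarith
  have hb1' : CF * D ≤ L / 4 := by
    have := hkey a1 1 h0a1 (by linarith) (by omega)
    rw [ha1, pow_one] at this
    nlinarith
  have hb2 : C₀ * c2 * (c1 : ℝ) ^ τ * q ^ (r + m + 3 + τ) ≤ L / 2 := by
    have := hkey a2 (r + m + 3 + τ) h0a2 (by linarith) (by omega)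
    rw [ha2] at this
    linarith
  have hb3 : 6 * C₀ * (c1 : ℝ) ^ τ * ((D : ℝ) * A) ^ τ ≤ M := by
    refine le_trans ?_ hM
    refine mul_le_mul_of_nonneg_right ?_ (by positivity)
    rw [← ha3]
    linarith
  have hb4 : 1 / δ0 ≤ L := by
    have := hkey a4 0 h0a4 (by linarith) (Nat.zero_le _)
    rw [pow_zero, mul_one] at this
    exact this
  have hb5 : (1 + R) * N * A ≤ L := by
    have := hkey a5 1 h0a5 (by linarith) (by omega)
    rw [ha5, pow_one] at this
    refine le_trans ?_ this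
    exact mul_le_mul_of_nonneg_left hAq (by positivity)
  obtain ⟨FF, hFd, hFl, hFv, hFB⟩ := hF D M hD hM1
  -- parameters
  set XX : ℕ := c1 * (D * A) with hXX
  set h : ℝ := c2 * q ^ (r + m + 3) with hh
  set V : ℝ := (M : ℝ) * L / 2 with hV
  have hDA : 1 ≤ D * A := Nat.mul_pos hD hA
  have hX1 : 1 ≤ XX := Nat.mul_pos (by omega) hDA
  have hXr : (XX : ℝ) = (c1 : ℝ) * ((D : ℝ) * A) := by rw [hXX]; push_cast; ring
  have hqE : q ≤ q ^ (r + m + 3) := le_self_pow₀ hq1 (by omega)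
  have hqE1 : 1 ≤ q ^ (r + m + 3) := hq1.trans hqE
  have hXh : (XX : ℝ) ≤ h := by
    rw [hXr, hh]
    calc (c1 : ℝ) * ((D : ℝ) * A) ≤ c2 * q ^ (r + m + 3) := by
          refine mul_le_mul ?_ (hDAq.trans hqE) (by positivity) hc2p
          rw [hc2]
          linarith
      _ = c2 * q ^ (r + m + 3) := rfl
  have hXτ : (XX : ℝ) ^ τ ≤ (c1 : ℝ) ^ τ * q ^ τ := by
    rw [hXr, mul_pow]
    exact mul_le_mul_of_nonneg_left (pow_le_pow_left₀ (by positivity) hDAq τ) (by positivity)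
  have hLM : L ≤ M * L := by nlinarith
  have hcond : C₀ * h * (XX : ℝ) ^ τ ≤ V := by
    calc C₀ * h * (XX : ℝ) ^ τ ≤ C₀ * h * ((c1 : ℝ) ^ τ * q ^ τ) :=
          mul_le_mul_of_nonneg_left hXτ (by rw [hh]; positivity)
      _ = C₀ * c2 * (c1 : ℝ) ^ τ * q ^ (r + m + 3 + τ) := by rw [hh, pow_add q (r + m + 3) τ]; ring
      _ ≤ L / 2 := hb2
      _ ≤ V := by rw [hV]; linarith
  -- the polynomials
  let Pt : ((Fin m → Fin D) → Polynomial ℤ) → MvPolynomial (Option (Fin N × Fin m)) ℤ :=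
    fun P => ∑ x, NOa_u none (P x) * NOa_mon t x
  have hPtv : ∀ (P : (Fin m → Fin D) → Polynomial ℤ) (ξ : Option (Fin N × Fin m) → ℂ),
      aeval ξ (Pt P) = ∑ x, Polynomial.aeval (ξ none) (P x) *
        ∏ j, (∏ i, ξ (some (i, j)) ^ t i) ^ (x j : ℕ) := by
    intro P ξ
    change aeval ξ (∑ x, NOa_u none (P x) * NOa_mon t x) = _
    rw [map_sum]
    refine Finset.sum_congr rfl fun x _ => ?_
    rw [map_mul, NOa_u_val, NOa_mon_val]
  let PP : Set (MvPolynomial (Option (Fin N × Fin m)) ℤ) := {Q | Q = NOa_u none g ∨ ∃ P ∈ FF, Q = Pt P}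
  have hPP : ∀ Q ∈ PP, Q.totalDegree ≤ XX ∧ len Q ≤ Real.exp h ∧
      ‖aeval θ Q‖ ≤ Real.exp (-V) := by
    rintro Q (rfl | ⟨P, hP, rfl⟩)
    · refine ⟨?_, ?_, ?_⟩
      · refine (NOa_u_deg _ _).trans ?_
        calc g.natDegree ≤ c1 := by omega
          _ = c1 * 1 := (mul_one _).symm
          _ ≤ c1 * (D * A) := Nat.mul_le_mul_left _ hDA
      · refine (NOa_u_len _ _).trans ?_
        have e1 : lg ≤ h := by
          rw [hh]
          have : lg ≤ c2 := by rw [hc2]; linarith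
          nlinarith
        have e2 := Real.add_one_le_exp h
        change lg ≤ Real.exp h
        linarith
      · rw [NOa_u_val]
        change ‖Polynomial.aeval γ g‖ ≤ _
        rw [hgγ, norm_zero]
        exact (Real.exp_pos _).le
    · refine ⟨?_, ?_, ?_⟩
      · refine totalDegree_finsetSum_le fun x _ => ?_
        refine (totalDegree_mul _ _).trans ?_
        calc (NOa_u none (P x)).totalDegree + (NOa_mon t x).totalDegree
            ≤ g.natDegree + m * (D * (N * A)) :=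
              add_le_add ((NOa_u_deg _ _).trans (hFd P hP x)) (NOa_mon_deg t ht x)
          _ ≤ g.natDegree * (D * A) + m * (D * (N * A)) :=
              Nat.add_le_add_right (Nat.le_mul_of_pos_right _ hDA) _
          _ ≤ c1 * (D * A) := by
              rw [hc1]
              have : (g.natDegree + m * N + 1) * (D * A) =
                g.natDegree * (D * A) + m * (D * (N * A)) + D * A := by ring
              omega
      · refine (Val_len_sum _ _).trans ?_
        have e1 : ∀ x ∈ (Finset.univ : Finset (Fin m → Fin D)),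
            len (NOa_u (none : Option (Fin N × Fin m)) (P x) * NOa_mon t x) ≤ lenP (P x) := by
          intro x _
          refine (Val_len_mul _ _).trans ?_
          calc len (NOa_u (none : Option (Fin N × Fin m)) (P x)) * len (NOa_mon t x)
              ≤ lenP (P x) * 1 := mul_le_mul (NOa_u_len _ _) (NOa_mon_len t x)
                (Val_len_nonneg _) (AA.NL_len_nonneg _)
            _ = lenP (P x) := mul_one _
        refine (Finset.sum_le_sum e1).trans ((hFl P hP).trans ?_)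
        apply Real.exp_le_exp.2
        rw [hh]
        refine mul_le_mul_of_nonneg_right ?_ (by positivity)
        rw [hc2]
        linarith
      · rw [hPtv]
        have e0 : ∀ x : Fin m → Fin D, ∏ j, (∏ i, θ (some (i, j)) ^ t i) ^ (x j : ℕ) =
            Complex.exp (∑ k, bx φ x k * wt w (fun i => (t i : ℤ)) k) :=
          fun x => NOa_exp2 φ w t x
        simp only [e0]
        have e1 : CF * D * Real.exp (-L) ≤ Real.exp (-(3 * L / 4)) := by
          have e2 : CF * D ≤ Real.exp (L / 4) := by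
            have := Real.add_one_le_exp (L / 4)
            linarith
          calc CF * D * Real.exp (-L) ≤ Real.exp (L / 4) * Real.exp (-L) :=
                mul_le_mul_of_nonneg_right e2 (Real.exp_pos _).le
            _ = Real.exp (-(3 * L / 4)) := by rw [← Real.exp_add]; ring_nf
        have e3 : Real.exp (-(3 * L / 4)) ≤ 1 := Real.exp_le_one_iff.2 (by linarith)
        refine (hFv P hP _ (Real.exp (-L)) (Real.exp_pos _).le hz (e1.trans e3)).trans ?_
        calc Real.exp (CF * q ^ (r + m + 3)) * (CF * D * Real.exp (-L)) ^ M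
            ≤ Real.exp (M * L / 4) * Real.exp (-(3 * L / 4)) ^ M := by
              refine mul_le_mul (Real.exp_le_exp.2 (by linarith))
                (pow_le_pow_left₀ (by positivity) e1 M) (by positivity) (Real.exp_pos _).le
          _ = Real.exp (-V) := by
              rw [← Real.exp_nat_mul, ← Real.exp_add, hV]
              ring_nf
  obtain ⟨θ', hθ0, hθd⟩ := hCr XX h V hX1 hXh hcond PP hPP
  have hdist : ∀ o, ‖θ' o - θ o‖ ≤ Real.exp (-(3 * L)) := by
    intro o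
    refine (hθd o).trans (Real.exp_le_exp.2 ?_)
    have e1 : 0 < C₀ * (XX : ℝ) ^ τ := by
      have : (0 : ℝ) < XX := by exact_mod_cast hX1
      positivity
    rw [neg_div, neg_le_neg_iff, le_div_iff₀ e1, hXr, mul_pow, hV]
    have e2 : L * (6 * C₀ * (c1 : ℝ) ^ τ * ((D : ℝ) * A) ^ τ) ≤ L * M :=
      mul_le_mul_of_nonneg_left hb3 (by linarith)
    nlinarith
  have hsm : Real.exp (-(3 * L)) ≤ 1 := Real.exp_le_one_iff.2 (by linarith)
  have hγ' : θ' none = γ := by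
    refine hiso _ ?_ ?_
    · have := hθ0 (NOa_u none g) (Or.inl rfl)
      rwa [NOa_u_val] at this
    · refine lt_of_le_of_lt (hdist none) ?_
      have e1 : Real.exp (-(3 * L)) ≤ Real.exp (-L) := Real.exp_le_exp.2 (by linarith)
      refine lt_of_le_of_lt e1 ?_
      rw [Real.exp_neg, inv_lt_comm₀ (Real.exp_pos _) hδ0]
      have e2 := Real.add_one_le_exp L
      rw [one_div] at hb4
      linarith
  let η : Fin m → ℂ := fun j => ∏ i, θ' (some (i, j)) ^ t i
  obtain ⟨B, hBd, hBv⟩ := hFB (fun x => ∏ j, η j ^ (x j : ℕ)) (by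
    intro P hP
    have e1 := hθ0 (Pt P) (Or.inr ⟨P, hP, rfl⟩)
    rw [hPtv, hγ'] at e1
    exact e1)
  refine ⟨η, B, ?_, hBd, hBv⟩
  intro j
  rw [← NOa_exp1 φ w t j]
  have hn1 : ∀ i, ‖ey φ w i j‖ ≤ R - 1 := by
    intro i
    rw [hR, add_sub_cancel_left]
    exact Finset.single_le_sum (f := fun q : Fin N × Fin m => ‖ey φ w q.1 q.2‖)
      (fun _ _ => norm_nonneg _) (Finset.mem_univ (i, j))
  have hn2 : ∀ i, ‖θ' (some (i, j)) - ey φ w i j‖ ≤ Real.exp (-(3 * L)) :=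
    fun i => hdist (some (i, j))
  have hn3 : ∀ i, ‖θ' (some (i, j))‖ ≤ R := by
    intro i
    have e1 : θ' (some (i, j)) = (θ' (some (i, j)) - ey φ w i j) + ey φ w i j := by ring
    rw [e1]
    refine (norm_add_le _ _).trans ?_
    have := hn1 i
    have := hn2 i
    linarith
  have hpr := NOa_prod (fun i => θ' (some (i, j))) (fun i => ey φ w i j) t R
    (Real.exp (-(3 * L))) hR1 (Real.exp_pos _).le hn3 (fun i => (hn1 i).trans (by linarith)) hn2
  refine hpr.trans ?_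
  have hsum : ((∑ i, t i : ℕ) : ℝ) ≤ N * A := by
    have : ∑ i, t i ≤ N * A := by
      refine (Finset.sum_le_card_nsmul _ _ _ fun i _ => ht i).trans ?_
      simp
    exact_mod_cast this
  have e1 : Real.exp ((1 + R) * (∑ i, t i : ℕ)) ≤ Real.exp L := by
    apply Real.exp_le_exp.2
    calc (1 + R) * ((∑ i, t i : ℕ) : ℝ) ≤ (1 + R) * (N * A) :=
          mul_le_mul_of_nonneg_left hsum (by linarith)
      _ = (1 + R) * N * A := by ring
      _ ≤ L := hb5
  calc Real.exp ((1 + R) * (∑ i, t i : ℕ)) * Real.exp (-(3 * L))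
      ≤ Real.exp L * Real.exp (-(3 * L)) := mul_le_mul_of_nonneg_right e1 (Real.exp_pos _).le
    _ = Real.exp (-(2 * L)) := by rw [← Real.exp_add]; ring_nf

theorem pr_NOa (h1 : S_CritE) (h2 : S_Fam) : S_NOa := by
  classical
  intro r m τ φ hφ N w hT
  obtain ⟨γ, g, CF, hγ, hg, hgγ, hCF, hF⟩ := h2 r m φ hφ
  let ws : (Fin N → Bool) → Fin N → Fin r → ℂ := fun sg i k => if sg i then w i k else -w i k
  have hTs : ∀ sg, TrLe τ (fun q : Fin N × Fin m => ey φ (ws sg) q.1 q.2) := by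
    intro sg
    refine NOa_tr τ _ _ hT ?_
    rintro ⟨i, j⟩
    refine Or.inr ⟨(i, j), ?_⟩
    by_cases hs : sg i
    · left
      simp [ey, ws, hs]
    · right
      simp [ey, ws, hs, Complex.exp_neg]
  choose Cs hCs1 hCs using fun sg => NOa_main h1 r m τ φ γ g CF hγ hg hgγ hCF hF N (ws sg) (hTs sg)
  have hle : ∀ sg, Cs sg ≤ ∑ s, Cs s := fun sg =>
    Finset.single_le_sum (f := Cs) (fun s _ => by linarith [hCs1 s]) (Finset.mem_univ sg)
  refine ⟨∑ s, Cs s, (hCs1 (fun _ => true)).trans (hle _), ?_⟩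
  intro D M A L t hD hA hAM hM hL ht hz
  let sg : Fin N → Bool := fun i => decide (0 ≤ t i)
  have hwt : wt (ws sg) (fun i => ((t i).natAbs : ℤ)) = wt w t := by
    funext k
    unfold wt
    refine Finset.sum_congr rfl fun i _ => ?_
    by_cases hs : 0 ≤ t i
    · have e1 : ((t i).natAbs : ℤ) = t i := Int.natAbs_of_nonneg hs
      simp only [ws, sg, hs, decide_true, if_true]
      rw [e1]
    · have e1 : ((t i).natAbs : ℤ) = -t i := by omega
      simp only [ws, sg, hs, decide_false, Bool.false_eq_true, if_false]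
      rw [e1]
      push_cast
      ring
  have hD0 : (0 : ℝ) ≤ D := by positivity
  have := hCs sg D M A L (fun i => (t i).natAbs) hD hA hAM
    (le_trans (mul_le_mul_of_nonneg_right (hle sg) (by positivity)) hM)
    (le_trans (mul_le_mul_of_nonneg_right (hle sg) (by positivity)) hL)
    (fun i => by have := ht i; have h3 := Int.natCast_natAbs (t i); omega)
    (by rw [hwt]; exact hz)
  rw [hwt] at this
  exact this

end Pool.Agent.Work.MP_8da9ea_nt.SI
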