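import Mathlib
import Pool.Agent.Work.MP_8da9ea_nt.SI.Stmts
import Pool.Agent.Work.MP_327059_nt.Bd.B03

/-!
# PROJECT SI, RedN: values of integer polynomials at algebraic numbers
-/

set_option autoImplicit false

namespace Pool.Agent.Work.MP_8da9ea_nt.SI

open Polynomial
open Pool.Agent.Work.MP_327059_nt.AA (NL_len_nonneg NL_len_eq NL_len_add NL_len_sum
  NL_len_monomial NL_len_C NL_len_mul NL_len_prod NL_len_pow NL_len_neg)

theorem RedN_coeff_le (P : ℤ[X]) (i : ℕ) : |(P.coeff i : ℝ)| ≤ lenP P := by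
  classical
  rw [lenP, NL_len_eq P (insert i P.support) (Finset.subset_insert _ _)]
  exact Finset.single_le_sum (f := fun i => |(P.coeff i : ℝ)|) (fun _ _ => abs_nonneg _)
    (Finset.mem_insert_self _ _)

/-- reduction modulo a monic polynomial -/
theorem RedN_red (γ : ℂ) (g : ℤ[X]) (hg : g.Monic) (hγ : aeval γ g = 0) :
    ∀ (N : ℕ) (P : ℤ[X]), P.natDegree ≤ N → ∃ B : ℤ[X], B.natDegree ≤ g.natDegree ∧
      aeval γ B = aeval γ P ∧ lenP B ≤ lenP P * (1 + lenP g) ^ N := by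
  intro N
  have hg0 : 0 ≤ lenP g := NL_len_nonneg _
  induction N with
  | zero => intro P hP; exact ⟨P, by omega, rfl, by simp⟩
  | succ N ih =>
    intro P hP
    have hP0 : 0 ≤ lenP P := NL_len_nonneg _
    by_cases hd : N + 1 ≤ g.natDegree
    · refine ⟨P, hP.trans hd, rfl, ?_⟩
      exact le_mul_of_one_le_right hP0 (one_le_pow₀ (by linarith))
    · push Not at hd
      have hdeg : (P - monomial (N + 1 - g.natDegree) (P.coeff (N + 1)) * g).natDegree ≤ N := by
        rw [Polynomial.natDegree_le_iff_coeff_eq_zero]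
        intro m hm
        rw [coeff_sub, ← C_mul_X_pow_eq_monomial, mul_assoc, coeff_C_mul,
          coeff_X_pow_mul', if_pos (by omega)]
        rcases Nat.lt_or_ge (N + 1) m with h | h
        · have e1 : P.coeff m = 0 :=
            Polynomial.coeff_eq_zero_of_natDegree_lt (lt_of_le_of_lt hP h)
          have e2 : g.coeff (m - (N + 1 - g.natDegree)) = 0 :=
            Polynomial.coeff_eq_zero_of_natDegree_lt (by omega)
          rw [e1, e2]
          simp
        · have hm' : m = N + 1 := by omega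
          subst hm'
          have : N + 1 - (N + 1 - g.natDegree) = g.natDegree := by omega
          rw [this, hg.coeff_natDegree]
          ring
      obtain ⟨B, h1, h2, h3⟩ := ih _ hdeg
      refine ⟨B, h1, ?_, h3.trans ?_⟩
      · rw [h2]; simp [hγ]
      · have h4 : lenP (P - monomial (N + 1 - g.natDegree) (P.coeff (N + 1)) * g) ≤
            lenP P * (1 + lenP g) := by
          rw [sub_eq_add_neg]
          refine (NL_len_add _ _).trans ?_
          rw [NL_len_neg, mul_add, mul_one]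
          have h5 := NL_len_mul (monomial (N + 1 - g.natDegree) (P.coeff (N + 1))) g
          have h6 := (NL_len_monomial (N + 1 - g.natDegree) (P.coeff (N + 1))).trans
            (RedN_coeff_le P (N + 1))
          have h7 := mul_le_mul_of_nonneg_right h6 hg0
          linarith
        calc _ ≤ (lenP P * (1 + lenP g)) * (1 + lenP g) ^ N :=
              mul_le_mul_of_nonneg_right h4 (by positivity)
          _ = _ := by ring

/-- clearing denominators -/
theorem RedN_clear (p : ℚ[X]) : ∃ (c : ℤ) (b : ℤ[X]), c ≠ 0 ∧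
    ∀ z : ℂ, aeval z b = (c : ℂ) * aeval z p := by
  obtain ⟨c, hc, hc2⟩ := IsLocalization.integerNormalization_spec (nonZeroDivisors ℤ) p
  refine ⟨c, IsLocalization.integerNormalization (nonZeroDivisors ℤ) p,
    nonZeroDivisors.ne_zero hc, fun z => ?_⟩
  rw [← Polynomial.aeval_map_algebraMap ℚ z, hc2]
  simp

/-- finitely many algebraic numbers are polynomials in one algebraic number -/
theorem RedN_prim {σ : Type} [Fintype σ] (φ : σ → ℂ) (hφ : ∀ i, IsAlgebraic ℚ (φ i)) :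
    ∃ γ : ℂ, IsAlgebraic ℚ γ ∧ ∀ i, ∃ P : ℚ[X], φ i = aeval γ P := by
  have hfin : FiniteDimensional ℚ (IntermediateField.adjoin ℚ (Set.range φ)) := by
    have : Finite (Set.range φ) := inferInstance
    apply IntermediateField.finiteDimensional_adjoin
    rintro _ ⟨i, rfl⟩
    exact (hφ i).isIntegral
  obtain ⟨α, hα⟩ := Field.exists_primitive_element ℚ (IntermediateField.adjoin ℚ (Set.range φ))
  have hαi : IsIntegral ℚ α := Algebra.IsIntegral.isIntegral α
  refine ⟨(α : ℂ), ?_, fun i => ?_⟩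
  · exact (hαi.map (IntermediateField.adjoin ℚ (Set.range φ)).val).isAlgebraic
  · have hx : (⟨φ i, IntermediateField.subset_adjoin ℚ _ ⟨i, rfl⟩⟩ :
        IntermediateField.adjoin ℚ (Set.range φ)) ∈ IntermediateField.adjoin ℚ {α} := by
      rw [hα]; exact IntermediateField.mem_top
    rw [← IntermediateField.mem_toSubalgebra,
      IntermediateField.adjoin_simple_toSubalgebra_of_isAlgebraic hαi.isAlgebraic,
      Algebra.adjoin_singleton_eq_range_aeval] at hx
    obtain ⟨P, hP⟩ := hx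
    refine ⟨P, ?_⟩
    have h1 := congrArg (IntermediateField.adjoin ℚ (Set.range φ)).val hP
    have h2 := Polynomial.aeval_algHom_apply (IntermediateField.adjoin ℚ (Set.range φ)).val α P
    refine h1.symm.trans (Eq.trans ?_ h2.symm)
    congr 1

theorem pr_RedN : S_RedN := by
  intro σ _ φ hφ
  classical
  obtain ⟨γ₀, hγ₀, hP₀⟩ := RedN_prim φ hφ
  have hγz : IsAlgebraic ℤ γ₀ := (IsFractionRing.isAlgebraic_iff ℤ ℚ ℂ).2 hγ₀
  obtain ⟨y, hy, hyint⟩ := hγz.exists_integral_multiple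
  have hyc : (y : ℂ) ≠ 0 := by exact_mod_cast hy
  obtain ⟨γ, hγdef⟩ : ∃ γ : ℂ, γ = y • γ₀ := ⟨_, rfl⟩
  rw [← hγdef] at hyint
  have hγ1 : γ₀ = (y : ℂ)⁻¹ * γ := by
    rw [hγdef, zsmul_eq_mul, ← mul_assoc, inv_mul_cancel₀ hyc, one_mul]
  -- integral polynomials
  have hb : ∀ i, ∃ (c : ℤ) (b : ℤ[X]), c ≠ 0 ∧ aeval γ b = (c : ℂ) * φ i := by
    intro i
    obtain ⟨P, hP⟩ := hP₀ i
    obtain ⟨c, b, hc, hcb⟩ := RedN_clear (P.comp (C ((y : ℚ)⁻¹) * X))
    refine ⟨c, b, hc, ?_⟩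
    rw [hcb, hP, Polynomial.aeval_comp, hγ1]
    simp
  choose c b hc hcb using hb
  let q : ℕ := ∏ i, (c i).natAbs
  have hq : 1 ≤ q := Nat.one_le_iff_ne_zero.2
    (Finset.prod_ne_zero_iff.2 fun i _ => Int.natAbs_ne_zero.2 (hc i))
  have hk : ∀ i, ∃ k : ℤ, (q : ℤ) = k * c i := by
    intro i
    have h1 : (c i).natAbs ∣ q := Finset.dvd_prod_of_mem _ (Finset.mem_univ i)
    have h2 : c i ∣ (q : ℤ) := Int.dvd_natCast.2 h1
    obtain ⟨k, hk⟩ := h2
    exact ⟨k, by rw [hk]; ring⟩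
  choose k hk using hk
  let b' : σ → ℤ[X] := fun i => C (k i) * b i
  have hb' : ∀ i, aeval γ (b' i) = (q : ℂ) * φ i := by
    intro i
    have : (q : ℂ) = (k i : ℂ) * (c i : ℂ) := by exact_mod_cast hk i
    simp only [b']
    rw [map_mul, hcb, this]
    simp
    ring
  let g : ℤ[X] := minpoly ℤ γ
  have hg : g.Monic := minpoly.monic hyint
  have hgγ : aeval γ g = 0 := minpoly.aeval ℤ γ
  let Λ : ℝ := 1 + ∑ i, lenP (b' i)
  have hΛ1 : 1 ≤ Λ := by
    have : 0 ≤ ∑ i, lenP (b' i) := Finset.sum_nonneg fun i _ => NL_len_nonneg _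
    simp only [Λ]; linarith
  have hΛ : ∀ i, lenP (b' i) ≤ Λ := by
    intro i
    have : lenP (b' i) ≤ ∑ i, lenP (b' i) :=
      Finset.single_le_sum (f := fun i => lenP (b' i)) (fun i _ => NL_len_nonneg _)
        (Finset.mem_univ i)
    simp only [Λ]; linarith
  let L : ℝ := 1 + lenP g
  have hL1 : 1 ≤ L := by
    have : 0 ≤ lenP g := NL_len_nonneg _
    simp only [L]; linarith
  let β : ℕ := ∑ i, (b' i).natDegree
  have hβ : ∀ i, (b' i).natDegree ≤ β := fun i =>
    Finset.single_le_sum (f := fun i => (b' i).natDegree) (fun i _ => Nat.zero_le _)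
      (Finset.mem_univ i)
  have hqr : (1 : ℝ) ≤ (q : ℝ) := by exact_mod_cast hq
  refine ⟨γ, q, ⌈(q : ℝ) * Λ * L ^ β⌉₊ + 1, g, ?_, hq, by omega, hg.ne_zero, hgγ, ?_⟩
  · exact (IsFractionRing.isAlgebraic_iff ℤ ℚ ℂ).1 hyint.isAlgebraic
  intro n A hA
  have hdeg : ∀ e ∈ A.support, ∑ i, e i ≤ n := by
    intro e he
    have h1 := MvPolynomial.le_totalDegree he
    rw [Finsupp.sum_fintype _ _ (fun _ => rfl)] at h1
    exact h1.trans hA
  let P : ℤ[X] := ∑ e ∈ A.support,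
    C (A.coeff e * (q : ℤ) ^ (n - ∑ i, e i)) * ∏ i, b' i ^ e i
  have hPγ : aeval γ P = (q : ℂ) ^ n * MvPolynomial.aeval φ A := by
    simp only [P]
    rw [map_sum, MvPolynomial.aeval_def, MvPolynomial.eval₂_eq', Finset.mul_sum]
    refine Finset.sum_congr rfl fun e he => ?_
    rw [map_mul, map_prod]
    have h1 : ∏ i, aeval γ (b' i ^ e i) = (q : ℂ) ^ (∑ i, e i) * ∏ i, φ i ^ e i := by
      rw [← Finset.prod_pow_eq_pow_sum, ← Finset.prod_mul_distrib]
      refine Finset.prod_congr rfl fun i _ => ?_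
      rw [map_pow, hb', mul_pow]
    have h2 : (q : ℂ) ^ n = (q : ℂ) ^ (n - ∑ i, e i) * (q : ℂ) ^ (∑ i, e i) := by
      rw [← pow_add, Nat.sub_add_cancel (hdeg e he)]
    rw [h1, h2]
    simp
    ring
  have hPdeg : P.natDegree ≤ n * β := by
    refine Polynomial.natDegree_sum_le_of_forall_le _ _ fun e he => ?_
    refine (Polynomial.natDegree_C_mul_le _ _).trans ?_
    refine (Polynomial.natDegree_prod_le _ _).trans ?_
    calc ∑ i, (b' i ^ e i).natDegree ≤ ∑ i, e i * β := by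
          refine Finset.sum_le_sum fun i _ => (Polynomial.natDegree_pow_le).trans ?_
          exact Nat.mul_le_mul_left _ (hβ i)
      _ = (∑ i, e i) * β := by rw [Finset.sum_mul]
      _ ≤ n * β := Nat.mul_le_mul_right _ (hdeg e he)
  have hPlen : lenP P ≤ Pool.Agent.Work.MP_327059_nt.GL.len A * ((q : ℝ) * Λ) ^ n := by
    refine (NL_len_sum _ _).trans ?_
    unfold Pool.Agent.Work.MP_327059_nt.GL.len
    rw [Finset.sum_mul]
    refine Finset.sum_le_sum fun e he => ?_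
    refine (NL_len_mul _ _).trans ?_
    have h1 : Pool.Agent.Work.MP_327059_nt.AA.len
        (C (A.coeff e * (q : ℤ) ^ (n - ∑ i, e i))) ≤ |((A.coeff e : ℤ) : ℝ)| * (q : ℝ) ^ n := by
      refine (NL_len_C _).trans ?_
      push_cast
      rw [abs_mul, abs_of_nonneg (a := (q : ℝ) ^ (n - ∑ i, e i)) (by positivity)]
      exact mul_le_mul_of_nonneg_left (pow_le_pow_right₀ hqr (Nat.sub_le _ _)) (abs_nonneg _)
    have h2 : Pool.Agent.Work.MP_327059_nt.AA.len (∏ i, b' i ^ e i) ≤ Λ ^ n := by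
      refine (NL_len_prod _ _).trans ?_
      calc ∏ i, Pool.Agent.Work.MP_327059_nt.AA.len (b' i ^ e i) ≤ ∏ i, Λ ^ e i := by
            refine Finset.prod_le_prod (fun i _ => NL_len_nonneg _) fun i _ =>
              (NL_len_pow _ _).trans ?_
            exact pow_le_pow_left₀ (NL_len_nonneg _) (hΛ i) _
        _ = Λ ^ (∑ i, e i) := by rw [Finset.prod_pow_eq_pow_sum]
        _ ≤ Λ ^ n := pow_le_pow_right₀ hΛ1 (hdeg e he)
    calc _ ≤ (|((A.coeff e : ℤ) : ℝ)| * (q : ℝ) ^ n) * Λ ^ n :=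
          mul_le_mul h1 h2 (NL_len_nonneg _) (by positivity)
      _ = _ := by rw [mul_pow]; ring
  obtain ⟨B, hB1, hB2, hB3⟩ := RedN_red γ g hg hgγ (n * β) P hPdeg
  refine ⟨B, hB1, by rw [hB2, hPγ], hB3.trans ?_⟩
  have hA0 : 0 ≤ Pool.Agent.Work.MP_327059_nt.GL.len A :=
    Finset.sum_nonneg fun _ _ => abs_nonneg _
  have hc1 : (q : ℝ) * Λ * L ^ β ≤ ((⌈(q : ℝ) * Λ * L ^ β⌉₊ + 1 : ℕ) : ℝ) := by
    push_cast
    linarith [Nat.le_ceil ((q : ℝ) * Λ * L ^ β)]
  have hc2 : (1 : ℝ) ≤ ((⌈(q : ℝ) * Λ * L ^ β⌉₊ + 1 : ℕ) : ℝ) := by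
    push_cast
    linarith [Nat.cast_nonneg (α := ℝ) ⌈(q : ℝ) * Λ * L ^ β⌉₊]
  calc lenP P * (1 + lenP g) ^ (n * β)
      ≤ (Pool.Agent.Work.MP_327059_nt.GL.len A * ((q : ℝ) * Λ) ^ n) * L ^ (n * β) :=
        mul_le_mul_of_nonneg_right hPlen (by positivity)
    _ = Pool.Agent.Work.MP_327059_nt.GL.len A * ((q : ℝ) * Λ * L ^ β) ^ n := by
        rw [mul_pow _ (L ^ β), ← pow_mul, mul_comm β n]; ring
    _ ≤ Pool.Agent.Work.MP_327059_nt.GL.len A *
          ((⌈(q : ℝ) * Λ * L ^ β⌉₊ + 1 : ℕ) : ℝ) ^ n :=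
        mul_le_mul_of_nonneg_left (pow_le_pow_left₀ (by positivity) hc1 _) hA0
    _ ≤ _ := mul_le_mul_of_nonneg_left (pow_le_pow_right₀ hc2 (Nat.le_succ n)) hA0

end Pool.Agent.Work.MP_8da9ea_nt.SI
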