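import Pool.Agent.Work.MP_8da9ea_nt.SI.Stmts2
import Pool.Agent.Work.MP_327059_nt.FR.UPC

/-!
# Rel2: two relations between the differentials
-/

set_option autoImplicit false

namespace Pool.Agent.Work.MP_8da9ea_nt.SI

open Pool.Agent.ED Pool.Agent.Work.MP_327059_nt.FL Pool.Agent.Work.MP_327059_nt.AA

/-- Coordinates of functionals, multiplied by `F`. -/
noncomputable def Rel2_map {m : ℕ} (F : Option (Fin m) → ℂ) :
    Module.Dual ℂ (Option (Fin m) → ℂ) →ₗ[ℂ] (Option (Fin m) → ℂ) where
  toFun f := fun o => o.elim (f (Pi.single none 1)) (fun j => f (Pi.single (some j) 1) * F (some j))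
  map_add' f g := by
    funext o
    cases o with
    | none => rfl
    | some j => exact add_mul _ _ _
  map_smul' c f := by
    funext o
    cases o with
    | none => rfl
    | some j =>
      change c * f (Pi.single (some j) 1) * F (some j) = c * (f (Pi.single (some j) 1) * F (some j))
      ring

theorem pr_Rel2 : S_Rel2 := by
  classical
  intro m F hF h
  obtain ⟨s, hs, hrank⟩ := exists_finset_rank (K := ℚ) F
  have hcard : s.card < m := by
    by_contra hcon
    have h0 : Fintype.card (Fin m) ≤ Fintype.card s := by
      rw [Fintype.card_fin, Fintype.card_coe]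
      omega
    obtain ⟨e⟩ := Function.Embedding.nonempty_of_card_le h0
    exact h (fun i => (e i : Option (Fin m))) (hs.comp e e.injective)
  set D := Submodule.span ℂ (Set.range fun X : Derivation ℚ ℂ ℂ => fun i => X (F i)) with hD
  have hann : 2 ≤ Module.finrank ℂ D.dualAnnihilator := by
    have h1 := Subspace.finrank_add_finrank_dualAnnihilator_eq D
    rw [Module.finrank_fintype_fun_eq_card, Fintype.card_option, Fintype.card_fin] at h1
    omega
  obtain ⟨f, hf⟩ := exists_linearIndependent_of_le_finrank hann
  have hfs : ∀ (g : Module.Dual ℂ (Option (Fin m) → ℂ)) (u : Option (Fin m) → ℂ),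
      g u = ∑ i, u i * g (Pi.single i 1) := by
    intro g u
    have h0 : u = ∑ i, u i • (Pi.single i (1 : ℂ) : Option (Fin m) → ℂ) := by
      funext k
      rw [Finset.sum_apply]
      simp [Pi.single_apply]
    conv_lhs => rw [h0]
    rw [map_sum]
    exact Finset.sum_congr rfl fun i _ => by rw [map_smul, smul_eq_mul]
  have hinj : LinearMap.ker (Rel2_map F) = ⊥ := by
    rw [LinearMap.ker_eq_bot']
    intro g hg
    apply LinearMap.ext
    intro u
    rw [hfs]
    have h1 : ∀ i, g (Pi.single i (1 : ℂ)) = 0 := by
      intro i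
      cases i with
      | none => exact congrFun hg none
      | some j =>
        have := congrFun hg (some j)
        exact (mul_eq_zero.1 this).resolve_right (hF j)
    simp [h1]
  refine ⟨fun u => Rel2_map F (f u), ?_, ?_⟩
  · have h1 : LinearIndependent ℂ (fun u => (f u : Module.Dual ℂ (Option (Fin m) → ℂ))) :=
      hf.map' (Submodule.subtype _) (Submodule.ker_subtype _)
    exact h1.map' (Rel2_map F) hinj
  · intro u δ
    have h1 : (f u : Module.Dual ℂ (Option (Fin m) → ℂ)) (fun i => δ (F i)) = 0 :=
      (Submodule.mem_dualAnnihilator _).1 (f u).2 _ (Submodule.subset_span ⟨δ, rfl⟩)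
    rw [hfs, Fintype.sum_option] at h1
    rw [← h1]
    change (f u : Module.Dual ℂ (Option (Fin m) → ℂ)) (Pi.single none 1) * δ (F none) +
      ∑ j, ((f u : Module.Dual ℂ (Option (Fin m) → ℂ)) (Pi.single (some j) 1) * F (some j)) *
        (δ (F (some j)) / F (some j)) = _
    congr 1
    · ring
    · refine Finset.sum_congr rfl fun j _ => ?_
      have := hF j
      field_simp

end Pool.Agent.Work.MP_8da9ea_nt.SI
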