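import Pool.Agent.Work.MP_8da9ea_nt.SI.Stmts2

set_option autoImplicit false

namespace Pool.Agent.Work.MP_8da9ea_nt.SI

open MvPolynomial Pool.Agent.Work.MP_327059_nt.GL Pool.Agent.Work.MP_327059_nt.FR

/-- the span over a bigger field -/
theorem RobA_span (B : IntermediateField ℚ ℂ) {N : ℕ} (y : Fin N → ℂ) :
    Module.finrank B (Submodule.span B (Set.range y)) ≤
      Module.finrank ℚ (Submodule.span ℚ (Set.range y)) ∧
    FiniteDimensional B (Submodule.span B (Set.range y)) := by
  classical
  obtain ⟨s, hs, hspan, hli⟩ := exists_linearIndependent ℚ (Set.range y)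
  have hfin : s.Finite := (Set.finite_range y).subset hs
  haveI : Fintype s := hfin.fintype
  have h1 : Module.finrank ℚ (Submodule.span ℚ (Set.range y)) = s.toFinset.card := by
    rw [← hspan]
    exact finrank_span_set_eq_card hli
  have h2 : Submodule.span B (Set.range y) = Submodule.span B s := by
    apply le_antisymm
    · rw [Submodule.span_le]
      intro z hz
      have h3 : z ∈ Submodule.span ℚ s := by
        rw [hspan]
        exact Submodule.subset_span hz
      have h4 : Submodule.span ℚ s ≤ (Submodule.span B s).restrictScalars ℚ :=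
        Submodule.span_le_restrictScalars ℚ B s
      exact h4 h3
    · exact Submodule.span_mono hs
  refine ⟨?_, ?_⟩
  · rw [h1, h2]
    exact finrank_span_le_card s
  · exact FiniteDimensional.span_of_finite B (Set.finite_range y)

theorem pr_RobA (hEmb : S_EmbS) : S_RobA := by
  classical
  intro n m δ N b x v h μ Z hb hbi hx hv hh hZ hμ hδ
  set B : IntermediateField ℚ ℂ := IntermediateField.adjoin ℚ (Set.range b) with hB
  haveI hBf : FiniteDimensional ℚ B := by
    refine IntermediateField.finiteDimensional_adjoin ?_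
    rintro _ ⟨k, rfl⟩
    exact (hb k).isIntegral
  let b' : Fin m → B := fun k =>
    ⟨b k, IntermediateField.subset_adjoin ℚ (Set.range b) (Set.mem_range_self k)⟩
  have hb'i : LinearIndependent ℚ b' := by
    refine LinearIndependent.of_comp B.val.toLinearMap ?_
    exact hbi
  let y : Fin N → ℂ := fun i => ∑ k, ∑ a, b k * x a * (μ i (h k * v a) : ℂ)
  by_contra hcon
  rw [not_le] at hcon
  change δ * Module.finrank ℚ (Submodule.span ℚ (Set.range y)) < n at hcon
  obtain ⟨hBY, hBYf⟩ := RobA_span B y
  -- some `x a` is outside of the span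
  have hex : ∃ a0, x a0 ∉ Submodule.span B (Set.range y) := by
    by_contra hall
    push Not at hall
    haveI : FiniteDimensional ℚ (Submodule.span B (Set.range y)) :=
      FiniteDimensional.trans ℚ B (Submodule.span B (Set.range y))
    let x' : Fin n → Submodule.span B (Set.range y) := fun a => ⟨x a, hall a⟩
    have hx' : LinearIndependent ℚ x' := by
      refine LinearIndependent.of_comp
        ((Submodule.span B (Set.range y)).subtype.restrictScalars ℚ) ?_
      exact hx
    have h1 := hx'.fintype_card_le_finrank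
    rw [Fintype.card_fin, ← Module.finrank_mul_finrank ℚ B (Submodule.span B (Set.range y))] at h1
    have h2 : Module.finrank ℚ B * Module.finrank B (Submodule.span B (Set.range y)) ≤
        δ * Module.finrank ℚ (Submodule.span ℚ (Set.range y)) := Nat.mul_le_mul hδ hBY
    omega
  obtain ⟨a0, ha0⟩ := hex
  obtain ⟨ω, hω0, hωk⟩ := Submodule.exists_le_ker_of_notMem ha0
  -- apply `ω`
  have hω : ∀ i, ∑ k, ∑ a, (μ i (h k * v a)) • (b' k * ω (x a)) = 0 := by
    intro i
    have h1 : ω (y i) = 0 := hωk (Submodule.subset_span (Set.mem_range_self i))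
    have h2 : y i = ∑ k, ∑ a, (b' k) • ((μ i (h k * v a)) • x a) := by
      refine Finset.sum_congr rfl fun k _ => Finset.sum_congr rfl fun a _ => ?_
      rw [Rat.smul_def, IntermediateField.smul_def, smul_eq_mul]
      ring
    rw [h2, map_sum] at h1
    rw [← h1]
    refine Finset.sum_congr rfl fun k _ => ?_
    rw [map_sum]
    refine Finset.sum_congr rfl fun a _ => ?_
    rw [map_smul, map_rat_smul ω, smul_eq_mul, mul_smul_comm]
  let β := Module.finBasis ℚ B
  let q : Fin m → Fin n → Fin (Module.finrank ℚ B) → ℚ := fun k a l =>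
    β.repr (b' k * ω (x a)) l
  have hq : ∀ i l, ∑ k, ∑ a, μ i (h k * v a) * q k a l = 0 := by
    intro i l
    have h1 := congrArg (fun z => β.repr z l) (hω i)
    simp only [map_sum, map_smul, map_zero, Finsupp.coe_zero, Pi.zero_apply,
      Finsupp.coe_finset_sum, Finset.sum_apply, Finsupp.coe_smul, Pi.smul_apply,
      smul_eq_mul] at h1
    exact h1
  have hz : ∀ l, ∑ k, ∑ a, (q k a l) • (h k * v a) = 0 := by
    intro l
    refine hμ _ ?_ ?_
    · refine Submodule.sum_mem _ fun k _ => Submodule.sum_mem _ fun a _ => ?_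
      exact Submodule.smul_mem _ _ (hZ k a)
    · intro i
      rw [map_sum, ← hq i l]
      refine Finset.sum_congr rfl fun k _ => ?_
      rw [map_sum]
      refine Finset.sum_congr rfl fun a _ => ?_
      rw [map_smul, smul_eq_mul, mul_comm]
  obtain ⟨σ, hσ⟩ := hEmb B m b' h hBf hb'i hh
  have hrepr : ∀ k a, σ (b' k * ω (x a)) = ∑ l, (q k a l : ℂ) * σ (β l) := by
    intro k a
    conv_lhs => rw [← β.sum_repr (b' k * ω (x a))]
    rw [map_sum]
    refine Finset.sum_congr rfl fun l _ => ?_
    rw [map_rat_smul σ, Rat.smul_def]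
  have hprod : (∑ k, σ (b' k) * h k) * (∑ a, v a * σ (ω (x a))) = 0 := by
    have h1 : (∑ k, σ (b' k) * h k) * (∑ a, v a * σ (ω (x a))) =
        ∑ k, ∑ a, σ (b' k * ω (x a)) * (h k * v a) := by
      rw [Finset.sum_mul_sum]
      refine Finset.sum_congr rfl fun k _ => Finset.sum_congr rfl fun a _ => ?_
      rw [map_mul]
      ring
    rw [h1]
    have h2 : ∑ k, ∑ a, σ (b' k * ω (x a)) * (h k * v a) =
        ∑ l, σ (β l) * ∑ k, ∑ a, (q k a l) • (h k * v a) := by
      calc ∑ k, ∑ a, σ (b' k * ω (x a)) * (h k * v a)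
          = ∑ k, ∑ a, ∑ l, σ (β l) * ((q k a l) • (h k * v a)) := by
            refine Finset.sum_congr rfl fun k _ => Finset.sum_congr rfl fun a _ => ?_
            rw [hrepr, Finset.sum_mul]
            refine Finset.sum_congr rfl fun l _ => ?_
            rw [Rat.smul_def]
            ring
        _ = ∑ k, ∑ l, ∑ a, σ (β l) * ((q k a l) • (h k * v a)) := by
            refine Finset.sum_congr rfl fun k _ => Finset.sum_comm
        _ = ∑ l, ∑ k, ∑ a, σ (β l) * ((q k a l) • (h k * v a)) := Finset.sum_comm
        _ = ∑ l, σ (β l) * ∑ k, ∑ a, (q k a l) • (h k * v a) := by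
            refine Finset.sum_congr rfl fun l _ => ?_
            rw [Finset.mul_sum]
            refine Finset.sum_congr rfl fun k _ => ?_
            rw [Finset.mul_sum]
    rw [h2]
    refine Finset.sum_eq_zero fun l _ => ?_
    rw [hz l, mul_zero]
  have hzero : ∑ a, v a * σ (ω (x a)) = 0 := by
    rcases mul_eq_zero.mp hprod with h1 | h1
    · exact absurd h1 hσ
    · exact h1
  have hc := hv (fun a => σ (ω (x a))) (fun a => ?_) hzero
  · have h1 : σ (ω (x a0)) = 0 := congrFun hc a0
    exact hω0 ((map_eq_zero σ).mp h1)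
  · have h1 : IsAlgebraic ℚ (ω (x a)) := Algebra.IsAlgebraic.isAlgebraic _
    exact h1.algHom σ

end Pool.Agent.Work.MP_8da9ea_nt.SI
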