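import Pool.Agent.Work.MP_8da9ea_nt.SI.Stmts2

/-!
# SI: descent to finitely many subspaces
-/

set_option autoImplicit false

namespace Pool.Agent.Work.MP_8da9ea_nt.SI

theorem SI_descent (P : ℂ → Prop) (m : ℕ)
    (hcov : ∀ (n : ℕ), m < n → ∀ l : Fin n → ℂ, LinearIndependent ℚ l →
      ∃ T : Finset (Submodule ℚ (Fin n → ℚ)), (∀ W ∈ T, W ≠ ⊤) ∧
        ∀ t : Fin n → ℚ, P (Fintype.linearCombination ℚ l t) → ∃ W ∈ T, t ∈ W) :
    ∀ (k : ℕ) (V : Submodule ℚ ℂ), FiniteDimensional ℚ V → Module.finrank ℚ V ≤ k →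
      ∃ T : Finset (Submodule ℚ ℂ), (∀ W ∈ T, W ≤ V ∧ Module.finrank ℚ W ≤ m) ∧
        ∀ z ∈ V, P z → ∃ W ∈ T, z ∈ W := by
  classical
  intro k
  induction k with
  | zero =>
    intro V _ hk
    exact ⟨{V}, fun W hW => by
      rw [Finset.mem_singleton] at hW
      subst hW
      exact ⟨le_rfl, by omega⟩, fun z hz _ => ⟨V, Finset.mem_singleton_self V, hz⟩⟩
  | succ k ih =>
    intro V hfin hk
    by_cases hm : Module.finrank ℚ V ≤ m
    · exact ⟨{V}, fun W hW => by
        rw [Finset.mem_singleton] at hW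
        subst hW
        exact ⟨le_rfl, hm⟩, fun z hz _ => ⟨V, Finset.mem_singleton_self V, hz⟩⟩
    · push Not at hm
      let b := Module.finBasis ℚ V
      set n := Module.finrank ℚ V with hn
      let l : Fin n → ℂ := fun i => (b i : ℂ)
      have hli : LinearIndependent ℚ l := b.linearIndependent.map' V.subtype V.ker_subtype
      have hlc : ∀ t : Fin n → ℚ, Fintype.linearCombination ℚ l t =
          ((∑ i, t i • b i : V) : ℂ) := by
        intro t
        rw [Fintype.linearCombination_apply, Submodule.coe_sum]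
        rfl
      have hmem : ∀ t : Fin n → ℚ, Fintype.linearCombination ℚ l t ∈ V := by
        intro t
        rw [hlc]
        exact Subtype.property _
      have hinj : Function.Injective (Fintype.linearCombination ℚ l) :=
        hli.fintypeLinearCombination_injective
      obtain ⟨T, hT1, hT2⟩ := hcov n hm l hli
      have hsub : ∀ W : Submodule ℚ (Fin n → ℚ), W.map (Fintype.linearCombination ℚ l) ≤ V := by
        intro W
        rw [Submodule.map_le_iff_le_comap]
        intro t _
        exact hmem t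
      have hrank : ∀ W ∈ T, Module.finrank ℚ (W.map (Fintype.linearCombination ℚ l)) ≤ k := by
        intro W hW
        have h1 : Module.finrank ℚ (W.map (Fintype.linearCombination ℚ l)) =
            Module.finrank ℚ W :=
          (Submodule.equivMapOfInjective _ hinj W).finrank_eq.symm
        have h2 : Module.finrank ℚ W < Module.finrank ℚ (Fin n → ℚ) :=
          Submodule.finrank_lt (hT1 W hW)
        rw [Module.finrank_fin_fun] at h2
        omega
      have h3 : ∀ W : T, ∃ T' : Finset (Submodule ℚ ℂ),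
          (∀ W' ∈ T', W' ≤ (W : Submodule ℚ (Fin n → ℚ)).map (Fintype.linearCombination ℚ l) ∧
            Module.finrank ℚ W' ≤ m) ∧
          ∀ z ∈ (W : Submodule ℚ (Fin n → ℚ)).map (Fintype.linearCombination ℚ l),
            P z → ∃ W' ∈ T', z ∈ W' := by
        intro W
        exact ih _ inferInstance (hrank W W.2)
      choose T' hr' hc' using h3
      refine ⟨Finset.univ.biUnion T', ?_, ?_⟩
      · intro W' hW'
        obtain ⟨W, _, hW⟩ := Finset.mem_biUnion.1 hW'
        exact ⟨(hr' W W' hW).1.trans (hsub _), (hr' W W' hW).2⟩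
      · intro z hz hPz
        have hz' : Fintype.linearCombination ℚ l (fun i => b.repr ⟨z, hz⟩ i) = z := by
          rw [hlc]
          have h4 := b.sum_repr ⟨z, hz⟩
          rw [h4]
        obtain ⟨W, hW, hWt⟩ := hT2 (fun i => b.repr ⟨z, hz⟩ i) (by rw [hz']; exact hPz)
        obtain ⟨W', hW', hzW'⟩ := hc' ⟨W, hW⟩ z ⟨_, hWt, hz'⟩ hPz
        exact ⟨W', Finset.mem_biUnion.2 ⟨⟨W, hW⟩, Finset.mem_univ _, hW'⟩, hzW'⟩

theorem pr_SI (h : S_CovS) : S_SI := by
  intro m δ
  obtain ⟨n₀, hn₀⟩ := h m δ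
  refine ⟨n₀, fun b hba hb hδ V hV => ?_⟩
  exact SI_descent (fun z => ¬ S.Sch b z) n₀ (fun n hn l hl => hn₀ b hba hb hδ n hn l hl) _ V hV
    le_rfl

end Pool.Agent.Work.MP_8da9ea_nt.SI
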