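import Pool.Agent.Work.MP_8da9ea_nt.SI.Stmts
import Pool.Agent.Work.MP_327059_nt.Bd.B11

/-!
# Item Sbt: value, degree and length of a substitution
-/

set_option autoImplicit false

namespace Pool.Agent.Work.MP_8da9ea_nt.SI

open MvPolynomial Pool.Agent.Work.MP_327059_nt.GL Pool.Agent.Work.MP_327059_nt.FR

theorem Sbt_expand {σ τ : Type} (g : σ → MvPolynomial τ ℤ) (P : MvPolynomial σ ℤ) :
    bind₁ g P = ∑ d ∈ P.support, C (P.coeff d) * ∏ i ∈ d.support, g i ^ d i := by
  change aeval g P = _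
  rw [aeval_def, eval₂_eq]
  rfl

theorem Sbt_deg {σ τ : Type} (g : σ → MvPolynomial τ ℤ) (P : MvPolynomial σ ℤ) (D : ℕ)
    (hg : ∀ i, (g i).totalDegree ≤ D) : (bind₁ g P).totalDegree ≤ P.totalDegree * D := by
  rw [Sbt_expand]
  refine totalDegree_finsetSum_le fun d hd => ?_
  refine (totalDegree_mul _ _).trans ?_
  rw [totalDegree_C, zero_add]
  refine (totalDegree_finsetProd _ _).trans ?_
  have h1 : ∑ i ∈ d.support, (g i ^ d i).totalDegree ≤ ∑ i ∈ d.support, d i * D :=
    Finset.sum_le_sum fun i _ =>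
      (totalDegree_pow _ _).trans (Nat.mul_le_mul_left _ (hg i))
  refine h1.trans ?_
  rw [← Finset.sum_mul]
  exact Nat.mul_le_mul_right _ (le_totalDegree hd)

theorem Sbt_len {σ τ : Type} (g : σ → MvPolynomial τ ℤ) (P : MvPolynomial σ ℤ) (L : ℝ)
    (hL : 1 ≤ L) (hg : ∀ i, len (g i) ≤ L) : len (bind₁ g P) ≤ len P * L ^ P.totalDegree := by
  rw [Sbt_expand]
  refine (Val_len_sum _ _).trans ?_
  rw [show len P = ∑ m ∈ P.support, |((P.coeff m : ℤ) : ℝ)| from rfl, Finset.sum_mul]
  refine Finset.sum_le_sum fun d hd => ?_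
  refine (Val_len_mul _ _).trans ?_
  refine mul_le_mul (Val_len_C _) ?_ (Val_len_nonneg _) (abs_nonneg _)
  refine (Val_len_prod _ _).trans ?_
  have h1 : ∏ i ∈ d.support, len (g i ^ d i) ≤ ∏ i ∈ d.support, L ^ d i :=
    Finset.prod_le_prod (fun i _ => Val_len_nonneg _) fun i _ =>
      (Val_len_pow _ _).trans (pow_le_pow_left₀ (Val_len_nonneg _) (hg i) _)
  refine h1.trans ?_
  rw [Finset.prod_pow_eq_pow_sum]
  exact pow_le_pow_right₀ hL (le_totalDegree hd)

theorem Sbt_zpow (y : ℂ) (hy : y ≠ 0) (t : ℤ) : y ^ t.toNat * y⁻¹ ^ (-t).toNat = y ^ t := by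
  rw [inv_pow, ← zpow_natCast y t.toNat, ← zpow_natCast y (-t).toNat, ← zpow_neg, ← zpow_add₀ hy]
  congr 1
  omega

theorem pr_Sbt : S_Sbt := by
  intro r m N N' h m' A K J t hA hN ht P
  have hNA : 1 ≤ N * A := Nat.mul_pos hN hA
  have hNA' : (1 : ℝ) ≤ (N : ℝ) * A := by exact_mod_cast hNA
  refine ⟨?_, ?_, ?_⟩
  · intro u y hy
    rw [aeval_bind₁]
    congr 1
    congr 1
    funext q
    rcases q with ⟨j, l⟩ | ⟨j, l⟩
    · simp [sbt, cdr]
    · simp only [sbt, cdr, Sum.elim_inr, map_prod, map_mul, map_pow, aeval_X, Sum.elim_inl]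
      exact Finset.prod_congr rfl fun i _ => Sbt_zpow _ (hy i (J l)) _
  · refine Sbt_deg _ _ _ ?_
    rintro (⟨j, l⟩ | ⟨j, l⟩)
    · simp only [sbt, Sum.elim_inl]
      refine totalDegree_finsetSum_le fun i _ => ?_
      refine (totalDegree_mul _ _).trans ?_
      rw [totalDegree_C, totalDegree_X]
      omega
    · simp only [sbt, Sum.elim_inr]
      refine (totalDegree_finsetProd _ _).trans ?_
      have h1 : ∀ i ∈ (Finset.univ : Finset (Fin N)),
          ((X (Sum.inr (Sum.inl (i, J l))) ^ (t j i).toNat *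
            X (Sum.inr (Sum.inr (i, J l))) ^ (-(t j i)).toNat :
            MvPolynomial ((Fin N × Fin r) ⊕ ((Fin N × Fin m) ⊕ (Fin N × Fin m))) ℤ)).totalDegree
            ≤ A := by
        intro i _
        refine (totalDegree_mul _ _).trans ?_
        have h2 := ht j i
        rw [abs_le] at h2
        have h3 := totalDegree_pow (X (Sum.inr (Sum.inl (i, J l))) :
            MvPolynomial ((Fin N × Fin r) ⊕ ((Fin N × Fin m) ⊕ (Fin N × Fin m))) ℤ) (t j i).toNat
        have h4 := totalDegree_pow (X (Sum.inr (Sum.inr (i, J l))) :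
            MvPolynomial ((Fin N × Fin r) ⊕ ((Fin N × Fin m) ⊕ (Fin N × Fin m))) ℤ)
            (-(t j i)).toNat
        rw [totalDegree_X, mul_one] at h3 h4
        omega
      refine (Finset.sum_le_sum h1).trans ?_
      simp
  · refine Sbt_len _ _ _ hNA' ?_
    rintro (⟨j, l⟩ | ⟨j, l⟩)
    · simp only [sbt, Sum.elim_inl]
      refine (Val_len_sum _ _).trans ?_
      have h1 : ∀ i ∈ (Finset.univ : Finset (Fin N)),
          len (C (t j i) * X (Sum.inl (i, K l)) :
            MvPolynomial ((Fin N × Fin r) ⊕ ((Fin N × Fin m) ⊕ (Fin N × Fin m))) ℤ) ≤ A := by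
        intro i _
        refine (Val_len_mul _ _).trans ?_
        have h2 : |((t j i : ℤ) : ℝ)| ≤ A := by exact_mod_cast ht j i
        have h3 := (Val_len_C (σ := (Fin N × Fin r) ⊕ ((Fin N × Fin m) ⊕ (Fin N × Fin m)))
          (t j i)).trans h2
        have h4 := Val_len_X (σ := (Fin N × Fin r) ⊕ ((Fin N × Fin m) ⊕ (Fin N × Fin m)))
          (Sum.inl (i, K l))
        calc _ ≤ (A : ℝ) * 1 := mul_le_mul h3 h4 (Val_len_nonneg _) (by positivity)
          _ = A := mul_one _
      refine (Finset.sum_le_sum h1).trans ?_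
      simp
    · simp only [sbt, Sum.elim_inr]
      refine (Val_len_prod _ _).trans ?_
      refine le_trans ?_ hNA'
      refine Finset.prod_le_one (fun i _ => Val_len_nonneg _) fun i _ => ?_
      refine (Val_len_mul _ _).trans ?_
      refine mul_le_one₀ ?_ (Val_len_nonneg _) ?_
      · exact (Val_len_pow _ _).trans (pow_le_one₀ (Val_len_nonneg _) (Val_len_X _))
      · exact (Val_len_pow _ _).trans (pow_le_one₀ (Val_len_nonneg _) (Val_len_X _))

end Pool.Agent.Work.MP_8da9ea_nt.SI
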