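import Mathlib
import Pool.Agent.Work.MP_8da9ea_nt.SI.Stmts

/-!
# PROJECT SI, item StA: the criterion applied near a subspace
-/

set_option autoImplicit false

namespace Pool.Agent.Work.MP_8da9ea_nt.SI

open MvPolynomial Pool.Agent.Work.MP_327059_nt.GL Pool.Agent.Work.MP_327059_nt.FR

lemma StA_pow_le_exp (a : ℝ) (ha : 0 ≤ a) (k : ℕ) : a ^ k ≤ Real.exp (a * k) := by
  have h1 : a ≤ Real.exp a := by have := Real.add_one_le_exp a; linarith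
  calc a ^ k ≤ (Real.exp a) ^ k := pow_le_pow_left₀ ha h1 k
    _ = Real.exp (a * k) := by rw [← Real.exp_nat_mul]; ring_nf

lemma StA_powdiff (x y : ℂ) (M δ : ℝ) (hM : 1 ≤ M) (hx : ‖x‖ ≤ M) (hy : ‖y‖ ≤ M)
    (hxy : ‖x - y‖ ≤ δ) (n : ℕ) : ‖x ^ n - y ^ n‖ ≤ n * M ^ n * δ := by
  have hδ : 0 ≤ δ := (norm_nonneg _).trans hxy
  induction n with
  | zero => simp
  | succ n ih =>
    have h1 : x ^ (n + 1) - y ^ (n + 1) = x ^ n * (x - y) + (x ^ n - y ^ n) * y := by ring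
    have h2 : ‖x ^ n * (x - y)‖ ≤ M ^ n * δ := by
      rw [norm_mul, norm_pow]
      exact mul_le_mul (pow_le_pow_left₀ (norm_nonneg _) hx n) hxy (norm_nonneg _) (by positivity)
    have h3 : ‖(x ^ n - y ^ n) * y‖ ≤ (n * M ^ n * δ) * M := by
      rw [norm_mul]
      exact mul_le_mul ih hy (norm_nonneg _) (by positivity)
    have h4 : M ^ n * δ ≤ M ^ (n + 1) * δ := by
      apply mul_le_mul_of_nonneg_right _ hδ
      exact pow_le_pow_right₀ hM (by omega)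
    rw [h1]
    calc ‖x ^ n * (x - y) + (x ^ n - y ^ n) * y‖ ≤ M ^ n * δ + (n * M ^ n * δ) * M :=
          (norm_add_le _ _).trans (add_le_add h2 h3)
      _ ≤ M ^ (n + 1) * δ + (n * M ^ n * δ) * M := by linarith
      _ = ((n + 1 : ℕ) : ℝ) * M ^ (n + 1) * δ := by push_cast; ring

lemma StA_proddiff {ι : Type} (s : Finset ι) (b b' : ι → ℂ) (B η : ℝ) (hB : 1 ≤ B)
    (hη : 0 ≤ η) (hb : ∀ i, ‖b i‖ ≤ B) (hb' : ∀ i, ‖b' i‖ ≤ B) (hd : ∀ i, ‖b' i - b i‖ ≤ η) :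
    ‖∏ i ∈ s, b' i - ∏ i ∈ s, b i‖ ≤ s.card * B ^ s.card * η := by
  classical
  induction s using Finset.induction_on with
  | empty => simp
  | insert i s hi ih =>
    rw [Finset.prod_insert hi, Finset.prod_insert hi, Finset.card_insert_of_notMem hi]
    have h0 : ‖∏ i ∈ s, b' i‖ ≤ B ^ s.card := by
      rw [norm_prod]
      calc ∏ i ∈ s, ‖b' i‖ ≤ ∏ _i ∈ s, B :=
            Finset.prod_le_prod (fun _ _ => norm_nonneg _) (fun i _ => hb' i)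
        _ = B ^ s.card := by rw [Finset.prod_const]
    have h1 : b' i * ∏ i ∈ s, b' i - b i * ∏ i ∈ s, b i =
        (b' i - b i) * ∏ i ∈ s, b' i + b i * (∏ i ∈ s, b' i - ∏ i ∈ s, b i) := by ring
    have h2 : ‖(b' i - b i) * ∏ i ∈ s, b' i‖ ≤ η * B ^ s.card := by
      rw [norm_mul]
      exact mul_le_mul (hd i) h0 (norm_nonneg _) hη
    have h3 : ‖b i * (∏ i ∈ s, b' i - ∏ i ∈ s, b i)‖ ≤ B * (s.card * B ^ s.card * η) := by
      rw [norm_mul]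
      exact mul_le_mul (hb i) ih (norm_nonneg _) (by linarith)
    have h4 : η * B ^ s.card ≤ η * B ^ (s.card + 1) := by
      apply mul_le_mul_of_nonneg_left _ hη
      exact pow_le_pow_right₀ hB (by omega)
    rw [h1]
    calc ‖(b' i - b i) * ∏ i ∈ s, b' i + b i * (∏ i ∈ s, b' i - ∏ i ∈ s, b i)‖
        ≤ η * B ^ s.card + B * (s.card * B ^ s.card * η) :=
          (norm_add_le _ _).trans (add_le_add h2 h3)
      _ ≤ η * B ^ (s.card + 1) + B * (s.card * B ^ s.card * η) := by linarith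
      _ = ((s.card + 1 : ℕ) : ℝ) * B ^ (s.card + 1) * η := by push_cast; ring

lemma StA_close {N : ℕ} (Y Y' : Fin N → ℂ) (t : Fin N → ℤ) (A : ℕ) (M δ : ℝ) (hM : 1 ≤ M)
    (ht : ∀ i, |t i| ≤ (A : ℤ)) (h1 : ∀ i, ‖Y i‖ ≤ M) (h2 : ∀ i, ‖(Y i)⁻¹‖ ≤ M)
    (h3 : ∀ i, ‖Y' i‖ ≤ M) (h4 : ∀ i, ‖(Y' i)⁻¹‖ ≤ M) (h5 : ∀ i, ‖Y' i - Y i‖ ≤ δ)
    (h6 : ∀ i, ‖(Y' i)⁻¹ - (Y i)⁻¹‖ ≤ δ) (hδ : 0 ≤ δ) :
    ‖∏ i, Y' i ^ t i - ∏ i, Y i ^ t i‖ ≤ N * (M ^ A) ^ N * (A * M ^ A * δ) := by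
  have key : ∀ (x y : ℂ) (n : ℕ), n ≤ A → ‖x‖ ≤ M → ‖y‖ ≤ M → ‖x - y‖ ≤ δ →
      ‖x ^ n‖ ≤ M ^ A ∧ ‖y ^ n‖ ≤ M ^ A ∧ ‖x ^ n - y ^ n‖ ≤ A * M ^ A * δ := by
    intro x y n hn hx hy hxy
    have g1 : M ^ n ≤ M ^ A := pow_le_pow_right₀ hM hn
    refine ⟨?_, ?_, ?_⟩
    · rw [norm_pow]; exact (pow_le_pow_left₀ (norm_nonneg _) hx n).trans g1
    · rw [norm_pow]; exact (pow_le_pow_left₀ (norm_nonneg _) hy n).trans g1
    · refine (StA_powdiff x y M δ hM hx hy hxy n).trans ?_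
      apply mul_le_mul_of_nonneg_right _ hδ
      have g2 : (n : ℝ) ≤ A := by exact_mod_cast hn
      exact mul_le_mul g2 g1 (by positivity) (by positivity)
  have key2 : ∀ i, ‖Y' i ^ t i‖ ≤ M ^ A ∧ ‖Y i ^ t i‖ ≤ M ^ A ∧
      ‖Y' i ^ t i - Y i ^ t i‖ ≤ A * M ^ A * δ := by
    intro i
    have hti := ht i
    rcases le_or_gt 0 (t i) with hp | hn
    · obtain ⟨n, hn⟩ := Int.eq_ofNat_of_zero_le hp
      rw [hn] at hti ⊢
      rw [zpow_natCast, zpow_natCast]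
      apply key _ _ n _ (h3 i) (h1 i) (h5 i)
      rw [abs_of_nonneg (by positivity)] at hti
      exact_mod_cast hti
    · obtain ⟨n, hn'⟩ := Int.eq_ofNat_of_zero_le (show 0 ≤ -(t i) by omega)
      have e1 : t i = -(n : ℤ) := by omega
      rw [e1] at hti ⊢
      rw [zpow_neg, zpow_neg, zpow_natCast, zpow_natCast, ← inv_pow, ← inv_pow]
      apply key _ _ n _ (h4 i) (h2 i) (h6 i)
      rw [abs_neg, abs_of_nonneg (by positivity)] at hti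
      exact_mod_cast hti
  have := StA_proddiff Finset.univ (fun i => Y i ^ t i) (fun i => Y' i ^ t i) (M ^ A)
    (A * M ^ A * δ) (one_le_pow₀ hM) (by positivity) (fun i => (key2 i).2.1)
    (fun i => (key2 i).1) (fun i => (key2 i).2.2)
  simpa using this

lemma StA_indep {N r m A W G : ℕ} (hA : A ≤ 1) (p : (Fin G → Ixr r m A W) → ℤ)
    (s : Fin G → Fin N → ℕ) (w1 w2 : Fin N → Fin r → ℂ) (y : Fin N → Fin m → ℂ) :
    ∑ x, (p x : ℂ) * ∏ g, evr (x g) (rpt w1 y (s g)) =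
      ∑ x, (p x : ℂ) * ∏ g, evr (x g) (rpt w2 y (s g)) := by
  refine Finset.sum_congr rfl (fun x _ => ?_)
  congr 1
  refine Finset.prod_congr rfl (fun g _ => ?_)
  unfold evr rpt
  have h0 : ∀ k, (((x g).1 k : ℕ)) = 0 := by
    intro k
    have := ((x g).1 k).isLt
    omega
  simp [h0]

lemma StA_exp {r m N : ℕ} (φ : Fin m → Fin r → ℂ) (w : Fin N → Fin r → ℂ) (t : Fin N → ℤ)
    (j : Fin m) : ∏ i, ey φ w i j ^ t i = Complex.exp (∑ k, φ j k * wt w t k) := by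
  unfold ey wt
  have h1 : ∀ i, Complex.exp (∑ k, φ j k * w i k) ^ t i =
      Complex.exp ((t i : ℂ) * ∑ k, φ j k * w i k) := by
    intro i
    rw [Complex.exp_int_mul]
  rw [Finset.prod_congr rfl (fun i _ => h1 i), ← Complex.exp_sum]
  congr 1
  simp only [Finset.mul_sum]
  rw [Finset.sum_comm]
  refine Finset.sum_congr rfl (fun k _ => Finset.sum_congr rfl (fun i _ => ?_))
  ring

lemma StA_zero {r m A W G : ℕ} (p : (Fin G → Ixr r m A W) → ℤ) (s : Fin G → Fin 0 → ℕ)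
    (w : Fin 0 → Fin r → ℂ) (y : Fin 0 → Fin m → ℂ) (h : ‖aeval (cdr w y) (PSr p s)‖ < 1) :
    aeval (cdr w y) (PSr p s) = 0 := by
  obtain ⟨n, hn⟩ := MvPolynomial.C_surjective ((Fin 0 × Fin r) ⊕ (Fin 0 × Fin m)) (PSr p s)
  rw [← hn] at h ⊢
  rw [aeval_C] at h ⊢
  have e1 : (algebraMap ℤ ℂ) n = (n : ℂ) := rfl
  rw [e1] at h ⊢
  rw [Complex.norm_intCast] at h
  have h2 : |n| < 1 := by exact_mod_cast h
  have h3 : n = 0 := Int.abs_lt_one_iff.1 h2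
  rw [h3]; simp

lemma StA_len2 {σ : Type} (i j : σ) : len (X i * X j - 1 : MvPolynomial σ ℤ) ≤ 2 := by
  classical
  have e : (X i * X j - 1 : MvPolynomial σ ℤ) =
      monomial (Finsupp.single i 1 + Finsupp.single j 1) (1 : ℤ) - monomial 0 1 := by
    rw [X, X, monomial_mul, one_mul]
    rfl
  have ha : (Finsupp.single i 1 + Finsupp.single j 1 : σ →₀ ℕ) ≠ 0 := by
    intro h0
    have := DFunLike.congr_fun h0 i
    simp at this
  rw [e]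
  set P : MvPolynomial σ ℤ :=
    monomial (Finsupp.single i 1 + Finsupp.single j 1) (1 : ℤ) - monomial 0 1 with hP
  unfold len
  have hsub : P.support ⊆ {Finsupp.single i 1 + Finsupp.single j 1, 0} := by
    intro d hd
    rw [mem_support_iff, hP, coeff_sub, coeff_monomial, coeff_monomial] at hd
    rw [Finset.mem_insert, Finset.mem_singleton]
    by_contra hne
    push Not at hne
    rw [if_neg (fun h => hne.1 h.symm), if_neg (fun h => hne.2 h.symm)] at hd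
    exact hd (by ring)
  calc ∑ d ∈ P.support, |((P.coeff d : ℤ) : ℝ)|
      ≤ ∑ d ∈ ({Finsupp.single i 1 + Finsupp.single j 1, 0} : Finset (σ →₀ ℕ)),
          |((P.coeff d : ℤ) : ℝ)| :=
        Finset.sum_le_sum_of_subset_of_nonneg hsub (fun _ _ _ => abs_nonneg _)
    _ = 2 := by
        rw [Finset.sum_pair ha, hP, coeff_sub, coeff_monomial, coeff_monomial, coeff_sub,
          coeff_monomial, coeff_monomial, if_pos rfl, if_neg ha.symm, if_neg ha, if_pos rfl]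
        norm_num

lemma StA_ind (h2 : S_Valr) {N r m Tt q e W G : ℕ} (he : e ≤ 1)
    (p : (Fin G → Ixr r m (Tt ^ (q * e)) W) → ℤ) (s : Fin G → Fin N → ℕ)
    (w1 w2 : Fin N → Fin r → ℂ) (y : Fin N → Fin m → ℂ) (h : e = 1 → w1 = w2) :
    aeval (cdr w1 y) (PSr p s) = aeval (cdr w2 y) (PSr p s) := by
  by_cases he1 : e = 1
  · rw [h he1]
  · have he0 : e = 0 := by omega
    obtain ⟨hv1, _⟩ := h2 N r m (Tt ^ (q * e)) W G p s
    rw [hv1, hv1]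
    exact StA_indep (by rw [he0]; simp) p s w1 w2 y

/-- Degree and length of the polynomials `bind₁ (sbt K J t) (PSr p sg)`. -/
lemma StA_sizes (h2 : S_Valr) (h4 : S_Sbt) (r m s e q G N N' h a T Tt : ℕ) (he : e ≤ 1)
    (hT : 1 ≤ T) (hTt0 : T * T ^ a = Tt) (hN' : 1 ≤ N') (hNN : N' ≤ N) (hh : h < r)
    (K : Fin (h + 1) → Fin r)
    (J : Fin (s * (h + 1) + 1) → Fin m) (t : Fin N' → Fin N → ℤ)
    (ht : ∀ j i, |t j i| ≤ ((T ^ a : ℕ) : ℤ))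
    (p : (Fin G → Ixr (h + 1) (s * (h + 1) + 1) (Tt ^ (q * e)) (Tt ^ q)) → ℤ)
    (hp : ∀ x, |p x| ≤ (2 : ℤ) ^ (Tt ^ (q + 1)))
    (sg : Fin G → Fin N' → ℕ)
    (hsg : ∀ g i, sg g i ≤ 2 ^ ((s * (h + 1) + 1) + (h + 1)) * T) (C2 : ℕ)
    (hC2 : C2 = 2 * (G * (r + 2 ^ (s * r + 1 + r) * N * (s * r + 1)) * N) +
      G * (q * r + q * (s * r + 1)) + 1 + G * (N * 2 ^ (s * r + 1 + r) * r) + 2) :
    (bind₁ (sbt K J t) (PSr p sg)).totalDegree ≤ C2 * Tt ^ (q + 1) ∧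
    len (bind₁ (sbt K J t) (PSr p sg)) ≤
      Real.exp ((C2 * Tt ^ (q + 1) : ℕ) : ℝ) := by
  have hN1 : 1 ≤ N := hN'.trans hNN
  have hA1 : 1 ≤ T ^ a := Nat.one_le_pow _ _ hT
  obtain ⟨_, hb2, hb3⟩ := h4 r m N N' (h + 1) (s * (h + 1) + 1) (T ^ a) K J t hA1 hN1 ht
    (PSr p sg)
  obtain ⟨_, _, hv3, hv4⟩ := h2 N' (h + 1) (s * (h + 1) + 1) (Tt ^ (q * e)) (Tt ^ q) G p sg
  have hTTt : T ≤ Tt := by rw [← hTt0]; exact Nat.le_mul_of_pos_right _ hA1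
  have hTt1 : 1 ≤ Tt := hT.trans hTTt
  have hm : s * (h + 1) + 1 ≤ s * r + 1 := by
    have : s * (h + 1) ≤ s * r := Nat.mul_le_mul_left _ hh
    omega
  generalize hB0 : 2 ^ (s * r + 1 + r) = B0 at hC2
  have hB : 2 ^ ((s * (h + 1) + 1) + (h + 1)) ≤ B0 := by
    rw [← hB0]
    apply Nat.pow_le_pow_right (by norm_num)
    omega
  have hS1 : 1 ≤ 2 ^ ((s * (h + 1) + 1) + (h + 1)) * T := Nat.mul_pos (by positivity) hT
  have hSB : 2 ^ ((s * (h + 1) + 1) + (h + 1)) * T ≤ B0 * T := Nat.mul_le_mul_right _ hB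
  generalize 2 ^ ((s * (h + 1) + 1) + (h + 1)) * T = S at hsg hS1 hSB
  have hAq : Tt ^ (q * e) ≤ Tt ^ q := Nat.pow_le_pow_right hTt1 (by nlinarith)
  obtain ⟨D0, hD0⟩ : ∃ D0 : ℕ, D0 = G * (r + B0 * N * (s * r + 1)) := ⟨_, rfl⟩
  rw [← hD0] at hC2
  have hdeg : (PSr p sg).totalDegree ≤ D0 * (Tt ^ q * T) := by
    refine (hv3 S hsg).trans ?_
    have g1 : (h + 1) * Tt ^ (q * e) ≤ r * (Tt ^ q * T) := by
      apply Nat.mul_le_mul hh
      exact hAq.trans (Nat.le_mul_of_pos_right _ hT)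
    have g2 : Tt ^ q * S * N' * (s * (h + 1) + 1) ≤ Tt ^ q * (B0 * T) * N * (s * r + 1) :=
      Nat.mul_le_mul (Nat.mul_le_mul (Nat.mul_le_mul_left _ hSB) hNN) hm
    calc G * ((h + 1) * Tt ^ (q * e) + Tt ^ q * S * N' * (s * (h + 1) + 1))
        ≤ G * (r * (Tt ^ q * T) + Tt ^ q * (B0 * T) * N * (s * r + 1)) :=
          Nat.mul_le_mul_left _ (Nat.add_le_add g1 g2)
      _ = D0 * (Tt ^ q * T) := by rw [hD0]; ring
  have hdeg2 : (PSr p sg).totalDegree * (N * T ^ a) ≤ D0 * N * Tt ^ (q + 1) := by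
    calc (PSr p sg).totalDegree * (N * T ^ a) ≤ D0 * (Tt ^ q * T) * (N * T ^ a) :=
          Nat.mul_le_mul_right _ hdeg
      _ = D0 * N * (Tt ^ q * (T * T ^ a)) := by ring
      _ = D0 * N * Tt ^ (q + 1) := by rw [hTt0, pow_succ]
  constructor
  · refine hb2.trans (hdeg2.trans ?_)
    apply Nat.mul_le_mul_right
    rw [hC2]
    omega
  · have hpH : ∀ x, |(p x : ℝ)| ≤ (2 : ℝ) ^ (Tt ^ (q + 1)) := by
      intro x
      have := hp x
      exact_mod_cast this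
    have k1 := hv4 S ((2 : ℝ) ^ (Tt ^ (q + 1))) hS1 hN' hsg hpH
    have hTq1 : Tt ^ q * Tt = Tt ^ (q + 1) := by rw [pow_succ]
    have hTq3 : Tt ≤ Tt ^ (q + 1) := Nat.le_self_pow (by omega) _
    have f1 : ((((Tt ^ (q * e) : ℕ) : ℝ)) ^ (h + 1) * ((Tt ^ q : ℕ) : ℝ) ^ (s * (h + 1) + 1)) ^ G ≤
        Real.exp ((G * (q * r + q * (s * r + 1)) : ℕ) * ((Tt : ℝ) ^ (q + 1))) := by
      have g1 : (((Tt ^ (q * e) : ℕ) : ℝ)) ^ (h + 1) * ((Tt ^ q : ℕ) : ℝ) ^ (s * (h + 1) + 1) ≤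
          (Tt : ℝ) ^ (q * r + q * (s * r + 1)) := by
        have : (Tt ^ (q * e)) ^ (h + 1) * (Tt ^ q) ^ (s * (h + 1) + 1) ≤
            Tt ^ (q * r + q * (s * r + 1)) := by
          calc (Tt ^ (q * e)) ^ (h + 1) * (Tt ^ q) ^ (s * (h + 1) + 1)
              ≤ (Tt ^ q) ^ (h + 1) * (Tt ^ q) ^ (s * (h + 1) + 1) :=
                Nat.mul_le_mul_right _ (Nat.pow_le_pow_left hAq _)
            _ = Tt ^ (q * (h + 1) + q * (s * (h + 1) + 1)) := by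
                rw [← pow_mul, ← pow_mul, ← pow_add]
            _ ≤ Tt ^ (q * r + q * (s * r + 1)) := by
                apply Nat.pow_le_pow_right hTt1
                exact Nat.add_le_add (Nat.mul_le_mul_left _ hh) (Nat.mul_le_mul_left _ hm)
        exact_mod_cast this
      calc ((((Tt ^ (q * e) : ℕ) : ℝ)) ^ (h + 1) *
            ((Tt ^ q : ℕ) : ℝ) ^ (s * (h + 1) + 1)) ^ G
          ≤ ((Tt : ℝ) ^ (q * r + q * (s * r + 1))) ^ G := pow_le_pow_left₀ (by positivity) g1 _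
        _ = (Tt : ℝ) ^ (G * (q * r + q * (s * r + 1))) := by rw [← pow_mul]; ring_nf
        _ ≤ Real.exp ((Tt : ℝ) * (G * (q * r + q * (s * r + 1)) : ℕ)) :=
            StA_pow_le_exp _ (by positivity) _
        _ ≤ _ := by
          apply Real.exp_le_exp.2
          rw [mul_comm]
          apply mul_le_mul_of_nonneg_left _ (by positivity)
          exact_mod_cast hTq3
    have f2 : (2 : ℝ) ^ (Tt ^ (q + 1)) ≤ Real.exp ((Tt : ℝ) ^ (q + 1)) := by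
      have g1 : (2 : ℝ) ≤ Real.exp 1 := by have := Real.add_one_le_exp (1 : ℝ); linarith
      calc (2 : ℝ) ^ (Tt ^ (q + 1)) ≤ (Real.exp 1) ^ (Tt ^ (q + 1)) :=
            pow_le_pow_left₀ (by norm_num) g1 _
        _ = Real.exp ((Tt : ℝ) ^ (q + 1)) := by
            rw [← Real.exp_nat_mul]; push_cast; ring_nf
    have f3 : ((N' : ℝ) * (S : ℝ)) ^ ((h + 1) * Tt ^ (q * e) * G) ≤
        Real.exp ((G * (N * B0 * r) : ℕ) * ((Tt : ℝ) ^ (q + 1))) := by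
      refine (StA_pow_le_exp _ (by positivity) _).trans ?_
      apply Real.exp_le_exp.2
      have : N' * S * ((h + 1) * Tt ^ (q * e) * G) ≤ G * (N * B0 * r) * Tt ^ (q + 1) := by
        calc N' * S * ((h + 1) * Tt ^ (q * e) * G)
            ≤ N * (B0 * Tt) * (r * Tt ^ q * G) := by
              apply Nat.mul_le_mul (Nat.mul_le_mul hNN (hSB.trans (Nat.mul_le_mul_left _ hTTt)))
              exact Nat.mul_le_mul_right _ (Nat.mul_le_mul hh hAq)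
          _ = G * (N * B0 * r) * Tt ^ (q + 1) := by rw [← hTq1]; ring
      exact_mod_cast this
    have f4 : (((N : ℝ) * ((T ^ a : ℕ) : ℝ)) ^ (PSr p sg).totalDegree) ≤
        Real.exp ((D0 * N : ℕ) * ((Tt : ℝ) ^ (q + 1))) := by
      refine (StA_pow_le_exp _ (by positivity) _).trans ?_
      apply Real.exp_le_exp.2
      have : N * T ^ a * (PSr p sg).totalDegree ≤ D0 * N * Tt ^ (q + 1) := by
        rw [mul_comm]; exact hdeg2
      exact_mod_cast this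
    calc len (bind₁ (sbt K J t) (PSr p sg))
        ≤ len (PSr p sg) * ((N : ℝ) * ((T ^ a : ℕ) : ℝ)) ^ (PSr p sg).totalDegree := hb3
      _ ≤ (((((Tt ^ (q * e) : ℕ) : ℝ)) ^ (h + 1) *
            ((Tt ^ q : ℕ) : ℝ) ^ (s * (h + 1) + 1)) ^ G * (2 : ℝ) ^ (Tt ^ (q + 1)) *
            ((N' : ℝ) * (S : ℝ)) ^ ((h + 1) * Tt ^ (q * e) * G)) *
            ((N : ℝ) * ((T ^ a : ℕ) : ℝ)) ^ (PSr p sg).totalDegree :=
          mul_le_mul_of_nonneg_right k1 (by positivity)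
      _ ≤ (Real.exp ((G * (q * r + q * (s * r + 1)) : ℕ) * ((Tt : ℝ) ^ (q + 1))) *
            Real.exp ((Tt : ℝ) ^ (q + 1)) *
            Real.exp ((G * (N * B0 * r) : ℕ) * ((Tt : ℝ) ^ (q + 1)))) *
            Real.exp ((D0 * N : ℕ) * ((Tt : ℝ) ^ (q + 1))) := by gcongr
      _ = Real.exp (((G * (q * r + q * (s * r + 1)) : ℕ) + 1 + (G * (N * B0 * r) : ℕ) +
            (D0 * N : ℕ)) * ((Tt : ℝ) ^ (q + 1))) := by
          rw [← Real.exp_add, ← Real.exp_add, ← Real.exp_add]; ring_nf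
      _ ≤ Real.exp ((C2 * Tt ^ (q + 1) : ℕ) : ℝ) := by
          apply Real.exp_le_exp.2
          push_cast
          apply mul_le_mul_of_nonneg_right _ (by positivity)
          have : G * (q * r + q * (s * r + 1)) + 1 + G * (N * B0 * r) + D0 * N ≤ C2 := by
            rw [hC2]; omega
          exact_mod_cast this

/-- The case `N' = 0`. -/
lemma StA_case0 (h2 : S_Valr) (r m s e q G h Tt : ℕ) (B : ℕ) (V : ℝ) (hV : 0 < V)
    (p : (Fin G → Ixr (h + 1) (s * (h + 1) + 1) (Tt ^ (q * e)) (Tt ^ q)) → ℤ)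
    (u : Fin 0 → Fin (h + 1) → ℂ) (y : Fin 0 → Fin (s * (h + 1) + 1) → ℂ)
    (hpv : ∀ sg : Fin G → Fin 0 → ℕ, (∀ g i, sg g i ≤ B) →
        ‖aeval (cdr u y) (PSr p sg)‖ ≤ Real.exp (-V)) :
    ∀ sg : Fin G → Fin 0 → ℕ, (∀ g i, sg g i ≤ B) →
        ∑ x, (p x : ℂ) * ∏ g, evr (x g) (rpt u y (sg g)) = 0 := by
  intro sg hsg
  obtain ⟨hv1, _⟩ := h2 0 (h + 1) (s * (h + 1) + 1) (Tt ^ (q * e)) (Tt ^ q) G p sg
  rw [← hv1]
  apply StA_zero
  refine lt_of_le_of_lt (hpv sg hsg) ?_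
  rw [Real.exp_lt_one_iff]
  linarith

/-- The case `N' ≥ 1`. -/
lemma StA_main (h2 : S_Valr) (h4 : S_Sbt) (r m s e τ q G N N' h a T Tt : ℕ) (he : e ≤ 1)
    (hT : 1 ≤ T) (hTt0 : T * T ^ a = Tt) (hN' : 1 ≤ N') (hNN : N' ≤ N) (hh : h < r)
    (φ : Fin m → Fin r → ℂ) (w : Fin N → Fin r → ℂ)
    (K : Fin (h + 1) → Fin r) (J : Fin (s * (h + 1) + 1) → Fin m) (t : Fin N' → Fin N → ℤ)
    (ht : ∀ j i, |t j i| ≤ ((T ^ a : ℕ) : ℤ))
    (p : (Fin G → Ixr (h + 1) (s * (h + 1) + 1) (Tt ^ (q * e)) (Tt ^ q)) → ℤ)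
    (hp : ∀ x, |p x| ≤ (2 : ℤ) ^ (Tt ^ (q + 1))) (V C : ℝ) (hC : 1 ≤ C) (C2 : ℕ)
    (hC2 : C2 = 2 * (G * (r + 2 ^ (s * r + 1 + r) * N * (s * r + 1)) * N) +
      G * (q * r + q * (s * r + 1)) + 1 + G * (N * 2 ^ (s * r + 1 + r) * r) + 2)
    (hCrit : ∀ (X : ℕ) (V : ℝ), 1 ≤ X → C * (X : ℝ) ^ (τ + 1) ≤ V →
      ∀ PP : Set (MvPolynomial ((Fin N × Fin r) ⊕ ((Fin N × Fin m) ⊕ (Fin N × Fin m))) ℤ),
        (∀ P ∈ PP, P.totalDegree ≤ X ∧ len P ≤ Real.exp X ∧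
          ‖aeval (Sum.elim (fun q : Fin N × Fin r => if e = 1 then w q.1 q.2 else 0)
            (Sum.elim (fun q : Fin N × Fin m => ey φ w q.1 q.2)
              (fun q : Fin N × Fin m => (ey φ w q.1 q.2)⁻¹))) P‖ ≤ Real.exp (-V)) →
        ∃ θ' : (Fin N × Fin r) ⊕ ((Fin N × Fin m) ⊕ (Fin N × Fin m)) → ℂ,
          (∀ P ∈ PP, aeval θ' P = 0) ∧
          ∀ i, ‖θ' i - (Sum.elim (fun q : Fin N × Fin r => if e = 1 then w q.1 q.2 else 0)
            (Sum.elim (fun q : Fin N × Fin m => ey φ w q.1 q.2)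
              (fun q : Fin N × Fin m => (ey φ w q.1 q.2)⁻¹))) i‖ ≤
                Real.exp (-V / (C * (X : ℝ) ^ τ)))
    (hVX : C * ((C2 * Tt ^ (q + 1) : ℕ) : ℝ) ^ (τ + 1) ≤ V) (δ : ℝ)
    (hδ : Real.exp (-V / (C * ((C2 * Tt ^ (q + 1) : ℕ) : ℝ) ^ τ)) ≤ δ)
    (hpv : ∀ sg : Fin G → Fin N' → ℕ,
        (∀ g i, sg g i ≤ 2 ^ ((s * (h + 1) + 1) + (h + 1)) * T) →
        ‖aeval (cdr (fun j l => wt w (t j) (K l))
          (fun j l => Complex.exp (∑ k, φ (J l) k * wt w (t j) k))) (PSr p sg)‖ ≤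
            Real.exp (-V)) :
    ∃ (W' : Fin N → Fin r → ℂ) (Y' : Fin N → Fin m → ℂ), (∀ i j, Y' i j ≠ 0) ∧
      (e = 1 → ∀ i k, ‖W' i k - w i k‖ ≤ δ) ∧ (∀ i j, ‖Y' i j - ey φ w i j‖ ≤ δ) ∧
      (∀ i j, ‖(Y' i j)⁻¹ - (ey φ w i j)⁻¹‖ ≤ δ) ∧
      ∀ sg : Fin G → Fin N' → ℕ,
        (∀ g i, sg g i ≤ 2 ^ ((s * (h + 1) + 1) + (h + 1)) * T) →
        ∀ u' : Fin N' → Fin (h + 1) → ℂ,
          (e = 1 → u' = fun j l => ∑ i, (t j i : ℂ) * W' i (K l)) →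
          ∑ x, (p x : ℂ) * ∏ g, evr (x g)
            (rpt u' (fun j l => ∏ i, Y' i (J l) ^ t j i) (sg g)) = 0 := by
  classical
  have hN1 : 1 ≤ N := hN'.trans hNN
  have hA1 : 1 ≤ T ^ a := Nat.one_le_pow _ _ hT
  have hTTt : T ≤ Tt := by rw [← hTt0]; exact Nat.le_mul_of_pos_right _ hA1
  have hTt1 : 1 ≤ Tt := hT.trans hTTt
  have hC2pos : 2 ≤ C2 := by rw [hC2]; omega
  have hX2 : 2 ≤ C2 * Tt ^ (q + 1) :=
    hC2pos.trans (Nat.le_mul_of_pos_right _ (Nat.pow_pos hTt1))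
  have hey : ∀ i j, ey φ w i j ≠ 0 := fun i j => Complex.exp_ne_zero _
  have hbind : ∀ (sg : Fin G → Fin N' → ℕ) (u : Fin N → Fin r → ℂ) (y : Fin N → Fin m → ℂ),
      (∀ i j, y i j ≠ 0) →
      aeval (Sum.elim (fun q : Fin N × Fin r => u q.1 q.2)
        (Sum.elim (fun q : Fin N × Fin m => y q.1 q.2)
          (fun q : Fin N × Fin m => (y q.1 q.2)⁻¹))) (bind₁ (sbt K J t) (PSr p sg)) =
        aeval (cdr (fun j l => ∑ i, (t j i : ℂ) * u i (K l))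
          (fun j l => ∏ i, y i (J l) ^ t j i)) (PSr p sg) := by
    intro sg u y hy
    exact (h4 r m N N' (h + 1) (s * (h + 1) + 1) (T ^ a) K J t hA1 hN1 ht (PSr p sg)).1 u y hy
  let PP : Set (MvPolynomial ((Fin N × Fin r) ⊕ ((Fin N × Fin m) ⊕ (Fin N × Fin m))) ℤ) :=
    {P | (∃ sg : Fin G → Fin N' → ℕ,
        (∀ g i, sg g i ≤ 2 ^ ((s * (h + 1) + 1) + (h + 1)) * T) ∧
        P = bind₁ (sbt K J t) (PSr p sg)) ∨
      ∃ v : Fin N × Fin m, P = X (Sum.inr (Sum.inl v)) * X (Sum.inr (Sum.inr v)) - 1}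
  have hPP : ∀ P ∈ PP, P.totalDegree ≤ C2 * Tt ^ (q + 1) ∧
      len P ≤ Real.exp ((C2 * Tt ^ (q + 1) : ℕ) : ℝ) ∧
      ‖aeval (Sum.elim (fun q : Fin N × Fin r => if e = 1 then w q.1 q.2 else 0)
        (Sum.elim (fun q : Fin N × Fin m => ey φ w q.1 q.2)
          (fun q : Fin N × Fin m => (ey φ w q.1 q.2)⁻¹))) P‖ ≤ Real.exp (-V) := by
    rintro P (⟨sg, hsg, rfl⟩ | ⟨v, rfl⟩)
    · obtain ⟨k1, k2⟩ := StA_sizes h2 h4 r m s e q G N N' h a T Tt he hT hTt0 hN' hNN hh K J t ht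
        p hp sg hsg C2 hC2
      refine ⟨k1, k2, ?_⟩
      have k3 := hbind sg (fun i k => if e = 1 then w i k else 0) (ey φ w) hey
      have k4 := hpv sg hsg
      have k5 : (fun (j : Fin N') (l : Fin (s * (h + 1) + 1)) => ∏ i, ey φ w i (J l) ^ t j i) =
          fun j l => Complex.exp (∑ k, φ (J l) k * wt w (t j) k) := by
        funext j l
        exact StA_exp φ w (t j) (J l)
      rw [k5] at k3
      have k6 := StA_ind h2 (N := N') (r := h + 1) (m := s * (h + 1) + 1) he p sg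
        (fun j l => ∑ i, (t j i : ℂ) * (fun i k => if e = 1 then w i k else 0) i (K l))
        (fun j l => wt w (t j) (K l))
        (fun j l => Complex.exp (∑ k, φ (J l) k * wt w (t j) k)) (by
          intro he1
          funext j l
          simp only [he1, if_true]
          rfl)
      rw [k6] at k3
      calc _ = ‖aeval (cdr (fun j l => wt w (t j) (K l))
          (fun j l => Complex.exp (∑ k, φ (J l) k * wt w (t j) k))) (PSr p sg)‖ := by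
            rw [← k3]
        _ ≤ _ := k4
    · refine ⟨?_, ?_, ?_⟩
      · refine le_trans ?_ hX2
        refine (totalDegree_sub _ _).trans ?_
        apply max_le
        · refine (totalDegree_mul _ _).trans ?_
          rw [totalDegree_X, totalDegree_X]
        · rw [totalDegree_one]
          omega
      · refine (StA_len2 _ _).trans ?_
        have g1 : (2 : ℝ) ≤ ((C2 * Tt ^ (q + 1) : ℕ) : ℝ) := by exact_mod_cast hX2
        have g2 := Real.add_one_le_exp (((C2 * Tt ^ (q + 1) : ℕ) : ℝ))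
        linarith
      · rw [map_sub, map_mul, aeval_X, aeval_X, map_one]
        simp only [Sum.elim_inr, Sum.elim_inl]
        rw [mul_inv_cancel₀ (hey _ _), sub_self, norm_zero]
        exact (Real.exp_pos _).le
  obtain ⟨θ', hz, hcl⟩ := hCrit (C2 * Tt ^ (q + 1)) V (by omega) hVX PP hPP
  have hYZ : ∀ v : Fin N × Fin m,
      θ' (Sum.inr (Sum.inl v)) * θ' (Sum.inr (Sum.inr v)) = 1 := by
    intro v
    have := hz _ (Or.inr ⟨v, rfl⟩)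
    rw [map_sub, map_mul, aeval_X, aeval_X, map_one] at this
    exact sub_eq_zero.1 this
  have hY0 : ∀ v : Fin N × Fin m, θ' (Sum.inr (Sum.inl v)) ≠ 0 :=
    fun v => left_ne_zero_of_mul_eq_one (hYZ v)
  have hZ : ∀ v : Fin N × Fin m,
      θ' (Sum.inr (Sum.inr v)) = (θ' (Sum.inr (Sum.inl v)))⁻¹ :=
    fun v => eq_inv_of_mul_eq_one_right (hYZ v)
  refine ⟨fun i k => θ' (Sum.inl (i, k)), fun i j => θ' (Sum.inr (Sum.inl (i, j))),
    fun i j => hY0 (i, j), ?_, ?_, ?_, ?_⟩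
  · intro he1 i k
    have := (hcl (Sum.inl (i, k))).trans hδ
    simpa [he1] using this
  · intro i j
    have := (hcl (Sum.inr (Sum.inl (i, j)))).trans hδ
    simpa using this
  · intro i j
    have := (hcl (Sum.inr (Sum.inr (i, j)))).trans hδ
    rw [hZ] at this
    simpa using this
  · intro sg hsg u' hu'
    obtain ⟨hv1, _⟩ := h2 N' (h + 1) (s * (h + 1) + 1) (Tt ^ (q * e)) (Tt ^ q) G p sg
    rw [← hv1, StA_ind h2 he p sg u' _ _ hu']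
    have k3 := hbind sg (fun i k => θ' (Sum.inl (i, k)))
      (fun i j => θ' (Sum.inr (Sum.inl (i, j)))) (fun i j => hY0 (i, j))
    rw [← k3]
    have k4 : (Sum.elim (fun q : Fin N × Fin r => θ' (Sum.inl (q.1, q.2)))
        (Sum.elim (fun q : Fin N × Fin m => θ' (Sum.inr (Sum.inl (q.1, q.2))))
          (fun q : Fin N × Fin m => (θ' (Sum.inr (Sum.inl (q.1, q.2))))⁻¹))) = θ' := by
      funext v
      rcases v with v | v | v
      · rfl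
      · rfl
      · exact (hZ v).symm
    rw [k4]
    exact hz _ (Or.inl ⟨sg, hsg, rfl⟩)

/-- Final estimate for the products. -/
lemma StA_est (N a Q1 q T Tt : ℕ) (M : ℝ) (hM : 1 ≤ M) (hT : 1 ≤ T) (hTt : Tt = T ^ (a + 1))
    (hq : Q1 ≤ q) (hTM : (N : ℝ) + 2 + M * (N + 1) ≤ T) :
    (N : ℝ) * (M ^ (T ^ a)) ^ N * (((T ^ a : ℕ) : ℝ) * M ^ (T ^ a) *
      Real.exp (-((Tt : ℝ) ^ (q + 2)))) ≤ Real.exp (-((T : ℝ) ^ Q1)) := by
  have hT1 : (1 : ℝ) ≤ T := by exact_mod_cast hT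
  have hA1 : (1 : ℝ) ≤ ((T ^ a : ℕ) : ℝ) := by exact_mod_cast Nat.one_le_pow _ _ hT
  have hx1 : (1 : ℝ) ≤ (T : ℝ) ^ Q1 := one_le_pow₀ hT1
  have f1 : (N : ℝ) ≤ Real.exp N := by have := Real.add_one_le_exp (N : ℝ); linarith
  have f2 : ((T ^ a : ℕ) : ℝ) ≤ Real.exp ((T ^ a : ℕ) : ℝ) := by
    have := Real.add_one_le_exp ((T ^ a : ℕ) : ℝ); linarith
  have f3 : M ^ (T ^ a) ≤ Real.exp (M * ((T ^ a : ℕ) : ℝ)) :=
    StA_pow_le_exp M (by linarith) (T ^ a)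
  have f4 : (M ^ (T ^ a)) ^ N ≤ Real.exp (N * (M * ((T ^ a : ℕ) : ℝ))) := by
    calc (M ^ (T ^ a)) ^ N ≤ (Real.exp (M * ((T ^ a : ℕ) : ℝ))) ^ N :=
          pow_le_pow_left₀ (by positivity) f3 _
      _ = _ := by rw [← Real.exp_nat_mul]
  have hL : (T : ℝ) ^ Q1 + (N + (T ^ a : ℕ) + M * ((T ^ a : ℕ) : ℝ) +
      N * (M * ((T ^ a : ℕ) : ℝ))) ≤ (Tt : ℝ) ^ (q + 2) := by
    have g1 : (T : ℝ) ^ 2 * ((T : ℝ) ^ Q1 * ((T ^ a : ℕ) : ℝ)) ≤ (Tt : ℝ) ^ (q + 2) := by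
      rw [hTt]
      push_cast
      rw [← pow_mul, ← pow_add, ← pow_add]
      apply pow_le_pow_right₀ hT1
      nlinarith [Nat.zero_le (a * q)]
    refine le_trans ?_ g1
    set x : ℝ := (T : ℝ) ^ Q1
    set y : ℝ := ((T ^ a : ℕ) : ℝ)
    have hxy : x + (N + 1 + M * (N + 1)) * y ≤ (N + 2 + M * (N + 1)) * (x * y) := by
      have h1 : x ≤ x * y := le_mul_of_one_le_right (by linarith) hA1
      have h2 : y ≤ x * y := le_mul_of_one_le_left (by linarith) hx1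
      have h3 : (0 : ℝ) ≤ N + 1 + M * (N + 1) := by positivity
      nlinarith [mul_le_mul_of_nonneg_left h2 h3]
    have hN : (N : ℝ) ≤ N * y := le_mul_of_one_le_right (by positivity) hA1
    have h5 : (N + 2 + M * (N + 1)) * (x * y) ≤ (T : ℝ) ^ 2 * (x * y) := by
      apply mul_le_mul_of_nonneg_right _ (by positivity)
      nlinarith
    calc x + (N + y + M * y + N * (M * y)) ≤ x + (N + 1 + M * (N + 1)) * y := by nlinarith
      _ ≤ (N + 2 + M * (N + 1)) * (x * y) := hxy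
      _ ≤ (T : ℝ) ^ 2 * (x * y) := h5
  calc (N : ℝ) * (M ^ (T ^ a)) ^ N * (((T ^ a : ℕ) : ℝ) * M ^ (T ^ a) *
        Real.exp (-((Tt : ℝ) ^ (q + 2))))
      ≤ Real.exp N * Real.exp (N * (M * ((T ^ a : ℕ) : ℝ))) *
        (Real.exp ((T ^ a : ℕ) : ℝ) * Real.exp (M * ((T ^ a : ℕ) : ℝ)) *
        Real.exp (-((Tt : ℝ) ^ (q + 2)))) := by gcongr
    _ = Real.exp ((N + (T ^ a : ℕ) + M * ((T ^ a : ℕ) : ℝ) + N * (M * ((T ^ a : ℕ) : ℝ))) -
          (Tt : ℝ) ^ (q + 2)) := by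
        rw [← Real.exp_add, ← Real.exp_add, ← Real.exp_add, ← Real.exp_add]
        ring_nf
    _ ≤ Real.exp (-((T : ℝ) ^ Q1)) := by
        apply Real.exp_le_exp.2
        linarith

/-- The end of the proof, for one value of `T`. -/
lemma StA_fin (h2 : S_Valr) (h4 : S_Sbt) (r m s e τ a Q1 q N N' h T Tt : ℕ) (he : e ≤ 1)
    (hT : 1 ≤ T) (hTt : Tt = T ^ (a + 1)) (hq : Q1 ≤ q) (hNN : N' ≤ N) (hh : h < r)
    (φ : Fin m → Fin r → ℂ) (w : Fin N → Fin r → ℂ)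
    (K : Fin (h + 1) → Fin r) (J : Fin (s * (h + 1) + 1) → Fin m) (t : Fin N' → Fin N → ℤ)
    (ht : ∀ j i, |t j i| ≤ ((T ^ a : ℕ) : ℤ))
    (p : (Fin (2 * τ + 4) → Ixr (h + 1) (s * (h + 1) + 1) (Tt ^ (q * e)) (Tt ^ q)) → ℤ)
    (hp : ∀ x, |p x| ≤ (2 : ℤ) ^ (Tt ^ (q + 1))) (C : ℝ) (hC : 1 ≤ C) (C2 : ℕ)
    (hC2 : C2 = 2 * ((2 * τ + 4) * (r + 2 ^ (s * r + 1 + r) * N * (s * r + 1)) * N) +
      (2 * τ + 4) * (q * r + q * (s * r + 1)) + 1 +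
      (2 * τ + 4) * (N * 2 ^ (s * r + 1 + r) * r) + 2)
    (hCrit : ∀ (X : ℕ) (V : ℝ), 1 ≤ X → C * (X : ℝ) ^ (τ + 1) ≤ V →
      ∀ PP : Set (MvPolynomial ((Fin N × Fin r) ⊕ ((Fin N × Fin m) ⊕ (Fin N × Fin m))) ℤ),
        (∀ P ∈ PP, P.totalDegree ≤ X ∧ len P ≤ Real.exp X ∧
          ‖aeval (Sum.elim (fun q : Fin N × Fin r => if e = 1 then w q.1 q.2 else 0)
            (Sum.elim (fun q : Fin N × Fin m => ey φ w q.1 q.2)
              (fun q : Fin N × Fin m => (ey φ w q.1 q.2)⁻¹))) P‖ ≤ Real.exp (-V)) →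
        ∃ θ' : (Fin N × Fin r) ⊕ ((Fin N × Fin m) ⊕ (Fin N × Fin m)) → ℂ,
          (∀ P ∈ PP, aeval θ' P = 0) ∧
          ∀ i, ‖θ' i - (Sum.elim (fun q : Fin N × Fin r => if e = 1 then w q.1 q.2 else 0)
            (Sum.elim (fun q : Fin N × Fin m => ey φ w q.1 q.2)
              (fun q : Fin N × Fin m => (ey φ w q.1 q.2)⁻¹))) i‖ ≤
                Real.exp (-V / (C * (X : ℝ) ^ τ)))
    (M0 : ℝ) (hM01 : 1 ≤ M0) (hMy : ∀ i j, ‖ey φ w i j‖ ≤ M0)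
    (hMz : ∀ i j, ‖(ey φ w i j)⁻¹‖ ≤ M0)
    (hT8 : 8 * C * (C2 : ℝ) ^ (τ + 1) ≤ T)
    (hTM : (N : ℝ) + 2 + (M0 + 1) * (N + 1) ≤ T)
    (hpv : ∀ sg : Fin (2 * τ + 4) → Fin N' → ℕ,
        (∀ g i, sg g i ≤ 2 ^ ((s * (h + 1) + 1) + (h + 1)) * T) →
        ‖aeval (cdr (fun j l => wt w (t j) (K l))
          (fun j l => Complex.exp (∑ k, φ (J l) k * wt w (t j) k))) (PSr p sg)‖ ≤
            Real.exp (-((Tt : ℝ) ^ ((q + 1) * (τ + 1) + 2) / 8))) :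
    ∃ (u' : Fin N' → Fin (h + 1) → ℂ) (y' : Fin N' → Fin (s * (h + 1) + 1) → ℂ),
      (∀ j l, ‖u' j l - wt w (t j) (K l)‖ ≤ Real.exp (-((T : ℝ) ^ Q1))) ∧
      (∀ j l, ‖y' j l - Complex.exp (∑ k, φ (J l) k * wt w (t j) k)‖ ≤
        Real.exp (-((T : ℝ) ^ Q1))) ∧
      (∀ j l, y' j l ≠ 0) ∧
      ∀ sg : Fin (2 * τ + 4) → Fin N' → ℕ,
        (∀ g i, sg g i ≤ 2 ^ ((s * (h + 1) + 1) + (h + 1)) * T) →
        ∑ x, (p x : ℂ) * ∏ g, evr (x g) (rpt u' y' (sg g)) = 0 := by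
  classical
  have hTt0 : T * T ^ a = Tt := by rw [hTt, pow_succ, mul_comm]
  have hA1 : 1 ≤ T ^ a := Nat.one_le_pow _ _ hT
  have hTTt : T ≤ Tt := by rw [← hTt0]; exact Nat.le_mul_of_pos_right _ hA1
  have hTt1 : 1 ≤ Tt := hT.trans hTTt
  have hTtr : (1 : ℝ) ≤ Tt := by exact_mod_cast hTt1
  have hTTr : (T : ℝ) ≤ Tt := by exact_mod_cast hTTt
  have hC2pos : 1 ≤ C2 := by omega
  have hC2r : (1 : ℝ) ≤ C2 := by exact_mod_cast hC2pos
  by_cases hN0 : N' = 0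
  · subst hN0
    refine ⟨fun j l => wt w (t j) (K l),
      fun j l => Complex.exp (∑ k, φ (J l) k * wt w (t j) k), ?_, ?_, ?_, ?_⟩
    · intro j; exact j.elim0
    · intro j; exact j.elim0
    · intro j; exact j.elim0
    · exact StA_case0 h2 r m s e q (2 * τ + 4) h Tt _ _ (by positivity) p _ _ hpv
  have hN1 : 1 ≤ N' := by omega
  obtain ⟨V, hV⟩ : ∃ V : ℝ, V = (Tt : ℝ) ^ ((q + 1) * (τ + 1) + 2) / 8 := ⟨_, rfl⟩
  rw [← hV] at hpv
  have hXr : (((C2 * Tt ^ (q + 1) : ℕ) : ℝ)) = (C2 : ℝ) * (Tt : ℝ) ^ (q + 1) := by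
    push_cast; ring
  have hVX : C * ((C2 * Tt ^ (q + 1) : ℕ) : ℝ) ^ (τ + 1) ≤ V := by
    rw [hXr, hV, mul_pow, ← pow_mul, pow_add (Tt : ℝ) ((q + 1) * (τ + 1)) 2]
    have h6 : 8 * C * (C2 : ℝ) ^ (τ + 1) ≤ (Tt : ℝ) ^ 2 := by nlinarith
    have h7 : (0 : ℝ) ≤ (Tt : ℝ) ^ ((q + 1) * (τ + 1)) := by positivity
    nlinarith [mul_le_mul_of_nonneg_left h6 h7]
  have hexp : Real.exp (-V / (C * ((C2 * Tt ^ (q + 1) : ℕ) : ℝ) ^ τ)) ≤
      Real.exp (-((Tt : ℝ) ^ (q + 2))) := by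
    apply Real.exp_le_exp.2
    have hpos : 0 < C * ((C2 * Tt ^ (q + 1) : ℕ) : ℝ) ^ τ := by
      rw [hXr]; positivity
    rw [neg_div, neg_le_neg_iff, le_div_iff₀ hpos, hXr, hV, mul_pow, ← pow_mul]
    have e1 : (q + 1) * (τ + 1) + 2 = (q + 1) * τ + ((q + 2) + 1) := by ring
    rw [e1, pow_add (Tt : ℝ) ((q + 1) * τ), pow_succ (Tt : ℝ) (q + 2)]
    have h6 : 8 * (C * (C2 : ℝ) ^ τ) ≤ (Tt : ℝ) := by
      calc 8 * (C * (C2 : ℝ) ^ τ) ≤ 8 * (C * (C2 : ℝ) ^ (τ + 1)) := by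
            have : (C2 : ℝ) ^ τ ≤ (C2 : ℝ) ^ (τ + 1) := pow_le_pow_right₀ hC2r (by omega)
            have hC0 : 0 ≤ C := by linarith
            nlinarith [mul_le_mul_of_nonneg_left this hC0]
        _ = 8 * C * (C2 : ℝ) ^ (τ + 1) := by ring
        _ ≤ T := hT8
        _ ≤ Tt := hTTr
    have h7 : (0 : ℝ) ≤ (Tt : ℝ) ^ ((q + 1) * τ) * (Tt : ℝ) ^ (q + 2) := by positivity
    nlinarith [mul_le_mul_of_nonneg_left h6 h7]
  obtain ⟨W', Y', hY0, hW1, hY1, hY2, hzero⟩ := StA_main h2 h4 r m s e τ q (2 * τ + 4) N N' h a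
    T Tt he hT hTt0 hN1 hNN hh φ w K J t ht p hp V C hC C2 hC2 hCrit hVX _ hexp hpv
  have hδ0 : 0 ≤ Real.exp (-((Tt : ℝ) ^ (q + 2))) := (Real.exp_pos _).le
  have hδ1 : Real.exp (-((Tt : ℝ) ^ (q + 2))) ≤ 1 := by
    rw [Real.exp_le_one_iff]
    have : (0 : ℝ) ≤ (Tt : ℝ) ^ (q + 2) := by positivity
    linarith
  have hM1 : (1 : ℝ) ≤ M0 + 1 := by linarith
  have hest := StA_est N a Q1 q T Tt (M0 + 1) hM1 hT hTt hq hTM
  refine ⟨fun j l => if e = 1 then ∑ i, (t j i : ℂ) * W' i (K l) else wt w (t j) (K l),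
    fun j l => ∏ i, Y' i (J l) ^ t j i, ?_, ?_, ?_, ?_⟩
  · intro j l
    by_cases he1 : e = 1
    · simp only [he1, if_true]
      refine le_trans ?_ hest
      have e1 : ∑ i, (t j i : ℂ) * W' i (K l) - wt w (t j) (K l) =
          ∑ i, (t j i : ℂ) * (W' i (K l) - w i (K l)) := by
        unfold wt
        rw [← Finset.sum_sub_distrib]
        refine Finset.sum_congr rfl (fun i _ => ?_)
        ring
      rw [e1]
      have hMA : (1 : ℝ) ≤ (M0 + 1) ^ (T ^ a) := one_le_pow₀ hM1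
      have hMAN : (1 : ℝ) ≤ ((M0 + 1) ^ (T ^ a)) ^ N := one_le_pow₀ hMA
      calc ‖∑ i, (t j i : ℂ) * (W' i (K l) - w i (K l))‖
          ≤ ∑ i : Fin N, ((T ^ a : ℕ) : ℝ) * Real.exp (-((Tt : ℝ) ^ (q + 2))) := by
            refine (norm_sum_le _ _).trans (Finset.sum_le_sum (fun i _ => ?_))
            rw [norm_mul]
            apply mul_le_mul _ (hW1 he1 i (K l)) (norm_nonneg _) (by positivity)
            rw [Complex.norm_intCast]
            exact_mod_cast ht j i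
        _ = (N : ℝ) * (((T ^ a : ℕ) : ℝ) * Real.exp (-((Tt : ℝ) ^ (q + 2)))) := by
            rw [Finset.sum_const, Finset.card_univ, Fintype.card_fin, nsmul_eq_mul]
        _ ≤ (N : ℝ) * ((M0 + 1) ^ (T ^ a)) ^ N * (((T ^ a : ℕ) : ℝ) * (M0 + 1) ^ (T ^ a) *
              Real.exp (-((Tt : ℝ) ^ (q + 2)))) := by
            apply mul_le_mul
            · exact le_mul_of_one_le_right (by positivity) hMAN
            · apply mul_le_mul_of_nonneg_right _ hδ0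
              exact le_mul_of_one_le_right (by positivity) hMA
            · positivity
            · positivity
    · simp only [he1, if_false]
      rw [sub_self, norm_zero]
      exact (Real.exp_pos _).le
  · intro j l
    refine le_trans ?_ hest
    rw [← StA_exp φ w (t j) (J l)]
    refine StA_close (fun i => ey φ w i (J l)) (fun i => Y' i (J l)) (t j) (T ^ a) (M0 + 1) _
      hM1 (ht j) ?_ ?_ ?_ ?_ (fun i => hY1 i (J l)) (fun i => hY2 i (J l)) hδ0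
    · intro i
      have := hMy i (J l)
      linarith
    · intro i
      have := hMz i (J l)
      linarith
    · intro i
      have g1 := hMy i (J l)
      have g2 := hY1 i (J l)
      have g4 : ‖Y' i (J l)‖ ≤ ‖ey φ w i (J l)‖ + ‖Y' i (J l) - ey φ w i (J l)‖ := by
        calc ‖Y' i (J l)‖ = ‖ey φ w i (J l) + (Y' i (J l) - ey φ w i (J l))‖ := by
              congr 1; ring
          _ ≤ _ := norm_add_le _ _
      linarith
    · intro i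
      have g1 := hMz i (J l)
      have g2 := hY2 i (J l)
      have g4 : ‖(Y' i (J l))⁻¹‖ ≤ ‖(ey φ w i (J l))⁻¹‖ +
          ‖(Y' i (J l))⁻¹ - (ey φ w i (J l))⁻¹‖ := by
        calc ‖(Y' i (J l))⁻¹‖ =
            ‖(ey φ w i (J l))⁻¹ + ((Y' i (J l))⁻¹ - (ey φ w i (J l))⁻¹)‖ := by
              congr 1; ring
          _ ≤ _ := norm_add_le _ _
      linarith
  · intro j l
    exact Finset.prod_ne_zero_iff.2 (fun i _ => zpow_ne_zero _ (hY0 i (J l)))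
  · intro sg hsg
    refine hzero sg hsg _ ?_
    intro he1
    funext j l
    simp only [he1, if_true]

theorem pr_StA (h1 : S_Crit) (h2 : S_Valr) (h3 : S_TrI) (h4 : S_Sbt) (h5 : S_StV) : S_StA := by
  classical
  intro r m s e τ a Q1 he hr hs
  obtain ⟨q, hq⟩ : ∃ q : ℕ, q = 2 * r * (τ + 3) + Q1 + 2 := ⟨_, rfl⟩
  obtain ⟨Q, hQ⟩ := h5 r m s e τ a q he hr hs (by omega)
  refine ⟨Q, q, by omega, ?_⟩
  intro φ N w hTLe
  have hTr := h3 r m N e τ φ w hTLe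
  obtain ⟨C, hC1, hCrit⟩ := h1 _ τ _ hTr
  obtain ⟨T1, hT1⟩ := hQ φ N w
  obtain ⟨C2, hC2⟩ : ∃ C2 : ℕ, C2 = 2 * ((2 * τ + 4) *
      (r + 2 ^ (s * r + 1 + r) * N * (s * r + 1)) * N) +
      (2 * τ + 4) * (q * r + q * (s * r + 1)) + 1 +
      (2 * τ + 4) * (N * 2 ^ (s * r + 1 + r) * r) + 2 := ⟨_, rfl⟩
  have hC2pos : 1 ≤ C2 := by omega
  obtain ⟨M0, hM0⟩ : ∃ M0 : ℝ, M0 = 1 + ∑ i, ∑ j, (‖ey φ w i j‖ + ‖(ey φ w i j)⁻¹‖) := ⟨_, rfl⟩
  have hsum : ∀ i j, ‖ey φ w i j‖ + ‖(ey φ w i j)⁻¹‖ ≤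
      ∑ i, ∑ j, (‖ey φ w i j‖ + ‖(ey φ w i j)⁻¹‖) := by
    intro i j
    refine le_trans (Finset.single_le_sum (f := fun j => ‖ey φ w i j‖ + ‖(ey φ w i j)⁻¹‖)
      (fun _ _ => by positivity) (Finset.mem_univ j)) ?_
    exact Finset.single_le_sum (f := fun i => ∑ j, (‖ey φ w i j‖ + ‖(ey φ w i j)⁻¹‖))
      (fun _ _ => by positivity) (Finset.mem_univ i)
  have hM01 : 1 ≤ M0 := by
    rw [hM0]
    have : 0 ≤ ∑ i, ∑ j, (‖ey φ w i j‖ + ‖(ey φ w i j)⁻¹‖) :=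
      Finset.sum_nonneg (fun _ _ => Finset.sum_nonneg (fun _ _ => by positivity))
    linarith
  have hMy : ∀ i j, ‖ey φ w i j‖ ≤ M0 := by
    intro i j
    have := hsum i j
    have h0 := norm_nonneg ((ey φ w i j)⁻¹)
    rw [hM0]; linarith
  have hMz : ∀ i j, ‖(ey φ w i j)⁻¹‖ ≤ M0 := by
    intro i j
    have := hsum i j
    have h0 := norm_nonneg (ey φ w i j)
    rw [hM0]; linarith
  obtain ⟨K1, hK1⟩ : ∃ K1 : ℝ, K1 = 8 * C * (C2 : ℝ) ^ (τ + 1) +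
    ((N : ℝ) + 2 + (M0 + 1) * (N + 1)) := ⟨_, rfl⟩
  refine ⟨max T1 (⌈K1⌉₊ + 1), ?_⟩
  intro T hT h N' hh K c t J hnear
  have hTT1 : T1 ≤ T := (le_max_left _ _).trans hT
  have hT2 : ⌈K1⌉₊ + 1 ≤ T := (le_max_right _ _).trans hT
  have hT1' : 1 ≤ T := by omega
  have hTK : K1 ≤ T := by
    have h6 : ⌈K1⌉₊ ≤ T := by omega
    exact (Nat.le_ceil K1).trans (by exact_mod_cast h6)
  have hC2r : (1 : ℝ) ≤ C2 := by exact_mod_cast hC2pos
  have hT8 : 8 * C * (C2 : ℝ) ^ (τ + 1) ≤ T := by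
    have : (0 : ℝ) ≤ (N : ℝ) + 2 + (M0 + 1) * (N + 1) := by positivity
    linarith
  have hTM : (N : ℝ) + 2 + (M0 + 1) * (N + 1) ≤ T := by
    have : (0 : ℝ) ≤ 8 * C * (C2 : ℝ) ^ (τ + 1) := by positivity
    linarith
  have hTr1 : (1 : ℝ) ≤ T := by exact_mod_cast hT1'
  obtain ⟨p, hp0, hpb, hpv⟩ := hT1 T hTT1 h N' hh K c t J hnear
  obtain ⟨hch, hli, htb, hclose⟩ := hnear
  have hcast : ((T : ℝ) ^ (a + 1)) = ((T ^ (a + 1) : ℕ) : ℝ) := by push_cast; rfl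
  rw [hcast] at hpv
  have hNN : N' ≤ N := by
    have := hli.fintype_card_le_finrank
    simpa using this
  obtain ⟨u', y', k1, k2, k3, k4⟩ := StA_fin h2 h4 r m s e τ a Q1 q N N' h T (T ^ (a + 1)) he
    hT1' rfl (by omega) hNN hh φ w K J t htb p hpb C hC1 C2 hC2 hCrit M0 hM01 hMy hMz hT8 hTM hpv
  exact ⟨u', y', p, k1, k2, k3, hp0, k4⟩

end Pool.Agent.Work.MP_8da9ea_nt.SI
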