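import Pool.Agent.Work.MP_8da9ea_nt.SI.Stmts
import Pool.Agent.Work.MP_327059_nt.FR.I_NoRY

/-!
# Item StB: multiplicative relations give a small form
-/

set_option autoImplicit false

namespace Pool.Agent.Work.MP_8da9ea_nt.SI

open MvPolynomial Pool.Agent.Work.MP_327059_nt.GL Pool.Agent.Work.MP_327059_nt.FR

/-- the bilinear form -/
noncomputable def StB_L {n m : ℕ} (E : Fin n → Fin m → ℂ) (W : Fin m → ℤ) (s : Fin n → ℤ) : ℂ :=
  ∑ j, ∑ l, ((s j * W l : ℤ) : ℂ) * E j l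

theorem StB_L_add {n m : ℕ} (E E' : Fin n → Fin m → ℂ) (W : Fin m → ℤ) (s : Fin n → ℤ) :
    StB_L (fun j l => E j l + E' j l) W s = StB_L E W s + StB_L E' W s := by
  unfold StB_L
  rw [← Finset.sum_add_distrib]
  refine Finset.sum_congr rfl fun j _ => ?_
  rw [← Finset.sum_add_distrib]
  exact Finset.sum_congr rfl fun l _ => by ring

theorem StB_L_sub {n m : ℕ} (E : Fin n → Fin m → ℂ) (W : Fin m → ℤ) (s s' : Fin n → ℤ) :
    StB_L E W (fun i => s i - s' i) = StB_L E W s - StB_L E W s' := by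
  unfold StB_L
  rw [← Finset.sum_sub_distrib]
  refine Finset.sum_congr rfl fun j _ => ?_
  rw [← Finset.sum_sub_distrib]
  refine Finset.sum_congr rfl fun l _ => ?_
  push_cast
  ring

theorem StB_bd {n m : ℕ} (E : Fin n → Fin m → ℂ) (W : Fin m → ℤ) (s : Fin n → ℤ) (S V e : ℝ)
    (hS : ∀ j, |(s j : ℝ)| ≤ S) (hV : ∀ l, |(W l : ℝ)| ≤ V) (he : ∀ j l, ‖E j l‖ ≤ e)
    (hS0 : 0 ≤ S) (hV0 : 0 ≤ V) :
    ‖StB_L E W s‖ ≤ ((n : ℝ) * m) * (S * V * e) := by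
  unfold StB_L
  have h1 : ∀ j l, ‖((s j * W l : ℤ) : ℂ) * E j l‖ ≤ S * V * e := by
    intro j l
    rw [norm_mul]
    have h2 : ‖((s j * W l : ℤ) : ℂ)‖ = |(s j : ℝ)| * |(W l : ℝ)| := by
      push_cast
      rw [norm_mul, Complex.norm_intCast, Complex.norm_intCast]
    rw [h2]
    exact mul_le_mul (mul_le_mul (hS j) (hV l) (abs_nonneg _) hS0) (he j l) (norm_nonneg _)
      (by positivity)
  calc ‖∑ j, ∑ l, ((s j * W l : ℤ) : ℂ) * E j l‖
      ≤ ∑ j : Fin n, ∑ l : Fin m, S * V * e := by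
        refine (norm_sum_le _ _).trans (Finset.sum_le_sum fun j _ => ?_)
        exact (norm_sum_le _ _).trans (Finset.sum_le_sum fun l _ => h1 j l)
    _ = ((n : ℝ) * m) * (S * V * e) := by
        simp only [Finset.sum_const, Finset.card_univ, Fintype.card_fin, nsmul_eq_mul]
        ring

theorem StB_exp {n m : ℕ} (y : Fin n → Fin m → ℂ) (E : Fin n → Fin m → ℂ)
    (hy : ∀ j l, y j l = Complex.exp (E j l)) (W : Fin m → ℤ) (s : Fin n → ℤ) :
    ∏ j, ∏ l, y j l ^ (s j * W l) = Complex.exp (StB_L E W s) := by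
  unfold StB_L
  rw [Complex.exp_sum]
  refine Finset.prod_congr rfl fun j _ => ?_
  rw [Complex.exp_sum]
  refine Finset.prod_congr rfl fun l _ => ?_
  rw [hy, ← Complex.exp_int_mul]

/-- the numerical inequality -/
theorem StB_num (D C : ℝ) (hD : 0 ≤ D) (hC : 0 ≤ C) (M a Q2 : ℕ) (T : ℝ) (hT : 1 ≤ T)
    (h : D + M + C + 1 ≤ T) :
    D * T ^ M * (Real.exp (C * T ^ a) * Real.exp (-(T ^ (Q2 + a + 2)))) ≤
      Real.exp (-(T ^ Q2)) := by
  have h1 : D ≤ Real.exp D := by linarith [Real.add_one_le_exp D]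
  have h2 : T ^ M ≤ Real.exp (M * T) := by
    rw [Real.exp_nat_mul]
    exact pow_le_pow_left₀ (by linarith) (by linarith [Real.add_one_le_exp T]) M
  have h3 : D * T ^ M ≤ Real.exp D * Real.exp (M * T) :=
    mul_le_mul h1 h2 (by positivity) (Real.exp_pos _).le
  have hZ1 : (1 : ℝ) ≤ T ^ (Q2 + a) := one_le_pow₀ hT
  have ha : T ^ a ≤ T ^ (Q2 + a) := pow_le_pow_right₀ hT (by omega)
  have hQ : T ^ Q2 ≤ T ^ (Q2 + a) := pow_le_pow_right₀ hT (by omega)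
  have hexp : D + M * T + (C * T ^ a + -(T ^ (Q2 + a + 2))) ≤ -(T ^ Q2) := by
    have e1 : T ^ (Q2 + a + 2) = T ^ (Q2 + a) * T ^ 2 := by ring
    have e2 : D + M * T + C + 1 ≤ T ^ 2 := by
      have : (D + M + C + 1) * T ≤ T * T := mul_le_mul_of_nonneg_right h (by linarith)
      nlinarith
    have e3 : (D + M * T + C + 1) * T ^ (Q2 + a) ≤ T ^ 2 * T ^ (Q2 + a) :=
      mul_le_mul_of_nonneg_right e2 (by linarith)
    have e4 : C * T ^ a ≤ C * T ^ (Q2 + a) := mul_le_mul_of_nonneg_left ha hC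
    have e5 : D + M * T ≤ (D + M * T) * T ^ (Q2 + a) := by
      have : 0 ≤ D + M * T := by positivity
      nlinarith
    rw [e1]
    nlinarith
  calc D * T ^ M * (Real.exp (C * T ^ a) * Real.exp (-(T ^ (Q2 + a + 2))))
      ≤ Real.exp D * Real.exp (M * T) *
        (Real.exp (C * T ^ a) * Real.exp (-(T ^ (Q2 + a + 2)))) :=
        mul_le_mul_of_nonneg_right h3 (by positivity)
    _ = Real.exp (D + M * T + (C * T ^ a + -(T ^ (Q2 + a + 2)))) := by
        rw [Real.exp_add, Real.exp_add, Real.exp_add]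
    _ ≤ _ := Real.exp_le_exp.2 hexp

/-- independent integral vectors -/
theorem StB_card {N N' : ℕ} (t : Fin N' → Fin N → ℤ)
    (ht : LinearIndependent ℚ (fun j => (fun i => (t j i : ℚ)))) : N' ≤ N := by
  have h := ht.fintype_card_le_finrank
  simpa using h

theorem StB_wt {r N : ℕ} (w : Fin N → Fin r → ℂ) (t : Fin N → ℤ) (S : ℝ)
    (hS : ∀ i, |(t i : ℝ)| ≤ S) (k : Fin r) :
    ‖wt w t k‖ ≤ S * ∑ i, ‖w i k‖ := by
  unfold wt
  refine (norm_sum_le _ _).trans ?_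
  rw [Finset.mul_sum]
  refine Finset.sum_le_sum fun i _ => ?_
  rw [norm_mul, Complex.norm_intCast]
  exact mul_le_mul_of_nonneg_right (hS i) (norm_nonneg _)

/-- the logarithm of the quotient -/
theorem StB_log (y E : ℂ) (ε δ : ℝ) (hy : y ≠ 0) (h1 : ‖y - Complex.exp E‖ ≤ ε)
    (h2 : Real.exp ‖E‖ * ε ≤ δ) (h3 : δ ≤ 1 / 2) :
    ∃ ρ : ℂ, ‖ρ‖ ≤ 2 * δ ∧ y = Complex.exp (E + ρ) := by
  have hE : Complex.exp E ≠ 0 := Complex.exp_ne_zero _
  have hz : ‖y / Complex.exp E - 1‖ ≤ δ := by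
    have e1 : y / Complex.exp E - 1 = (y - Complex.exp E) * Complex.exp (-E) := by
      rw [Complex.exp_neg]
      field_simp
    rw [e1, norm_mul]
    have e2 : ‖Complex.exp (-E)‖ ≤ Real.exp ‖E‖ := by
      have := Complex.norm_exp_le_exp_norm (-E)
      rwa [norm_neg] at this
    have hε : 0 ≤ ε := (norm_nonneg _).trans h1
    calc ‖y - Complex.exp E‖ * ‖Complex.exp (-E)‖ ≤ ε * Real.exp ‖E‖ :=
          mul_le_mul h1 e2 (norm_nonneg _) hε
      _ = Real.exp ‖E‖ * ε := by ring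
      _ ≤ δ := h2
  refine ⟨Complex.log (y / Complex.exp E), ?_, ?_⟩
  · have e3 : y / Complex.exp E = 1 + (y / Complex.exp E - 1) := by ring
    rw [e3]
    have e4 := Complex.norm_log_one_add_half_le_self (z := y / Complex.exp E - 1)
      (hz.trans h3)
    have : 0 ≤ ‖y / Complex.exp E - 1‖ := norm_nonneg _
    linarith
  · rw [Complex.exp_add, Complex.exp_log (div_ne_zero hy hE)]
    field_simp

theorem StB_int (x : ℤ) (n : ℕ) (h : |x| ≤ (n : ℤ)) : |(x : ℝ)| ≤ (n : ℝ) := by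
  have e : ((|x| : ℤ) : ℝ) ≤ ((n : ℤ) : ℝ) := by exact_mod_cast h
  rw [Int.cast_abs] at e
  exact_mod_cast e

/-- the form on the subspace -/
theorem StB_sub {n m r h : ℕ} (F : Fin m → Fin r → ℂ) (c : Fin r → Fin h → ℂ)
    (v : Fin n → Fin r → ℂ) (u : Fin n → Fin h → ℂ) (W : Fin m → ℤ) (s : Fin n → ℤ) :
    ∑ l, (∑ j, (W j : ℂ) * ∑ k, F j k * c k l) * ∑ i, (s i : ℂ) * u i l =
      StB_L (fun i j => ∑ k, F j k * v i k) W s -
        StB_L (fun i j => ∑ k, F j k * (v i k - ∑ l, c k l * u i l)) W s := by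
  unfold StB_L
  rw [← Finset.sum_sub_distrib]
  have e1 : ∀ i : Fin n, (∑ j, ((s i * W j : ℤ) : ℂ) * (∑ k, F j k * v i k) -
      ∑ j, ((s i * W j : ℤ) : ℂ) * (∑ k, F j k * (v i k - ∑ l, c k l * u i l))) =
      ∑ j, ∑ k, ∑ l, (s i : ℂ) * ((W j : ℂ) * (F j k * (c k l * u i l))) := by
    intro i
    rw [← Finset.sum_sub_distrib]
    refine Finset.sum_congr rfl fun j _ => ?_
    rw [← mul_sub, ← Finset.sum_sub_distrib, Finset.mul_sum]
    refine Finset.sum_congr rfl fun k _ => ?_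
    have e2 : F j k * v i k - F j k * (v i k - ∑ l, c k l * u i l) =
        ∑ l, F j k * (c k l * u i l) := by
      rw [← Finset.mul_sum]
      ring
    rw [e2, Finset.mul_sum]
    refine Finset.sum_congr rfl fun l _ => ?_
    push_cast
    ring
  rw [Finset.sum_congr rfl fun i _ => e1 i]
  have e3 : ∀ l : Fin h, (∑ j, (W j : ℂ) * ∑ k, F j k * c k l) * ∑ i, (s i : ℂ) * u i l =
      ∑ i, ∑ j, ∑ k, (s i : ℂ) * ((W j : ℂ) * (F j k * (c k l * u i l))) := by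
    intro l
    rw [Finset.mul_sum]
    refine Finset.sum_congr rfl fun i _ => ?_
    rw [Finset.sum_mul]
    refine Finset.sum_congr rfl fun j _ => ?_
    rw [Finset.mul_sum, Finset.sum_mul]
    refine Finset.sum_congr rfl fun k _ => ?_
    ring
  rw [Finset.sum_congr rfl fun l _ => e3 l, Finset.sum_comm]
  refine Finset.sum_congr rfl fun i _ => ?_
  rw [Finset.sum_comm]
  refine Finset.sum_congr rfl fun j _ => ?_
  rw [Finset.sum_comm]

theorem pr_StB : S_StB := by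
  classical
  intro r m s a Q2
  refine ⟨Q2 + a + 2, by omega, ?_⟩
  intro A
  refine ⟨2 * A + a + 3, ?_⟩
  intro φ b N w
  obtain ⟨Φ, hΦ⟩ : ∃ Φ : ℝ, Φ = ∑ j, ∑ k, ‖φ j k‖ := ⟨_, rfl⟩
  obtain ⟨Ω, hΩ⟩ : ∃ Ω : ℝ, Ω = ∑ k, ∑ i, ‖w i k‖ := ⟨_, rfl⟩
  have hΦ0 : 0 ≤ Φ := by
    rw [hΦ]
    exact Finset.sum_nonneg fun _ _ => Finset.sum_nonneg fun _ _ => norm_nonneg _
  have hΩ0 : 0 ≤ Ω := by
    rw [hΩ]
    exact Finset.sum_nonneg fun _ _ => Finset.sum_nonneg fun _ _ => norm_nonneg _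
  obtain ⟨C, hC⟩ : ∃ C : ℝ, C = Φ * Ω := ⟨_, rfl⟩
  have hC0 : 0 ≤ C := by rw [hC]; positivity
  obtain ⟨G, hG⟩ : ∃ G : ℝ, G = (N : ℝ) * (s * r + 1) := ⟨_, rfl⟩
  have hG0 : 0 ≤ G := by rw [hG]; positivity
  obtain ⟨D, hD⟩ : ∃ D : ℝ, D = G * (8 + 2 * Φ) := ⟨_, rfl⟩
  have hD0 : 0 ≤ D := by rw [hD]; positivity
  obtain ⟨T1, hT1⟩ : ∃ T1 : ℕ, D + ((b + A + 1 : ℕ) : ℝ) + C + 1 + 2 + G * (C + 2) ≤ T1 :=
    ⟨_, Nat.le_ceil _⟩
  refine ⟨T1 + 3, ?_⟩
  intro T hT h N' hh K c t J hN y' hy hy0 W hW hcount hbig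
  have hTR : (T1 : ℝ) + 3 ≤ T := by exact_mod_cast hT
  have hTT1 : (T1 : ℝ) ≤ T := by linarith
  have hT0 : 3 ≤ T := by omega
  have hTr : (1 : ℝ) ≤ T := by
    have : (3 : ℝ) ≤ T := by exact_mod_cast hT0
    linarith
  obtain ⟨-, hind, hta, hnear⟩ := hN
  have hN'N : N' ≤ N := StB_card t hind
  have hm' : (((s * (h + 1) + 1 : ℕ)) : ℝ) ≤ s * r + 1 := by
    have : s * (h + 1) + 1 ≤ s * r + 1 := by
      have := Nat.mul_le_mul_left s (Nat.succ_le_of_lt hh)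
      simpa using this
    exact_mod_cast this
  have hNm : (N' : ℝ) * ((s * (h + 1) + 1 : ℕ) : ℝ) ≤ G := by
    rw [hG]
    exact mul_le_mul (by exact_mod_cast hN'N) hm' (by positivity) (by positivity)
  obtain ⟨F, hF⟩ : ∃ F : Fin (s * (h + 1) + 1) → Fin r → ℂ, F = fun l k => φ (J l) k :=
    ⟨_, rfl⟩
  have hFk : ∀ l, ∑ k, ‖F l k‖ ≤ Φ := by
    intro l
    rw [hF, hΦ]
    exact Finset.single_le_sum (f := fun j => ∑ k, ‖φ j k‖)
      (fun _ _ => Finset.sum_nonneg fun _ _ => norm_nonneg _) (Finset.mem_univ (J l))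
  obtain ⟨v, hv⟩ : ∃ v : Fin N' → Fin r → ℂ, v = fun j k => wt w (t j) k := ⟨_, rfl⟩
  have hvb : ∀ j k, ‖v j k‖ ≤ (T : ℝ) ^ a * Ω := by
    intro j k
    rw [hv]
    have e1 := StB_wt w (t j) ((T : ℝ) ^ a) (fun i => by
      have := StB_int (t j i) (T ^ a) (hta j i)
      rw [Nat.cast_pow] at this
      exact this) k
    refine e1.trans (mul_le_mul_of_nonneg_left ?_ (by positivity))
    rw [hΩ]
    exact Finset.single_le_sum (f := fun k => ∑ i, ‖w i k‖)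
      (fun _ _ => Finset.sum_nonneg fun _ _ => norm_nonneg _) (Finset.mem_univ k)
  obtain ⟨E, hE⟩ : ∃ E : Fin N' → Fin (s * (h + 1) + 1) → ℂ,
    E = fun j l => ∑ k, F l k * v j k := ⟨_, rfl⟩
  have hEb : ∀ j l, ‖E j l‖ ≤ C * (T : ℝ) ^ a := by
    intro j l
    rw [hE]
    refine (norm_sum_le _ _).trans ?_
    calc ∑ k, ‖F l k * v j k‖ ≤ ∑ k, ‖F l k‖ * ((T : ℝ) ^ a * Ω) := by
          refine Finset.sum_le_sum fun k _ => ?_
          rw [norm_mul]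
          exact mul_le_mul_of_nonneg_left (hvb j k) (norm_nonneg _)
      _ = (∑ k, ‖F l k‖) * ((T : ℝ) ^ a * Ω) := by rw [Finset.sum_mul]
      _ ≤ Φ * ((T : ℝ) ^ a * Ω) := mul_le_mul_of_nonneg_right (hFk l) (by positivity)
      _ = C * (T : ℝ) ^ a := by rw [hC]; ring
  obtain ⟨δ, hδ⟩ : ∃ δ : ℝ, δ = Real.exp (C * (T : ℝ) ^ a) *
    Real.exp (-((T : ℝ) ^ (Q2 + a + 2))) := ⟨_, rfl⟩
  have hδ0 : 0 < δ := by rw [hδ]; positivity
  have hM0 : (0 : ℝ) ≤ ((b + A + 1 : ℕ) : ℝ) := Nat.cast_nonneg _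
  have hGC : 0 ≤ G * (C + 2) := by positivity
  have hδ2 : δ ≤ 1 / 2 := by
    have e1 := StB_num 2 C (by norm_num) hC0 0 a Q2 T hTr (by
      push_cast at hT1 ⊢
      push_cast at hM0
      linarith)
    rw [← hδ] at e1
    have e2 : Real.exp (-((T : ℝ) ^ Q2)) ≤ 1 := by
      rw [Real.exp_le_one_iff]
      have : (0 : ℝ) ≤ (T : ℝ) ^ Q2 := by positivity
      linarith
    rw [pow_zero] at e1
    linarith
  -- logarithms
  have hρex : ∀ j l, ∃ ρ : ℂ, ‖ρ‖ ≤ 2 * δ ∧ y' j l = Complex.exp (E j l + ρ) := by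
    intro j l
    refine StB_log (y' j l) (E j l) (Real.exp (-((T : ℝ) ^ (Q2 + a + 2)))) δ (hy0 j l) ?_ ?_ hδ2
    · have := hy j l
      rw [hE, hF, hv]
      exact this
    · rw [hδ]
      exact mul_le_mul_of_nonneg_right (Real.exp_le_exp.2 (hEb j l)) (Real.exp_pos _).le
  choose ρ hρ1 hρ2 using hρex
  have hWr : ∀ l, |(W l : ℝ)| ≤ (T : ℝ) ^ A := by
    intro l
    have := StB_int (W l) (T ^ A) (hW l)
    rw [Nat.cast_pow] at this
    exact this
  have hsr : ∀ s' : Fin N' → ℤ, (∀ i, |s' i| ≤ (T : ℤ)) → ∀ i, |(s' i : ℝ)| ≤ (T : ℝ) :=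
    fun s' hs' i => StB_int (s' i) T (hs' i)
  -- the integers
  have hkex : ∀ s' : Fin N' → ℤ, ∃ k : ℤ, ∏ i, ∏ j, y' i j ^ (s' i * W j) = 1 →
      StB_L E W s' + StB_L ρ W s' = k * (2 * Real.pi * Complex.I) := by
    intro s'
    by_cases hs : ∏ i, ∏ j, y' i j ^ (s' i * W j) = 1
    · rw [StB_exp y' (fun j l => E j l + ρ j l) hρ2, Complex.exp_eq_one_iff, StB_L_add] at hs
      obtain ⟨k, hk⟩ := hs
      exact ⟨k, fun _ => hk⟩
    · exact ⟨0, fun h => absurd h hs⟩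
  choose k hk using hkex
  have hRb : ∀ s' : Fin N' → ℤ, (∀ i, |s' i| ≤ (T : ℤ)) →
      ‖StB_L ρ W s'‖ ≤ G * ((T : ℝ) ^ (A + 1) * (2 * δ)) := by
    intro s' hs'
    refine (StB_bd ρ W s' T ((T : ℝ) ^ A) (2 * δ) (hsr s' hs') hWr hρ1 (by positivity)
      (by positivity)).trans ?_
    calc ((N' : ℝ) * ((s * (h + 1) + 1 : ℕ) : ℝ)) * (T * (T : ℝ) ^ A * (2 * δ))
        ≤ G * (T * (T : ℝ) ^ A * (2 * δ)) := mul_le_mul_of_nonneg_right hNm (by positivity)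
      _ = _ := by ring
  have hkb : ∀ s' : Fin N' → ℤ, (∀ i, |s' i| ≤ (T : ℤ)) →
      ∏ i, ∏ j, y' i j ^ (s' i * W j) = 1 → |k s'| ≤ ((T ^ (A + a + 2) : ℕ) : ℤ) := by
    intro s' hs' h1
    have e1 := hk s' h1
    have e2 := StB_bd E W s' T ((T : ℝ) ^ A) (C * (T : ℝ) ^ a) (hsr s' hs') hWr hEb
      (by positivity) (by positivity)
    have e2' : ‖StB_L E W s'‖ ≤ G * ((T : ℝ) ^ (A + 1) * (C * (T : ℝ) ^ a)) := by
      refine e2.trans ?_
      calc ((N' : ℝ) * ((s * (h + 1) + 1 : ℕ) : ℝ)) * (T * (T : ℝ) ^ A * (C * (T : ℝ) ^ a))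
          ≤ G * (T * (T : ℝ) ^ A * (C * (T : ℝ) ^ a)) :=
            mul_le_mul_of_nonneg_right hNm (by positivity)
        _ = _ := by ring
    have e3 := hRb s' hs'
    have e4 : ‖(k s' : ℂ) * (2 * Real.pi * Complex.I)‖ = |(k s' : ℝ)| * (2 * Real.pi) := by
      rw [norm_mul, norm_mul, norm_mul, Complex.norm_intCast, Complex.norm_I,
        Complex.norm_real, Real.norm_of_nonneg Real.pi_pos.le]
      simp
    have e5 : |(k s' : ℝ)| * (2 * Real.pi) ≤ G * (T : ℝ) ^ (A + 1) * (C * (T : ℝ) ^ a + 2 * δ) := by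
      rw [← e4, ← e1]
      refine (norm_add_le _ _).trans ?_
      refine (add_le_add e2' e3).trans (le_of_eq ?_)
      ring
    have e6 : |(k s' : ℝ)| ≤ |(k s' : ℝ)| * (2 * Real.pi) := by
      have h3 := Real.pi_gt_three
      nlinarith [abs_nonneg (k s' : ℝ)]
    have hTa : (1 : ℝ) ≤ (T : ℝ) ^ a := one_le_pow₀ hTr
    have e7 : C * (T : ℝ) ^ a + 2 * δ ≤ (C + 2) * (T : ℝ) ^ a := by nlinarith
    have e8 : G * (T : ℝ) ^ (A + 1) * (C * (T : ℝ) ^ a + 2 * δ) ≤ (T : ℝ) ^ (A + a + 2) := by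
      calc G * (T : ℝ) ^ (A + 1) * (C * (T : ℝ) ^ a + 2 * δ)
          ≤ G * (T : ℝ) ^ (A + 1) * ((C + 2) * (T : ℝ) ^ a) :=
            mul_le_mul_of_nonneg_left e7 (by positivity)
        _ = (G * (C + 2)) * ((T : ℝ) ^ (A + 1) * (T : ℝ) ^ a) := by ring
        _ ≤ T * ((T : ℝ) ^ (A + 1) * (T : ℝ) ^ a) := by
            refine mul_le_mul_of_nonneg_right ?_ (by positivity)
            linarith
        _ = _ := by ring
    have e9 : ((|k s'| : ℤ) : ℝ) ≤ (((T ^ (A + a + 2) : ℕ) : ℤ) : ℝ) := by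
      rw [Int.cast_abs]
      push_cast
      exact (e6.trans e5).trans e8
    exact_mod_cast e9
  have hcpos : 0 < cntY T y' W := by
    rcases Nat.eq_zero_or_pos (cntY T y' W) with h0 | h0
    · rw [h0, mul_zero] at hcount
      exact absurd hcount (not_le.mpr (pow_pos (Nat.succ_pos _) _))
    · exact h0
  obtain ⟨η, hη⟩ : ∃ η : ℝ, η = G * ((T : ℝ) ^ (A + 1) * (2 * δ)) := ⟨_, rfl⟩
  have hcnt := NoRY_cnt (N := N') (T := T) (K := T ^ (A + a + 2))
    (fun s' => ∏ i, ∏ j, y' i j ^ (s' i * W j) = 1) k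
    {s' | ‖StB_L E W s'‖ ≤ 2 * η} hkb (by
      intro s1 s2 hs1 hp1 hs2 hp2 hss
      show ‖StB_L E W (fun i => s1 i - s2 i)‖ ≤ 2 * η
      rw [StB_L_sub]
      have e1 := hk s1 hp1
      have e2 := hk s2 hp2
      rw [hss] at e1
      have e3 : StB_L E W s1 - StB_L E W s2 = StB_L ρ W s2 - StB_L ρ W s1 := by
        linear_combination e1 - e2
      rw [e3]
      refine (norm_sub_le _ _).trans ?_
      have e4 := hRb s1 hs1
      have e5 := hRb s2 hs2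
      rw [← hη] at e4 e5
      linarith) hcpos
  -- the maximal coordinate
  obtain ⟨g, hg⟩ : ∃ g : Fin (h + 1) → ℂ,
    g = fun l => ∑ j, (W j : ℂ) * ∑ k, F j k * c k l := ⟨_, rfl⟩
  obtain ⟨l0, -, hl0⟩ := Finset.exists_max_image Finset.univ (fun l => ‖g l‖)
    ⟨(0 : Fin (h + 1)), Finset.mem_univ _⟩
  have hgl : ((T : ℝ) ^ b)⁻¹ ≤ ‖g l0‖ := by
    obtain ⟨l, hl⟩ := hbig
    have e1 : ‖g l‖ ≤ ‖g l0‖ := hl0 l (Finset.mem_univ _)
    rw [hg] at e1 ⊢
    rw [hF] at e1 ⊢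
    exact hl.trans e1
  have hTb : (0 : ℝ) < ((T : ℝ) ^ b)⁻¹ := by positivity
  have hgpos : 0 < ‖g l0‖ := hTb.trans_le hgl
  have hg0 : g l0 ≠ 0 := norm_pos_iff.1 hgpos
  refine ⟨fun l => g l / g l0, l0, div_self hg0, fun l => ?_, ?_⟩
  · rw [norm_div, div_le_one hgpos]
    exact hl0 l (Finset.mem_univ _)
  · have hfinal : Set.ncard {s' : Fin N' → ℤ | (∀ i, |s' i| ≤ ((2 * T : ℕ) : ℤ)) ∧
        s' ∈ {s' | ‖StB_L E W s'‖ ≤ 2 * η}} ≤
        Set.ncard {s' : Fin N' → ℤ | (∀ j, |s' j| ≤ ((2 * T : ℕ) : ℤ)) ∧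
          ‖∑ l, (g l / g l0) * ∑ j, (s' j : ℂ) * wt w (t j) (K l)‖ ≤
            Real.exp (-((T : ℝ) ^ Q2))} := by
      refine Set.ncard_le_ncard ?_ (NoRY_fin _)
      rintro s' ⟨hs1, hs2⟩
      refine ⟨hs1, ?_⟩
      have hs2' : ‖StB_L E W s'‖ ≤ 2 * η := hs2
      have hs1r : ∀ i, |(s' i : ℝ)| ≤ 2 * (T : ℝ) := by
        intro i
        have := StB_int (s' i) (2 * T) (hs1 i)
        rw [Nat.cast_mul] at this
        exact_mod_cast this
      have e1 := StB_sub F c v (fun j l => wt w (t j) (K l)) W s'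
      have e2 : ∑ l, (g l / g l0) * ∑ j, (s' j : ℂ) * wt w (t j) (K l) =
          (g l0)⁻¹ * ∑ l, g l * ∑ j, (s' j : ℂ) * wt w (t j) (K l) := by
        rw [Finset.mul_sum]
        refine Finset.sum_congr rfl fun l _ => ?_
        rw [div_eq_mul_inv]
        ring
      have e3 : ‖StB_L (fun i j => ∑ k, F j k * (v i k -
          ∑ l, c k l * wt w (t i) (K l))) W s'‖ ≤
          G * (2 * T * (T : ℝ) ^ A * (Φ * Real.exp (-((T : ℝ) ^ (Q2 + a + 2))))) := by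
        refine (StB_bd _ W s' (2 * T) ((T : ℝ) ^ A)
          (Φ * Real.exp (-((T : ℝ) ^ (Q2 + a + 2)))) hs1r hWr ?_ (by positivity)
          (by positivity)).trans (mul_le_mul_of_nonneg_right hNm (by positivity))
        intro i j
        refine (norm_sum_le _ _).trans ?_
        calc ∑ k, ‖F j k * (v i k - ∑ l, c k l * wt w (t i) (K l))‖
            ≤ ∑ k, ‖F j k‖ * Real.exp (-((T : ℝ) ^ (Q2 + a + 2))) := by
              refine Finset.sum_le_sum fun k _ => ?_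
              rw [norm_mul]
              refine mul_le_mul_of_nonneg_left ?_ (norm_nonneg _)
              rw [hv]
              exact hnear i k
          _ = (∑ k, ‖F j k‖) * Real.exp (-((T : ℝ) ^ (Q2 + a + 2))) := by rw [Finset.sum_mul]
          _ ≤ _ := mul_le_mul_of_nonneg_right (hFk j) (Real.exp_pos _).le
      have e4 : ‖∑ l, g l * ∑ j, (s' j : ℂ) * wt w (t j) (K l)‖ ≤
          2 * η + G * (2 * T * (T : ℝ) ^ A * (Φ * Real.exp (-((T : ℝ) ^ (Q2 + a + 2))))) := by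
        have e5 : ∑ l, g l * ∑ j, (s' j : ℂ) * wt w (t j) (K l) =
            StB_L E W s' - StB_L (fun i j => ∑ k, F j k * (v i k -
              ∑ l, c k l * wt w (t i) (K l))) W s' := by
          rw [hg, hE]
          exact e1
        rw [e5]
        exact (norm_sub_le _ _).trans (add_le_add hs2' e3)
      have e6 : Real.exp (-((T : ℝ) ^ (Q2 + a + 2))) ≤ δ := by
        rw [hδ]
        have : 1 ≤ Real.exp (C * (T : ℝ) ^ a) := Real.one_le_exp (by positivity)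
        nlinarith [Real.exp_pos (-((T : ℝ) ^ (Q2 + a + 2)))]
      have e7 : 2 * η + G * (2 * T * (T : ℝ) ^ A *
          (Φ * Real.exp (-((T : ℝ) ^ (Q2 + a + 2))))) ≤
          D * (T : ℝ) ^ (A + 1) * δ := by
        have f1 : G * (2 * T * (T : ℝ) ^ A * (Φ * Real.exp (-((T : ℝ) ^ (Q2 + a + 2))))) ≤
            G * (2 * T * (T : ℝ) ^ A * (Φ * δ)) := by
          refine mul_le_mul_of_nonneg_left (mul_le_mul_of_nonneg_left
            (mul_le_mul_of_nonneg_left e6 hΦ0) (by positivity)) hG0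
        have f2 : 2 * η ≤ G * 8 * (T : ℝ) ^ (A + 1) * δ := by
          rw [hη]
          have : 0 ≤ G * ((T : ℝ) ^ (A + 1) * δ) := by positivity
          nlinarith
        calc 2 * η + G * (2 * T * (T : ℝ) ^ A *
            (Φ * Real.exp (-((T : ℝ) ^ (Q2 + a + 2))))) ≤
            G * 8 * (T : ℝ) ^ (A + 1) * δ + G * (2 * T * (T : ℝ) ^ A * (Φ * δ)) :=
              add_le_add f2 f1
          _ = D * (T : ℝ) ^ (A + 1) * δ := by rw [hD]; ring
      have e8 : ‖(g l0)⁻¹‖ ≤ (T : ℝ) ^ b := by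
        rw [norm_inv]
        have := inv_anti₀ hTb hgl
        rwa [inv_inv] at this
      have e9 := StB_num D C hD0 hC0 (b + A + 1) a Q2 T hTr (by linarith)
      rw [← hδ] at e9
      rw [e2, norm_mul]
      calc ‖(g l0)⁻¹‖ * ‖∑ l, g l * ∑ j, (s' j : ℂ) * wt w (t j) (K l)‖
          ≤ (T : ℝ) ^ b * (D * (T : ℝ) ^ (A + 1) * δ) :=
            mul_le_mul e8 (e4.trans e7) (norm_nonneg _) (by positivity)
        _ = D * (T : ℝ) ^ (b + A + 1) * δ := by ring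
        _ ≤ _ := e9
    have hcnt' : cntY T y' W ≤ (2 * T ^ (A + a + 2) + 1) *
        Set.ncard {s' : Fin N' → ℤ | (∀ j, |s' j| ≤ ((2 * T : ℕ) : ℤ)) ∧
          ‖∑ l, (g l / g l0) * ∑ j, (s' j : ℂ) * wt w (t j) (K l)‖ ≤
            Real.exp (-((T : ℝ) ^ Q2))} :=
      hcnt.trans (Nat.mul_le_mul_left _ hfinal)
    refine hcount.trans ((Nat.mul_le_mul_left _ hcnt').trans ?_)
    rw [← mul_assoc]
    refine Nat.mul_le_mul_right _ ?_
    have hp : 1 ≤ T ^ (A + a + 2) := Nat.one_le_pow _ _ (by omega)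
    calc T ^ A * (2 * T ^ (A + a + 2) + 1) ≤ T ^ A * (T * T ^ (A + a + 2)) := by
          refine Nat.mul_le_mul_left _ ?_
          calc 2 * T ^ (A + a + 2) + 1 ≤ 3 * T ^ (A + a + 2) := by omega
            _ ≤ T * T ^ (A + a + 2) := Nat.mul_le_mul_right _ hT0
      _ = T ^ (2 * A + a + 3) := by ring

end Pool.Agent.Work.MP_8da9ea_nt.SI
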