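import Pool.Agent.Work.MP_8da9ea_nt.SI.Stmts

/-!
# StC: additive relations give a small form
-/

set_option autoImplicit false

namespace Pool.Agent.Work.MP_8da9ea_nt.SI

open MvPolynomial Pool.Agent.Work.MP_327059_nt.GL Pool.Agent.Work.MP_327059_nt.FR

theorem StC_box {N' : ℕ} (S : ℕ) (p : (Fin N' → ℤ) → Prop) :
    Set.Finite {s : Fin N' → ℤ | (∀ j, |s j| ≤ (S : ℤ)) ∧ p s} := by
  refine (Set.Finite.pi' (ι := Fin N') (κ := fun _ => ℤ)
    (t := fun _ => Set.Icc (-(S : ℤ)) S) (fun _ => Set.finite_Icc _ _)).subset ?_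
  rintro s ⟨hs, _⟩ j
  exact abs_le.1 (hs j)

theorem pr_StC : S_StC := by
  classical
  intro r Q2
  refine ⟨Q2 + 1, fun N w => ⟨2 * r * N + 3, ?_⟩⟩
  intro T hT A h N' hr hN K t u' hu c' hc' hcnt
  obtain ⟨l0, hl0⟩ : ∃ l0, ∀ l, ‖c' l‖ ≤ ‖c' l0‖ := by
    obtain ⟨l0, _, h1⟩ := Finset.exists_max_image (Finset.univ : Finset (Fin (h + 1)))
      (fun l => ‖c' l‖) Finset.univ_nonempty
    exact ⟨l0, fun l => h1 l (Finset.mem_univ l)⟩
  have hc0 : c' l0 ≠ 0 := by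
    intro h0
    apply hc'
    funext l
    have h1 := hl0 l
    rw [h0, norm_zero] at h1
    exact norm_le_zero_iff.1 h1
  have hχ : ∀ l, ‖c' l / c' l0‖ ≤ 1 := by
    intro l
    rw [norm_div]
    exact div_le_one_of_le₀ (hl0 l) (norm_nonneg _)
  refine ⟨fun l => c' l / c' l0, l0, div_self hc0, hχ, ?_⟩
  refine hcnt.trans (Nat.mul_le_mul_left _ ?_)
  unfold cntL
  refine Set.ncard_le_ncard ?_ (StC_box _ _)
  rintro s ⟨hs1, hs2⟩
  refine ⟨fun j => (hs1 j).trans (by push_cast; omega), ?_⟩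
  -- the sum
  have e1 : ∑ l, c' l / c' l0 * ∑ j, (s j : ℂ) * u' j l = 0 := by
    have e2 : ∑ l, c' l / c' l0 * ∑ j, (s j : ℂ) * u' j l =
        (∑ i, (s i : ℂ) * ∑ k, c' k * u' i k) / c' l0 := by
      simp only [Finset.mul_sum, Finset.sum_div]
      rw [Finset.sum_comm]
      exact Finset.sum_congr rfl fun i _ => Finset.sum_congr rfl fun l _ => by ring
    rw [e2, hs2, zero_div]
  have e3 : ∑ l, c' l / c' l0 * ∑ j, (s j : ℂ) * wt w (t j) (K l) =
      ∑ l, c' l / c' l0 * ∑ j, (s j : ℂ) * (wt w (t j) (K l) - u' j l) := by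
    rw [← sub_zero (∑ l, c' l / c' l0 * ∑ j, (s j : ℂ) * wt w (t j) (K l)), ← e1,
      ← Finset.sum_sub_distrib]
    refine Finset.sum_congr rfl fun l _ => ?_
    rw [← mul_sub, ← Finset.sum_sub_distrib]
    congr 1
    exact Finset.sum_congr rfl fun j _ => by ring
  rw [e3]
  have hTr : ((2 * r * N + 3 : ℕ) : ℝ) ≤ T := by exact_mod_cast hT
  push_cast at hTr
  have hrN : (0 : ℝ) ≤ r * N := by positivity
  have hT1 : (1 : ℝ) ≤ T := by nlinarith
  have e4 : ‖∑ l, c' l / c' l0 * ∑ j, (s j : ℂ) * (wt w (t j) (K l) - u' j l)‖ ≤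
      r * N * T * Real.exp (-((T : ℝ) ^ (Q2 + 1))) := by
    have e5 : ∀ l : Fin (h + 1), ‖c' l / c' l0 * ∑ j, (s j : ℂ) * (wt w (t j) (K l) - u' j l)‖ ≤
        N * T * Real.exp (-((T : ℝ) ^ (Q2 + 1))) := by
      intro l
      rw [norm_mul]
      have e6 : ‖∑ j, (s j : ℂ) * (wt w (t j) (K l) - u' j l)‖ ≤
          N * T * Real.exp (-((T : ℝ) ^ (Q2 + 1))) := by
        refine (norm_sum_le _ _).trans ?_
        have e7 : ∀ j ∈ (Finset.univ : Finset (Fin N')),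
            ‖(s j : ℂ) * (wt w (t j) (K l) - u' j l)‖ ≤
              T * Real.exp (-((T : ℝ) ^ (Q2 + 1))) := by
          intro j _
          rw [norm_mul, norm_sub_rev]
          have e8 : ‖(s j : ℂ)‖ ≤ T := by
            rw [Complex.norm_intCast]
            exact_mod_cast hs1 j
          exact mul_le_mul e8 (hu j l) (norm_nonneg _) (by positivity)
        refine (Finset.sum_le_sum e7).trans ?_
        rw [Finset.sum_const, Finset.card_univ, Fintype.card_fin, nsmul_eq_mul, mul_assoc]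
        refine mul_le_mul_of_nonneg_right (by exact_mod_cast hN) (by positivity)
      calc ‖c' l / c' l0‖ * ‖∑ j, (s j : ℂ) * (wt w (t j) (K l) - u' j l)‖
          ≤ 1 * (N * T * Real.exp (-((T : ℝ) ^ (Q2 + 1)))) :=
            mul_le_mul (hχ l) e6 (norm_nonneg _) zero_le_one
        _ = _ := one_mul _
    refine (norm_sum_le _ _).trans ((Finset.sum_le_sum fun l _ => e5 l).trans ?_)
    rw [Finset.sum_const, Finset.card_univ, Fintype.card_fin, nsmul_eq_mul]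
    have e9 : ((h + 1 : ℕ) : ℝ) ≤ r := by exact_mod_cast hr
    calc ((h + 1 : ℕ) : ℝ) * (N * T * Real.exp (-((T : ℝ) ^ (Q2 + 1))))
        ≤ r * (N * T * Real.exp (-((T : ℝ) ^ (Q2 + 1)))) :=
          mul_le_mul_of_nonneg_right e9 (by positivity)
      _ = _ := by ring
  refine e4.trans ?_
  have e10 : (r : ℝ) * N * T ≤ Real.exp ((T : ℝ) - 1) := by
    have e11 := Real.quadratic_le_exp_of_nonneg (x := (T : ℝ) - 1) (by linarith)
    have e12 : 2 * (r * N) ≤ (T : ℝ) - 2 := by nlinarith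
    nlinarith
  have e13 : (T : ℝ) - 1 - (T : ℝ) ^ (Q2 + 1) ≤ -((T : ℝ) ^ Q2) := by
    have e14 : (1 : ℝ) ≤ (T : ℝ) ^ Q2 := one_le_pow₀ hT1
    rw [pow_succ]
    nlinarith
  calc (r : ℝ) * N * T * Real.exp (-((T : ℝ) ^ (Q2 + 1)))
      ≤ Real.exp ((T : ℝ) - 1) * Real.exp (-((T : ℝ) ^ (Q2 + 1))) :=
        mul_le_mul_of_nonneg_right e10 (Real.exp_nonneg _)
    _ = Real.exp ((T : ℝ) - 1 - (T : ℝ) ^ (Q2 + 1)) := by
        rw [← Real.exp_add]
        congr 1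
    _ ≤ _ := Real.exp_le_exp.2 e13

end Pool.Agent.Work.MP_8da9ea_nt.SI
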