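import Pool.Agent.Work.MP_8da9ea_nt.SI.Stmts

/-!
# PROJECT SI: item StV, smallness of the values
-/

set_option autoImplicit false

namespace Pool.Agent.Work.MP_8da9ea_nt.SI

open MvPolynomial Pool.Agent.Work.MP_327059_nt.GL Pool.Agent.Work.MP_327059_nt.FR

theorem StV_norm_wt {r N : ℕ} (w : Fin N → Fin r → ℂ) (t : Fin N → ℤ) (W0 A : ℝ)
    (hW : ∀ i k, ‖w i k‖ ≤ W0) (hA : ∀ i, |(t i : ℝ)| ≤ A) (hA0 : 0 ≤ A) (k : Fin r) :
    ‖wt w t k‖ ≤ N * (A * W0) := by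
  unfold wt
  refine (norm_sum_le _ _).trans ?_
  have h1 : ∀ i ∈ (Finset.univ : Finset (Fin N)), ‖(t i : ℂ) * w i k‖ ≤ A * W0 := by
    intro i _
    rw [norm_mul, Complex.norm_intCast]
    exact mul_le_mul (hA i) (hW i k) (norm_nonneg _) hA0
  have h2 := Finset.sum_le_card_nsmul _ _ _ h1
  simpa [nsmul_eq_mul] using h2

/-- the value of a monomial at the point with exponential coordinates -/
theorem StV_evr {N' h' m' A W : ℕ} (x : Ixr h' m' A W) (u : Fin N' → Fin h' → ℂ)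
    (a : Fin N' → Fin m' → ℂ) (s : Fin N' → ℕ) :
    evr x (rpt u (fun j l => Complex.exp (a j l)) s) =
      (∏ k, (∑ i, (s i : ℂ) * u i k) ^ (x.1 k : ℕ)) *
        Complex.exp (∑ j, ((x.2 j : ℕ) : ℂ) * ∑ i, (s i : ℂ) * a i j) := by
  unfold evr rpt
  simp only [Sum.elim_inr, Sum.elim_inl]
  congr 1
  rw [Complex.exp_sum]
  refine Finset.prod_congr rfl fun j _ => ?_
  have h1 : ∏ i, Complex.exp (a i j) ^ s i = Complex.exp (∑ i, (s i : ℂ) * a i j) := by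
    rw [Complex.exp_sum]
    exact Finset.prod_congr rfl fun i _ => (Complex.exp_nat_mul _ _).symm
  rw [h1, ← Complex.exp_nat_mul]

theorem StV_fr {h' m' A W : ℕ} (x : Ixr h' m' A W) (ph : Fin m' → Fin h' → ℂ)
    (z : Fin h' → ℂ) :
    fr ph x z = (∏ k, z k ^ (x.1 k : ℕ)) *
      Complex.exp (∑ j, ((x.2 j : ℕ) : ℂ) * ∑ k, ph j k * z k) := by
  unfold fr bwr
  congr 2
  simp only [Finset.sum_mul, Finset.mul_sum]
  rw [Finset.sum_comm]
  exact Finset.sum_congr rfl fun j _ => Finset.sum_congr rfl fun k _ => by ring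

theorem StV_exp_sub (α β : ℂ) (h : ‖α - β‖ ≤ 1) :
    ‖Complex.exp α - Complex.exp β‖ ≤ Real.exp ‖α‖ * (2 * ‖α - β‖) := by
  have h1 : Complex.exp α - Complex.exp β = -(Complex.exp α * (Complex.exp (β - α) - 1)) := by
    rw [mul_sub, ← Complex.exp_add]
    ring_nf
  rw [h1, norm_neg, norm_mul]
  have h2 : ‖β - α‖ ≤ 1 := by rwa [norm_sub_rev]
  have h3 : ‖Complex.exp (β - α) - 1‖ ≤ 2 * ‖β - α‖ := Complex.norm_exp_sub_one_le h2
  rw [norm_sub_rev β α] at h3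
  exact mul_le_mul (Complex.norm_exp_le_exp_norm _) h3 (norm_nonneg _) (Real.exp_pos _).le

/-- a double sum with exponents below `W` -/
theorem StV_dsum {G h' m' A W : ℕ} (x : Fin G → Ixr h' m' A W) (F : Fin G → Fin m' → ℂ)
    (L : ℝ) (hF : ∀ g j, ‖F g j‖ ≤ L) :
    ‖∑ g, ∑ j, (((x g).2 j : ℕ) : ℂ) * F g j‖ ≤ G * (m' * (W * L)) := by
  refine (norm_sum_le _ _).trans ?_
  have h1 : ∀ g ∈ (Finset.univ : Finset (Fin G)),
      ‖∑ j, (((x g).2 j : ℕ) : ℂ) * F g j‖ ≤ m' * (W * L) := by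
    intro g _
    refine (norm_sum_le _ _).trans ?_
    have h2 : ∀ j ∈ (Finset.univ : Finset (Fin m')),
        ‖(((x g).2 j : ℕ) : ℂ) * F g j‖ ≤ W * L := by
      intro j _
      rw [norm_mul, Complex.norm_natCast]
      refine mul_le_mul ?_ (hF g j) (norm_nonneg _) (Nat.cast_nonneg _)
      exact_mod_cast ((x g).2 j).2.le
    have h3 := Finset.sum_le_card_nsmul _ _ _ h2
    simpa [nsmul_eq_mul] using h3
  have h3 := Finset.sum_le_card_nsmul _ _ _ h1
  simpa [nsmul_eq_mul] using h3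

/-- the comparison of the two sums -/
theorem StV_abs {G h' m' A W : ℕ} (p : (Fin G → Ixr h' m' A W) → ℤ) (z : Fin G → Fin h' → ℂ)
    (Al Be : Fin G → Fin m' → ℂ) (P Zb La δ : ℝ)
    (hp : ∀ x, ‖(p x : ℂ)‖ ≤ P) (hz : ∀ g k, ‖z g k‖ ≤ Zb) (hZ1 : 1 ≤ Zb)
    (hA : ∀ g j, ‖Al g j‖ ≤ La) (hAB : ∀ g j, ‖Al g j - Be g j‖ ≤ δ) (hP0 : 0 ≤ P)
    (hδ : G * (m' * (W * δ)) ≤ 1) :
    ‖∑ x, (p x : ℂ) * ((∏ g, ∏ k, z g k ^ ((x g).1 k : ℕ)) *
      Complex.exp (∑ g, ∑ j, (((x g).2 j : ℕ) : ℂ) * Al g j))‖ ≤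
    ‖∑ x, (p x : ℂ) * ((∏ g, ∏ k, z g k ^ ((x g).1 k : ℕ)) *
      Complex.exp (∑ g, ∑ j, (((x g).2 j : ℕ) : ℂ) * Be g j))‖ +
    ((A : ℝ) ^ h' * (W : ℝ) ^ m') ^ G *
      (P * (Zb ^ (A * h' * G) * (Real.exp (G * (m' * (W * La))) *
        (2 * (G * (m' * (W * δ))))))) := by
  set S1 := ∑ x, (p x : ℂ) * ((∏ g, ∏ k, z g k ^ ((x g).1 k : ℕ)) *
      Complex.exp (∑ g, ∑ j, (((x g).2 j : ℕ) : ℂ) * Al g j)) with hS1
  set S2 := ∑ x, (p x : ℂ) * ((∏ g, ∏ k, z g k ^ ((x g).1 k : ℕ)) *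
      Complex.exp (∑ g, ∑ j, (((x g).2 j : ℕ) : ℂ) * Be g j)) with hS2
  have h0 : ‖S1‖ ≤ ‖S2‖ + ‖S1 - S2‖ := by
    calc ‖S1‖ = ‖S2 + (S1 - S2)‖ := by ring_nf
      _ ≤ _ := norm_add_le _ _
  refine h0.trans (add_le_add_right ?_ _)
  rw [hS1, hS2, ← Finset.sum_sub_distrib]
  refine (norm_sum_le _ _).trans ?_
  have hterm : ∀ x ∈ (Finset.univ : Finset (Fin G → Ixr h' m' A W)),
      ‖(p x : ℂ) * ((∏ g, ∏ k, z g k ^ ((x g).1 k : ℕ)) *
        Complex.exp (∑ g, ∑ j, (((x g).2 j : ℕ) : ℂ) * Al g j)) -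
        (p x : ℂ) * ((∏ g, ∏ k, z g k ^ ((x g).1 k : ℕ)) *
        Complex.exp (∑ g, ∑ j, (((x g).2 j : ℕ) : ℂ) * Be g j))‖ ≤
      P * (Zb ^ (A * h' * G) * (Real.exp (G * (m' * (W * La))) *
        (2 * (G * (m' * (W * δ)))))) := by
    intro x _
    have h1 : (p x : ℂ) * ((∏ g, ∏ k, z g k ^ ((x g).1 k : ℕ)) *
        Complex.exp (∑ g, ∑ j, (((x g).2 j : ℕ) : ℂ) * Al g j)) -
        (p x : ℂ) * ((∏ g, ∏ k, z g k ^ ((x g).1 k : ℕ)) *
        Complex.exp (∑ g, ∑ j, (((x g).2 j : ℕ) : ℂ) * Be g j)) =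
        (p x : ℂ) * ((∏ g, ∏ k, z g k ^ ((x g).1 k : ℕ)) *
        (Complex.exp (∑ g, ∑ j, (((x g).2 j : ℕ) : ℂ) * Al g j) -
        Complex.exp (∑ g, ∑ j, (((x g).2 j : ℕ) : ℂ) * Be g j))) := by ring
    rw [h1, norm_mul, norm_mul]
    have hz2 : ‖∏ g, ∏ k, z g k ^ ((x g).1 k : ℕ)‖ ≤ Zb ^ (A * h' * G) := by
      rw [norm_prod]
      have h2 : ∀ g ∈ (Finset.univ : Finset (Fin G)),
          ‖∏ k, z g k ^ ((x g).1 k : ℕ)‖ ≤ Zb ^ (A * h') := by
        intro g _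
        rw [norm_prod]
        have h3 : ∀ k ∈ (Finset.univ : Finset (Fin h')), ‖z g k ^ ((x g).1 k : ℕ)‖ ≤ Zb ^ A := by
          intro k _
          rw [norm_pow]
          calc ‖z g k‖ ^ ((x g).1 k : ℕ) ≤ Zb ^ ((x g).1 k : ℕ) :=
                pow_le_pow_left₀ (norm_nonneg _) (hz g k) _
            _ ≤ Zb ^ A := pow_le_pow_right₀ hZ1 ((x g).1 k).2.le
        calc _ ≤ ∏ _k : Fin h', Zb ^ A :=
              Finset.prod_le_prod (fun k _ => norm_nonneg _) h3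
          _ = Zb ^ (A * h') := by
              rw [Finset.prod_const, Finset.card_univ, Fintype.card_fin, ← pow_mul]
      calc _ ≤ ∏ _g : Fin G, Zb ^ (A * h') :=
            Finset.prod_le_prod (fun g _ => norm_nonneg _) h2
        _ = Zb ^ (A * h' * G) := by
            rw [Finset.prod_const, Finset.card_univ, Fintype.card_fin, ← pow_mul]
    have hd : ‖(∑ g, ∑ j, (((x g).2 j : ℕ) : ℂ) * Al g j) -
        ∑ g, ∑ j, (((x g).2 j : ℕ) : ℂ) * Be g j‖ ≤ G * (m' * (W * δ)) := by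
      have h2 : (∑ g, ∑ j, (((x g).2 j : ℕ) : ℂ) * Al g j) -
          ∑ g, ∑ j, (((x g).2 j : ℕ) : ℂ) * Be g j =
          ∑ g, ∑ j, (((x g).2 j : ℕ) : ℂ) * (Al g j - Be g j) := by
        rw [← Finset.sum_sub_distrib]
        refine Finset.sum_congr rfl fun g _ => ?_
        rw [← Finset.sum_sub_distrib]
        exact Finset.sum_congr rfl fun j _ => by ring
      rw [h2]
      exact StV_dsum x (fun g j => Al g j - Be g j) δ hAB
    have ha := StV_dsum x Al La hA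
    have he := StV_exp_sub _ _ (hd.trans hδ)
    have he2 : ‖Complex.exp (∑ g, ∑ j, (((x g).2 j : ℕ) : ℂ) * Al g j) -
        Complex.exp (∑ g, ∑ j, (((x g).2 j : ℕ) : ℂ) * Be g j)‖ ≤
        Real.exp (G * (m' * (W * La))) * (2 * (G * (m' * (W * δ)))) := by
      refine he.trans (mul_le_mul (Real.exp_le_exp.mpr ha) (by linarith) (by positivity)
        (Real.exp_pos _).le)
    have hZ0 : 0 ≤ Zb ^ (A * h' * G) := by positivity
    exact mul_le_mul (hp x) (mul_le_mul hz2 he2 (norm_nonneg _) hZ0) (by positivity) hP0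
  have h3 := Finset.sum_le_card_nsmul _ _ _ hterm
  refine h3.trans (le_of_eq ?_)
  rw [nsmul_eq_mul]
  congr 1
  simp [Fintype.card_prod, Fintype.card_pi]

/-- the remainder term is tiny -/
theorem StV_num {G h' m' q e r M1 : ℕ} (S A W c2 R0 La δ ε P : ℝ) (A' : ℕ)
    (he : (A' : ℝ) = A) (hA1 : 1 ≤ A) (hAW : A ≤ W) (hW : W = S ^ q) (hS : 1 ≤ S) (hR0 : 1 ≤ R0)
    (hh : h' ≤ r) (hm : m' ≤ M1) (hq1 : 0 ≤ La) (hδ0 : 0 ≤ δ) (hε : 0 ≤ ε) (hP0 : 0 ≤ P)
    (hP : P ≤ Real.exp (S ^ (q + 1)))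
    (hLa : G * (m' * (W * La)) ≤ c2 * S ^ (q + 1))
    (hδ : G * (m' * (W * δ)) ≤ c2 * S ^ (q + 1) * ε) :
    (A ^ h' * W ^ m') ^ G *
      (P * ((R0 * S) ^ (A' * h' * G) * (Real.exp (G * (m' * (W * La))) *
        (2 * (G * (m' * (W * δ))))))) ≤
    Real.exp (((q * (r + M1) * G : ℕ) + 2 + R0 * (r * G : ℕ) + 2 * c2) * S ^ (q + 1)) * ε := by
  have hS0 : 0 < S := by linarith
  have hB1 : 1 ≤ S ^ (q + 1) := one_le_pow₀ hS
  have hSB : S ≤ S ^ (q + 1) := le_self_pow₀ hS (by omega)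
  have hW1 : 1 ≤ W := hA1.trans hAW
  have hxe : ∀ x : ℝ, x ≤ Real.exp x := fun x => by
    have := Real.add_one_le_exp x
    linarith
  -- 1
  have k1 : (A ^ h' * W ^ m') ^ G ≤ Real.exp ((q * (r + M1) * G : ℕ) * S ^ (q + 1)) := by
    calc (A ^ h' * W ^ m') ^ G ≤ (W ^ r * W ^ M1) ^ G := by
          refine pow_le_pow_left₀ (by positivity) ?_ _
          refine mul_le_mul ?_ (pow_le_pow_right₀ hW1 hm) (by positivity) (by positivity)
          exact (pow_le_pow_left₀ (by linarith) hAW _).trans (pow_le_pow_right₀ hW1 hh)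
      _ = S ^ (q * (r + M1) * G) := by
          rw [← pow_add, hW, ← pow_mul, ← pow_mul]
          ring_nf
      _ ≤ (Real.exp S) ^ (q * (r + M1) * G) := pow_le_pow_left₀ hS0.le (hxe S) _
      _ = Real.exp ((q * (r + M1) * G : ℕ) * S) := (Real.exp_nat_mul _ _).symm
      _ ≤ _ := Real.exp_le_exp.mpr (mul_le_mul_of_nonneg_left hSB (Nat.cast_nonneg _))
  -- 2
  have k2 : (R0 * S) ^ (A' * h' * G) ≤ Real.exp (R0 * (r * G : ℕ) * S ^ (q + 1)) := by
    calc (R0 * S) ^ (A' * h' * G) ≤ (Real.exp (R0 * S)) ^ (A' * h' * G) :=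
          pow_le_pow_left₀ (by positivity) (hxe _) _
      _ = Real.exp ((A' * h' * G : ℕ) * (R0 * S)) := (Real.exp_nat_mul _ _).symm
      _ ≤ _ := by
          apply Real.exp_le_exp.mpr
          push_cast
          rw [he]
          have h3 : (h' : ℝ) ≤ r := by exact_mod_cast hh
          have h4 : A * S ≤ S ^ (q + 1) := by
            rw [pow_succ, ← hW]
            exact mul_le_mul_of_nonneg_right hAW hS0.le
          calc A * h' * G * (R0 * S) = R0 * (h' * G) * (A * S) := by ring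
            _ ≤ R0 * (r * G) * S ^ (q + 1) := by
                refine mul_le_mul ?_ h4 (by positivity) (by positivity)
                refine mul_le_mul_of_nonneg_left ?_ (by linarith)
                exact mul_le_mul_of_nonneg_right h3 (Nat.cast_nonneg _)
  -- 3
  have k3 : Real.exp (G * (m' * (W * La))) ≤ Real.exp (c2 * S ^ (q + 1)) :=
    Real.exp_le_exp.mpr hLa
  have k4 : 2 * (G * (m' * (W * δ))) ≤
      Real.exp (S ^ (q + 1)) * Real.exp (c2 * S ^ (q + 1)) * ε := by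
    have h2 : (2 : ℝ) ≤ Real.exp (S ^ (q + 1)) := by
      have := Real.add_one_le_exp (S ^ (q + 1))
      linarith
    have h3 : c2 * S ^ (q + 1) ≤ Real.exp (c2 * S ^ (q + 1)) := hxe _
    calc 2 * (G * (m' * (W * δ))) ≤ 2 * (c2 * S ^ (q + 1) * ε) := by linarith
      _ ≤ 2 * (Real.exp (c2 * S ^ (q + 1)) * ε) := by
          have := mul_le_mul_of_nonneg_right h3 hε
          linarith
      _ ≤ Real.exp (S ^ (q + 1)) * (Real.exp (c2 * S ^ (q + 1)) * ε) :=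
          mul_le_mul_of_nonneg_right h2 (by positivity)
      _ = _ := by ring
  have hG0 : 0 ≤ G * (m' * (W * δ)) := by positivity
  calc _ ≤ Real.exp ((q * (r + M1) * G : ℕ) * S ^ (q + 1)) *
        (Real.exp (S ^ (q + 1)) * (Real.exp (R0 * (r * G : ℕ) * S ^ (q + 1)) *
          (Real.exp (c2 * S ^ (q + 1)) *
            (Real.exp (S ^ (q + 1)) * Real.exp (c2 * S ^ (q + 1)) * ε)))) := by
        refine mul_le_mul k1 ?_ (by positivity) (by positivity)
        refine mul_le_mul hP ?_ (by positivity) (by positivity)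
        refine mul_le_mul k2 ?_ (by positivity) (by positivity)
        exact mul_le_mul k3 k4 (by positivity) (by positivity)
    _ = _ := by
        have h5 : ((q * (r + M1) * G : ℕ) + 2 + R0 * (r * G : ℕ) + 2 * c2) * S ^ (q + 1) =
            (q * (r + M1) * G : ℕ) * S ^ (q + 1) + (S ^ (q + 1) + (R0 * (r * G : ℕ) * S ^ (q + 1) +
              (c2 * S ^ (q + 1) + (S ^ (q + 1) + c2 * S ^ (q + 1))))) := by ring
        rw [h5, Real.exp_add, Real.exp_add, Real.exp_add, Real.exp_add, Real.exp_add]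
        ring

/-- the last step -/
theorem StV_fin {q τ : ℕ} (S T c3 B X TQ v : ℝ) (hT : 8 ≤ T) (hTS : T ≤ S)
    (hc3 : 0 ≤ c3) (hcT : c3 + 1 ≤ T) (hB : B = S ^ (q + 1))
    (hX : X = S ^ ((q + 1) * (τ + 1) + 2)) (hTQ : TQ = X * S * T)
    (hv : v ≤ Real.exp (-(X / 4)) + Real.exp (c3 * B) * Real.exp (-TQ)) :
    v ≤ Real.exp (-(X / 8)) ∧ c3 * B ≤ TQ := by
  have hS1 : 1 ≤ S := by linarith
  have hX8 : 8 ≤ X := by
    rw [hX]
    exact (hT.trans hTS).trans (le_self_pow₀ hS1 (by omega))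
  have hBX : B ≤ X := by
    rw [hB, hX]
    refine pow_le_pow_right₀ hS1 ?_
    nlinarith [Nat.zero_le (q * τ), Nat.zero_le τ]
  have h1 : c3 * B + X ≤ TQ := by
    have h2 : (c3 + 1) * X ≤ TQ := by
      rw [hTQ]
      calc (c3 + 1) * X ≤ T * X := mul_le_mul_of_nonneg_right hcT (by linarith)
        _ = X * 1 * T := by ring
        _ ≤ X * S * T := by
            refine mul_le_mul_of_nonneg_right ?_ (by linarith)
            exact mul_le_mul_of_nonneg_left hS1 (by linarith)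
    have h3 : c3 * B ≤ c3 * X := mul_le_mul_of_nonneg_left hBX hc3
    linarith
  refine ⟨?_, by linarith⟩
  have h4 : Real.exp (c3 * B) * Real.exp (-TQ) ≤ Real.exp (-X) := by
    rw [← Real.exp_add]
    exact Real.exp_le_exp.mpr (by linarith)
  have he : (2 : ℝ) ≤ Real.exp 1 := by
    have := Real.add_one_le_exp (1 : ℝ)
    linarith
  have h5 : Real.exp (-(X / 4)) ≤ Real.exp (-(X / 8)) * Real.exp (-1) := by
    rw [← Real.exp_add]
    exact Real.exp_le_exp.mpr (by linarith)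
  have h6 : Real.exp (-X) ≤ Real.exp (-(X / 8)) * Real.exp (-1) := by
    rw [← Real.exp_add]
    exact Real.exp_le_exp.mpr (by linarith)
  have h7 : Real.exp (-1) * 2 ≤ 1 := by
    rw [Real.exp_neg]
    rw [inv_mul_le_iff₀ (Real.exp_pos _)]
    linarith
  have h8 : 0 < Real.exp (-(X / 8)) := Real.exp_pos _
  nlinarith

theorem pr_StV (h1 : S_PsiU) (h2 : S_Valr) : S_StV := by
  intro r m s e τ a q he hr hse hq
  refine ⟨(a + 1) * ((q + 1) * (τ + 1) + 3) + 1, ?_⟩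
  intro φ N w
  -- constants
  obtain ⟨Φ0, hΦ0, hφ⟩ : ∃ Φ0 : ℝ, 1 ≤ Φ0 ∧ ∀ j k, ‖φ j k‖ ≤ Φ0 := by
    refine ⟨1 + ∑ j, ∑ k, ‖φ j k‖, ?_, fun j k => ?_⟩
    · have : 0 ≤ ∑ j, ∑ k, ‖φ j k‖ :=
        Finset.sum_nonneg fun j _ => Finset.sum_nonneg fun k _ => norm_nonneg _
      linarith
    · have h3 : ‖φ j k‖ ≤ ∑ k, ‖φ j k‖ :=
        Finset.single_le_sum (f := fun k => ‖φ j k‖) (fun k _ => norm_nonneg _)
          (Finset.mem_univ k)
      have h4 : ∑ k, ‖φ j k‖ ≤ ∑ j, ∑ k, ‖φ j k‖ :=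
        Finset.single_le_sum (f := fun j => ∑ k, ‖φ j k‖)
          (fun j _ => Finset.sum_nonneg fun k _ => norm_nonneg _) (Finset.mem_univ j)
      linarith
  obtain ⟨W0, hW0, hw⟩ : ∃ W0 : ℝ, 1 ≤ W0 ∧ ∀ i k, ‖w i k‖ ≤ W0 := by
    refine ⟨1 + ∑ j, ∑ k, ‖w j k‖, ?_, fun j k => ?_⟩
    · have : 0 ≤ ∑ j, ∑ k, ‖w j k‖ :=
        Finset.sum_nonneg fun j _ => Finset.sum_nonneg fun k _ => norm_nonneg _
      linarith
    · have h3 : ‖w j k‖ ≤ ∑ k, ‖w j k‖ :=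
        Finset.single_le_sum (f := fun k => ‖w j k‖) (fun k _ => norm_nonneg _)
          (Finset.mem_univ k)
      have h4 : ∑ k, ‖w j k‖ ≤ ∑ j, ∑ k, ‖w j k‖ :=
        Finset.single_le_sum (f := fun j => ∑ k, ‖w j k‖)
          (fun j _ => Finset.sum_nonneg fun k _ => norm_nonneg _) (Finset.mem_univ j)
      linarith
  set P2 : ℝ := 2 ^ ((s * r + 1) + r) with hP2
  have hP21 : 1 ≤ P2 := one_le_pow₀ (by norm_num)
  set R0 : ℝ := (N + 1) * (P2 * ((N + 1) * W0)) with hR0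
  have hN0 : (0 : ℝ) ≤ N := Nat.cast_nonneg _
  have hR01 : 1 ≤ R0 := by
    rw [hR0]
    have h3 : (1 : ℝ) ≤ N + 1 := by linarith
    exact one_le_mul_of_one_le_of_one_le h3
      (one_le_mul_of_one_le_of_one_le hP21 (one_le_mul_of_one_le_of_one_le h3 hW0))
  set Φ : ℝ := r * (Φ0 * 2 ^ r) with hΦ
  have hr1 : (1 : ℝ) ≤ r := by exact_mod_cast hr
  have hΦ1 : 1 ≤ Φ := by
    rw [hΦ]
    exact one_le_mul_of_one_le_of_one_le hr1
      (one_le_mul_of_one_le_of_one_le hΦ0 (one_le_pow₀ (by norm_num)))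
  have hPsi : ∀ h : ℕ, h < r → ∃ T₀ : ℕ, ∀ T : ℕ, T₀ ≤ T →
      ∀ φ : Fin (s * (h + 1) + 1) → Fin (h + 1) → ℂ, (∀ j k, ‖φ j k‖ ≤ Φ) →
        ∃ p : (Fin (2 * τ + 4) → Ixr (h + 1) (s * (h + 1) + 1) (T ^ (q * e)) (T ^ q)) → ℤ,
          p ≠ 0 ∧ (∀ x, |p x| ≤ (2 : ℤ) ^ (T ^ (q + 1))) ∧
          ∀ z : Fin (2 * τ + 4) → Fin (h + 1) → ℂ, (∀ g k, ‖z g k‖ ≤ R0 * T) →
            ‖∑ x, (p x : ℂ) * ∏ g, fr φ (x g) (z g)‖ ≤
              Real.exp (-((T : ℝ) ^ ((q + 1) * (τ + 1) + 2) / 4)) := by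
    intro h hh
    refine h1 (h + 1) (s * (h + 1) + 1) e τ q he (by omega) ?_ ?_ Φ R0 hΦ1 hR01
    · rw [← hse]
      ring_nf
      omega
    · refine le_trans ?_ hq
      exact Nat.mul_le_mul_right _ (by omega)
  choose! T0 hT0 using hPsi
  set G : ℕ := 2 * τ + 4 with hG
  set M1 : ℕ := s * r + 1 with hM1
  set c2 : ℝ := G * (M1 * (r * Φ0 * R0)) with hc2
  set c3 : ℝ := (q * (r + M1) * G : ℕ) + 2 + R0 * (r * G : ℕ) + 2 * c2 with hc3
  have hc20 : 0 ≤ c2 := by positivity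
  have hc30 : 0 ≤ c3 := by positivity
  obtain ⟨n3, hn3⟩ := exists_nat_ge (c3 + 1)
  refine ⟨max ((Finset.range r).sup T0) (max n3 8), ?_⟩
  intro T hT h N' hh K c t J hN
  have hT1 : (Finset.range r).sup T0 ≤ T := (le_max_left _ _).trans hT
  have hT2 : n3 ≤ T := (le_max_left _ _).trans ((le_max_right _ _).trans hT)
  have hT8 : 8 ≤ T := (le_max_right _ _).trans ((le_max_right _ _).trans hT)
  have hT0h : T0 h ≤ T := (Finset.le_sup (f := T0) (Finset.mem_range.mpr hh)).trans hT1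
  have hTS : T ≤ T ^ (a + 1) := Nat.le_self_pow (by omega) T
  obtain ⟨⟨hc, hcK⟩, hli, htb, hnear⟩ := hN
  -- the restricted forms
  set ph : Fin (s * (h + 1) + 1) → Fin (h + 1) → ℂ := fun j l => ∑ k, φ (J j) k * c k l with hph
  have hphb : ∀ j l, ‖ph j l‖ ≤ Φ := by
    intro j l
    refine (norm_sum_le _ _).trans ?_
    have h3 : ∀ k ∈ (Finset.univ : Finset (Fin r)), ‖φ (J j) k * c k l‖ ≤ Φ0 * 2 ^ r := by
      intro k _
      rw [norm_mul]
      refine mul_le_mul (hφ _ _) ?_ (norm_nonneg _) (by linarith)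
      exact (hc k l).trans (pow_le_pow_right₀ (by norm_num) (Nat.sub_le _ _))
    have h4 := Finset.sum_le_card_nsmul _ _ _ h3
    simpa [nsmul_eq_mul] using h4
  obtain ⟨p, hp0, hpb, hpz⟩ := hT0 h hh (T ^ (a + 1)) (hT0h.trans hTS) ph hphb
  refine ⟨p, hp0, hpb, fun sg hsg => ?_⟩
  have hN'N : N' ≤ N := by
    have h3 := hli.fintype_card_le_finrank
    simpa using h3
  have hN'Nr : (N' : ℝ) ≤ N := by exact_mod_cast hN'N
  -- real versions
  have hTr : (8 : ℝ) ≤ T := by exact_mod_cast hT8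
  set S : ℝ := (T : ℝ) ^ (a + 1) with hS
  have hS' : ((T ^ (a + 1) : ℕ) : ℝ) = S := by push_cast; rfl
  have hTSr : (T : ℝ) ≤ S := le_self_pow₀ (by linarith) (by omega)
  have hS1 : 1 ≤ S := by linarith
  have hsgb : ∀ g i, (sg g i : ℝ) ≤ P2 * T := by
    intro g i
    have h3 : (sg g i : ℝ) ≤ ((2 ^ ((s * (h + 1) + 1) + (h + 1)) * T : ℕ) : ℝ) := by
      exact_mod_cast hsg g i
    refine h3.trans ?_
    push_cast
    refine mul_le_mul_of_nonneg_right ?_ (by linarith)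
    refine pow_le_pow_right₀ (by norm_num) ?_
    have h4 : s * (h + 1) ≤ s * r := Nat.mul_le_mul_left _ (by omega)
    omega
  have hwt : ∀ i k, ‖wt w (t i) k‖ ≤ N * ((T : ℝ) ^ a * W0) := by
    intro i k
    refine StV_norm_wt w (t i) W0 _ hw (fun j => ?_) (by positivity) k
    have h3 := htb i j
    have h4 : (|(t i j)| : ℝ) ≤ ((T ^ a : ℕ) : ℝ) := by exact_mod_cast h3
    simpa using h4
  -- names
  set u : Fin N' → Fin (h + 1) → ℂ := fun j l => wt w (t j) (K l) with hu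
  set a' : Fin N' → Fin (s * (h + 1) + 1) → ℂ :=
    fun j l => ∑ k, φ (J l) k * wt w (t j) k with ha'
  set z : Fin G → Fin (h + 1) → ℂ := fun g l => ∑ i, (sg g i : ℂ) * u i l with hz
  set Al : Fin G → Fin (s * (h + 1) + 1) → ℂ := fun g j => ∑ i, (sg g i : ℂ) * a' i j with hAl
  set Be : Fin G → Fin (s * (h + 1) + 1) → ℂ := fun g j => ∑ l, ph j l * z g l with hBe
  set ε : ℝ := Real.exp (-((T : ℝ) ^ ((a + 1) * ((q + 1) * (τ + 1) + 3) + 1))) with hε
  have hε0 : 0 < ε := Real.exp_pos _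
  -- a sum over `i` with coefficients `sg`
  have hsum : ∀ (g : Fin G) (f : Fin N' → ℂ) (L : ℝ), 0 ≤ L → (∀ i, ‖f i‖ ≤ L) →
      ‖∑ i, (sg g i : ℂ) * f i‖ ≤ N * (P2 * T * L) := by
    intro g f L hL hf
    refine (norm_sum_le _ _).trans ?_
    have h3 : ∀ i ∈ (Finset.univ : Finset (Fin N')), ‖(sg g i : ℂ) * f i‖ ≤ P2 * T * L := by
      intro i _
      rw [norm_mul, Complex.norm_natCast]
      exact mul_le_mul (hsgb g i) (hf i) (norm_nonneg _) (by positivity)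
    have h4 := Finset.sum_le_card_nsmul _ _ _ h3
    rw [nsmul_eq_mul, Finset.card_univ, Fintype.card_fin] at h4
    exact h4.trans (mul_le_mul_of_nonneg_right hN'Nr (by positivity))
  have hNN : (N : ℝ) * (P2 * T * (N * ((T : ℝ) ^ a * W0))) ≤ R0 * S := by
    have h3 : R0 * S = (N + 1) * (N + 1) * (P2 * W0 * (T * (T : ℝ) ^ a)) := by
      rw [hR0, hS, pow_succ]; ring
    have h4 : (N : ℝ) * (P2 * T * (N * ((T : ℝ) ^ a * W0))) =
        N * N * (P2 * W0 * (T * (T : ℝ) ^ a)) := by ring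
    rw [h3, h4]
    refine mul_le_mul_of_nonneg_right ?_ (by positivity)
    nlinarith
  have hzb : ∀ g l, ‖z g l‖ ≤ R0 * S := fun g l =>
    (hsum g (fun i => u i l) _ (by positivity) (fun i => hwt i (K l))).trans hNN
  have hab : ∀ i j, ‖a' i j‖ ≤ r * (Φ0 * (N * ((T : ℝ) ^ a * W0))) := by
    intro i j
    refine (norm_sum_le _ _).trans ?_
    have h3 : ∀ k ∈ (Finset.univ : Finset (Fin r)), ‖φ (J j) k * wt w (t i) k‖ ≤
        Φ0 * (N * ((T : ℝ) ^ a * W0)) := by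
      intro k _
      rw [norm_mul]
      exact mul_le_mul (hφ _ _) (hwt i k) (norm_nonneg _) (by linarith)
    have h4 := Finset.sum_le_card_nsmul _ _ _ h3
    simpa [nsmul_eq_mul] using h4
  have hAlb : ∀ g j, ‖Al g j‖ ≤ r * Φ0 * R0 * S := by
    intro g j
    refine (hsum g (fun i => a' i j) _ (by positivity) (fun i => hab i j)).trans ?_
    calc (N : ℝ) * (P2 * T * (r * (Φ0 * (N * ((T : ℝ) ^ a * W0))))) =
          r * Φ0 * (N * (P2 * T * (N * ((T : ℝ) ^ a * W0)))) := by ring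
      _ ≤ r * Φ0 * (R0 * S) := mul_le_mul_of_nonneg_left hNN (by positivity)
      _ = _ := by ring
  have hdiff : ∀ g j, ‖Al g j - Be g j‖ ≤ r * Φ0 * R0 * S * ε := by
    intro g j
    have h3 : Al g j - Be g j = ∑ i, (sg g i : ℂ) *
        (∑ k, φ (J j) k * (wt w (t i) k - ∑ l, c k l * u i l)) := by
      have h4 : Be g j = ∑ i, (sg g i : ℂ) * ∑ k, φ (J j) k * ∑ l, c k l * u i l := by
        calc Be g j = ∑ l, ∑ k, ∑ i, (sg g i : ℂ) * (φ (J j) k * (c k l * u i l)) := by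
              refine Finset.sum_congr rfl fun l _ => ?_
              rw [hph, hz]
              simp only
              rw [Finset.sum_mul_sum]
              exact Finset.sum_congr rfl fun k _ => Finset.sum_congr rfl fun i _ => by ring
          _ = ∑ l, ∑ i, ∑ k, (sg g i : ℂ) * (φ (J j) k * (c k l * u i l)) :=
              Finset.sum_congr rfl fun l _ => Finset.sum_comm
          _ = ∑ i, ∑ l, ∑ k, (sg g i : ℂ) * (φ (J j) k * (c k l * u i l)) := Finset.sum_comm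
          _ = ∑ i, ∑ k, ∑ l, (sg g i : ℂ) * (φ (J j) k * (c k l * u i l)) :=
              Finset.sum_congr rfl fun i _ => Finset.sum_comm
          _ = _ := by simp only [Finset.mul_sum]
      rw [h4, hAl, ← Finset.sum_sub_distrib]
      refine Finset.sum_congr rfl fun i _ => ?_
      rw [← mul_sub]
      congr 1
      rw [ha', ← Finset.sum_sub_distrib]
      exact Finset.sum_congr rfl fun k _ => by ring
    rw [h3]
    have h5 : ∀ i, ‖∑ k, φ (J j) k * (wt w (t i) k - ∑ l, c k l * u i l)‖ ≤ r * (Φ0 * ε) := by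
      intro i
      refine (norm_sum_le _ _).trans ?_
      have h6 : ∀ k ∈ (Finset.univ : Finset (Fin r)),
          ‖φ (J j) k * (wt w (t i) k - ∑ l, c k l * u i l)‖ ≤ Φ0 * ε := by
        intro k _
        rw [norm_mul]
        exact mul_le_mul (hφ _ _) (hnear i k) (norm_nonneg _) (by linarith)
      have h7 := Finset.sum_le_card_nsmul _ _ _ h6
      simpa [nsmul_eq_mul] using h7
    refine (hsum g _ _ (by positivity) h5).trans ?_
    have h8 : (N : ℝ) * (P2 * T) ≤ R0 * S := by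
      have h9 : R0 * S = (N + 1) * ((P2 * (T * (T : ℝ) ^ a)) * ((N + 1) * W0)) := by
        rw [hR0, hS, pow_succ]; ring
      rw [h9]
      have h10 : P2 * T ≤ P2 * (T * (T : ℝ) ^ a) := by
        refine mul_le_mul_of_nonneg_left ?_ (by positivity)
        exact le_mul_of_one_le_right (by positivity) (one_le_pow₀ (by linarith))
      have h11 : (1 : ℝ) ≤ (N + 1) * W0 := one_le_mul_of_one_le_of_one_le (by linarith) hW0
      have h12 : P2 * T ≤ (P2 * (T * (T : ℝ) ^ a)) * ((N + 1) * W0) :=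
        h10.trans (le_mul_of_one_le_right (by positivity) h11)
      exact mul_le_mul (by linarith) h12 (by positivity) (by positivity)
    calc (N : ℝ) * (P2 * T * (r * (Φ0 * ε))) = r * Φ0 * (N * (P2 * T)) * ε := by ring
      _ ≤ r * Φ0 * (R0 * S) * ε := by
          refine mul_le_mul_of_nonneg_right ?_ hε0.le
          exact mul_le_mul_of_nonneg_left h8 (by positivity)
      _ = _ := by ring
  -- the two sums
  have hval : aeval (cdr u (fun j l => Complex.exp (a' j l))) (PSr p sg) =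
      ∑ x, (p x : ℂ) * ((∏ g, ∏ k, z g k ^ ((x g).1 k : ℕ)) *
        Complex.exp (∑ g, ∑ j, (((x g).2 j : ℕ) : ℂ) * Al g j)) := by
    rw [(h2 N' (h + 1) (s * (h + 1) + 1) _ _ _ p sg).1]
    refine Finset.sum_congr rfl fun x _ => ?_
    congr 1
    rw [Complex.exp_sum, ← Finset.prod_mul_distrib]
    exact Finset.prod_congr rfl fun g _ => StV_evr (x g) u a' (sg g)
  have hfun : ∑ x, (p x : ℂ) * ∏ g, fr ph (x g) (z g) =
      ∑ x, (p x : ℂ) * ((∏ g, ∏ k, z g k ^ ((x g).1 k : ℕ)) *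
        Complex.exp (∑ g, ∑ j, (((x g).2 j : ℕ) : ℂ) * Be g j)) := by
    refine Finset.sum_congr rfl fun x _ => ?_
    congr 1
    rw [Complex.exp_sum, ← Finset.prod_mul_distrib]
    exact Finset.prod_congr rfl fun g _ => StV_fr (x g) ph (z g)
  have hsmall := hpz z (fun g l => by rw [hS']; exact hzb g l)
  rw [hfun, hS'] at hsmall
  change ‖aeval (cdr u (fun j l => Complex.exp (a' j l))) (PSr p sg)‖ ≤ _
  rw [hval]
  -- numbers
  have hT3 : c3 + 1 ≤ T := hn3.trans (by exact_mod_cast hT2)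
  set X : ℝ := S ^ ((q + 1) * (τ + 1) + 2) with hX
  set TQ : ℝ := (T : ℝ) ^ ((a + 1) * ((q + 1) * (τ + 1) + 3) + 1) with hTQ
  have hTQ' : TQ = X * S * T := by
    rw [hTQ, hX, pow_succ, pow_mul, ← hS, ← pow_succ]
  have hcB : c3 * S ^ (q + 1) ≤ TQ :=
    (StV_fin (q := q) (τ := τ) S T c3 _ X TQ 0 hTr hTSr hc30 hT3 rfl hX hTQ' (by positivity)).2
  have hm'M : (s * (h + 1) + 1 : ℕ) ≤ M1 := by
    have h4 : s * (h + 1) ≤ s * r := Nat.mul_le_mul_left _ (by omega)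
    omega
  have hm'Mr : ((s * (h + 1) + 1 : ℕ) : ℝ) ≤ M1 := by exact_mod_cast hm'M
  have hWc : (((T ^ (a + 1)) ^ q : ℕ) : ℝ) = S ^ q := by push_cast; rfl
  have hAc : (((T ^ (a + 1)) ^ (q * e) : ℕ) : ℝ) = S ^ (q * e) := by push_cast; rfl
  have hbd : ∀ y : ℝ, 0 ≤ y → (G : ℝ) * (((s * (h + 1) + 1 : ℕ) : ℝ) * (S ^ q *
      (r * Φ0 * R0 * S * y))) ≤ c2 * S ^ (q + 1) * y := by
    intro y hy
    calc (G : ℝ) * (((s * (h + 1) + 1 : ℕ) : ℝ) * (S ^ q * (r * Φ0 * R0 * S * y))) ≤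
          (G : ℝ) * (M1 * (S ^ q * (r * Φ0 * R0 * S * y))) := by
          refine mul_le_mul_of_nonneg_left ?_ (by positivity)
          exact mul_le_mul_of_nonneg_right hm'Mr (by positivity)
      _ = _ := by rw [hc2, pow_succ]; ring
  have hδ1 := hbd ε hε0.le
  have hLa1 := hbd 1 zero_le_one
  simp only [mul_one] at hLa1
  have hce : c2 * S ^ (q + 1) * ε ≤ 1 := by
    have h3 : c2 * S ^ (q + 1) ≤ Real.exp TQ := by
      have h4 : c2 * S ^ (q + 1) ≤ c3 * S ^ (q + 1) := by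
        refine mul_le_mul_of_nonneg_right ?_ (by positivity)
        have : (0 : ℝ) ≤ (q * (r + M1) * G : ℕ) + 2 + R0 * (r * G : ℕ) := by positivity
        rw [hc3]
        linarith
      have h5 := Real.add_one_le_exp TQ
      linarith
    calc c2 * S ^ (q + 1) * ε ≤ Real.exp TQ * ε := mul_le_mul_of_nonneg_right h3 hε0.le
      _ = 1 := by rw [hε, ← Real.exp_add]; simp
  set P : ℝ := (2 : ℝ) ^ ((T ^ (a + 1)) ^ (q + 1)) with hP
  have hpP : ∀ x, ‖(p x : ℂ)‖ ≤ P := by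
    intro x
    rw [Complex.norm_intCast, hP]
    have h3 := hpb x
    have h4 : ((|p x| : ℤ) : ℝ) ≤ (((2 : ℤ) ^ ((T ^ (a + 1)) ^ (q + 1)) : ℤ) : ℝ) := by
      exact_mod_cast h3
    push_cast at h4
    exact h4
  have hPe : P ≤ Real.exp (S ^ (q + 1)) := by
    have h3 : (2 : ℝ) ≤ Real.exp 1 := by
      have := Real.add_one_le_exp (1 : ℝ)
      linarith
    calc P ≤ (Real.exp 1) ^ ((T ^ (a + 1)) ^ (q + 1)) := pow_le_pow_left₀ (by norm_num) h3 _
      _ = Real.exp (S ^ (q + 1)) := by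
          rw [← Real.exp_nat_mul]
          push_cast
          rw [mul_one]
  have habs := StV_abs p z Al Be P (R0 * S) (r * Φ0 * R0 * S) (r * Φ0 * R0 * S * ε) hpP hzb
    (one_le_mul_of_one_le_of_one_le hR01 hS1) hAlb hdiff (by positivity)
    (by rw [hWc]; exact hδ1.trans hce)
  have hAW : S ^ (q * e) ≤ S ^ q := by
    refine pow_le_pow_right₀ hS1 ?_
    calc q * e ≤ q * 1 := Nat.mul_le_mul_left _ he
      _ = q := mul_one q
  have hnum := StV_num (G := G) (h' := h + 1) (m' := s * (h + 1) + 1) (q := q) (e := e) (r := r)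
    (M1 := M1) S (S ^ (q * e)) (S ^ q) c2 R0 (r * Φ0 * R0 * S) (r * Φ0 * R0 * S * ε) ε P
    ((T ^ (a + 1)) ^ (q * e)) hAc (one_le_pow₀ hS1) hAW rfl hS1 hR01 (by omega) hm'M
    (by positivity) (by positivity) hε0.le (by positivity) hPe hLa1 hδ1
  rw [hAc, hWc] at habs
  have hfin : ‖∑ x, (p x : ℂ) * ((∏ g, ∏ k, z g k ^ ((x g).1 k : ℕ)) *
      Complex.exp (∑ g, ∑ j, (((x g).2 j : ℕ) : ℂ) * Al g j))‖ ≤
      Real.exp (-(X / 4)) + Real.exp (c3 * S ^ (q + 1)) * Real.exp (-TQ) := by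
    refine habs.trans (add_le_add hsmall ?_)
    exact hnum
  exact (StV_fin (q := q) (τ := τ) S T c3 _ X TQ _ hTr hTSr hc30 hT3 rfl hX hTQ' hfin).1

end Pool.Agent.Work.MP_8da9ea_nt.SI
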