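import Pool.Agent.Work.MP_8da9ea_nt.SI.Stmts
import Pool.Agent.Work.MP_327059_nt.FR.I_TIr

/-!
# SI, StZ: tensor and zero estimate, the vanishing gives relations
-/

set_option autoImplicit false

namespace Pool.Agent.Work.MP_8da9ea_nt.SI

open MvPolynomial Pool.Agent.Work.MP_327059_nt.GL Pool.Agent.Work.MP_327059_nt.FR

theorem pr_StZ (h1 : S_Tensor) (h2 : S_ZEr) : S_StZ := by
  intro r s e τ a q he hq
  choose c hc using h2
  refine ⟨(Finset.range r).sup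
    (fun h => ((a + 1) * q + 1) * c (s * (h + 1) + 1) (h + 1)), ?_⟩
  intro T h N' hT hh u' y' p hy' hp hvan
  set A := (Finset.range r).sup
    (fun h => ((a + 1) * q + 1) * c (s * (h + 1) + 1) (h + 1)) with hA
  have hAh : ((a + 1) * q + 1) * c (s * (h + 1) + 1) (h + 1) ≤ A := by
    rw [hA]
    exact Finset.le_sup (f := fun h => ((a + 1) * q + 1) * c (s * (h + 1) + 1) (h + 1))
      (Finset.mem_range.2 hh)
  clear_value A
  have hTh : 1 ≤ T ^ (a + 1) := Nat.pos_of_ne_zero (by positivity)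
  have hpC : (fun x => (p x : ℂ)) ≠ 0 := by
    intro h0
    apply hp
    funext x
    have := congrFun h0 x
    simpa using this
  obtain ⟨ρ, hr0, hr⟩ := h1
    (Ixr (h + 1) (s * (h + 1) + 1) ((T ^ (a + 1)) ^ (q * e)) ((T ^ (a + 1)) ^ q))
    {sg : Fin N' → ℕ // ∀ i, sg i ≤ 2 ^ ((s * (h + 1) + 1) + (h + 1)) * T}
    (2 * τ + 4) (fun x sg => evr x (rpt u' y' sg.1)) (fun x => (p x : ℂ)) hpC
    (fun x => hvan (fun g => (x g).1) (fun g i => (x g).2 i))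
  have hAq : (T ^ (a + 1)) ^ (q * e) ≤ (T ^ (a + 1)) ^ q :=
    Nat.pow_le_pow_right hTh (by nlinarith)
  obtain ⟨Q, hQ0, hQd, hQz⟩ := TIr_noQ (B := (T ^ (a + 1)) ^ q) hAq le_rfl ρ hr0
    {v | ∃ sg : Fin N' → ℕ, (∀ i, sg i ≤ 2 ^ ((s * (h + 1) + 1) + (h + 1)) * T) ∧
      v = rpt u' y' sg} (by
      rintro v ⟨sg, hs, rfl⟩
      exact hr ⟨sg, hs⟩)
  have hB1 : 1 ≤ (T ^ (a + 1)) ^ q := Nat.pos_of_ne_zero (by positivity)
  have hbd : (2 * (T ^ (a + 1)) ^ q) ^ c (s * (h + 1) + 1) (h + 1) ≤ T ^ A := by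
    have e1 : 2 * (T ^ (a + 1)) ^ q ≤ T ^ ((a + 1) * q + 1) := by
      rw [pow_succ T ((a + 1) * q), ← pow_mul, mul_comm]
      exact Nat.mul_le_mul_left _ hT
    calc (2 * (T ^ (a + 1)) ^ q) ^ c (s * (h + 1) + 1) (h + 1)
        ≤ (T ^ ((a + 1) * q + 1)) ^ c (s * (h + 1) + 1) (h + 1) := Nat.pow_le_pow_left e1 _
      _ = T ^ (((a + 1) * q + 1) * c (s * (h + 1) + 1) (h + 1)) := by rw [← pow_mul]
      _ ≤ T ^ A := Nat.pow_le_pow_right (by omega) hAh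
  rcases hc (s * (h + 1) + 1) (h + 1) N' T ((T ^ (a + 1)) ^ q) u' y' Q hy' hQ0 hB1 hQd
    (fun sg hs => hQz _ ⟨sg, hs, rfl⟩) with ⟨W, hW0, hW, hWc⟩ | ⟨c', hc0, hcc⟩
  · refine Or.inl ⟨W, hW0, fun l => (hW l).trans ?_, hWc.trans ?_⟩
    · exact_mod_cast hbd
    · exact Nat.mul_le_mul_right _ hbd
  · exact Or.inr ⟨c', hc0, hcc.trans (Nat.mul_le_mul_right _ hbd)⟩

end Pool.Agent.Work.MP_8da9ea_nt.SI
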