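import Mathlib
import Pool.Agent.Work.MP_8da9ea_nt.SI.Stmts

/-!
# PROJECT SI, item Step: one step of the chain of subspaces
-/

set_option autoImplicit false

namespace Pool.Agent.Work.MP_8da9ea_nt.SI

open MvPolynomial Pool.Agent.Work.MP_327059_nt.GL Pool.Agent.Work.MP_327059_nt.FR

lemma Step_exp {T Q Q' : ℕ} (hT : 1 ≤ T) (hQ : Q' ≤ Q) :
    Real.exp (-((T : ℝ) ^ Q)) ≤ Real.exp (-((T : ℝ) ^ Q')) := by
  apply Real.exp_le_exp.2
  have : (T : ℝ) ^ Q' ≤ (T : ℝ) ^ Q := pow_le_pow_right₀ (by exact_mod_cast hT) hQ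
  linarith

lemma Step_near {r N h N' T Q Q' a : ℕ} (hT : 1 ≤ T) (hQ : Q' ≤ Q) {w : Fin N → Fin r → ℂ}
    {K : Fin h → Fin r} {c : Fin r → Fin h → ℂ} {t : Fin N' → Fin N → ℤ}
    (hn : IsNear T Q a w K c t) : IsNear T Q' a w K c t :=
  ⟨hn.1, hn.2.1, hn.2.2.1, fun j k => (hn.2.2.2 j k).trans (Step_exp hT hQ)⟩

lemma Step_small {r N h N' T Q B B' : ℕ} (hT : 1 ≤ T) (hB : B ≤ B') {w : Fin N → Fin r → ℂ}
    {K : Fin h → Fin r} {t : Fin N' → Fin N → ℤ} (hn : SmallF T Q B w K t) :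
    SmallF T Q B' w K t := by
  obtain ⟨χ, l0, h1, h2, h3⟩ := hn
  exact ⟨χ, l0, h1, h2, h3.trans (Nat.mul_le_mul_right _ (Nat.pow_le_pow_right hT hB))⟩

theorem pr_Step (hJ : S_SubJ) (hA : S_StA) (hZ : S_StZ) (hB : S_StB) (hC : S_StC) (hD : S_StD) :
    S_Step := by
  intro r m s e τ a Q' he hr hs hm
  obtain ⟨Q2, hD⟩ := hD r a Q'
  obtain ⟨QB, hQB, hB⟩ := hB r m s a Q2
  obtain ⟨QC, hC⟩ := hC r Q2
  obtain ⟨QA, q, hq, hA⟩ := hA r m s e τ a (max QB QC) he hr hs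
  obtain ⟨A, hZ⟩ := hZ r s e τ a q he hq
  obtain ⟨B, hB⟩ := hB A
  obtain ⟨κ, hD⟩ := hD (max B A)
  refine ⟨max QA (max QB Q2), κ, ?_⟩
  intro φ hφ hMn N w hTLe
  obtain ⟨b, T1, hJ⟩ := hJ r m s A φ hφ hMn hm
  obtain ⟨T2, hA⟩ := hA φ N w hTLe
  obtain ⟨T3, hB⟩ := hB φ b N w
  obtain ⟨T4, hC⟩ := hC N w
  obtain ⟨T5, hD⟩ := hD N w
  refine ⟨T1 + T2 + T3 + T4 + T5 + 2, ?_⟩
  intro T hT h N' hr' ⟨K, c, t, hn⟩
  have hT1 : 1 ≤ T := by omega
  have hnA : IsNear T QA a w K c t := Step_near hT1 (le_max_left _ _) hn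
  have hnB : IsNear T QB a w K c t :=
    Step_near hT1 ((le_max_left _ _).trans (le_max_right _ _)) hn
  have hn2 : IsNear T Q2 a w K c t :=
    Step_near hT1 ((le_max_right _ _).trans (le_max_right _ _)) hn
  have hN : N' ≤ N := by
    have := hn.2.1.fintype_card_le_finrank
    simpa using this
  obtain ⟨J, hJi, hJ⟩ := hJ T (by omega) h hr' K c hn.1
  obtain ⟨u', y', p, hu', hy', hy0, hp0, hv⟩ := hA T (by omega) h N' hr' K c t J hnA
  have hS : SmallF T Q2 (max B A) w K t := by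
    rcases hZ T h N' (by omega) hr' u' y' p hy0 hp0 hv with ⟨W, hW0, hWb, hcard⟩ | ⟨c', hc'0, hcard⟩
    · exact Step_small hT1 (le_max_left _ _) (hB T (by omega) h N' hr' K c t J hnB y'
        (fun j l => (hy' j l).trans (Step_exp hT1 (le_max_left _ _))) hy0 W hWb hcard
        (hJ W hW0 hWb))
    · exact Step_small hT1 (le_max_right _ _) (hC T (by omega) A h N' hr' hN K t u'
        (fun j l => (hu' j l).trans (Step_exp hT1 (le_max_right _ _))) c' hc'0 hcard)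
  exact hD T (by omega) h N' hr' K c t hn2 hS

end Pool.Agent.Work.MP_8da9ea_nt.SI
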