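import Pool.Agent.Work.MP_8da9ea_nt.SI.Stmts
import Pool.Agent.Work.MP_327059_nt.AA.Asm

/-! Item [8da9ea SI SubJ]. -/

set_option autoImplicit false

namespace Pool.Agent.Work.MP_8da9ea_nt.SI

open Pool.Agent.Work.MP_327059_nt

/-! ### Liouville for determinants -/

theorem SubJ_prod {M : ℕ} {ι : Type} (x : Fin M → ℂ) (H : ℝ) (f : ι → ℂ)
    (hf : ∀ i, AA.IsVal x 1 H (f i)) (s : Finset ι) :
    AA.IsVal x s.card (H ^ s.card) (∏ i ∈ s, f i) := by
  classical
  induction s using Finset.induction_on with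
  | empty =>
    have h := AA.IsVal.int (x := x) 1
    simpa using h
  | insert a s ha ih =>
    rw [Finset.prod_insert ha, Finset.card_insert_of_notMem ha]
    have h := AA.IsVal.mul (hf a) ih
    have e1 : 1 + s.card = s.card + 1 := by omega
    have e2 : H * H ^ s.card = H ^ (s.card + 1) := by ring
    rw [e1, e2] at h
    exact h

theorem SubJ_sum {M : ℕ} {ι : Type} (x : Fin M → ℂ) (D : ℕ) (H : ℝ) (f : ι → ℂ)
    (hf : ∀ i, AA.IsVal x D H (f i)) (s : Finset ι) :
    AA.IsVal x D (s.card * H) (∑ i ∈ s, f i) := by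
  classical
  induction s using Finset.induction_on with
  | empty =>
    have h := AA.IsVal.int (x := x) 0
    have h' := AA.IsVal.mono (D' := D) (H' := 0) (Nat.zero_le D) (by simp) h
    simpa using h'
  | insert a s ha ih =>
    rw [Finset.sum_insert ha, Finset.card_insert_of_notMem ha]
    have h := AA.IsVal.add (hf a) ih
    have e2 : H + s.card * H = ((s.card + 1 : ℕ) : ℝ) * H := by push_cast; ring
    rw [e2] at h
    exact h

theorem SubJ_det {M r : ℕ} (x : Fin M → ℂ) (H : ℝ) (A : Matrix (Fin r) (Fin r) ℂ)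
    (hA : ∀ i j, AA.IsVal x 1 H (A i j)) :
    AA.IsVal x r ((r.factorial : ℝ) * H ^ r) A.det := by
  classical
  rw [Matrix.det_apply']
  have h1 : ∀ σ : Equiv.Perm (Fin r), AA.IsVal x r (H ^ r)
      (((Equiv.Perm.sign σ : ℤ) : ℂ) * ∏ i, A (σ i) i) := by
    intro σ
    have h2 := SubJ_prod x H (fun i => A (σ i) i) (fun i => hA (σ i) i) Finset.univ
    rw [Finset.card_univ, Fintype.card_fin] at h2
    have h3 := AA.IsVal.mul (AA.IsVal.int (x := x) (Equiv.Perm.sign σ : ℤ)) h2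
    refine AA.IsVal.mono (by omega) ?_ h3
    have h4 : |(((Equiv.Perm.sign σ : ℤˣ) : ℤ) : ℝ)| = 1 := by
      rcases Int.units_eq_one_or (Equiv.Perm.sign σ) with h | h <;> rw [h] <;> simp
    rw [h4, one_mul]
  have h5 := SubJ_sum x r (H ^ r) _ h1 Finset.univ
  rw [Finset.card_univ, Fintype.card_perm, Fintype.card_fin] at h5
  exact h5

theorem SubJ_lin {m M : ℕ} (b : Fin M → ℂ) (g : Fin m → Fin M) (w : Fin m → ℤ)
    (s : Finset (Fin m)) :
    AA.IsVal b 1 (∑ j ∈ s, |(w j : ℝ)|) (∑ j ∈ s, (w j : ℂ) * b (g j)) := by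
  classical
  induction s using Finset.induction_on with
  | empty =>
    have h := AA.IsVal.int (x := b) 0
    have h' := AA.IsVal.mono (D' := 1) (H' := 0) (Nat.zero_le 1) (by simp) h
    simpa using h'
  | insert a s ha ih =>
    rw [Finset.sum_insert ha, Finset.sum_insert ha]
    refine AA.IsVal.add ?_ ih
    have h := AA.IsVal.mul (AA.IsVal.int (x := b) (w a)) (AA.IsVal.var (x := b) (g a))
    simpa using h

/-- A matrix whose rows are unit vectors or integral combinations of the `φ_j`. -/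
def SubJ_Row {r m : ℕ} (φ : Fin m → Fin r → ℂ) (B : ℝ) (v : Fin r → ℂ) : Prop :=
  (∃ k, v = Pi.single k 1) ∨
    ∃ W : Fin m → ℤ, (∀ j, |(W j : ℝ)| ≤ B) ∧ v = fun k => ∑ j, (W j : ℂ) * φ j k

theorem SubJ_liou {r m : ℕ} (a : ℕ) (φ : Fin m → Fin r → ℂ)
    (hφ : ∀ j k, IsAlgebraic ℚ (φ j k)) :
    ∃ c T₀ : ℕ, 1 ≤ T₀ ∧ ∀ T : ℕ, T₀ ≤ T → ∀ A : Matrix (Fin r) (Fin r) ℂ,
      (∀ i, SubJ_Row φ ((T : ℝ) ^ a) (A i)) → A.det ≠ 0 → ((T : ℝ) ^ c)⁻¹ ≤ ‖A.det‖ := by
  classical
  obtain ⟨C, hC, hL⟩ := AA.pr_Liou AA.full_NL (m * r)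
    (fun q => φ (finProdFinEquiv.symm q).1 (finProdFinEquiv.symm q).2) (fun q => hφ _ _)
  set E : ℝ := C * (r + 1 + Real.log (r.factorial) + r * Real.log (m + 1)) with hE
  obtain ⟨c, hc⟩ := exists_nat_ge (C * (r * a) + 1)
  obtain ⟨T₁, hT₁⟩ := exists_nat_ge (Real.exp E)
  refine ⟨c, T₁ + 1, by omega, fun T hT A hA hdet => ?_⟩
  have hTE : Real.exp E ≤ (T : ℝ) := by
    have : ((T₁ + 1 : ℕ) : ℝ) ≤ T := by exact_mod_cast hT
    push_cast at this
    linarith
  have hT1 : (1 : ℝ) ≤ T := by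
    have : ((T₁ + 1 : ℕ) : ℝ) ≤ T := by exact_mod_cast hT
    push_cast at this
    have h0 : (0 : ℝ) ≤ T₁ := Nat.cast_nonneg _
    linarith
  have hT0 : (0 : ℝ) < T := by linarith
  have hm1 : (1 : ℝ) ≤ (m : ℝ) + 1 := by
    have : (0 : ℝ) ≤ m := Nat.cast_nonneg m
    linarith
  have hTa : (1 : ℝ) ≤ (T : ℝ) ^ a := one_le_pow₀ hT1
  have hH : (1 : ℝ) ≤ ((m : ℝ) + 1) * (T : ℝ) ^ a := by nlinarith
  have hent : ∀ i j, AA.IsVal (fun q => φ (finProdFinEquiv.symm q).1 (finProdFinEquiv.symm q).2)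
      1 (((m : ℝ) + 1) * (T : ℝ) ^ a) (A i j) := by
    intro i j
    rcases hA i with ⟨k, hk⟩ | ⟨W, hW, hk⟩
    · rw [hk]
      by_cases hjk : j = k
      · subst hjk
        rw [Pi.single_eq_same]
        have h := AA.IsVal.int
          (x := fun q : Fin (m * r) => φ (finProdFinEquiv.symm q).1 (finProdFinEquiv.symm q).2) 1
        have h' := AA.IsVal.mono (D' := 1) (H' := ((m : ℝ) + 1) * (T : ℝ) ^ a) (Nat.zero_le 1)
          (by simpa using hH) h
        simpa using h'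
      · rw [Pi.single_eq_of_ne hjk]
        have h := AA.IsVal.int
          (x := fun q : Fin (m * r) => φ (finProdFinEquiv.symm q).1 (finProdFinEquiv.symm q).2) 0
        have h' := AA.IsVal.mono (D' := 1) (H' := ((m : ℝ) + 1) * (T : ℝ) ^ a) (Nat.zero_le 1)
          (by simp only [Int.cast_zero, abs_zero]; linarith) h
        simpa using h'
    · rw [hk]
      have hval := SubJ_lin
        (fun q => φ (finProdFinEquiv.symm q).1 (finProdFinEquiv.symm q).2)
        (fun l : Fin m => finProdFinEquiv (l, j)) W Finset.univ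
      simp only [Equiv.symm_apply_apply] at hval
      refine AA.IsVal.mono le_rfl ?_ hval
      calc (∑ l, |(W l : ℝ)|) ≤ ∑ _l : Fin m, (T : ℝ) ^ a := Finset.sum_le_sum (fun l _ => hW l)
        _ = (m : ℝ) * (T : ℝ) ^ a := by simp
        _ ≤ ((m : ℝ) + 1) * (T : ℝ) ^ a := by nlinarith
  have hval := SubJ_det _ _ A hent
  have hfac : (1 : ℝ) ≤ (r.factorial : ℝ) := by exact_mod_cast Nat.one_le_iff_ne_zero.2 (Nat.factorial_ne_zero r)
  have hHr : (1 : ℝ) ≤ (((m : ℝ) + 1) * (T : ℝ) ^ a) ^ r := one_le_pow₀ hH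
  have h1 := hL r _ _ (one_le_mul_of_one_le_of_one_le hfac hHr) hval hdet
  have hlog : Real.log ((r.factorial : ℝ) * (((m : ℝ) + 1) * (T : ℝ) ^ a) ^ r)
      = Real.log (r.factorial) + r * (Real.log (m + 1) + a * Real.log T) := by
    rw [Real.log_mul (by positivity) (by positivity), Real.log_pow,
      Real.log_mul (by positivity) (by positivity), Real.log_pow]
  have hlogT : E ≤ Real.log T := by
    rw [Real.le_log_iff_exp_le hT0]; exact hTE
  have hlogT0 : 0 ≤ Real.log T := Real.log_nonneg hT1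
  have h2 : C * ((r : ℝ) + 1 + Real.log ((r.factorial : ℝ) * (((m : ℝ) + 1) * (T : ℝ) ^ a) ^ r))
      ≤ c * Real.log T := by
    rw [hlog]
    have h3 : C * ((r : ℝ) + 1 + (Real.log (r.factorial) + r * (Real.log (m + 1) +
        a * Real.log T))) = E + C * (r * a) * Real.log T := by
      rw [hE]; ring
    rw [h3]
    have h4 : (C * (r * a) + 1) * Real.log T ≤ c * Real.log T :=
      mul_le_mul_of_nonneg_right hc hlogT0
    linarith
  have h5 : Real.exp (C * ((r : ℝ) + 1 +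
      Real.log ((r.factorial : ℝ) * (((m : ℝ) + 1) * (T : ℝ) ^ a) ^ r))) ≤ (T : ℝ) ^ c := by
    calc _ ≤ Real.exp (c * Real.log T) := Real.exp_le_exp.2 h2
      _ = (T : ℝ) ^ c := by
        rw [← Real.log_pow, Real.exp_log (by positivity)]
  have h6 : 1 ≤ ‖A.det‖ * (T : ℝ) ^ c :=
    h1.trans (mul_le_mul_of_nonneg_left h5 (norm_nonneg _))
  rw [inv_le_iff_one_le_mul₀ (by positivity)]
  linarith

/-- A bounded square matrix with an almost annihilated vector has a small determinant. -/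
theorem SubJ_cramer {r : ℕ} (A : Matrix (Fin r) (Fin r) ℂ) (H ε Y : ℝ) (u : Fin r → ℂ)
    (hH : 1 ≤ H) (hA : ∀ i j, ‖A i j‖ ≤ H) (hu : ∀ i, ‖(A.mulVec u) i‖ ≤ ε) (k : Fin r)
    (hk : ‖u k‖ = Y) : ‖A.det‖ * Y ≤ r * ((r.factorial : ℝ) * H ^ r) * ε := by
  classical
  have h1 : A.adjugate.mulVec (A.mulVec u) = A.det • u := by
    rw [Matrix.mulVec_mulVec, Matrix.adjugate_mul, Matrix.smul_mulVec, Matrix.one_mulVec]
  have h2 : A.det * u k = ∑ i, A.adjugate k i * (A.mulVec u) i := by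
    have := congrFun h1 k
    rw [Pi.smul_apply, smul_eq_mul] at this
    rw [← this]
    rfl
  have h3 : ∀ i, ‖A.adjugate k i‖ ≤ (r.factorial : ℝ) * H ^ r := by
    intro i
    rw [Matrix.adjugate_apply]
    have h4 := Matrix.det_le (A := A.updateRow i (Pi.single k 1))
      (abv := IsAbsoluteValue.toAbsoluteValue (norm : ℂ → ℝ)) (x := H) (by
        intro p q
        change ‖(A.updateRow i (Pi.single k 1)) p q‖ ≤ H
        rw [Matrix.updateRow_apply]
        split_ifs with hp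
        · by_cases hq : q = k
          · subst hq
            rw [Pi.single_eq_same]
            simpa using hH
          · rw [Pi.single_eq_of_ne hq]
            simp only [norm_zero]
            linarith
        · exact hA p q)
    rw [Fintype.card_fin, nsmul_eq_mul] at h4
    exact h4
  have hε : 0 ≤ ε := (norm_nonneg _).trans (hu k)
  rw [← hk, ← norm_mul, h2]
  calc ‖∑ i, A.adjugate k i * (A.mulVec u) i‖
      ≤ ∑ i, ‖A.adjugate k i * (A.mulVec u) i‖ := norm_sum_le _ _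
    _ ≤ ∑ _i : Fin r, ((r.factorial : ℝ) * H ^ r) * ε := by
        refine Finset.sum_le_sum fun i _ => ?_
        rw [norm_mul]
        exact mul_le_mul (h3 i) (hu i) (norm_nonneg _) (by positivity)
    _ = r * ((r.factorial : ℝ) * H ^ r) * ε := by
        rw [Finset.sum_const, Finset.card_univ, Fintype.card_fin, nsmul_eq_mul]
        ring

/-- Linear algebra: many independent rows almost orthogonal to the chart give a nonsingular
matrix with small determinant. -/
theorem SubJ_lin2 {r h : ℕ} (K : Fin (h + 1) → Fin r) (c : Fin r → Fin (h + 1) → ℂ)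
    (hK : ∀ l l', c (K l) l' = if l = l' then 1 else 0) (S : Set (Fin r → ℂ)) (H δ : ℝ)
    (hH : 1 ≤ H) (hδ : 0 ≤ δ) (hSH : ∀ v ∈ S, ∀ k, ‖v k‖ ≤ H)
    (hS : ∀ v ∈ S, ∀ l, ‖∑ k, v k * c k l‖ ≤ δ)
    (hd : r ≤ Module.finrank ℂ (Submodule.span ℂ S) + h) :
    ∃ A : Matrix (Fin r) (Fin r) ℂ, (∀ i, (∃ k, A i = Pi.single k 1) ∨ A i ∈ S) ∧ A.det ≠ 0 ∧
      ‖A.det‖ ≤ r * ((r.factorial : ℝ) * H ^ r) * ((h + 1) * δ) := by
  classical
  obtain ⟨s, hsS, hsspan, hsli⟩ := exists_linearIndependent ℂ S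
  obtain ⟨t, ht, hst, hspan, htli⟩ := exists_linearIndepOn_id_extension (K := ℂ) (s := s) hsli
    (t := s ∪ Set.range (fun k : Fin r => (Pi.single k 1 : Fin r → ℂ))) Set.subset_union_left
  have htop : Submodule.span ℂ t = ⊤ := by
    rw [eq_top_iff]
    have h1 : Submodule.span ℂ (Set.range (fun k : Fin r => (Pi.single k 1 : Fin r → ℂ))) = ⊤ := by
      have := (Pi.basisFun ℂ (Fin r)).span_eq
      convert this using 3
      funext k
      simp
    rw [← h1, Submodule.span_le]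
    exact fun v hv => hspan (Or.inr hv)
  have htop' : ⊤ ≤ Submodule.span ℂ (Set.range ((↑) : t → (Fin r → ℂ))) := by
    rw [Subtype.range_coe_subtype, Set.ofPred_mem_eq, htop]
  let bas : Module.Basis t ℂ (Fin r → ℂ) := Module.Basis.mk htli htop'
  have : Finite t := htli.finite
  have : Fintype t := Fintype.ofFinite t
  have hcard : Fintype.card t = r := by
    have := Module.finrank_eq_card_basis bas
    rw [Module.finrank_fin_fun] at this
    exact this.symm
  let e : Fin r ≃ t := (Fintype.equivFinOfCardEq hcard).symm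
  let A : Matrix (Fin r) (Fin r) ℂ := fun i => (e i : Fin r → ℂ)
  have hAli : LinearIndependent ℂ A.row := by
    have : LinearIndependent ℂ (((↑) : t → (Fin r → ℂ)) ∘ e) := htli.comp e e.injective
    exact this
  have hdet : A.det ≠ 0 := by
    have h1 := Matrix.linearIndependent_rows_iff_isUnit.1 hAli
    rw [Matrix.isUnit_iff_isUnit_det] at h1
    exact h1.ne_zero
  have hrow : ∀ i, (∃ k, A i = Pi.single k 1) ∨ A i ∈ S := by
    intro i
    rcases ht (e i).2 with h1 | ⟨k, hk⟩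
    · exact Or.inr (hsS h1)
    · exact Or.inl ⟨k, hk.symm⟩
  -- the rows outside `s`
  let O : Type := {i : Fin r // ((e i : t) : Fin r → ℂ) ∉ s}
  have hsfin : s.Finite := Set.Finite.subset (Set.toFinite t) hst
  have : Fintype s := hsfin.fintype
  have hO : Fintype.card O + Fintype.card s = r := by
    have h1 : Fintype.card {i : Fin r // ((e i : t) : Fin r → ℂ) ∈ s} = Fintype.card s := by
      refine Fintype.card_congr ?_
      refine ⟨fun i => ⟨_, i.2⟩, fun v => ⟨e.symm ⟨v, hst v.2⟩, by simp⟩, fun i => ?_, fun v => ?_⟩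
      · apply Subtype.ext
        simp
      · simp
    have h2 := Fintype.card_subtype_compl (fun i : Fin r => ((e i : t) : Fin r → ℂ) ∈ s)
    have h3 : Fintype.card {i : Fin r // ((e i : t) : Fin r → ℂ) ∈ s} ≤ r := by
      have := Fintype.card_subtype_le (fun i : Fin r => ((e i : t) : Fin r → ℂ) ∈ s)
      simpa using this
    rw [Fintype.card_fin] at h2
    rw [← h1]
    change Fintype.card {i : Fin r // ¬ ((e i : t) : Fin r → ℂ) ∈ s} + _ = r
    omega
  have hsc : Fintype.card s = Module.finrank ℂ (Submodule.span ℂ S) := by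
    rw [← hsspan, finrank_span_set_eq_card hsli, Set.toFinset_card]
  have hOh : Fintype.card O < h + 1 := by omega
  let Cm : Matrix (Fin r) (Fin (h + 1)) ℂ := c
  let B : Matrix O (Fin (h + 1)) ℂ := fun i l => ∑ k, A i.1 k * Cm k l
  have hker : LinearMap.ker B.mulVecLin ≠ ⊥ := by
    apply LinearMap.ker_ne_bot_of_finrank_lt
    rw [Module.finrank_fintype_fun_eq_card, Module.finrank_fin_fun]
    exact hOh
  obtain ⟨y, hy, hy0⟩ := (Submodule.ne_bot_iff _).1 hker
  rw [LinearMap.mem_ker, Matrix.mulVecLin_apply] at hy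
  obtain ⟨l0, -, hl0⟩ := Finset.exists_max_image Finset.univ (fun l => ‖y l‖)
    ⟨0, Finset.mem_univ _⟩
  have hY : 0 < ‖y l0‖ := by
    by_contra hcon
    apply hy0
    funext l
    have h1 := hl0 l (Finset.mem_univ _)
    have h2 : ‖y l‖ ≤ 0 := by linarith
    simpa using norm_le_zero_iff.1 h2
  have hg : ∀ i, (A.mulVec (Cm.mulVec y)) i = ∑ l, (∑ k, A i k * c k l) * y l := by
    intro i
    rw [Matrix.mulVec_mulVec]
    rfl
  have hu : ∀ i, ‖(A.mulVec (Cm.mulVec y)) i‖ ≤ (h + 1) * δ * ‖y l0‖ := by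
    intro i
    by_cases hi : ((e i : t) : Fin r → ℂ) ∈ s
    · rw [hg i]
      calc ‖∑ l, (∑ k, A i k * c k l) * y l‖ ≤ ∑ l, ‖(∑ k, A i k * c k l) * y l‖ :=
            norm_sum_le _ _
        _ ≤ ∑ _l : Fin (h + 1), δ * ‖y l0‖ := by
            refine Finset.sum_le_sum fun l _ => ?_
            rw [norm_mul]
            exact mul_le_mul (hS _ (hsS hi) l) (hl0 l (Finset.mem_univ _)) (norm_nonneg _) hδ
        _ = (h + 1) * δ * ‖y l0‖ := by
            rw [Finset.sum_const, Finset.card_univ, Fintype.card_fin, nsmul_eq_mul]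
            push_cast
            ring
    · have h1 := congrFun hy (⟨i, hi⟩ : O)
      have h2 : (B.mulVec y) ⟨i, hi⟩ = ∑ l, (∑ k, A i k * c k l) * y l := rfl
      rw [hg i, ← h2, h1]
      simp only [Pi.zero_apply, norm_zero]
      positivity
  have hk : ‖(Cm.mulVec y) (K l0)‖ = ‖y l0‖ := by
    congr 1
    change ∑ l, c (K l0) l * y l = y l0
    simp [hK]
  have hAH : ∀ i j, ‖A i j‖ ≤ H := by
    intro i j
    rcases hrow i with ⟨k, hk⟩ | hi
    · rw [hk]
      by_cases hj : j = k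
      · subst hj
        rw [Pi.single_eq_same]
        simpa using hH
      · rw [Pi.single_eq_of_ne hj]
        simp only [norm_zero]
        linarith
    · exact hSH _ hi j
  have hfin := SubJ_cramer A H _ _ _ hH hAH hu (K l0) hk
  refine ⟨A, hrow, hdet, ?_⟩
  have h3 : ‖A.det‖ * ‖y l0‖ ≤ (r * ((r.factorial : ℝ) * H ^ r) * ((h + 1) * δ)) * ‖y l0‖ := by
    calc _ ≤ _ := hfin
      _ = _ := by ring
  exact le_of_mul_le_mul_right h3 hY

theorem SubJ_key {r m : ℕ} (a : ℕ) (φ : Fin m → Fin r → ℂ)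
    (hφ : ∀ j k, IsAlgebraic ℚ (φ j k)) :
    ∃ b T₀ : ℕ, 1 ≤ T₀ ∧ ∀ T : ℕ, T₀ ≤ T → ∀ h : ℕ, h < r →
      ∀ (K : Fin (h + 1) → Fin r) (c : Fin r → Fin (h + 1) → ℂ), Chart K c →
      ∀ S : Set (Fin r → ℂ),
        (∀ v ∈ S, ∃ W : Fin m → ℤ, (∀ j, |(W j : ℝ)| ≤ (T : ℝ) ^ a) ∧
          v = fun k => ∑ j, (W j : ℂ) * φ j k) →
        (∀ v ∈ S, ∀ l, ‖∑ k, v k * c k l‖ < ((T : ℝ) ^ b)⁻¹) →
        Module.finrank ℂ (Submodule.span ℂ S) + (h + 1) ≤ r := by
  classical
  obtain ⟨c0, T0, hT0, hL⟩ := SubJ_liou a φ hφ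
  set Φ : ℝ := 1 + ∑ j, ∑ k, ‖φ j k‖ with hΦ
  have hsum0 : ∀ j, 0 ≤ ∑ k, ‖φ j k‖ := fun j => Finset.sum_nonneg fun k _ => norm_nonneg _
  have hΦ1 : 1 ≤ Φ := by
    have : 0 ≤ ∑ j, ∑ k, ‖φ j k‖ := Finset.sum_nonneg fun j _ => hsum0 j
    linarith
  have hΦb : ∀ j k, ‖φ j k‖ ≤ Φ := by
    intro j k
    have h1 : ‖φ j k‖ ≤ ∑ k, ‖φ j k‖ :=
      Finset.single_le_sum (f := fun k => ‖φ j k‖) (fun k _ => norm_nonneg _) (Finset.mem_univ k)
    have h2 : (∑ k, ‖φ j k‖) ≤ ∑ j, ∑ k, ‖φ j k‖ :=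
      Finset.single_le_sum (f := fun j => ∑ k, ‖φ j k‖) (fun j _ => hsum0 j) (Finset.mem_univ j)
    linarith
  obtain ⟨T1, hT1⟩ := exists_nat_gt ((r : ℝ) * ((r.factorial : ℝ) * (((m : ℝ) + 1) * Φ) ^ r) * r)
  refine ⟨c0 + a * r + 1, T0 + T1, by omega, fun T hT h hh K c hc S hS hs => ?_⟩
  have hTr : (1 : ℝ) ≤ T := by
    have : ((1 : ℕ) : ℝ) ≤ T := by exact_mod_cast (by omega : 1 ≤ T)
    simpa using this
  have hT1r : ((T1 : ℕ) : ℝ) ≤ T := by exact_mod_cast (by omega : T1 ≤ T)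
  have hTpos : (0 : ℝ) < T := by linarith
  have hTa : (1 : ℝ) ≤ (T : ℝ) ^ a := one_le_pow₀ hTr
  have hm1 : (1 : ℝ) ≤ (m : ℝ) + 1 := by
    have : (0 : ℝ) ≤ m := Nat.cast_nonneg m
    linarith
  by_contra hcon
  have hd : r ≤ Module.finrank ℂ (Submodule.span ℂ S) + h := by omega
  have hH : (1 : ℝ) ≤ ((m : ℝ) + 1) * Φ * (T : ℝ) ^ a :=
    one_le_mul_of_one_le_of_one_le (one_le_mul_of_one_le_of_one_le hm1 hΦ1) hTa
  have hSH : ∀ v ∈ S, ∀ k, ‖v k‖ ≤ ((m : ℝ) + 1) * Φ * (T : ℝ) ^ a := by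
    intro v hv k
    obtain ⟨W, hW, rfl⟩ := hS v hv
    calc ‖∑ j, (W j : ℂ) * φ j k‖ ≤ ∑ j, ‖(W j : ℂ) * φ j k‖ := norm_sum_le _ _
      _ ≤ ∑ _j : Fin m, (T : ℝ) ^ a * Φ := by
          refine Finset.sum_le_sum fun j _ => ?_
          rw [norm_mul, Complex.norm_intCast]
          exact mul_le_mul (hW j) (hΦb j k) (norm_nonneg _) (by positivity)
      _ = m * ((T : ℝ) ^ a * Φ) := by
          rw [Finset.sum_const, Finset.card_univ, Fintype.card_fin, nsmul_eq_mul]
      _ ≤ ((m : ℝ) + 1) * Φ * (T : ℝ) ^ a := by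
          have : 0 ≤ (T : ℝ) ^ a * Φ := by positivity
          nlinarith
  obtain ⟨A, hrow, hdet, hAb⟩ := SubJ_lin2 K c hc.2 S (((m : ℝ) + 1) * Φ * (T : ℝ) ^ a)
    (((T : ℝ) ^ (c0 + a * r + 1))⁻¹) hH (by positivity) hSH (fun v hv l => (hs v hv l).le) hd
  have hrow' : ∀ i, SubJ_Row φ ((T : ℝ) ^ a) (A i) := by
    intro i
    rcases hrow i with h1 | h1
    · exact Or.inl h1
    · exact Or.inr (hS _ h1)
  have h1 := hL T (by omega) A hrow' hdet
  have hhr : ((h : ℝ) + 1) ≤ r := by exact_mod_cast (by omega : h + 1 ≤ r)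
  have h2 : (r : ℝ) * ((r.factorial : ℝ) * (((m : ℝ) + 1) * Φ * (T : ℝ) ^ a) ^ r) *
      (((h : ℝ) + 1) * ((T : ℝ) ^ (c0 + a * r + 1))⁻¹)
      ≤ ((r : ℝ) * ((r.factorial : ℝ) * (((m : ℝ) + 1) * Φ) ^ r) * r) *
        ((T : ℝ) ^ (c0 + 1))⁻¹ := by
    have e1 : ((T : ℝ) ^ (c0 + a * r + 1))⁻¹ = ((T : ℝ) ^ (a * r))⁻¹ * ((T : ℝ) ^ (c0 + 1))⁻¹ := by
      rw [← mul_inv, ← pow_add]
      congr 2
      ring
    have e2 : (((m : ℝ) + 1) * Φ * (T : ℝ) ^ a) ^ r
        = (((m : ℝ) + 1) * Φ) ^ r * (T : ℝ) ^ (a * r) := by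
      rw [mul_pow, ← pow_mul]
    rw [e1, e2]
    have e3 : (T : ℝ) ^ (a * r) * ((T : ℝ) ^ (a * r))⁻¹ = 1 := mul_inv_cancel₀ (by positivity)
    have e4 : (r : ℝ) * ((r.factorial : ℝ) * ((((m : ℝ) + 1) * Φ) ^ r * (T : ℝ) ^ (a * r))) *
      (((h : ℝ) + 1) * (((T : ℝ) ^ (a * r))⁻¹ * ((T : ℝ) ^ (c0 + 1))⁻¹))
      = (r : ℝ) * ((r.factorial : ℝ) * (((m : ℝ) + 1) * Φ) ^ r) * ((h : ℝ) + 1) *
        ((T : ℝ) ^ (a * r) * ((T : ℝ) ^ (a * r))⁻¹) * ((T : ℝ) ^ (c0 + 1))⁻¹ := by ring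
    rw [e4, e3, mul_one]
    have hpos : 0 ≤ (r : ℝ) * ((r.factorial : ℝ) * (((m : ℝ) + 1) * Φ) ^ r) := by positivity
    have hpos2 : 0 ≤ ((T : ℝ) ^ (c0 + 1))⁻¹ := by positivity
    exact mul_le_mul_of_nonneg_right (mul_le_mul_of_nonneg_left hhr hpos) hpos2
  have h3 : ((r : ℝ) * ((r.factorial : ℝ) * (((m : ℝ) + 1) * Φ) ^ r) * r) *
        ((T : ℝ) ^ (c0 + 1))⁻¹ < ((T : ℝ) ^ c0)⁻¹ := by
    have e5 : ((T : ℝ) ^ c0)⁻¹ = (T : ℝ) * ((T : ℝ) ^ (c0 + 1))⁻¹ := by
      rw [pow_succ, mul_inv]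
      field_simp
    rw [e5]
    exact mul_lt_mul_of_pos_right (by linarith) (by positivity)
  linarith

theorem pr_SubJ : S_SubJ := by
  classical
  intro r m s a φ hφ hMn hsr
  obtain ⟨b, T₀, hT₀, hkey⟩ := SubJ_key a φ hφ
  refine ⟨b, T₀, fun T hT h hh K c hc => ?_⟩
  have hcast : ∀ W : ℤ, |W| ≤ ((T ^ a : ℕ) : ℤ) → |(W : ℝ)| ≤ (T : ℝ) ^ a := by
    intro W hW
    have : ((|W| : ℤ) : ℝ) ≤ (((T ^ a : ℕ) : ℤ) : ℝ) := by exact_mod_cast hW
    rw [Int.cast_abs] at this
    push_cast at this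
    exact this
  let P : Finset (Fin m) → Prop := fun J => ∀ W : Fin m → ℤ, W ≠ 0 → (∀ j, j ∉ J → W j = 0) →
    (∀ j, |W j| ≤ ((T ^ a : ℕ) : ℤ)) →
    ∃ l, ((T : ℝ) ^ b)⁻¹ ≤ ‖∑ j, (W j : ℂ) * ∑ k, φ j k * c k l‖
  have hP0 : P ∅ := by
    intro W hW h1 _
    exact absurd (funext fun j => h1 j (Finset.notMem_empty j)) hW
  obtain ⟨J, hJ, hmax⟩ := Finset.exists_max_image (Finset.univ.filter P) Finset.card
    ⟨∅, by simpa using hP0⟩
  have hPJ : P J := (Finset.mem_filter.1 hJ).2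
  by_cases hcard : s * (h + 1) + 1 ≤ J.card
  · obtain ⟨J', hJ'J, hJ'card⟩ := Finset.exists_subset_card_eq hcard
    let f : Fin (s * (h + 1) + 1) → Fin m := J'.orderEmbOfFin hJ'card
    have hfinj : Function.Injective f := (J'.orderEmbOfFin hJ'card).injective
    have hfJ : ∀ i, f i ∈ J := fun i => hJ'J (Finset.orderEmbOfFin_mem J' hJ'card i)
    refine ⟨f, hfinj, fun W hW hWb => ?_⟩
    let W' : Fin m → ℤ := fun j => Function.extend f W (0 : Fin m → ℤ) j
    have hW'f : ∀ i, W' (f i) = W i := fun i => hfinj.extend_apply W (0 : Fin m → ℤ) i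
    have hW'n : ∀ j, (¬ ∃ i, f i = j) → W' j = 0 := fun j hj =>
      Function.extend_apply' W (0 : Fin m → ℤ) j hj
    obtain ⟨l, hl⟩ := hPJ W' (by
        intro hcon
        apply hW
        funext i
        rw [← hW'f i, hcon]
        rfl) (by
        intro j hj
        apply hW'n
        rintro ⟨i, rfl⟩
        exact hj (hfJ i)) (by
        intro j
        by_cases hj : ∃ i, f i = j
        · obtain ⟨i, rfl⟩ := hj
          rw [hW'f]
          exact hWb i
        · rw [hW'n j hj]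
          simp)
    refine ⟨l, ?_⟩
    have hsum : ∑ j, (W' j : ℂ) * ∑ k, φ j k * c k l
        = ∑ i, (W i : ℂ) * ∑ k, φ (f i) k * c k l := by
      symm
      rw [← Finset.sum_image (s := Finset.univ) (g := f)
        (f := fun j => (W' j : ℂ) * ∑ k, φ j k * c k l) (fun x _ y _ hxy => hfinj hxy) |>.trans
        (Finset.sum_congr rfl fun i _ => by rw [hW'f i])]
      refine Finset.sum_subset (Finset.subset_univ _) fun j _ hj => ?_
      rw [hW'n j (by
        rintro ⟨i, rfl⟩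
        exact hj (Finset.mem_image_of_mem f (Finset.mem_univ i)))]
      simp
    rw [← hsum]
    exact hl
  · exfalso
    push Not at hcard
    have hbad : ∀ j : {j : Fin m // j ∉ J}, ∃ W : Fin m → ℤ, W ≠ 0 ∧
        (∀ i, i ∉ insert j.1 J → W i = 0) ∧ (∀ i, |W i| ≤ ((T ^ a : ℕ) : ℤ)) ∧
        ∀ l, ‖∑ j, (W j : ℂ) * ∑ k, φ j k * c k l‖ < ((T : ℝ) ^ b)⁻¹ := by
      intro j
      have h1 : ¬ P (insert j.1 J) := by
        intro hcon
        have h2 := hmax (insert j.1 J) (by simpa using hcon)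
        rw [Finset.card_insert_of_notMem j.2] at h2
        omega
      change ¬ (∀ W : Fin m → ℤ, W ≠ 0 → (∀ i, i ∉ insert j.1 J → W i = 0) →
        (∀ i, |W i| ≤ ((T ^ a : ℕ) : ℤ)) →
        ∃ l, ((T : ℝ) ^ b)⁻¹ ≤ ‖∑ j, (W j : ℂ) * ∑ k, φ j k * c k l‖) at h1
      push Not at h1
      exact h1
    choose W hW0 hWsupp hWb hWs using hbad
    have hWjj : ∀ j : {j : Fin m // j ∉ J}, W j j.1 ≠ 0 := by
      intro j hcon
      obtain ⟨l, hl⟩ := hPJ (W j) (hW0 j) (by
        intro i hi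
        by_cases hij : i = j.1
        · rw [hij]; exact hcon
        · exact hWsupp j i (by
            rw [Finset.mem_insert]
            tauto)) (hWb j)
      exact absurd (hWs j l) (not_lt.2 hl)
    let S : Set (Fin r → ℂ) := Set.range fun j : {j : Fin m // j ∉ J} =>
      (fun k => ∑ i, (W j i : ℂ) * φ i k : Fin r → ℂ)
    have hfin := hkey T hT h hh K c hc S (by
      rintro v ⟨j, rfl⟩
      exact ⟨W j, fun i => hcast _ (hWb j i), rfl⟩) (by
      rintro v ⟨j, rfl⟩ l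
      have h1 := hWs j l
      have h2 : ∑ k, (∑ i, (W j i : ℂ) * φ i k) * c k l
          = ∑ i, (W j i : ℂ) * ∑ k, φ i k * c k l := by
        simp only [Finset.sum_mul, Finset.mul_sum]
        rw [Finset.sum_comm]
        refine Finset.sum_congr rfl fun i _ => Finset.sum_congr rfl fun k _ => ?_
        ring
      beta_reduce
      rw [h2]
      exact h1)
    set U : Submodule ℂ (Fin r → ℂ) := Submodule.span ℂ S with hU
    have hUtop : U ≠ ⊤ := by
      intro hcon
      rw [hcon, finrank_top, Module.finrank_fin_fun] at hfin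
      omega
    have h1 := hMn U hUtop
    have h2 : Fintype.card {j : Fin m // j ∉ J} ≤ rkU φ U := by
      unfold rkU
      let v : {j : Fin m // j ∉ J} →
          ((U.restrictScalars ℚ).comap (Fintype.linearCombination ℚ φ)) := fun j =>
        ⟨fun i => (W j i : ℚ), by
          rw [Submodule.mem_comap, Submodule.restrictScalars_mem]
          have h3 : (Fintype.linearCombination ℚ φ) (fun i => (W j i : ℚ))
              = fun k => ∑ i, (W j i : ℂ) * φ i k := by
            rw [Fintype.linearCombination_apply]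
            funext k
            rw [Finset.sum_apply]
            refine Finset.sum_congr rfl fun i _ => ?_
            rw [Pi.smul_apply, Algebra.smul_def]
            simp
          rw [h3]
          exact Submodule.subset_span ⟨j, rfl⟩⟩
      have hv : LinearIndependent ℚ v := by
        rw [Fintype.linearIndependent_iff]
        intro g hg j0
        have h4 := congrArg Subtype.val hg
        have h5 := congrFun h4 j0.1
        have h6 : ∑ j, g j * (W j j0.1 : ℚ) = 0 := by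
          simpa [v] using h5
        rw [Finset.sum_eq_single j0] at h6
        · rcases mul_eq_zero.1 h6 with h7 | h7
          · exact h7
          · exact absurd (by exact_mod_cast h7) (hWjj j0)
        · intro j _ hj
          have h8 : W j j0.1 = 0 := hWsupp j j0.1 (by
            rw [Finset.mem_insert, not_or]
            exact ⟨fun h => hj (Subtype.ext h.symm), j0.2⟩)
          rw [h8]
          simp
        · intro h
          exact absurd (Finset.mem_univ _) h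
      exact hv.fintype_card_le_finrank
    have h3 : Fintype.card {j : Fin m // j ∉ J} = m - J.card := by
      rw [Fintype.card_subtype_compl, Fintype.card_fin]
      simp
    have hJm : J.card ≤ m := by
      have := J.card_le_univ
      simpa using this
    rw [h3] at h2
    have h4 : m ≤ s * Module.finrank ℂ U + J.card := by omega
    have h5 : s * Module.finrank ℂ U + s * (h + 1) ≤ s * r := by
      rw [← Nat.mul_add]
      exact Nat.mul_le_mul_left s hfin
    omega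

end Pool.Agent.Work.MP_8da9ea_nt.SI
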