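import Pool.Agent.Work.MP_8da9ea_nt.SI.Stmts

/-!
# Item TIS: reduction of the transcendence theorem to a subspace
-/

set_option autoImplicit false

namespace Pool.Agent.Work.MP_8da9ea_nt.SI

open MvPolynomial Pool.Agent.Work.MP_327059_nt.GL Pool.Agent.Work.MP_327059_nt.FR

theorem TIS_alg_iff {n : Type} (y : n → ℂ) (x : ℂ) :
    AlgOver y x ↔ x ∈ (AlgebraicIndependent.matroid ℚ ℂ).closure (Set.range y) := by
  rw [AlgebraicIndependent.matroid_closure_eq]
  unfold AlgOver
  rw [IntermediateField.isAlgebraic_adjoin_iff]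
  rfl

theorem TIS_trans {n m : Type} (y : n → ℂ) (z : m → ℂ) (x : ℂ) (h : AlgOver y x)
    (h2 : ∀ i, AlgOver z (y i)) : AlgOver z x := by
  rw [TIS_alg_iff] at h ⊢
  have h3 : Set.range y ⊆ (AlgebraicIndependent.matroid ℚ ℂ).closure (Set.range z) := by
    rintro _ ⟨i, rfl⟩
    exact (TIS_alg_iff _ _).mp (h2 i)
  exact Matroid.closure_subset_closure_of_subset_closure h3 h

theorem TIS_self {n : Type} (y : n → ℂ) (i : n) : AlgOver y (y i) := by
  unfold AlgOver
  exact isAlgebraic_algebraMap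
    (⟨y i, IntermediateField.subset_adjoin ℚ _ ⟨i, rfl⟩⟩ :
      IntermediateField.adjoin ℚ (Set.range y))

theorem TIS_num {σ : Type} (f : σ → ℂ) {z : ℂ} (hz : IsAlgebraic ℚ z) : AlgOver f z :=
  hz.extendScalars (algebraMap ℚ (IntermediateField.adjoin ℚ (Set.range f))).injective

theorem TIS_sum {σ ι : Type} [Fintype ι] (f : σ → ℂ) (a l : ι → ℂ) (ha : ∀ i, IsAlgebraic ℚ (a i))
    (hl : ∀ i, AlgOver f (l i)) : AlgOver f (∑ i, a i * l i) := by
  have h1 : ∀ i, a i * l i ∈
      (algebraicClosure (IntermediateField.adjoin ℚ (Set.range f)) ℂ) := fun i =>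
    mul_mem (mem_algebraicClosure_iff.2 (TIS_num f (ha i))) (mem_algebraicClosure_iff.2 (hl i))
  exact mem_algebraicClosure_iff.1 (sum_mem fun i _ => h1 i)

theorem TIS_sumq {ι : Type} [Fintype ι] (a l : ι → ℂ) (ha : ∀ i, IsAlgebraic ℚ (a i))
    (hl : ∀ i, IsAlgebraic ℚ (l i)) : IsAlgebraic ℚ (∑ i, a i * l i) := by
  have h1 : ∀ i, a i * l i ∈ (algebraicClosure ℚ ℂ) := fun i =>
    mul_mem (mem_algebraicClosure_iff.2 (ha i)) (mem_algebraicClosure_iff.2 (hl i))
  exact mem_algebraicClosure_iff.1 (sum_mem fun i _ => h1 i)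

theorem TIS_exp {σ ι : Type} [Fintype ι] (f : σ → ℂ) (q : ι → ℚ) (x : ι → ℂ)
    (h : ∀ j, AlgOver f (Complex.exp (x j))) :
    AlgOver f (Complex.exp (∑ j, (q j : ℂ) * x j)) := by
  rw [Complex.exp_sum]
  have h1 : ∀ j, Complex.exp ((q j : ℂ) * x j) ∈
      (algebraicClosure (IntermediateField.adjoin ℚ (Set.range f)) ℂ) := by
    intro j
    refine mem_algebraicClosure_iff.2 ?_
    refine IsAlgebraic.of_pow (n := (q j).den) (q j).pos ?_
    have h2 : Complex.exp ((q j : ℂ) * x j) ^ (q j).den = Complex.exp (x j) ^ (q j).num := by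
      rw [← Complex.exp_nat_mul, ← Complex.exp_int_mul]
      congr 1
      have h3 : ((q j).den : ℂ) * (q j : ℂ) = ((q j).num : ℂ) := by
        have h4 : ((q j).den : ℚ) * q j = (q j).num := by
          rw [mul_comm]; exact Rat.mul_den_eq_num (q j)
        exact_mod_cast h4
      rw [← mul_assoc, h3]
    rw [h2]
    exact mem_algebraicClosure_iff.1 (zpow_mem (mem_algebraicClosure_iff.2 (h j)) _)
  exact mem_algebraicClosure_iff.1 (prod_mem fun i _ => h1 i)

theorem TIS_TrLe (h2 : S_TrCount) (h3 : S_TrBasis) {σ σ' : Type} [Fintype σ]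
    (θ : σ → ℂ) (θ' : σ' → ℂ) (h : ∀ j, AlgOver θ (θ' j)) {τ : ℕ} (ht : TrLe τ θ) :
    TrLe τ θ' := by
  obtain ⟨k, s, hs, hal⟩ := h3 σ θ
  have hk : k ≤ τ := by
    by_contra hcon
    have hle : τ + 1 ≤ k := by omega
    exact ht (fun i => s (Fin.castLE hle i)) (hs.comp (Fin.castLE hle) (Fin.castLE_injective hle))
  intro s' hs'
  have h5 := h2 (Fin (τ + 1)) (Fin k) (fun i => θ' (s' i)) (fun i => θ (s i)) hs'
    (fun i => TIS_trans _ _ _ (h _) hal)
  rw [Fintype.card_fin, Fintype.card_fin] at h5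
  omega

/-- The solution of a linear system with algebraic coefficients is algebraic, if unique. -/
theorem TIS_cram {r r' : ℕ} (v : Fin r' → Fin r → ℂ) (hv : ∀ l k, IsAlgebraic ℚ (v l k))
    (hli : LinearIndependent ℂ v) (x : Fin r → ℂ) (hx : ∀ k, IsAlgebraic ℚ (x k))
    (c : Fin r' → ℂ) (hc : ∑ l, c l • v l = x) : ∀ l, IsAlgebraic ℚ (c l) := by
  obtain ⟨π, hπ⟩ := LinearMap.exists_leftInverse_of_injective
    (Algebra.linearMap (algebraicClosure ℚ ℂ) ℂ)
    (LinearMap.ker_eq_bot.2 (algebraMap (algebraicClosure ℚ ℂ) ℂ).injective)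
  have hπ1 : ∀ z : ℂ, ∀ hz : IsAlgebraic ℚ z, ((π z : algebraicClosure ℚ ℂ) : ℂ) = z := by
    intro z hz
    have h1 := LinearMap.congr_fun hπ ⟨z, mem_algebraicClosure_iff.2 hz⟩
    have h2 : π z = ⟨z, mem_algebraicClosure_iff.2 hz⟩ := h1
    rw [h2]
  have hπ2 : ∀ a z : ℂ, IsAlgebraic ℚ a → ((π (z * a) : algebraicClosure ℚ ℂ) : ℂ) =
      ((π z : algebraicClosure ℚ ℂ) : ℂ) * a := by
    intro a z ha
    have h1 : z * a = (⟨a, mem_algebraicClosure_iff.2 ha⟩ : algebraicClosure ℚ ℂ) • z := by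
      rw [mul_comm]; rfl
    rw [h1, map_smul]
    change a * _ = _
    rw [mul_comm]
  have key : ∑ l, (c l - ((π (c l) : algebraicClosure ℚ ℂ) : ℂ)) • v l = 0 := by
    funext k
    have h1 : ∑ l, c l * v l k = x k := by
      have := congrFun hc k
      simpa [Finset.sum_apply, smul_eq_mul] using this
    have h2 : ∑ l, ((π (c l) : algebraicClosure ℚ ℂ) : ℂ) * v l k = x k := by
      have h3 := congrArg (fun z => ((π z : algebraicClosure ℚ ℂ) : ℂ)) h1
      simp only [map_sum, hπ1 _ (hx k)] at h3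
      rw [← h3]
      push_cast
      exact Finset.sum_congr rfl fun l _ => (hπ2 _ _ (hv l k)).symm
    simp only [Finset.sum_apply, Pi.smul_apply, smul_eq_mul, sub_mul, Finset.sum_sub_distrib,
      h1, h2, sub_self, Pi.zero_apply]
  intro l
  have h4 := Fintype.linearIndependent_iff.1 hli _ key l
  have h5 : c l = ((π (c l) : algebraicClosure ℚ ℂ) : ℂ) := sub_eq_zero.1 h4
  rw [h5]
  exact mem_algebraicClosure_iff.1 (π (c l)).2

/-- Restriction to a subspace. -/
theorem TIS_red (h2 : S_TrCount) (h3 : S_TrBasis) {r m N : ℕ} (e τ : ℕ) (φ : Fin m → Fin r → ℂ)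
    (halg : ∀ j k, IsAlgebraic ℚ (φ j k)) (hli : LinearIndependent ℚ φ)
    (U : Submodule ℂ (Fin r → ℂ)) (w : Fin N → Fin r → ℂ) :
    ∃ (r' : ℕ) (φ' : Fin (rkU φ U) → Fin r' → ℂ) (w' : Fin N → Fin r' → ℂ),
      r' ≤ Module.finrank ℂ U ∧ (∀ j k, IsAlgebraic ℚ (φ' j k)) ∧ LinearIndependent ℚ φ' ∧
      (∀ κ, RobP κ φ w → RobP κ φ' w') ∧ (TLe e τ φ w → TLe e τ φ' w') := by
  classical
  set P := (U.restrictScalars ℚ).comap (Fintype.linearCombination ℚ φ) with hP
  let bas := Module.finBasis ℚ P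
  let W : Fin (rkU φ U) → Fin m → ℚ := fun j => (bas j : Fin m → ℚ)
  let ψ : Fin (rkU φ U) → Fin r → ℂ := fun j => Fintype.linearCombination ℚ φ (W j)
  have hψU : ∀ j, ψ j ∈ U := fun j => (bas j).2
  have hψk : ∀ j k, ψ j k = ∑ q, (W j q : ℂ) * φ q k := by
    intro j k
    simp [ψ, Fintype.linearCombination_apply, Finset.sum_apply, Rat.smul_def]
  have hWli : LinearIndependent ℚ W :=
    bas.linearIndependent.map' P.subtype (Submodule.ker_subtype P)
  have hker : LinearMap.ker (Fintype.linearCombination ℚ φ) = ⊥ := by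
    refine LinearMap.ker_eq_bot'.2 fun f hf => ?_
    rw [Fintype.linearCombination_apply] at hf
    exact funext fun i => Fintype.linearIndependent_iff.1 hli f hf i
  have hψli : LinearIndependent ℚ ψ := hWli.map' _ hker
  have hψalg : ∀ j k, IsAlgebraic ℚ (ψ j k) := by
    intro j k
    rw [hψk]
    exact TIS_sumq _ _ (fun q => isAlgebraic_ratCast ℚ _) (fun q => halg q k)
  obtain ⟨κ, a, hainj, hspan, hali⟩ := exists_linearIndependent' ℂ ψ
  have : Finite κ := Finite.of_injective a hainj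
  have : Fintype κ := Fintype.ofFinite κ
  let ee := (Fintype.equivFin κ).symm
  let v : Fin (Fintype.card κ) → Fin r → ℂ := fun l => ψ (a (ee l))
  have hvli : LinearIndependent ℂ v := hali.comp ee ee.injective
  have hvspan : Submodule.span ℂ (Set.range v) = Submodule.span ℂ (Set.range ψ) := by
    rw [← hspan]
    congr 1
    exact ee.surjective.range_comp (ψ ∘ a)
  have hex : ∀ j, ∃ c : Fin (Fintype.card κ) → ℂ, ∑ l, c l • v l = ψ j := by
    intro j
    have h4 : ψ j ∈ Submodule.span ℂ (Set.range v) := by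
      rw [hvspan]; exact Submodule.subset_span ⟨j, rfl⟩
    exact Submodule.mem_span_range_iff_exists_fun ℂ |>.1 h4
  choose φ' hφ' using hex
  have hφ'k : ∀ j k, ∑ l, φ' j l * v l k = ψ j k := by
    intro j k
    have := congrFun (hφ' j) k
    simpa [Finset.sum_apply, smul_eq_mul] using this
  let w' : Fin N → Fin (Fintype.card κ) → ℂ := fun i l => ∑ k, v l k * w i k
  have hkey : ∀ j i, ∑ l, φ' j l * w' i l = ∑ q, (W j q : ℂ) * ∑ k, φ q k * w i k := by
    intro j i
    have h4 : ∑ l, φ' j l * w' i l = ∑ k, ψ j k * w i k := by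
      simp only [w', Finset.mul_sum]
      rw [Finset.sum_comm]
      refine Finset.sum_congr rfl fun k _ => ?_
      rw [← hφ'k j k, Finset.sum_mul]
      exact Finset.sum_congr rfl fun l _ => by ring
    rw [h4]
    simp only [hψk, Finset.sum_mul, Finset.mul_sum]
    rw [Finset.sum_comm]
    exact Finset.sum_congr rfl fun q _ => Finset.sum_congr rfl fun k _ => by ring
  refine ⟨Fintype.card κ, φ', w', ?_, ?_, ?_, ?_, ?_⟩
  · -- dimension
    have h4 : LinearIndependent ℂ (fun l => (⟨v l, hψU _⟩ : U)) :=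
      LinearIndependent.of_comp U.subtype hvli
    have h5 := h4.fintype_card_le_finrank
    simpa using h5
  · intro j
    exact TIS_cram v (fun l k => hψalg _ k) hvli (ψ j) (hψalg j) (φ' j) (hφ' j)
  · -- independence
    rw [Fintype.linearIndependent_iff]
    intro g hg
    refine Fintype.linearIndependent_iff.1 hψli g ?_
    funext k
    have h4 : ∀ l, ∑ j, (g j : ℂ) * φ' j l = 0 := by
      intro l
      have := congrFun hg l
      simpa [Finset.sum_apply, Rat.smul_def] using this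
    simp only [Finset.sum_apply, Pi.smul_apply, Rat.smul_def, Pi.zero_apply]
    have h5 : ∑ j, (g j : ℂ) * ψ j k = ∑ l, (∑ j, (g j : ℂ) * φ' j l) * v l k := by
      simp only [← hφ'k, Finset.mul_sum, Finset.sum_mul]
      rw [Finset.sum_comm]
      exact Finset.sum_congr rfl fun l _ => Finset.sum_congr rfl fun j _ => by ring
    rw [h5]
    exact Finset.sum_eq_zero fun l _ => by rw [h4 l, zero_mul]
  · -- robustness
    intro κ' hR V hV
    have h4 : (∑ j, V j • W j) ≠ 0 := by
      intro h5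
      exact hV (funext fun j => Fintype.linearIndependent_iff.1 hWli V h5 j)
    have h5 := hR _ h4
    have hfun : (fun i => ∑ l, (∑ j, (V j : ℂ) * φ' j l) * w' i l) =
        fun i => ∑ k, (∑ q, (((∑ j, V j • W j) q : ℚ) : ℂ) * φ q k) * w i k := by
      funext i
      have h6 : ∑ l, (∑ j, (V j : ℂ) * φ' j l) * w' i l =
          ∑ j, (V j : ℂ) * ∑ l, φ' j l * w' i l := by
        simp only [Finset.mul_sum, Finset.sum_mul]
        rw [Finset.sum_comm]
        exact Finset.sum_congr rfl fun l _ => Finset.sum_congr rfl fun j _ => by ring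
      rw [h6]
      simp only [hkey]
      have h7 : ∀ q, (((∑ j, V j • W j) q : ℚ) : ℂ) = ∑ j, (V j : ℂ) * (W j q : ℂ) := by
        intro q
        simp only [Finset.sum_apply, Pi.smul_apply, smul_eq_mul]
        push_cast
        rfl
      simp only [h7, Finset.mul_sum, Finset.sum_mul]
      rw [Finset.sum_comm]
      rw [Finset.sum_comm (s := (Finset.univ : Finset (Fin r)))]
      refine Finset.sum_congr rfl fun q _ => ?_
      rw [Finset.sum_comm]
      exact Finset.sum_congr rfl fun k _ => Finset.sum_congr rfl fun j _ => by ring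
    rw [hfun]
    exact h5
  · -- transcendence degree
    have hexp : ∀ {σ : Type} (f : σ → ℂ) (i : Fin N) (j : Fin (rkU φ U)),
        (∀ q, AlgOver f (ey φ w i q)) → AlgOver f (ey φ' w' i j) := by
      intro σ f i j hf
      unfold ey
      rw [hkey]
      exact TIS_exp f _ _ hf
    rintro (⟨he, ht⟩ | ⟨he, ht⟩)
    · refine Or.inl ⟨he, TIS_TrLe h2 h3 _ _ ?_ ht⟩
      rintro (⟨i, l⟩ | ⟨i, j⟩)
      · change AlgOver _ (∑ k, v l k * w i k)
        exact TIS_sum _ _ _ (fun k => hψalg _ k)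
          (fun k => TIS_self (cdr w (ey φ w)) (Sum.inl (i, k)))
      · exact hexp _ i j fun q => TIS_self (cdr w (ey φ w)) (Sum.inr (i, q))
    · refine Or.inr ⟨he, TIS_TrLe h2 h3 _ _ ?_ ht⟩
      rintro ⟨i, j⟩
      exact hexp _ i j fun q => TIS_self (fun q : Fin N × Fin m => ey φ w q.1 q.2) (i, q)

theorem TIS_mono {r m N κ κ' : ℕ} (φ : Fin m → Fin r → ℂ) (w : Fin N → Fin r → ℂ)
    (h : RobP κ φ w) (hle : κ' ≤ κ) : RobP κ' φ w := fun W hW => hle.trans (h W hW)

theorem pr_TIS (h1 : S_TISm) (h2 : S_TrCount) (h3 : S_TrBasis) : S_TIS := by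
  intro r m e τ he hlt
  obtain ⟨s, hs⟩ : ∃ s, s + e = τ + 1 := ⟨τ + 1 - e, by omega⟩
  have hm : s * r < m := by
    rw [← hs] at hlt
    nlinarith
  clear hlt
  revert m
  induction r using Nat.strong_induction_on with
  | _ r ih =>
    intro m hm
    rcases Nat.eq_zero_or_pos r with rfl | hr
    · refine ⟨0, fun φ _ hli => ?_⟩
      have hm0 : 0 < m := by omega
      exact absurd (Subsingleton.elim (φ ⟨0, hm0⟩) 0) (hli.ne_zero ⟨0, hm0⟩)
    · obtain ⟨κ0, hκ0⟩ := h1 r m s e τ he hr hs hm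
      have hex : ∀ r' m' : ℕ, ∃ κ : ℕ, r' < r → s * r' < m' → ∀ φ : Fin m' → Fin r' → ℂ,
          (∀ j k, IsAlgebraic ℚ (φ j k)) → LinearIndependent ℚ φ →
          ∀ (N : ℕ) (w : Fin N → Fin r' → ℂ), RobP κ φ w → ¬ TLe e τ φ w := by
        intro r' m'
        by_cases h : r' < r ∧ s * r' < m'
        · obtain ⟨κ, hκ⟩ := ih r' h.1 m' h.2
          exact ⟨κ, fun _ _ => hκ⟩
        · exact ⟨0, fun a b => absurd ⟨a, b⟩ h⟩
      choose κ1 hκ1 using hex
      refine ⟨κ0 + ∑ r' ∈ Finset.range r, ∑ m' ∈ Finset.range (m + 1), κ1 r' m',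
        fun φ halg hli N w hR hT => ?_⟩
      by_cases hMn : Mn s φ
      · exact hκ0 φ halg hMn N w (TIS_mono φ w hR (Nat.le_add_right _ _)) hT
      · unfold Mn at hMn
        push Not at hMn
        obtain ⟨U, hU, hUs⟩ := hMn
        obtain ⟨r', φ', w', hr', halg', hli', hR', hT'⟩ := TIS_red h2 h3 e τ φ halg hli U w
        have h4 : Module.finrank ℂ U < r := by
          have := Submodule.finrank_lt hU
          simpa using this
        have h5 : rkU φ U ≤ m := by
          have := Submodule.finrank_le ((U.restrictScalars ℚ).comap (Fintype.linearCombination ℚ φ))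
          unfold rkU
          simpa using this
        have h6 : s * r' < rkU φ U := lt_of_le_of_lt (Nat.mul_le_mul_left s hr') hUs
        have h7 : κ1 r' (rkU φ U) ≤ κ0 + ∑ r' ∈ Finset.range r, ∑ m' ∈ Finset.range (m + 1), κ1 r' m' := by
          have h8 : κ1 r' (rkU φ U) ≤ ∑ m' ∈ Finset.range (m + 1), κ1 r' m' :=
            Finset.single_le_sum (f := fun m' => κ1 r' m') (fun _ _ => Nat.zero_le _)
              (Finset.mem_range.2 (Nat.lt_succ_of_le h5))
          have h9 : ∑ m' ∈ Finset.range (m + 1), κ1 r' m' ≤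
              ∑ r' ∈ Finset.range r, ∑ m' ∈ Finset.range (m + 1), κ1 r' m' :=
            Finset.single_le_sum (f := fun r' => ∑ m' ∈ Finset.range (m + 1), κ1 r' m')
              (fun _ _ => Nat.zero_le _) (Finset.mem_range.2 (lt_of_le_of_lt hr' h4))
          omega
        exact hκ1 r' (rkU φ U) (lt_of_le_of_lt hr' h4) h6 φ' halg' hli' N w'
          (TIS_mono φ' w' (hR' _ hR) h7) (hT' hT)

end Pool.Agent.Work.MP_8da9ea_nt.SI
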