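import Pool.Agent.Work.MP_8da9ea_nt.SI.Stmts

/-!
# Item TISm: the transcendence theorem for minimal data
-/

set_option autoImplicit false

namespace Pool.Agent.Work.MP_8da9ea_nt.SI

open MvPolynomial Pool.Agent.Work.MP_327059_nt.GL Pool.Agent.Work.MP_327059_nt.FR

/-- Rank count: many independent relations bound the rank. -/
theorem TISm_rank {N n : ℕ} (x : Fin N → ℂ) (t : Fin n → Fin N → ℤ)
    (ht : LinearIndependent ℚ (fun j => (fun i => (t j i : ℚ))))
    (hx : ∀ j, ∑ i, (t j i : ℂ) * x i = 0) :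
    Module.finrank ℚ (Submodule.span ℚ (Set.range x)) + n ≤ N := by
  let L := Fintype.linearCombination ℚ x
  have h1 : LinearMap.range L = Submodule.span ℚ (Set.range x) :=
    Fintype.range_linearCombination ℚ x
  have h2 := LinearMap.finrank_range_add_finrank_ker L
  rw [h1, Module.finrank_fin_fun] at h2
  have h3 : LinearIndependent ℚ (fun j => (⟨fun i => (t j i : ℚ), by
      rw [LinearMap.mem_ker, Fintype.linearCombination_apply]
      rw [← hx j]
      exact Finset.sum_congr rfl fun i _ => by rw [Rat.smul_def]; push_cast; rfl⟩ :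
        LinearMap.ker L)) :=
    LinearIndependent.of_comp (LinearMap.ker L).subtype ht
  have h4 := h3.fintype_card_le_finrank
  rw [Fintype.card_fin] at h4
  omega

theorem TISm_TrLe {r m N e τ : ℕ} (φ : Fin m → Fin r → ℂ) (w : Fin N → Fin r → ℂ)
    (h : TLe e τ φ w) : TrLe τ (fun q : Fin N × Fin m => ey φ w q.1 q.2) := by
  rcases h with ⟨-, h⟩ | ⟨-, h⟩
  · intro s hs
    exact h (fun i => Sum.inr (s i)) hs
  · exact h

theorem pr_TISm (h1 : S_Chain) (h2 : S_NO) : S_TISm := by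
  intro r m s e τ he hr hs hm
  obtain ⟨Q, hQ⟩ := h2 r m s τ (2 * r) hr hm (by omega)
  obtain ⟨κ, hκ⟩ := h1 r m s e τ Q he hr hs hm
  refine ⟨κ + 1, fun φ halg hMn N w hR hT => ?_⟩
  obtain ⟨T1, hT1⟩ := hQ φ halg hMn N w (TISm_TrLe φ w hT)
  obtain ⟨T2, hT2⟩ := hκ φ halg hMn N w hT
  obtain ⟨K, c, t, -, hli, hb, hn⟩ := hT2 (max T1 T2) (le_max_right _ _)
  have hz : ∀ j, wt w (t j) = 0 := by
    intro j
    refine hT1 (max T1 T2) (le_max_left _ _) (t j) (hb j) fun k => ?_
    have := hn j k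
    simpa using this
  have hm0 : 0 < m := by omega
  let E : Fin m → ℚ := Pi.single ⟨0, hm0⟩ 1
  have hE : E ≠ 0 := by
    intro h
    have := congrFun h ⟨0, hm0⟩
    simp [E] at this
  have h5 : ∀ k, ∑ j, ((E j : ℚ) : ℂ) * φ j k = φ ⟨0, hm0⟩ k := by
    intro k
    rw [Finset.sum_eq_single ⟨0, hm0⟩]
    · simp [E]
    · intro j _ hj
      have : E j = 0 := Pi.single_eq_of_ne hj _
      rw [this]; simp
    · intro h; exact absurd (Finset.mem_univ _) h
  have h4 : κ + 1 ≤ Module.finrank ℚ (Submodule.span ℚ (Set.range fun i =>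
      ∑ k, φ ⟨0, hm0⟩ k * w i k)) := by
    have h := hR E hE
    have he' : (fun i => ∑ k, (∑ j, ((E j : ℚ) : ℂ) * φ j k) * w i k) =
        fun i => ∑ k, φ ⟨0, hm0⟩ k * w i k := by
      funext i
      exact Finset.sum_congr rfl fun k _ => by rw [h5]
    rw [he'] at h
    exact h
  have h6 := TISm_rank (fun i => ∑ k, φ ⟨0, hm0⟩ k * w i k) t hli (by
    intro j
    have h7 : ∀ k, ∑ i, (t j i : ℂ) * w i k = 0 := fun k => congrFun (hz j) k
    simp only [Finset.mul_sum]
    rw [Finset.sum_comm]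
    refine Finset.sum_eq_zero fun k _ => ?_
    have h8 : ∑ i, (t j i : ℂ) * (φ ⟨0, hm0⟩ k * w i k) =
        φ ⟨0, hm0⟩ k * ∑ i, (t j i : ℂ) * w i k := by
      rw [Finset.mul_sum]
      exact Finset.sum_congr rfl fun i _ => by ring
    rw [h8, h7, mul_zero])
  omega

end Pool.Agent.Work.MP_8da9ea_nt.SI
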