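import Pool.Agent.Work.MP_8da9ea_nt.SI.Stmts

/-! Item [8da9ea SI TrI]. -/

set_option autoImplicit false

namespace Pool.Agent.Work.MP_8da9ea_nt.SI

open Pool.Agent.Work.MP_327059_nt.GL Pool.Agent.Work.MP_327059_nt.FR

theorem TrI_gen (h1 : S_TrCount) (h2 : S_TrBasis) {α β : Type} [Fintype α] (τ : ℕ)
    (θ : α → ℂ) (η : β → ℂ) (hθ : TrLe τ θ)
    (hη : ∀ b, (∃ a, η b = θ a) ∨ (∃ a, η b = (θ a)⁻¹) ∨ η b = 0) : TrLe τ η := by
  classical
  intro s hs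
  obtain ⟨r, t, ht, htθ⟩ := h2 α θ
  have hr : r ≤ τ := by
    by_contra hcon
    push Not at hcon
    refine hθ (fun i => t (Fin.castLE (by omega) i)) ?_
    exact ht.comp (Fin.castLE (by omega : τ + 1 ≤ r)) (Fin.castLE_injective _)
  have h3 : ∀ i : Fin (τ + 1), AlgOver (fun i => θ (t i)) (η (s i)) := by
    intro i
    rcases hη (s i) with ⟨a, ha⟩ | ⟨a, ha⟩ | ha
    · rw [ha]; exact htθ a
    · rw [ha]
      exact IsAlgebraic.inv (htθ a)
    · rw [ha]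
      exact isAlgebraic_zero
  have h4 := h1 (Fin (τ + 1)) (Fin r) (fun i => η (s i)) (fun i => θ (t i)) hs h3
  rw [Fintype.card_fin, Fintype.card_fin] at h4
  omega

theorem pr_TrI (h1 : S_TrCount) (h2 : S_TrBasis) : S_TrI := by
  intro r m N e τ φ w hT
  rcases hT with ⟨he, hT⟩ | ⟨he, hT⟩
  · refine TrI_gen h1 h2 τ _ _ hT ?_
    rintro (q | q | q)
    · exact Or.inl ⟨Sum.inl q, by simp [he, cdr]⟩
    · exact Or.inl ⟨Sum.inr q, by simp [cdr]⟩
    · exact Or.inr (Or.inl ⟨Sum.inr q, by simp [cdr]⟩)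
  · refine TrI_gen h1 h2 τ _ _ hT ?_
    rintro (q | q | q)
    · exact Or.inr (Or.inr (by simp [he]))
    · exact Or.inl ⟨q, by simp⟩
    · exact Or.inr (Or.inl ⟨q, by simp⟩)

end Pool.Agent.Work.MP_8da9ea_nt.SI
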