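import Pool.Agent.Work.MP_8da9ea_nt.SI.Stmts2
import Pool.Agent.Work.MP_327059_nt.FR.UPC

/-!
# UPC2: the ultrapower with two relations
-/

set_option autoImplicit false

namespace Pool.Agent.Work.MP_8da9ea_nt.SI

open Pool.Agent.ED Pool.Agent.Work.MP_327059_nt.FL Pool.Agent.Work.MP_327059_nt.AA
  Pool.Agent.Work.MP_327059_nt.FR

/-- Two independent vectors have a non-zero minor. -/
theorem UPC2_minor {K σ : Type} [Field K] (a : Fin 2 → σ → K) (h : LinearIndependent K a) :
    ∃ o o' : σ, a 0 o * a 1 o' - a 0 o' * a 1 o ≠ 0 := by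
  by_contra hcon
  push Not at hcon
  rw [Fintype.linearIndependent_iff] at h
  have h0 : ∃ o, a 0 o ≠ 0 := by
    by_contra h1
    push Not at h1
    have h2 := h ![1, 0] (by
      rw [Fin.sum_univ_two]
      funext o
      simp [h1 o]) 0
    simp at h2
  obtain ⟨o, ho⟩ := h0
  have h3 := h ![a 1 o, -a 0 o] (by
    rw [Fin.sum_univ_two]
    funext o'
    have h4 := hcon o o'
    simp only [Matrix.cons_val_zero, Matrix.cons_val_one, Pi.add_apply, Pi.smul_apply,
      smul_eq_mul, Pi.zero_apply]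
    linear_combination -h4) 1
  simp only [Matrix.cons_val_one] at h3
  exact ho (neg_eq_zero.1 h3)

/-- A non-zero minor shows independence. -/
theorem UPC2_li {K σ : Type} [Field K] (a : Fin 2 → σ → K) (o o' : σ)
    (h : a 0 o * a 1 o' - a 0 o' * a 1 o ≠ 0) : LinearIndependent K a := by
  rw [Fintype.linearIndependent_iff]
  intro c hc
  rw [Fin.sum_univ_two] at hc
  have h1 : c 0 * a 0 o + c 1 * a 1 o = 0 := congrFun hc o
  have h2 : c 0 * a 0 o' + c 1 * a 1 o' = 0 := congrFun hc o'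
  have h3 : c 0 * (a 0 o * a 1 o' - a 0 o' * a 1 o) = 0 := by
    linear_combination a 1 o' * h1 - a 1 o * h2
  have h4 : c 1 * (a 0 o * a 1 o' - a 0 o' * a 1 o) = 0 := by
    linear_combination a 0 o * h2 - a 0 o' * h1
  intro i
  fin_cases i
  · exact (mul_eq_zero.1 h3).resolve_right h
  · exact (mul_eq_zero.1 h4).resolve_right h

theorem pr_UPC2 (h0 : S_Rel2) : S_UPC2 := by
  classical
  intro n m l b hn hcov
  set lam := Fintype.linearCombination ℚ l with hlam
  let Bad : (Fin n → ℚ) → Prop := fun t => ∀ s : Fin m → Option (Fin m),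
    ¬ AlgebraicIndependent ℚ (fun i => ((s i).elim (lam t)
        (fun j => Complex.exp (b j * lam t)) : ℂ))
  let S : Set (Set (Fin n → ℚ)) := {A | ∃ W : Submodule ℚ (Fin n → ℚ), W ≠ ⊤ ∧
    A = {t | t ∉ W ∧ Bad t}}
  obtain ⟨U, hU⟩ := Ultrafilter.exists_ultrafilter_of_finite_inter_nonempty S (by
    intro T hT
    have hW : ∀ A : T, ∃ W : Submodule ℚ (Fin n → ℚ), W ≠ ⊤ ∧
        (A : Set (Fin n → ℚ)) = {t | t ∉ W ∧ Bad t} := fun A => hT A.2
    choose W hW1 hW2 using hW
    obtain ⟨t, ht1, ht2⟩ := hcov (Finset.univ.image W) (by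
      intro V hV
      obtain ⟨A, _, rfl⟩ := Finset.mem_image.1 hV
      exact hW1 A)
    refine ⟨t, fun A hA => ?_⟩
    have h1 := hW2 ⟨A, hA⟩
    change A = _ at h1
    rw [h1]
    exact ⟨ht1 _ (Finset.mem_image.2 ⟨⟨A, hA⟩, Finset.mem_univ _, rfl⟩), ht2⟩)
  have hev : ∀ W : Submodule ℚ (Fin n → ℚ), W ≠ ⊤ → ∀ᶠ t in (U : Filter (Fin n → ℚ)),
      t ∉ W ∧ Bad t := by
    intro W hW
    exact hU ⟨W, hW, rfl⟩
  have hbot : (⊥ : Submodule ℚ (Fin n → ℚ)) ≠ ⊤ := by
    intro h
    have h1 : (Pi.single ⟨0, hn⟩ 1 : Fin n → ℚ) ∈ (⊥ : Submodule ℚ (Fin n → ℚ)) := by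
      rw [h]; trivial
    rw [Submodule.mem_bot] at h1
    have h2 := congrFun h1 ⟨0, hn⟩
    simp at h2
  -- the relations
  have hrel : ∀ t : Fin n → ℚ, ∃ a : Fin 2 → Option (Fin m) → ℂ,
      (Bad t → ∃ o o' : Option (Fin m), a 0 o * a 1 o' - a 0 o' * a 1 o ≠ 0) ∧
      (∀ (u : Fin 2) (δ : Derivation ℚ ℂ ℂ),
        a u none * δ (lam t) + ∑ j, a u (some j) * ld (b j) δ (lam t) = 0) := by
    intro t
    by_cases ht : Bad t
    · obtain ⟨a, ha, h⟩ := h0 m (fun o => (o.elim (lam t)
        (fun j => Complex.exp (b j * lam t)) : ℂ)) (fun j => Complex.exp_ne_zero _) ht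
      exact ⟨a, fun _ => UPC2_minor a ha, fun u δ => h u δ⟩
    · exact ⟨0, fun h => absurd h ht, fun u δ => by simp⟩
  choose a ha1 ha2 using hrel
  let v : Fin n → UG U := fun i => cl U (fun t => ((t i : ℚ) : ℂ))
  let A : Fin 2 → Option (Fin m) → UG U := fun u o => cl U (fun t => a t u o)
  have F1 : ∀ c : Fin n → ℂ, ∑ i, v i * con U (c i) = 0 → c = 0 := by
    intro c hc
    rw [UPC_sum, cl_eq_zero] at hc
    by_contra hne
    let W : Submodule ℚ (Fin n → ℚ) := LinearMap.ker (Fintype.linearCombination ℚ c)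
    have hWmem : ∀ t, t ∈ W ↔ ∑ i, ((t i : ℚ) : ℂ) * c i = 0 := by
      intro t
      rw [LinearMap.mem_ker, Fintype.linearCombination_apply]
      simp only [Rat.smul_def]
    have hWtop : W ≠ ⊤ := by
      intro htop
      apply hne
      funext i
      have h1 : (Pi.single i 1 : Fin n → ℚ) ∈ W := by rw [htop]; trivial
      rw [hWmem, Finset.sum_eq_single i] at h1
      · simpa using h1
      · intro k _ hk
        rw [Pi.single_eq_of_ne hk]
        simp
      · intro h
        exact absurd (Finset.mem_univ _) h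
    obtain ⟨t, ht1, ht2⟩ := (hc.and (hev W hWtop)).exists
    exact ht2.1 ((hWmem t).2 ht1)
  have hA0 : ∃ o o' : Option (Fin m), A 0 o * A 1 o' - A 0 o' * A 1 o ≠ 0 := by
    by_contra hcon
    push Not at hcon
    have h1 : ∀ q : Option (Fin m) × Option (Fin m), ∀ᶠ t in (U : Filter (Fin n → ℚ)),
        a t 0 q.1 * a t 1 q.2 - a t 0 q.2 * a t 1 q.1 = 0 := by
      intro q
      have h2 := hcon q.1 q.2
      have h3 : A 0 q.1 * A 1 q.2 - A 0 q.2 * A 1 q.1 =
          cl U (fun t => a t 0 q.1 * a t 1 q.2 - a t 0 q.2 * a t 1 q.1) := by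
        have h4 : (fun t => a t 0 q.1 * a t 1 q.2 - a t 0 q.2 * a t 1 q.1) =
            (fun t => a t 0 q.1) * (fun t => a t 1 q.2) -
              (fun t => a t 0 q.2) * (fun t => a t 1 q.1) := rfl
        rw [h4, map_sub, map_mul, map_mul]
      rw [h3, cl_eq_zero] at h2
      exact h2
    have h2 := (Filter.eventually_all.2 h1).and (hev ⊥ hbot)
    obtain ⟨t, ht1, ht2⟩ := h2.exists
    obtain ⟨o, o', h3⟩ := ha1 t ht2.2
    exact h3 (ht1 (o, o'))
  have hAr : ∀ (u : Fin 2) (δ : Derivation ℚ ℂ ℂ),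
      A u none * ∑ i, v i * con U (δ (l i)) +
      ∑ j, A u (some j) * ∑ i, v i * (con U (δ (Complex.exp (b j * l i))) /
        con U (Complex.exp (b j * l i))) = 0 := by
    intro u δ
    have h1 : ∑ i, v i * con U (δ (l i)) = cl U (fun t => δ (lam t)) := by
      rw [UPC_sum]
      congr 1
      funext t
      exact UPC_lin l (δ : ℂ →ₗ[ℚ] ℂ) t
    have h2 : ∀ j, ∑ i, v i * (con U (δ (Complex.exp (b j * l i))) /
        con U (Complex.exp (b j * l i))) = cl U (fun t => ld (b j) δ (lam t)) := by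
      intro j
      have h3 : ∀ i, con U (δ (Complex.exp (b j * l i))) / con U (Complex.exp (b j * l i)) =
          con U (ld (b j) δ (l i)) := by
        intro i
        rw [ld_apply, map_div₀]
      simp only [h3]
      rw [UPC_sum]
      congr 1
      funext t
      exact UPC_lin l (ld (b j) δ) t
    rw [h1]
    simp only [h2]
    have h4 : A u none * cl U (fun t => δ (lam t)) +
        ∑ j, A u (some j) * cl U (fun t => ld (b j) δ (lam t)) =
        cl U ((fun t => a t u none) * (fun t => δ (lam t)) +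
          ∑ j, (fun t => a t u (some j)) * (fun t => ld (b j) δ (lam t))) := by
      rw [map_add, map_mul, map_sum]
      congr 1
    rw [h4]
    have h5 : ((fun t => a t u none) * (fun t => δ (lam t)) +
          ∑ j, (fun t => a t u (some j)) * (fun t => ld (b j) δ (lam t))) = 0 := by
      funext t
      rw [Pi.add_apply, Finset.sum_apply]
      exact ha2 t u δ
    rw [h5, map_zero]
  -- transport
  obtain ⟨e⟩ := UPC_iso U
  refine ⟨(e : UG U →+* ℂ).comp (con U), fun δ => UPC_tr e (xd U δ), fun i => e (v i),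
    fun u o => e (A u o), ?_, ?_, ?_, ?_, ?_⟩
  · intro δ c
    change UPC_tr e (xd U δ) (e (con U c)) = e (con U (δ c))
    rw [UPC_tr_apply, xd_con]
  · intro δ i
    rw [UPC_tr_apply]
    change e (xd U δ (cl U (fun t => ((t i : ℚ) : ℂ)))) = 0
    rw [xd_rat U δ (fun t => t i), map_zero]
  · intro c hc
    apply F1
    have h1 : e (∑ i, v i * con U (c i)) = 0 := by
      rw [map_sum, ← hc]
      exact Finset.sum_congr rfl fun i _ => by rw [map_mul]; rfl
    exact (map_eq_zero_iff _ e.injective).1 h1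
  · obtain ⟨o, o', h1⟩ := hA0
    refine UPC2_li _ o o' ?_
    intro h2
    apply h1
    apply e.injective
    rw [map_zero, ← h2, map_sub, map_mul, map_mul]
  · intro u δ
    have h1 := congrArg e (hAr u δ)
    rw [map_zero, map_add, map_mul, map_sum, map_sum] at h1
    rw [← h1]
    congr 1
    · congr 1
      exact Finset.sum_congr rfl fun i _ => by rw [map_mul]; rfl
    · refine Finset.sum_congr rfl fun j _ => ?_
      rw [map_mul, map_sum]
      congr 1
      exact Finset.sum_congr rfl fun i _ => by rw [map_mul, map_div₀]; rfl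

end Pool.Agent.Work.MP_8da9ea_nt.SI
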