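import Pool.Agent.Work.MP_8da9ea_nt.SI.Stmts

/-!
# UpE: functions vanishing to order `M` at the origin
-/

set_option autoImplicit false

namespace Pool.Agent.Work.MP_8da9ea_nt.SI

open MvPolynomial Pool.Agent.Work.MP_327059_nt.GL Pool.Agent.Work.MP_327059_nt.FR

theorem pr_UpE : S_UpE := by
  classical
  intro r m D M φ p z δ hM h1 h2 hδ0 hδ1
  set u : (Fin m → Fin D) → ℂ := fun x => ∑ k, bx φ x k * z k with hu
  have h3 : ∀ n, n < M → ∑ x, p x * u x ^ n = 0 := by
    intro n hn
    have h4 : ∀ x, u x ^ n = ∑ α ∈ Finset.piAntidiag (Finset.univ : Finset (Fin r)) n,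
        (Nat.multinomial Finset.univ α : ℂ) * ∏ k, (bx φ x k * z k) ^ α k := by
      intro x
      rw [hu]
      exact Finset.sum_pow_eq_sum_piAntidiag _ _ _
    simp only [h4, Finset.mul_sum]
    rw [Finset.sum_comm]
    refine Finset.sum_eq_zero fun α hα => ?_
    have h5 : ∑ k, α k = n := by
      rw [Finset.mem_piAntidiag] at hα
      exact hα.1
    have h6 := h1 α (by omega)
    have h7 : ∀ x, p x * ((Nat.multinomial Finset.univ α : ℂ) * ∏ k, (bx φ x k * z k) ^ α k) =
        ((Nat.multinomial Finset.univ α : ℂ) * ∏ k, z k ^ α k) * (p x * ∏ k, bx φ x k ^ α k) := by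
      intro x
      simp only [mul_pow, Finset.prod_mul_distrib]
      ring
    simp only [h7]
    rw [← Finset.mul_sum, h6, mul_zero]
  have h8 : ∑ x, p x * Complex.exp (u x) =
      ∑ x, p x * (Complex.exp (u x) - ∑ n ∈ Finset.range M, u x ^ n / (n.factorial : ℂ)) := by
    have h9 : ∑ x, p x * ∑ n ∈ Finset.range M, u x ^ n / (n.factorial : ℂ) = 0 := by
      simp only [Finset.mul_sum]
      rw [Finset.sum_comm]
      refine Finset.sum_eq_zero fun n hn => ?_
      have h10 := h3 n (Finset.mem_range.1 hn)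
      have h11 : ∀ x, p x * (u x ^ n / (n.factorial : ℂ)) =
          (p x * u x ^ n) / (n.factorial : ℂ) := fun x => by ring
      simp only [h11]
      rw [← Finset.sum_div, h10, zero_div]
    simp only [mul_sub, Finset.sum_sub_distrib]
    rw [h9, sub_zero]
  rw [h8]
  refine (norm_sum_le _ _).trans ?_
  rw [Finset.sum_mul]
  refine Finset.sum_le_sum fun x _ => ?_
  rw [norm_mul]
  refine mul_le_mul_of_nonneg_left ?_ (norm_nonneg _)
  have hux : ‖u x‖ ≤ δ := h2 x
  have h12 := Complex.exp_bound (x := u x) (hux.trans hδ1) (n := M) (by omega)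
  refine h12.trans ?_
  have h13 : ‖u x‖ ^ M ≤ δ ^ M := pow_le_pow_left₀ (norm_nonneg _) hux M
  have h14 : ((M.succ : ℕ) : ℝ) * ((M.factorial : ℝ) * M)⁻¹ ≤ 2 := by
    have h15 : (1 : ℝ) ≤ M.factorial := by exact_mod_cast Nat.one_le_iff_ne_zero.2 M.factorial_ne_zero
    have h16 : (1 : ℝ) ≤ M := by exact_mod_cast hM
    rw [mul_inv_le_iff₀ (by positivity)]
    push_cast
    nlinarith
  calc ‖u x‖ ^ M * (((M.succ : ℕ) : ℝ) * ((M.factorial : ℝ) * M)⁻¹)
      ≤ δ ^ M * 2 := mul_le_mul h13 h14 (by positivity) (by positivity)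
    _ = 2 * δ ^ M := by ring

end Pool.Agent.Work.MP_8da9ea_nt.SI
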