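import Pool.Agent.Work.MP_8da9ea_nt.SI.StmtsB

/-!
# PROJECT SI, part B: items Free and Bez
-/

set_option autoImplicit false

namespace Pool.Agent.Work.MP_8da9ea_nt.SI

open MvPolynomial

theorem Free_pf (h1 : S_B1) (h2 : S_Loc) : S_Free := by
  intro K _ _ σ _ P S hP hMF
  obtain ⟨K', _, _, φ, _, hφ⟩ := h2 K σ S
  obtain ⟨hmax, _, hht, _⟩ := hφ P hP hMF
  rw [← hht]
  exact h1 K' {i : σ // i ∉ S} (P.map φ) hmax

namespace I_Bez

theorem free_empty {K : Type} [Field K] {σ : Type} (P : Ideal (MvPolynomial σ K)) (hP : P ≠ ⊤) :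
    FreeFor P (∅ : Set σ) := by
  intro f hf
  obtain ⟨a, rfl⟩ := MvPolynomial.C_surjective (R := K) (∅ : Set σ) f
  rw [rename_C] at hf
  by_contra hne
  have ha : a ≠ 0 := by
    intro h0
    apply hne
    rw [h0, C_0]
  apply hP
  refine Ideal.eq_top_of_isUnit_mem P hf ?_
  exact (IsUnit.mk0 a ha).map (C : K →+* MvPolynomial σ K)

theorem exists_maxFree {K : Type} [Field K] {σ : Type} [Finite σ] (P : Ideal (MvPolynomial σ K))
    (hP : P ≠ ⊤) : ∃ S : Set σ, MaxFree P S := by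
  obtain ⟨S, hS⟩ := (Set.toFinite {S : Set σ | FreeFor P S}).exists_maximal ⟨∅, free_empty P hP⟩
  refine ⟨S, hS.prop, fun i hi hfree => hi ?_⟩
  exact hS.le_of_ge (y := insert i S) hfree (Set.subset_insert i S) (Set.mem_insert i S)

open Classical in
/-- A maximal free set. -/
noncomputable def sel {K : Type} [Field K] {σ : Type} (P : Ideal (MvPolynomial σ K)) : Set σ :=
  if h : ∃ S : Set σ, MaxFree P S then h.choose else ∅

theorem sel_spec {K : Type} [Field K] {σ : Type} [Finite σ] (P : Ideal (MvPolynomial σ K))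
    (hP : P ≠ ⊤) : MaxFree P (sel P) := by
  unfold sel
  rw [dif_pos (exists_maxFree P hP)]
  exact (exists_maxFree P hP).choose_spec

theorem fiber (h1 : S_Cnt) (h2 : S_Sq) (h3 : S_Loc) (h4 : S_Free)
    (K : Type) [Field K] [Infinite K] (σ : Type) [Fintype σ] (M c : ℕ)
    (G : Set (MvPolynomial σ K)) (hG : ∀ g ∈ G, g.totalDegree ≤ M)
    (S : Set σ) (F : Finset (Ideal (MvPolynomial σ K)))
    (hF : ∀ P ∈ F, (P ∈ (Ideal.span G).minimalPrimes ∧ P.height = (c : ℕ∞)) ∧ MaxFree P S) :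
    F.card ≤ (M + 1) ^ c := by
  classical
  rcases F.eq_empty_or_nonempty with rfl | ⟨P0, hP0⟩
  · simp
  obtain ⟨K', _, _, φ, hdeg, hφ⟩ := h3 K σ S
  have hprime : ∀ P ∈ F, P.IsPrime := fun P hP => (hF P hP).1.1.1.1
  have hc : c = Fintype.card {i : σ // i ∉ S} := by
    have e1 := h4 K σ P0 S (hprime P0 hP0) (hF P0 hP0).2
    rw [(hF P0 hP0).1.2, Nat.card_eq_fintype_card] at e1
    exact_mod_cast e1
  have hinj : Set.InjOn (Ideal.map φ) (F : Set (Ideal (MvPolynomial σ K))) := by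
    intro P hP P' hP' e
    have e1 := (hφ P (hprime P hP) (hF P hP).2).2.1
    have e2 := (hφ P' (hprime P' hP') (hF P' hP').2).2.1
    rw [← e1, ← e2, e]
  have hG' : ∀ g ∈ φ '' G, g.totalDegree ≤ M := by
    rintro _ ⟨g, hg, rfl⟩
    exact (hdeg g).trans (hG g hg)
  have hF' : ∀ P ∈ F.image (Ideal.map φ), P.IsMaximal ∧ P ∈ (Ideal.span (φ '' G)).minimalPrimes := by
    intro P' hP'
    obtain ⟨P, hP, rfl⟩ := Finset.mem_image.mp hP'
    obtain ⟨a1, _, _, a4⟩ := hφ P (hprime P hP) (hF P hP).2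
    refine ⟨a1, ?_⟩
    rw [← Ideal.map_span]
    exact a4 _ (hF P hP).1.1
  obtain ⟨g, hg1, hg2⟩ := h2 K' {i : σ // i ∉ S} M (φ '' G) hG' (F.image (Ideal.map φ)) hF'
  have hcard := h1 K' {i : σ // i ∉ S} M g hg1 (F.image (Ideal.map φ))
    (fun P hP => ⟨(hF' P hP).1, hg2 P hP⟩)
  rw [Finset.card_image_of_injOn hinj] at hcard
  rw [hc]
  exact hcard

end I_Bez

theorem Bez_pf (h1 : S_Cnt) (h2 : S_Sq) (h3 : S_Loc) (h4 : S_Free) : S_Bez := by
  intro K _ _ σ _ M c G hG F hF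
  classical
  have hb : ∀ S ∈ F.image I_Bez.sel, (F.filter fun P => I_Bez.sel P = S).card ≤ (M + 1) ^ c := by
    intro S _
    refine I_Bez.fiber h1 h2 h3 h4 K σ M c G hG S _ ?_
    intro P hP
    rw [Finset.mem_filter] at hP
    refine ⟨hF P hP.1, ?_⟩
    rw [← hP.2]
    exact I_Bez.sel_spec P (hF P hP.1).1.1.1.ne_top
  have h5 := Finset.card_le_mul_card_image F ((M + 1) ^ c) hb
  have h6 : (F.image I_Bez.sel).card ≤ 2 ^ (Fintype.card σ) := by
    rw [← Fintype.card_set]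
    exact Finset.card_le_univ _
  calc F.card ≤ (M + 1) ^ c * (F.image I_Bez.sel).card := h5
    _ ≤ (M + 1) ^ c * 2 ^ (Fintype.card σ) := Nat.mul_le_mul_left _ h6
    _ = 2 ^ (Fintype.card σ) * (M + 1) ^ c := Nat.mul_comm _ _

end Pool.Agent.Work.MP_8da9ea_nt.SI
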