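import Pool.Agent.Work.MP_8da9ea_nt.SI.StmtsB

set_option autoImplicit false

namespace Pool.Agent.Work.MP_8da9ea_nt.SI

namespace I_Cnt

open MvPolynomial

/-- divide a nonzero vector of polynomials by a power of `X` -/
lemma divX_vec {K : Type} [Field K] {ι : Type} (n : ℕ) : ∀ (c : ι → Polynomial K) (i : ι),
    c i ≠ 0 → (c i).natDegree ≤ n →
    ∃ (k : ℕ) (c' : ι → Polynomial K), (∀ j, c j = Polynomial.X ^ k * c' j) ∧
      ∃ j, (c' j).coeff 0 ≠ 0 := by
  induction n with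
  | zero =>
    intro c i hi hdeg
    refine ⟨0, c, fun j => by simp, i, ?_⟩
    intro h
    have h1 : c i = Polynomial.C ((c i).coeff 0) :=
      Polynomial.eq_C_of_natDegree_eq_zero (by omega)
    rw [h] at h1
    exact hi (by rw [h1]; simp)
  | succ n ih =>
    intro c i hi hdeg
    by_cases hall : ∀ j, (c j).coeff 0 = 0
    · have hc : ∀ j, c j = Polynomial.X * (c j).divX := by
        intro j
        have h1 := Polynomial.X_mul_divX_add (c j)
        rw [hall j] at h1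
        simpa using h1.symm
      have hne : (c i).divX ≠ 0 := by
        intro h
        apply hi
        rw [hc i, h, mul_zero]
      have hd : ((c i).divX).natDegree ≤ n := by
        rw [Polynomial.natDegree_divX_eq_natDegree_tsub_one]
        omega
      obtain ⟨k, c', hc', hj⟩ := ih (fun j => (c j).divX) i hne hd
      refine ⟨k + 1, c', fun j => ?_, hj⟩
      rw [hc j, hc' j]
      ring
    · push Not at hall
      exact ⟨0, c, fun j => by simp, hall⟩

/-- separating elements -/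
lemma exists_sep {A : Type} [CommRing A] (F : Finset (Ideal A)) (hF : ∀ P ∈ F, P.IsMaximal)
    (P : Ideal A) (hP : P ∈ F) : ∃ a : A, a ∉ P ∧ ∀ Q ∈ F, Q ≠ P → a ∈ Q := by
  classical
  have hex : ∀ Q : Ideal A, ∃ b : A, (Q ∈ F → Q ≠ P → b ∈ Q) ∧ b ∉ P := by
    intro Q
    by_cases h : Q ∈ F ∧ Q ≠ P
    · have hQ := hF Q h.1
      have hPm := hF P hP
      have hnle : ¬ Q ≤ P := by
        intro hle
        exact h.2 (hQ.eq_of_le hPm.ne_top hle)
      obtain ⟨b, hb, hb'⟩ := SetLike.not_le_iff_exists.mp hnle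
      exact ⟨b, fun _ _ => hb, hb'⟩
    · refine ⟨1, fun h1 h2 => absurd ⟨h1, h2⟩ h, ?_⟩
      exact fun h1 => (hF P hP).ne_top ((Ideal.eq_top_iff_one P).mpr h1)
  choose b hb hb' using hex
  refine ⟨∏ Q ∈ F.erase P, b Q, ?_, ?_⟩
  · have hprime := (hF P hP).isPrime
    intro hmem
    rw [hprime.prod_mem_iff] at hmem
    obtain ⟨Q, -, hQ⟩ := hmem
    exact hb' Q hQ
  · intro Q hQ hne
    have hQe : Q ∈ F.erase P := Finset.mem_erase.mpr ⟨hne, hQ⟩
    exact Ideal.mem_of_dvd _ (Finset.dvd_prod_of_mem b hQe) (hb Q hQ hne)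

lemma aux1 {B : Type} [CommRing B] {I : Type} [Fintype I] (x y : B) (t T : ℕ) (h : t ≤ T)
    (β μ : I → B) :
    x ^ (T - t) * (x ^ t * y - ∑ α, β α * μ α) = x ^ T * y - ∑ α, (x ^ (T - t) * β α) * μ α := by
  rw [mul_sub, ← mul_assoc, ← pow_add, Nat.sub_add_cancel h, Finset.mul_sum]
  congr 1
  refine Finset.sum_congr rfl fun α _ => ?_
  rw [mul_assoc]

lemma aux2 {A B : Type} [CommRing A] [CommRing B] {F I : Type} [Fintype F] [Fintype I]
    (ι : A →+* B) (x : A) (c c' : F → A) (v : F → I → A) (μ : I → B) (a : F → B) (T k : ℕ)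
    (hc : ∀ P, c P = x ^ k * c' P) (hrel : ∀ α, ∑ P, c P * v P α = 0) :
    ∑ P, ι (c P) * (ι x ^ T * a P - ∑ α, ι (v P α) * μ α)
      = ι x ^ (T + k) * ∑ P, ι (c' P) * a P := by
  have hzero : ∑ P, ι (c P) * ∑ α, ι (v P α) * μ α = 0 := by
    simp_rw [Finset.mul_sum]
    rw [Finset.sum_comm]
    refine Finset.sum_eq_zero fun α _ => ?_
    have h3 : ∑ P, ι (c P) * (ι (v P α) * μ α) = ι (∑ P, c P * v P α) * μ α := by
      rw [map_sum, Finset.sum_mul]
      refine Finset.sum_congr rfl fun P _ => ?_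
      rw [map_mul]; ring
    rw [h3, hrel, map_zero, zero_mul]
  simp_rw [mul_sub]
  rw [Finset.sum_sub_distrib, hzero, sub_zero, Finset.mul_sum]
  refine Finset.sum_congr rfl fun P _ => ?_
  rw [hc P, map_mul, map_pow]
  ring

lemma exists_rel {A : Type} [CommRing A] [Nontrivial A] {F I : Type} [Fintype F] [Fintype I]
    (h : Fintype.card I < Fintype.card F) (v : F → I → A) :
    ∃ c : F → A, (∀ α, ∑ P, c P * v P α = 0) ∧ ∃ P, c P ≠ 0 := by
  classical
  let L : (F → A) →ₗ[A] (I → A) := Fintype.linearCombination A v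
  have hnotinj : ¬ Function.Injective L := by
    intro hinj
    have h1 := card_le_of_injective A L hinj
    omega
  have hker : ∃ c : F → A, L c = 0 ∧ c ≠ 0 := by
    by_contra hcon
    push Not at hcon
    exact hnotinj ((injective_iff_map_eq_zero L).mpr hcon)
  obtain ⟨c, hLc, hc0⟩ := hker
  refine ⟨c, fun α => ?_, Function.ne_iff.mp hc0⟩
  have h2 := congrFun hLc α
  rw [Fintype.linearCombination_apply] at h2
  simpa [Finset.sum_apply] using h2

end I_Cnt

open I_Cnt MvPolynomial in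
theorem Cnt_pf (hRed : S_Red) (hDef : S_Def) : S_Cnt := by
  classical
  intro K _ σ _ M g hg F hF
  by_contra hcard
  push Not at hcard
  -- separating elements
  have hsep : ∀ P : F, ∃ a : MvPolynomial σ K, a ∉ P.1 ∧ ∀ Q ∈ F, Q ≠ P.1 → a ∈ Q :=
    fun P => exists_sep F (fun Q hQ => (hF Q hQ).1) P.1 P.2
  choose a ha ha' using hsep
  -- reduction
  have hred := fun P : F => hRed K σ M g hg (a P)
  choose t b hb using hred
  let T : ℕ := ∑ P : F, t P
  have ht : ∀ P : F, t P ≤ T := fun P => Finset.single_le_sum (fun _ _ => Nat.zero_le _)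
    (Finset.mem_univ P)
  obtain ⟨v, hvdef⟩ : ∃ v : F → ((σ → Fin (M + 1)) → Polynomial K),
      ∀ P α, v P α = Polynomial.X ^ (T - t P) * b P α := ⟨_, fun _ _ => rfl⟩
  obtain ⟨ι, hι⟩ : ∃ ι : Polynomial K →+* Polynomial (MvPolynomial σ K),
      ∀ q, ι q = q.map (MvPolynomial.C : K →+* MvPolynomial σ K) :=
    ⟨Polynomial.mapRingHom (MvPolynomial.C : K →+* MvPolynomial σ K), fun q => rfl⟩
  have hιX : ι Polynomial.X = Polynomial.X := by rw [hι, Polynomial.map_X]
  obtain ⟨mon, hmon⟩ : ∃ mon : (σ → Fin (M + 1)) → Polynomial (MvPolynomial σ K),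
      ∀ α, mon α = Polynomial.C (∏ i, (X i : MvPolynomial σ K) ^ ((α i : ℕ))) :=
    ⟨_, fun _ => rfl⟩
  have hv : ∀ P : F, ι Polynomial.X ^ T * Polynomial.C (a P) - ∑ α, ι (v P α) * mon α
      ∈ defIdeal M g := by
    intro P
    have h0 := hb P
    simp only [← hι, ← hmon] at h0
    have h1 := Ideal.mul_mem_left (defIdeal M g) (Polynomial.X ^ (T - t P)) h0
    rw [aux1 _ _ _ _ (ht P)] at h1
    rw [hιX]
    simp only [hvdef, map_mul, map_pow, hιX]
    exact h1
  -- the relation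
  obtain ⟨c, hrel, P1, hP1⟩ := exists_rel (F := F) (I := σ → Fin (M + 1)) (by
    rw [Fintype.card_coe, Fintype.card_fun, Fintype.card_fin]; exact hcard) v
  obtain ⟨k, c', hc', P0, hP0⟩ := divX_vec _ c P1 hP1 le_rfl
  obtain ⟨Q, hQp, hQJ, hXQ, hQ0⟩ := hDef K σ M g P0.1 (hF P0.1 P0.2).1 (hF P0.1 P0.2).2
  have hsum : ∑ P : F, ι (c P) * (ι Polynomial.X ^ T * Polynomial.C (a P)
      - ∑ α, ι (v P α) * mon α) ∈ Q :=
    hQJ (Ideal.sum_mem _ fun P _ => Ideal.mul_mem_left _ _ (hv P))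
  rw [aux2 ι Polynomial.X c c' v mon (fun P => Polynomial.C (a P)) T k hc' hrel, hιX] at hsum
  have hsum3 : ∑ P : F, ι (c' P) * Polynomial.C (a P) ∈ Q := by
    rcases hQp.mem_or_mem hsum with h | h
    · exact absurd (hQp.mem_of_pow_mem _ h) hXQ
    · exact h
  have h4 := hQ0 _ hsum3
  rw [Polynomial.finsetSum_coeff] at h4
  have h5 : ∀ P : F, (ι (c' P) * Polynomial.C (a P)).coeff 0 =
      C ((c' P).coeff 0) * a P := by
    intro P
    rw [Polynomial.mul_coeff_zero, hι, Polynomial.coeff_map, Polynomial.coeff_C_zero]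
  simp_rw [h5] at h4
  rw [← Finset.add_sum_erase _ _ (Finset.mem_univ P0)] at h4
  have h6 : ∑ P ∈ Finset.univ.erase P0, C ((c' P).coeff 0) * a P ∈ P0.1 := by
    refine Ideal.sum_mem _ fun P hP => Ideal.mul_mem_left _ _ ?_
    refine ha' P P0.1 P0.2 ?_
    intro h
    exact (Finset.ne_of_mem_erase hP) (Subtype.ext h.symm)
  have h7 : C ((c' P0).coeff 0) * a P0 ∈ P0.1 := by
    have := Ideal.sub_mem _ h4 h6
    simpa using this
  have hprime := (hF P0.1 P0.2).1.isPrime
  rcases hprime.mem_or_mem h7 with h | h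
  · refine (hF P0.1 P0.2).1.ne_top (Ideal.eq_top_of_isUnit_mem _ h ?_)
    exact (IsUnit.mk0 _ hP0).map C
  · exact ha P0 h

end Pool.Agent.Work.MP_8da9ea_nt.SI
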