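import Pool.Agent.Work.MP_8da9ea_nt.SI.StmtsB

set_option autoImplicit false

namespace Pool.Agent.Work.MP_8da9ea_nt.SI

open MvPolynomial

theorem Def_pf (h1 : S_B1) : S_Def := by
  intro K _ σ _ M g P hP hmin
  have hPp : P.IsPrime := hP.isPrime
  obtain ⟨MM, hMM⟩ : ∃ MM : Ideal (Polynomial (MvPolynomial σ K)),
      MM = P.comap Polynomial.constantCoeff := ⟨_, rfl⟩
  have hsurj : Function.Surjective
      (Polynomial.constantCoeff : Polynomial (MvPolynomial σ K) →+* MvPolynomial σ K) :=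
    fun a => ⟨Polynomial.C a, by simp⟩
  have hmax : MM.IsMaximal := by
    rw [hMM]
    exact Ideal.comap_isMaximal_of_surjective _ hsurj
  have hmem : ∀ f, f ∈ MM ↔ Polynomial.coeff f 0 ∈ P := fun f => by
    rw [hMM, Ideal.mem_comap, Polynomial.constantCoeff_apply]
  have hlies : MM.LiesOver P := ⟨by
    ext a
    rw [Ideal.mem_comap, hmem]
    simp⟩
  have hht : MM.height = P.height + 1 := Polynomial.height_eq_height_add_one P MM
  have hgP : ∀ i, g i ∈ P := fun i => hmin.1.2 (Ideal.subset_span ⟨i, rfl⟩)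
  have hle : defIdeal M g ≤ MM := by
    rw [defIdeal, Ideal.span_le]
    rintro _ ⟨i, rfl⟩
    rw [SetLike.mem_coe, hmem]
    simpa using hgP i
  obtain ⟨Q, hQ, hQM⟩ := Ideal.exists_minimalPrimes_le hle
  have hQp : Q.IsPrime := hQ.1.1
  have hQh : Q.height ≤ ((Nat.card σ : ℕ) : ℕ∞) := by
    have h := Ideal.height_le_card_of_mem_minimalPrimes_span (Set.finite_range _) hQ
    refine h.trans ?_
    rw [← Set.image_univ]
    exact_mod_cast (Set.ncard_image_le Set.finite_univ).trans (by rw [Set.ncard_univ])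
  refine ⟨Q, hQp, hQ.1.2, ?_, fun f hf => (hmem f).1 (hQM hf)⟩
  intro hX
  have hle2 : Q.comap Polynomial.C ≤ P := by
    intro a ha
    have := (hmem _).1 (hQM (Ideal.mem_comap.1 ha))
    simpa using this
  have hgQ : Ideal.span (Set.range g) ≤ Q.comap Polynomial.C := by
    rw [Ideal.span_le]
    rintro _ ⟨i, rfl⟩
    rw [SetLike.mem_coe, Ideal.mem_comap]
    have h2 : Polynomial.C (g i) +
        Polynomial.X * Polynomial.C ((X i : MvPolynomial σ K) ^ (M + 1)) ∈ Q :=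
      hQ.1.2 (Ideal.subset_span ⟨i, rfl⟩)
    have h3 : Polynomial.X * Polynomial.C ((X i : MvPolynomial σ K) ^ (M + 1)) ∈ Q :=
      Q.mul_mem_right _ hX
    exact (Ideal.add_mem_iff_left _ h3).1 h2
  have hPQ : P ≤ Q.comap Polynomial.C :=
    hmin.2 ⟨Ideal.comap_isPrime _ _, hgQ⟩ hle2
  have hMQ : MM ≤ Q := by
    intro f hf
    have h3 : Polynomial.C (f.coeff 0) ∈ Q := Ideal.mem_comap.1 (hPQ ((hmem f).1 hf))
    rw [← Polynomial.divX_mul_X_add f]
    exact Q.add_mem (Q.mul_mem_left _ hX) h3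
  have hEq : Q = MM := le_antisymm hQM hMQ
  rw [hEq, hht, h1 K σ P hP] at hQh
  have : ((Nat.card σ + 1 : ℕ) : ℕ∞) ≤ ((Nat.card σ : ℕ) : ℕ∞) := by exact_mod_cast hQh
  have h5 : Nat.card σ + 1 ≤ Nat.card σ := by exact_mod_cast this
  omega

end Pool.Agent.Work.MP_8da9ea_nt.SI
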