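import Pool.Agent.Work.MP_8da9ea_nt.SI.StmtsB

set_option autoImplicit false

namespace Pool.Agent.Work.MP_8da9ea_nt.SI

open MvPolynomial

namespace I_Loc

/-! ### Degrees -/

theorem deg_le {K L σ τ : Type} [Field K] [Field L]
    (φ : MvPolynomial σ K →+* MvPolynomial τ L) (hC : ∀ a, (φ (C a)).totalDegree = 0)
    (hX : ∀ i, (φ (X i)).totalDegree ≤ 1) (g : MvPolynomial σ K) :
    (φ g).totalDegree ≤ g.totalDegree := by
  conv_lhs => rw [g.as_sum, map_sum]
  refine totalDegree_finsetSum_le fun s hs => ?_
  rw [monomial_eq, map_mul]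
  refine (totalDegree_mul _ _).trans ?_
  rw [hC, zero_add, Finsupp.prod, map_prod]
  refine (totalDegree_finsetProd _ _).trans ?_
  refine le_trans ?_ (le_totalDegree hs)
  rw [Finsupp.sum]
  refine Finset.sum_le_sum fun i _ => ?_
  rw [map_pow]
  refine (totalDegree_pow _ _).trans ?_
  calc s i * (φ (X i)).totalDegree ≤ s i * 1 := Nat.mul_le_mul_left _ (hX i)
    _ = s i := mul_one _

/-! ### The maps -/

open Classical in
/-- splitting the variables -/
noncomputable def eqv {σ : Type} (S : Set σ) : σ ≃ {i : σ // i ∉ S} ⊕ S :=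
  ((Equiv.sumComm _ _).trans (Equiv.sumCompl (· ∈ S))).symm

theorem eqv_mem {σ : Type} (S : Set σ) (s : S) : eqv S s.1 = Sum.inr s := by
  rw [eqv, Equiv.symm_apply_eq]
  rfl

theorem eqv_not {σ : Type} (S : Set σ) (s : {i : σ // i ∉ S}) : eqv S s.1 = Sum.inl s := by
  rw [eqv, Equiv.symm_apply_eq]
  rfl

section

variable (K : Type) [Field K] {σ : Type} (S : Set σ)

/-- polynomials in the variables outside `S` -/
noncomputable def e : MvPolynomial σ K ≃+* MvPolynomial {i : σ // i ∉ S} (MvPolynomial S K) :=
  ((renameEquiv K (eqv S)).trans (sumAlgEquiv K _ _)).toRingEquiv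

theorem e_C (a : K) : e K S (C a) = C (C a) := by
  change sumAlgEquiv K _ _ (rename (eqv S) (C a)) = _
  rw [rename_C, sumAlgEquiv_C_inl]

theorem e_mem (s : S) : e K S (X s.1) = C (X s) := by
  change sumAlgEquiv K _ _ (rename (eqv S) (X s.1)) = _
  rw [rename_X, eqv_mem, sumAlgEquiv_X_inr]

theorem e_not (s : {i : σ // i ∉ S}) : e K S (X s.1) = X s := by
  change sumAlgEquiv K _ _ (rename (eqv S) (X s.1)) = _
  rw [rename_X, eqv_not, sumAlgEquiv_X_inl]

theorem e_rename (a : MvPolynomial S K) : e K S (rename (Subtype.val : S → σ) a) = C a := by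
  have : ((e K S : _ →+* _).comp (rename (Subtype.val : S → σ) :
      MvPolynomial S K →ₐ[K] MvPolynomial σ K).toRingHom) =
      (C : MvPolynomial S K →+* MvPolynomial {i : σ // i ∉ S} (MvPolynomial S K)) := by
    refine MvPolynomial.ringHom_ext (fun a => ?_) (fun s => ?_)
    · change e K S (rename _ (C a)) = _
      rw [rename_C, e_C]
    · change e K S (rename _ (X s)) = _
      rw [rename_X, e_mem]
  exact RingHom.congr_fun this a

/-- the field of rational functions in the variables of `S` -/
abbrev KK : Type := FractionRing (MvPolynomial S K)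

/-- the localisation -/
noncomputable def phi : MvPolynomial σ K →+* MvPolynomial {i : σ // i ∉ S} (KK K S) :=
  (MvPolynomial.map (algebraMap (MvPolynomial S K) (KK K S))).comp (e K S).toRingHom

theorem phi_C (a : K) : phi K S (C a) = C (algebraMap (MvPolynomial S K) (KK K S) (C a)) := by
  change MvPolynomial.map _ (e K S (C a)) = _
  rw [e_C, map_C]

theorem phi_mem (s : S) :
    phi K S (X s.1) = C (algebraMap (MvPolynomial S K) (KK K S) (X s)) := by
  change MvPolynomial.map _ (e K S (X s.1)) = _
  rw [e_mem, map_C]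

theorem phi_not (s : {i : σ // i ∉ S}) : phi K S (X s.1) = X s := by
  change MvPolynomial.map _ (e K S (X s.1)) = _
  rw [e_not, map_X]

theorem phi_deg (g : MvPolynomial σ K) : (phi K S g).totalDegree ≤ g.totalDegree := by
  refine deg_le _ (fun a => ?_) (fun i => ?_) g
  · rw [phi_C, totalDegree_C]
  · by_cases h : i ∈ S
    · rw [phi_mem K S ⟨i, h⟩, totalDegree_C]
      exact Nat.zero_le _
    · rw [phi_not K S ⟨i, h⟩, totalDegree_X]

/-- the multiplicative set -/
noncomputable def NN : Submonoid (MvPolynomial σ K) :=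
  ((nonZeroDivisors (MvPolynomial S K)).map
    (C : MvPolynomial S K →+* MvPolynomial {i : σ // i ∉ S} (MvPolynomial S K))).comap
    ((e K S).toRingHom : MvPolynomial σ K →* _)

theorem isLoc : @IsLocalization _ _ (NN K S) (MvPolynomial {i : σ // i ∉ S} (KK K S)) _
    (phi K S).toAlgebra := by
  letI := (phi K S).toAlgebra
  letI : Algebra (MvPolynomial {i : σ // i ∉ S} (MvPolynomial S K))
    (MvPolynomial {i : σ // i ∉ S} (KK K S)) := MvPolynomial.algebraMvPolynomial
  haveI : IsLocalization ((nonZeroDivisors (MvPolynomial S K)).map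
    (C : MvPolynomial S K →+* MvPolynomial {i : σ // i ∉ S} (MvPolynomial S K)))
    (MvPolynomial {i : σ // i ∉ S} (KK K S)) :=
    MvPolynomial.isLocalization (σ := {i : σ // i ∉ S}) (nonZeroDivisors (MvPolynomial S K)) (KK K S)
  refine IsLocalization.of_ringEquiv_left (e K S) (M₁ := (nonZeroDivisors (MvPolynomial S K)).map
    (C : MvPolynomial S K →+* MvPolynomial {i : σ // i ∉ S} (MvPolynomial S K))) ?_ (fun x => rfl)
  ext y
  constructor
  · rintro ⟨x, hx, rfl⟩
    exact hx
  · intro hy
    exact ⟨(e K S).symm y, by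
      change (e K S) ((e K S).symm y) ∈ (nonZeroDivisors (MvPolynomial S K)).map
        (C : MvPolynomial S K →+* MvPolynomial {i : σ // i ∉ S} (MvPolynomial S K))
      rwa [RingEquiv.apply_symm_apply], by simp⟩

theorem disj (P : Ideal (MvPolynomial σ K)) (hP : FreeFor P S) :
    Disjoint (NN K S : Set (MvPolynomial σ K)) (P : Set (MvPolynomial σ K)) := by
  rw [Set.disjoint_left]
  rintro x ⟨a, ha, hax⟩ hxP
  have hx : x = rename (Subtype.val : S → σ) a := by
    apply (e K S).injective
    rw [e_rename]
    exact hax.symm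
  rw [hx] at hxP
  have := hP a hxP
  rw [this] at ha
  exact nonZeroDivisors.ne_zero ha rfl

/-! ### Integrality -/

variable {K S}

open Classical in
/-- the variables of `insert j S` -/
noncomputable def io (j : σ) (x : (insert j S : Set σ)) : Option S :=
  if h : x.1 ∈ S then some ⟨x.1, h⟩ else none

/-- back -/
def oi (j : σ) (o : Option S) : σ := o.elim j Subtype.val

theorem oi_io (j : σ) (x : (insert j S : Set σ)) : oi j (io j x) = x.1 := by
  unfold io
  by_cases h : x.1 ∈ S
  · rw [dif_pos h]; rfl
  · rw [dif_neg h]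
    rcases x.2 with h' | h'
    · exact h'.symm
    · exact absurd h' h

theorem io_inj (j : σ) : Function.Injective (io (S := S) j) := by
  intro x y h
  apply Subtype.ext
  rw [← oi_io j x, ← oi_io j y, h]

theorem phi_oi (j : {i : σ // i ∉ S}) (g : MvPolynomial (Option S) K) :
    phi K S (rename (oi j.1) g) = Polynomial.aeval (R := KK K S) (X j)
      ((optionEquivLeft K S g).map (algebraMap (MvPolynomial S K) (KK K S))) := by
  have : ((phi K S).comp (rename (oi (S := S) j.1) :
      MvPolynomial (Option S) K →ₐ[K] MvPolynomial σ K).toRingHom) =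
      ((Polynomial.aeval (R := KK K S) (X j : MvPolynomial {i : σ // i ∉ S} (KK K S))).toRingHom.comp
        (Polynomial.mapRingHom (algebraMap (MvPolynomial S K) (KK K S)))).comp
        (optionEquivLeft K S).toAlgHom.toRingHom := by
    refine MvPolynomial.ringHom_ext (fun a => ?_) (fun s => ?_)
    · change phi K S (rename _ (C a)) = Polynomial.aeval (R := KK K S) (X j)
        ((optionEquivLeft K S (C a)).map (algebraMap (MvPolynomial S K) (KK K S)))
      rw [rename_C, phi_C, optionEquivLeft_C, Polynomial.map_C, Polynomial.aeval_C]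
      rfl
    · change phi K S (rename _ (X s)) = Polynomial.aeval (R := KK K S) (X j)
        ((optionEquivLeft K S (X s)).map (algebraMap (MvPolynomial S K) (KK K S)))
      rw [rename_X]
      cases s with
      | none =>
        rw [optionEquivLeft_X_none, Polynomial.map_X, Polynomial.aeval_X]
        exact phi_not K S j
      | some s =>
        rw [optionEquivLeft_X_some, Polynomial.map_C, Polynomial.aeval_C]
        exact phi_mem K S s
  exact RingHom.congr_fun this g

theorem fld {L τ D : Type} [Field L] [CommRing D] [IsDomain D] [Algebra L D]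
    (f : MvPolynomial τ L →ₐ[L] D) (hf : Function.Surjective f)
    (h : ∀ j, IsIntegral L (f (X j))) : IsField D := by
  have h1 : Algebra.IsIntegral L D := by
    constructor
    intro x
    obtain ⟨y, rfl⟩ := hf x
    induction y using MvPolynomial.induction_on with
    | C a =>
      have : f (C a) = algebraMap L D a := f.commutes a
      rw [this]
      exact isIntegral_algebraMap
    | add p q hp hq =>
      rw [map_add]
      exact hp.add hq
    | mul_X p i hp =>
      rw [map_mul]
      exact hp.mul (h i)
  exact isField_of_isIntegral_of_isField' (Field.toIsField L)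

theorem integral_X (P : Ideal (MvPolynomial σ K)) (hP : MaxFree P S) (j : {i : σ // i ∉ S}) :
    IsIntegral (KK K S) (Ideal.Quotient.mkₐ (KK K S) (P.map (phi K S)) (X j)) := by
  have h1 := hP.2 j.1 j.2
  unfold FreeFor at h1
  push Not at h1
  obtain ⟨f, hf, hf0⟩ := h1
  set g := rename (io (S := S) j.1) f with hg
  have hg0 : g ≠ 0 := by
    intro h
    apply hf0
    apply rename_injective _ (io_inj j.1)
    rw [← hg, h, map_zero]
  have hfg : rename (oi j.1) g = rename (Subtype.val : (insert j.1 S : Set σ) → σ) f := by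
    rw [hg, rename_rename]
    congr 1
    exact congrArg _ (funext fun x => oi_io j.1 x)
  set p := (optionEquivLeft K S g).map (algebraMap (MvPolynomial S K) (KK K S)) with hp
  have hp0 : p ≠ 0 := by
    rw [hp]
    intro h
    have hinj : Function.Injective (algebraMap (MvPolynomial S K) (KK K S)) :=
      IsFractionRing.injective _ _
    have := (Polynomial.map_injective _ hinj) (h.trans (Polynomial.map_zero _).symm)
    apply hg0
    exact (optionEquivLeft K S).injective (this.trans (map_zero _).symm)
  rw [← isAlgebraic_iff_isIntegral]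
  refine ⟨p, hp0, ?_⟩
  have h2 : Polynomial.aeval (R := KK K S) (X j : MvPolynomial {i : σ // i ∉ S} (KK K S)) p ∈
      P.map (phi K S) := by
    rw [hp, ← phi_oi, hfg]
    exact Ideal.mem_map_of_mem _ hf
  have h3 := Ideal.Quotient.eq_zero_iff_mem.2 h2
  rw [← h3]
  exact Polynomial.aeval_algHom_apply (Ideal.Quotient.mkₐ (KK K S) (P.map (phi K S))) (X j) p

theorem maxi (P : Ideal (MvPolynomial σ K)) (hP : MaxFree P S) (hp : (P.map (phi K S)).IsPrime) :
    (P.map (phi K S)).IsMaximal := by
  haveI := hp
  have h2 := fld (L := KK K S) (τ := {i : σ // i ∉ S})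
    (D := MvPolynomial {i : σ // i ∉ S} (KK K S) ⧸ P.map (phi K S))
    (Ideal.Quotient.mkₐ (KK K S) (P.map (phi K S)))
    (Ideal.Quotient.mkₐ_surjective _ _) (fun j => integral_X P hP j)
  exact Ideal.Quotient.maximal_of_isField _ h2

end

end I_Loc

open I_Loc in
theorem Loc_pf : S_Loc := by
  intro K _ _ σ _ S
  refine ⟨KK K S, inferInstance, ?_, phi K S, phi_deg K S, ?_⟩
  · exact Infinite.of_injective (fun a : K => algebraMap (MvPolynomial S K) (KK K S) (C a))
      ((IsFractionRing.injective _ _).comp (C_injective _ _))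
  · intro P hP hM
    letI := (phi K S).toAlgebra
    haveI := isLoc K S
    haveI := hP
    have hd := disj K S P hM.1
    have h1 : (P.map (phi K S)).IsPrime :=
      IsLocalization.isPrime_of_isPrime_disjoint (NN K S)
        (MvPolynomial {i : σ // i ∉ S} (KK K S)) P hP hd
    have h2 : (P.map (phi K S)).comap (phi K S) = P :=
      IsLocalization.under_map_of_isPrime_disjoint (NN K S)
        (MvPolynomial {i : σ // i ∉ S} (KK K S)) hP hd
    refine ⟨maxi P hM h1, h2, IsLocalization.height_map_of_disjoint (NN K S) P hd, ?_⟩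
    intro I hI
    have h3 := IsLocalization.minimalPrimes_map (NN K S)
      (MvPolynomial {i : σ // i ∉ S} (KK K S)) I
    have h4 : P.map (phi K S) ∈ (Ideal.under (MvPolynomial σ K)) ⁻¹' I.minimalPrimes := by
      change (P.map (phi K S)).comap (phi K S) ∈ I.minimalPrimes
      rw [h2]
      exact hI
    rw [← h3] at h4
    exact h4

end Pool.Agent.Work.MP_8da9ea_nt.SI
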