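import Pool.Agent.Work.MP_8da9ea_nt.SI.StmtsB

/-!
# PROJECT SI, part B, item Red

Reduction modulo `defIdeal M g` to the monomials with all exponents `<= M`.
-/

set_option autoImplicit false

namespace Pool.Agent.Work.MP_8da9ea_nt.SI

open MvPolynomial

namespace I_Red

variable {K : Type} [Field K] {σ : Type} [Fintype σ] [DecidableEq σ]

/-- the reduced combination with coefficients `b` -/
noncomputable def comb (M : ℕ) (b : (σ → Fin (M + 1)) → Polynomial K) :
    Polynomial (MvPolynomial σ K) :=
  ∑ α : σ → Fin (M + 1), (b α).map (MvPolynomial.C : K →+* MvPolynomial σ K) *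
            Polynomial.C (∏ i, (X i : MvPolynomial σ K) ^ ((α i : ℕ)))

/-- the property of the statement -/
def Good (M : ℕ) (g : σ → MvPolynomial σ K) (f : MvPolynomial σ K) : Prop :=
  ∃ (t : ℕ) (b : (σ → Fin (M + 1)) → Polynomial K),
    Polynomial.X ^ t * Polynomial.C f - comb M b ∈ defIdeal M g

theorem comb_add (M : ℕ) (b c : (σ → Fin (M + 1)) → Polynomial K) :
    comb M (fun α => b α + c α) = comb M b + comb M c := by
  unfold comb
  rw [← Finset.sum_add_distrib]
  refine Finset.sum_congr rfl fun α _ => ?_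
  rw [Polynomial.map_add, add_mul]

theorem comb_mul (M : ℕ) (p : Polynomial K) (b : (σ → Fin (M + 1)) → Polynomial K) :
    comb M (fun α => p * b α) = p.map (MvPolynomial.C : K →+* MvPolynomial σ K) * comb M b := by
  unfold comb
  rw [Finset.mul_sum]
  refine Finset.sum_congr rfl fun α _ => ?_
  rw [Polynomial.map_mul, mul_assoc]

theorem comb_neg (M : ℕ) (b : (σ → Fin (M + 1)) → Polynomial K) :
    comb M (fun α => - b α) = - comb M b := by
  unfold comb
  rw [← Finset.sum_neg_distrib]
  refine Finset.sum_congr rfl fun α _ => ?_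
  rw [Polynomial.map_neg]
  ring

theorem good_zero (M : ℕ) (g : σ → MvPolynomial σ K) : Good M g 0 := by
  refine ⟨0, fun _ => 0, ?_⟩
  have : comb (σ := σ) M (fun _ => (0 : Polynomial K)) = 0 := by
    unfold comb
    exact Finset.sum_eq_zero fun α _ => by rw [Polynomial.map_zero, zero_mul]
  rw [this, Polynomial.C_0, mul_zero, sub_zero]
  exact Ideal.zero_mem _

theorem good_add (M : ℕ) (g : σ → MvPolynomial σ K) {f₁ f₂ : MvPolynomial σ K}
    (h₁ : Good M g f₁) (h₂ : Good M g f₂) : Good M g (f₁ + f₂) := by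
  obtain ⟨t₁, b₁, h₁⟩ := h₁
  obtain ⟨t₂, b₂, h₂⟩ := h₂
  refine ⟨t₁ + t₂, fun α => Polynomial.X ^ t₂ * b₁ α + Polynomial.X ^ t₁ * b₂ α, ?_⟩
  rw [comb_add, comb_mul, comb_mul]
  have e : (Polynomial.X ^ (t₁ + t₂) * Polynomial.C (f₁ + f₂)
      - ((Polynomial.X ^ t₂ : Polynomial K).map (MvPolynomial.C : K →+* MvPolynomial σ K) *
          comb M b₁ +
        (Polynomial.X ^ t₁ : Polynomial K).map (MvPolynomial.C : K →+* MvPolynomial σ K) *
          comb M b₂) : Polynomial (MvPolynomial σ K))
      = Polynomial.X ^ t₂ * (Polynomial.X ^ t₁ * Polynomial.C f₁ - comb M b₁)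
        + Polynomial.X ^ t₁ * (Polynomial.X ^ t₂ * Polynomial.C f₂ - comb M b₂) := by
    rw [Polynomial.map_pow, Polynomial.map_X, Polynomial.map_pow, Polynomial.map_X,
      Polynomial.C_add]
    ring
  rw [e]
  exact Ideal.add_mem _ (Ideal.mul_mem_left _ _ h₁) (Ideal.mul_mem_left _ _ h₂)

theorem good_sum (M : ℕ) (g : σ → MvPolynomial σ K) {ι : Type*} (s : Finset ι)
    (f : ι → MvPolynomial σ K) (h : ∀ i ∈ s, Good M g (f i)) : Good M g (∑ i ∈ s, f i) := by
  classical
  induction s using Finset.induction_on with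
  | empty => simpa using good_zero M g
  | insert a s ha ih =>
    rw [Finset.sum_insert ha]
    exact good_add M g (h a (Finset.mem_insert_self a s))
      (ih fun i hi => h i (Finset.mem_insert_of_mem hi))

/-- monomials with small exponents -/
theorem good_small (M : ℕ) (g : σ → MvPolynomial σ K) (s : σ →₀ ℕ) (a : K)
    (hs : ∀ i, s i ≤ M) : Good M g (monomial s a) := by
  refine ⟨0, fun α => if α = (fun i => (⟨s i, Nat.lt_succ_of_le (hs i)⟩ : Fin (M + 1))) then
    Polynomial.C a else 0, ?_⟩
  have e : comb (σ := σ) M (fun α => if α = (fun i => (⟨s i, Nat.lt_succ_of_le (hs i)⟩ :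
      Fin (M + 1))) then Polynomial.C a else (0 : Polynomial K)) =
      Polynomial.C (monomial s a) := by
    unfold comb
    rw [Finset.sum_eq_single (fun i => (⟨s i, Nat.lt_succ_of_le (hs i)⟩ : Fin (M + 1)))]
    · beta_reduce
      rw [if_pos rfl, Polynomial.map_C, ← Polynomial.C_mul]
      congr 1
      rw [MvPolynomial.monomial_eq]
      congr 1
      rw [Finsupp.prod_fintype]
      intro i
      exact pow_zero _
    · intro α _ hα
      beta_reduce
      rw [if_neg hα, Polynomial.map_zero, zero_mul]
    · intro h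
      exact absurd (Finset.mem_univ _) h
  rw [e, pow_zero, one_mul, sub_self]
  exact Ideal.zero_mem _

/-- the reduction step -/
theorem good_step (M : ℕ) (g : σ → MvPolynomial σ K) (s : σ →₀ ℕ) (a : K) (i : σ)
    (h : Good M g (monomial s a * g i)) :
    Good M g (monomial s a * (X i : MvPolynomial σ K) ^ (M + 1)) := by
  obtain ⟨t, b, hb⟩ := h
  refine ⟨t + 1, fun α => - b α, ?_⟩
  rw [comb_neg]
  have e : (Polynomial.X ^ (t + 1) *
        Polynomial.C (monomial s a * (X i : MvPolynomial σ K) ^ (M + 1)) - - comb M b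
        : Polynomial (MvPolynomial σ K))
      = Polynomial.X ^ t * Polynomial.C (monomial s a) *
          (Polynomial.C (g i) + Polynomial.X * Polynomial.C ((X i : MvPolynomial σ K) ^ (M + 1)))
        - (Polynomial.X ^ t * Polynomial.C (monomial s a * g i) - comb M b) := by
    rw [Polynomial.C_mul, Polynomial.C_mul]
    ring
  rw [e]
  refine Ideal.sub_mem _ (Ideal.mul_mem_left _ _ ?_) hb
  exact Ideal.subset_span ⟨i, rfl⟩

theorem good_all (M : ℕ) (g : σ → MvPolynomial σ K) (hg : ∀ i, (g i).totalDegree ≤ M) :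
    ∀ n : ℕ, ∀ f : MvPolynomial σ K, f.totalDegree ≤ n → Good M g f := by
  intro n
  induction n using Nat.strong_induction_on with
  | _ n ih =>
    intro f hf
    rw [MvPolynomial.as_sum f]
    refine good_sum M g _ _ fun s hs => ?_
    by_cases hsm : ∀ i, s i ≤ M
    · exact good_small M g s _ hsm
    · obtain ⟨i, hi⟩ := not_forall.1 hsm
      rw [not_le] at hi
      have hle : Finsupp.single i (M + 1) ≤ s := Finsupp.single_le_iff.2 hi
      obtain ⟨s', rfl⟩ := exists_add_of_le hle
      have hdeg : (Finsupp.single i (M + 1) + s').sum (fun _ e => e) ≤ n :=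
        (MvPolynomial.le_totalDegree hs).trans hf
      have hsplit : (Finsupp.single i (M + 1) + s').sum (fun _ e => e) =
          (M + 1) + s'.sum (fun _ e => e) := by
        rw [Finsupp.sum_add_index' (fun _ => rfl) (fun _ _ _ => rfl), Finsupp.sum_single_index rfl]
      have hmon : (monomial (Finsupp.single i (M + 1) + s')
          (coeff (Finsupp.single i (M + 1) + s') f) : MvPolynomial σ K) =
          monomial s' (coeff (Finsupp.single i (M + 1) + s') f) *
            (X i : MvPolynomial σ K) ^ (M + 1) := by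
        rw [MvPolynomial.X_pow_eq_monomial, MvPolynomial.monomial_mul, mul_one, add_comm]
      rw [hmon]
      refine good_step M g s' _ i ?_
      refine ih (s'.sum (fun _ e => e) + M) (by omega) _ ?_
      refine (MvPolynomial.totalDegree_mul _ _).trans ?_
      refine Nat.add_le_add ?_ (hg i)
      exact MvPolynomial.totalDegree_monomial_le _ _

end I_Red

/-- **Red.** -/
theorem Red_pf : S_Red := by
  intro K _ σ _ _ M g hg f
  exact I_Red.good_all M g hg f.totalDegree f le_rfl

end Pool.Agent.Work.MP_8da9ea_nt.SI
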