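import Pool.Agent.Work.MP_8da9ea_nt.SI.StmtsB

/-!
Item Sq: reduction to square systems (S_Sq).
-/

set_option autoImplicit false

namespace Pool.Agent.Work.MP_8da9ea_nt.SI

open MvPolynomial

namespace I_Sq

/-- A generic vector of `V` avoids finitely many ideals which do not contain `G`. -/
theorem avoid {K : Type} [Field K] [Infinite K] {R : Type} [CommRing R] [Algebra K R]
    (G : Set R) (T : Set (Ideal R)) (hT : T.Finite) (hG : ∀ q ∈ T, ¬ G ⊆ q) :
    ∃ v ∈ Submodule.span K G, ∀ q ∈ T, v ∉ q := by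
  classical
  have : Finite T := hT
  by_contra hcon
  push Not at hcon
  have hcov : ⋃ q : T, (((q.1.restrictScalars K).comap (Submodule.span K G).subtype :
      Submodule K (Submodule.span K G)) : Set (Submodule.span K G)) = Set.univ := by
    rw [Set.eq_univ_iff_forall]
    rintro ⟨v, hv⟩
    obtain ⟨q, hq, hvq⟩ := hcon v hv
    rw [Set.mem_iUnion]
    exact ⟨⟨q, hq⟩, hvq⟩
  obtain ⟨q, hq⟩ := Subspace.exists_eq_top_of_iUnion_eq_univ hcov
  refine hG q.1 q.2 ?_
  intro g hg
  have h1 : (⟨g, Submodule.subset_span hg⟩ : Submodule.span K G) ∈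
      ((q.1.restrictScalars K).comap (Submodule.span K G).subtype) := by
    rw [hq]
    exact Submodule.mem_top
  exact h1

theorem step {K : Type} [Field K] [Infinite K] {R : Type} [CommRing R] [IsNoetherianRing R]
    [Algebra K R] (G : Set R) (j : ℕ) :
    ∃ g : Fin j → R, (∀ i, g i ∈ Submodule.span K G) ∧ ∀ q : Ideal R, q.IsPrime →
      (∀ i, g i ∈ q) → (j : ℕ∞) ≤ q.height ∨ G ⊆ q := by
  classical
  induction j with
  | zero => exact ⟨Fin.elim0, fun i => i.elim0, fun q _ _ => Or.inl (by simp)⟩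
  | succ j ih =>
    obtain ⟨g, hgV, hg⟩ := ih
    obtain ⟨v, hvV, hv⟩ := avoid (K := K) G
      {q | q ∈ (Ideal.span (Set.range g)).minimalPrimes ∧ ¬ G ⊆ q}
      ((Ideal.finite_minimalPrimes_of_isNoetherianRing R _).subset (fun q hq => hq.1))
      (fun q hq => hq.2)
    refine ⟨Fin.snoc g v, ?_, ?_⟩
    · intro i
      refine Fin.lastCases ?_ (fun i => ?_) i
      · rw [Fin.snoc_last]; exact hvV
      · rw [Fin.snoc_castSucc]; exact hgV i
    · intro q hq hgq
      have hvq : v ∈ q := by
        have := hgq (Fin.last j)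
        rwa [Fin.snoc_last] at this
      have hgq' : ∀ i, g i ∈ q := by
        intro i
        have := hgq i.castSucc
        rwa [Fin.snoc_castSucc] at this
      have hle : Ideal.span (Set.range g) ≤ q := by
        rw [Ideal.span_le]
        rintro _ ⟨i, rfl⟩
        exact hgq' i
      obtain ⟨q0, hq0, hq0q⟩ := Ideal.exists_minimalPrimes_le hle
      have hq0p : q0.IsPrime := hq0.1.1
      by_cases hGq : G ⊆ (q0 : Set R)
      · exact Or.inr (hGq.trans hq0q)
      · left
        have h1 : (j : ℕ∞) ≤ q0.height := by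
          rcases hg q0 hq0p (fun i => hq0.1.2 (Ideal.subset_span ⟨i, rfl⟩)) with h | h
          · exact h
          · exact absurd h hGq
        have hvq0 : v ∉ q0 := hv q0 ⟨hq0, hGq⟩
        have hlt : q0 < q := lt_of_le_of_ne hq0q (fun e => hvq0 (e ▸ hvq))
        have h2 := Ideal.height_add_one_le_of_lt_of_isPrime hlt
        calc ((j + 1 : ℕ) : ℕ∞) = (j : ℕ∞) + 1 := by push_cast; rfl
          _ ≤ q0.height + 1 := by gcongr
          _ ≤ q.height := h2

end I_Sq

open I_Sq in
theorem Sq_pf (h1 : S_B1) : S_Sq := by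
  classical
  intro K _ _ σ _ M G hG F hF
  obtain ⟨g, hgV, hg⟩ := step (K := K) G (Fintype.card σ)
  have hVM : Submodule.span K G ≤ restrictTotalDegree σ K M := by
    rw [Submodule.span_le]
    intro f hf
    exact (mem_restrictTotalDegree σ M f).2 (hG f hf)
  let e := Fintype.equivFin σ
  refine ⟨fun i => g (e i), fun i => (mem_restrictTotalDegree σ M _).1 (hVM (hgV _)), ?_⟩
  intro P hP
  obtain ⟨hPm, hPG⟩ := hF P hP
  have : P.IsPrime := hPm.isPrime
  have hVP : ∀ f ∈ Submodule.span K G, f ∈ P := by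
    intro f hf
    have h2 : Submodule.span K G ≤ P.restrictScalars K := by
      rw [Submodule.span_le]
      intro f hf
      exact hPG.1.2 (Ideal.subset_span hf)
    exact h2 hf
  have hle : Ideal.span (Set.range fun i => g (e i)) ≤ P := by
    rw [Ideal.span_le]
    rintro _ ⟨i, rfl⟩
    exact hVP _ (hgV _)
  obtain ⟨q, hq, hqP⟩ := Ideal.exists_minimalPrimes_le hle
  have hqp : q.IsPrime := hq.1.1
  have hqe : q = P := by
    rcases hg q hqp (fun i => by
      have h2 : g i = g (e (e.symm i)) := by simp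
      rw [h2]
      exact hq.1.2 (Ideal.subset_span ⟨e.symm i, rfl⟩)) with h | h
    · by_contra hne
      have hlt : q < P := lt_of_le_of_ne hqP hne
      have h2 := Ideal.height_add_one_le_of_lt_of_isPrime hlt
      have h3 := h1 K σ P hPm
      rw [h3, Nat.card_eq_fintype_card] at h2
      have h4 : ((Fintype.card σ : ℕ) : ℕ∞) + 1 ≤ ((Fintype.card σ : ℕ) : ℕ∞) :=
        le_trans (by gcongr) h2
      have h5 : (((Fintype.card σ + 1 : ℕ)) : ℕ∞) ≤ ((Fintype.card σ : ℕ) : ℕ∞) := by
        push_cast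
        exact h4
      have h6 : Fintype.card σ + 1 ≤ Fintype.card σ := by exact_mod_cast h5
      omega
    · have h2 : Ideal.span G ≤ q := Ideal.span_le.2 h
      exact le_antisymm hqP (hPG.2 ⟨hqp, h2⟩ hqP)
  rw [← hqe]
  exact hq

end Pool.Agent.Work.MP_8da9ea_nt.SI
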