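import Pool.Agent.Work.MP_8da9ea_nt.SI.StmtsB

set_option autoImplicit false

namespace Pool.Agent.Work.MP_8da9ea_nt.SI

open MvPolynomial

namespace I_Stab

variable {K : Type} [Field K] {σ : Type}

theorem tr_comp (v w : σ → K) : (tr v).comp (tr w) = tr (v + w) := by
  apply MvPolynomial.algHom_ext
  intro i
  simp only [tr, AlgHom.comp_apply, aeval_X, map_add, algHom_C, algebraMap_eq, Pi.add_apply]
  ring

theorem tr_zero : tr (0 : σ → K) = AlgHom.id K _ := by
  apply MvPolynomial.algHom_ext
  intro i
  simp [tr]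

theorem tr_tr (v w : σ → K) (f : MvPolynomial σ K) : tr v (tr w f) = tr (v + w) f := by
  rw [← tr_comp]
  rfl

/-- `f(x + T v)` -/
noncomputable def psi (v : σ → K) : MvPolynomial σ K →+* Polynomial (MvPolynomial σ K) :=
  eval₂Hom (Polynomial.C.comp (C : K →+* MvPolynomial σ K))
    fun i => Polynomial.C (X i) + Polynomial.X * Polynomial.C (C (v i))

theorem eval_psi (v : σ → K) (t : K) (f : MvPolynomial σ K) :
    Polynomial.eval (C t) (psi v f) = tr (t • v) f := by
  have h : (Polynomial.evalRingHom (C t : MvPolynomial σ K)).comp (psi v) =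
      (tr (t • v)).toRingHom := by
    apply MvPolynomial.ringHom_ext
    · intro c
      simp [psi, tr]
    · intro i
      simp [psi, tr]
      exact mul_comm _ _
  exact RingHom.congr_fun h f

theorem mkC_inj {P : Ideal (MvPolynomial σ K)} (hP : P.IsPrime) :
    Function.Injective ((Ideal.Quotient.mk P).comp (C : K →+* MvPolynomial σ K)) := by
  have : Nontrivial (MvPolynomial σ K ⧸ P) := Ideal.Quotient.nontrivial_iff.2 hP.ne_top
  exact RingHom.injective _

theorem key [CharZero K] {P : Ideal (MvPolynomial σ K)} (hP : P.IsPrime) {v : σ → K}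
    (hv : ∀ n : ℕ, ∀ f ∈ P, tr ((n : K) • v) f ∈ P) (t : K) {f : MvPolynomial σ K}
    (hf : f ∈ P) : tr (t • v) f ∈ P := by
  have hg : ∀ t : K, ((psi v f).map (Ideal.Quotient.mk P)).eval (Ideal.Quotient.mk P (C t)) =
      Ideal.Quotient.mk P (tr (t • v) f) := by
    intro t
    rw [← eval_psi, Polynomial.eval_map, Polynomial.eval₂_hom]
  have hz : (psi v f).map (Ideal.Quotient.mk P) = 0 := by
    have hd : IsDomain (MvPolynomial σ K ⧸ P) := Ideal.Quotient.isDomain P
    apply Polynomial.eq_zero_of_infinite_isRoot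
    refine Set.infinite_of_injective_forall_mem
      (f := fun n : ℕ => Ideal.Quotient.mk P (C (n : K))) ?_ ?_
    · intro a b hab
      exact Nat.cast_injective (mkC_inj hP hab)
    · intro n
      show Polynomial.eval _ _ = 0
      rw [hg, Ideal.Quotient.eq_zero_iff_mem]
      exact hv n f hf
  have h1 := hg t
  rw [hz, Polynomial.eval_zero] at h1
  exact Ideal.Quotient.eq_zero_iff_mem.1 h1.symm

theorem tr_neg_tr (v : σ → K) (f : MvPolynomial σ K) : tr (-v) (tr v f) = f := by
  rw [tr_tr, neg_add_cancel, tr_zero, AlgHom.id_apply]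

theorem tr_tr_neg (v : σ → K) (f : MvPolynomial σ K) : tr v (tr (-v) f) = f := by
  rw [tr_tr, add_neg_cancel, tr_zero, AlgHom.id_apply]

theorem comap_iff {P : Ideal (MvPolynomial σ K)} {v : σ → K} :
    P.comap (tr v) = P ↔ (∀ f ∈ P, tr v f ∈ P) ∧ ∀ f ∈ P, tr (-v) f ∈ P := by
  constructor
  · intro h
    refine ⟨fun f hf => ?_, fun f hf => ?_⟩
    · rw [← h, Ideal.mem_comap] at hf
      exact hf
    · rw [← h, Ideal.mem_comap, tr_tr_neg]
      exact hf
  · rintro ⟨h1, h2⟩
    ext f
    rw [Ideal.mem_comap]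
    constructor
    · intro hf
      have h3 := h2 _ hf
      rw [tr_neg_tr] at h3
      exact h3
    · intro hf
      exact h1 f hf

/-- the stabiliser -/
def stab [CharZero K] (P : Ideal (MvPolynomial σ K)) (hP : P.IsPrime) :
    Submodule K (σ → K) where
  carrier := {v | P.comap (tr v) = P}
  zero_mem' := by
    rw [Set.mem_ofPred_eq, comap_iff, neg_zero]
    exact ⟨fun f hf => by rw [tr_zero, AlgHom.id_apply]; exact hf,
      fun f hf => by rw [tr_zero, AlgHom.id_apply]; exact hf⟩
  add_mem' := by
    intro v w hv hw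
    have hv' := comap_iff.1 hv
    have hw' := comap_iff.1 hw
    rw [Set.mem_ofPred_eq, comap_iff]
    refine ⟨fun f hf => ?_, fun f hf => ?_⟩
    · rw [← tr_tr]
      exact hv'.1 _ (hw'.1 _ hf)
    · rw [neg_add, ← tr_tr]
      exact hv'.2 _ (hw'.2 _ hf)
  smul_mem' := by
    intro t v hv
    have hv' := comap_iff.1 hv
    have hn : ∀ n : ℕ, ∀ f ∈ P, tr ((n : K) • v) f ∈ P := by
      intro n
      induction n with
      | zero =>
        intro f hf
        rw [Nat.cast_zero, zero_smul, tr_zero, AlgHom.id_apply]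
        exact hf
      | succ n ih =>
        intro f hf
        rw [Nat.cast_succ, add_smul, one_smul, ← tr_tr]
        exact ih _ (hv'.1 _ hf)
    rw [Set.mem_ofPred_eq, comap_iff]
    refine ⟨fun f hf => key hP hn t hf, fun f hf => ?_⟩
    rw [← neg_smul]
    exact key hP hn (-t) hf

/-- a set of coordinates onto which `U` projects isomorphically -/
theorem coords [Finite σ] (U : Submodule K (σ → K)) :
    ∃ T : Set σ, Module.finrank K U ≤ T.ncard ∧ ∀ w : T → K, ∃ v ∈ U, ∀ j : T, v j = w j := by
  classical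
  have := Fintype.ofFinite σ
  obtain ⟨κ, a, ha, hspan, hli⟩ := exists_linearIndependent' K
    (fun i : σ => ((LinearMap.proj i : (σ → K) →ₗ[K] K).comp U.subtype : Module.Dual K U))
  have : Finite κ := Finite.of_injective a ha
  have := Fintype.ofFinite κ
  let φ : U →ₗ[K] (κ → K) := LinearMap.pi fun j => (LinearMap.proj (a j)).comp U.subtype
  have hφ : ∀ (u : U) (j : κ), φ u j = (u : σ → K) (a j) := fun u j => rfl
  have hinj : Function.Injective φ := by
    rw [← LinearMap.ker_eq_bot, LinearMap.ker_eq_bot']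
    intro u hu
    have h1 : ∀ ψ ∈ Submodule.span K (Set.range
        (fun i : σ => ((LinearMap.proj i : (σ → K) →ₗ[K] K).comp U.subtype : Module.Dual K U))),
        ψ u = 0 := by
      rw [← hspan]
      intro ψ hψ
      induction hψ using Submodule.span_induction with
      | mem x hx =>
        obtain ⟨j, rfl⟩ := hx
        exact congrFun hu j
      | zero => rfl
      | add x y _ _ hx hy => rw [LinearMap.add_apply, hx, hy, add_zero]
      | smul c x _ hx => rw [LinearMap.smul_apply, hx, smul_zero]
    apply Subtype.ext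
    funext i
    exact h1 _ (Submodule.subset_span ⟨i, rfl⟩)
  have hsur : Function.Surjective φ := by
    rw [← LinearMap.dualMap_injective_iff, ← LinearMap.ker_eq_bot, LinearMap.ker_eq_bot']
    intro ψ hψ
    have h2 : ∑ j, ψ (Pi.single j 1) • ((fun i : σ =>
        ((LinearMap.proj i : (σ → K) →ₗ[K] K).comp U.subtype : Module.Dual K U)) ∘ a) j = 0 := by
      apply LinearMap.ext
      intro u
      have h3 : ψ (φ u) = 0 := LinearMap.congr_fun hψ u
      rw [LinearMap.sum_apply, LinearMap.zero_apply, ← h3]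
      have h4 : φ u = ∑ j, (φ u j) • (Pi.single j (1 : K) : κ → K) := by
        funext i
        simp [Finset.sum_apply, Pi.single_apply]
      conv_rhs => rw [h4, map_sum]
      refine Finset.sum_congr rfl fun j _ => ?_
      rw [map_smul, smul_eq_mul, LinearMap.smul_apply, smul_eq_mul, mul_comm]
      rfl
    have h5 := Fintype.linearIndependent_iff.1 hli _ h2
    apply LinearMap.pi_ext'
    intro j
    apply LinearMap.ext_ring
    simpa using h5 j
  refine ⟨Set.range a, ?_, ?_⟩
  · have h6 := LinearMap.finrank_le_finrank_of_injective hinj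
    rw [Module.finrank_fintype_fun_eq_card] at h6
    rw [← Nat.card_coe_set_eq, Nat.card_range_of_injective ha, Nat.card_eq_fintype_card]
    exact h6
  · intro w
    obtain ⟨u, hu⟩ := hsur fun j => w ⟨a j, j, rfl⟩
    refine ⟨u, u.2, ?_⟩
    rintro ⟨_, j, rfl⟩
    exact congrFun hu j

/-- these coordinates are free -/
theorem free_coords [CharZero K] {P : Ideal (MvPolynomial σ K)} (hP : P.IsPrime) (T : Set σ)
    (hT : ∀ w : T → K, ∃ v : σ → K, P.comap (tr v) = P ∧ ∀ j : T, v j = w j) :
    FreeFor P T := by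
  intro f hf
  have hinf : Infinite K := Infinite.of_injective (Nat.cast : ℕ → K) Nat.cast_injective
  have hd : IsDomain (MvPolynomial σ K ⧸ P) := Ideal.Quotient.isDomain P
  set mk := Ideal.Quotient.mk P with hmk
  set ι : K →+* MvPolynomial σ K ⧸ P := mk.comp (C : K →+* MvPolynomial σ K) with hι
  have hιi : Function.Injective ι := mkC_inj hP
  -- `f(Y + x)` over the quotient
  let Φ : MvPolynomial T K →+* MvPolynomial T (MvPolynomial σ K ⧸ P) :=
    eval₂Hom ((C : (MvPolynomial σ K ⧸ P) →+* _).comp ι) fun j => X j + C (mk (X (j : σ)))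
  have h1 : ∀ w : T → K, eval (fun j => ι (w j)) (Φ f) = 0 := by
    intro w
    obtain ⟨v, hv, hvw⟩ := hT w
    have h2 : tr v (rename (Subtype.val : T → σ) f) ∈ P := (comap_iff.1 hv).1 _ hf
    have h3 : (eval fun j => ι (w j)).comp Φ =
        (mk.comp (tr v).toRingHom).comp (rename (Subtype.val : T → σ)).toRingHom := by
      apply MvPolynomial.ringHom_ext
      · intro c
        simp [Φ, tr, hι]
      · intro j
        simp [Φ, tr, hι, hvw, add_comm]
    have h4 : eval (fun j => ι (w j)) (Φ f) =
        mk (tr v (rename (Subtype.val : T → σ) f)) := RingHom.congr_fun h3 f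
    rw [h4]
    exact Ideal.Quotient.eq_zero_iff_mem.2 h2
  have h5 : Φ f = 0 := by
    refine MvPolynomial.funext_set (fun _ => Set.range ι) (fun _ => ?_) ?_
    · exact Set.infinite_range_of_injective hιi
    · intro x hx
      have h6 : ∀ j, ∃ c, ι c = x j := fun j => hx j (Set.mem_univ j)
      choose w hw using h6
      have h7 : x = fun j => ι (w j) := funext fun j => (hw j).symm
      rw [h7, h1, map_zero]
  let Θ : MvPolynomial T (MvPolynomial σ K ⧸ P) →+* MvPolynomial T (MvPolynomial σ K ⧸ P) :=
    eval₂Hom C fun j => X j - C (mk (X (j : σ)))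
  have h8 : Θ.comp Φ = MvPolynomial.map ι := by
    apply MvPolynomial.ringHom_ext
    · intro c
      simp [Φ, Θ]
    · intro j
      simp [Φ, Θ]
  have h9 : MvPolynomial.map ι f = 0 := by
    rw [← h8, RingHom.comp_apply, h5, map_zero]
  exact (MvPolynomial.map_injective ι hιi) (by rw [h9, map_zero])

end I_Stab

open I_Stab in
theorem Stab_pf (h1 : S_Free) : S_Stab := by
  intro K _ _ σ _ P hP
  have hinf : Infinite K := Infinite.of_injective (Nat.cast : ℕ → K) Nat.cast_injective
  refine ⟨stab P hP, fun v => Iff.rfl, ?_⟩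
  obtain ⟨T, hTc, hTs⟩ := coords (stab P hP)
  have hT : FreeFor P T := free_coords hP T fun w => by
    obtain ⟨v, hv, hvw⟩ := hTs w
    exact ⟨v, hv, hvw⟩
  obtain ⟨S, hTS, hS⟩ := (Set.toFinite {S : Set σ | FreeFor P S}).exists_le_maximal hT
  have hmax : MaxFree P S := by
    refine ⟨hS.1, fun i hi hfr => hi ?_⟩
    exact hS.2 hfr (Set.subset_insert i S) (Set.mem_insert i S)
  rw [h1 K σ P S hP hmax]
  have h2 : Nat.card {i : σ // i ∉ S} + S.ncard = Fintype.card σ := by
    have h3 : Nat.card {i : σ // i ∉ S} = Sᶜ.ncard := rfl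
    rw [h3, add_comm, Set.ncard_add_ncard_compl, Nat.card_eq_fintype_card]
  have h4 : T.ncard ≤ S.ncard := Set.ncard_le_ncard hTS (Set.toFinite S)
  have h5 : Nat.card {i : σ // i ∉ S} + Module.finrank K (stab P hP) ≤ Fintype.card σ := by
    omega
  exact_mod_cast h5

end Pool.Agent.Work.MP_8da9ea_nt.SI
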