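import Pool.Agent.Work.MP_8da9ea_nt.SI.StmtsB

set_option autoImplicit false

namespace Pool.Agent.Work.MP_8da9ea_nt.SI

namespace I_ZE

open MvPolynomial

variable {K : Type} [Field K] {σ : Type}

lemma tr_X (v : σ → K) (i : σ) : tr v (X i : MvPolynomial σ K) = X i + C (v i) := by
  simp [tr]

lemma tr_tr (v w : σ → K) (f : MvPolynomial σ K) : tr v (tr w f) = tr (v + w) f := by
  have : ((tr v).comp (tr w) : MvPolynomial σ K →ₐ[K] MvPolynomial σ K) = tr (v + w) := by
    ext i
    simp only [AlgHom.comp_apply, tr_X, map_add, Pi.add_apply]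
    have h : (tr v) (C (w i)) = (C (w i) : MvPolynomial σ K) := (tr v).commutes (w i)
    rw [h, add_assoc]
  exact congrArg (fun F : MvPolynomial σ K →ₐ[K] MvPolynomial σ K => F f) this

lemma tr_zero (f : MvPolynomial σ K) : tr (0 : σ → K) f = f := by
  have : (tr (0 : σ → K) : MvPolynomial σ K →ₐ[K] MvPolynomial σ K) = AlgHom.id K _ := by
    ext i
    simp [tr_X]
  exact congrArg (fun F : MvPolynomial σ K →ₐ[K] MvPolynomial σ K => F f) this

/-- translation as a ring equivalence -/
noncomputable def trE (v : σ → K) : MvPolynomial σ K ≃+* MvPolynomial σ K where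
  toFun := tr v
  invFun := tr (-v)
  left_inv f := by simp [tr_tr, tr_zero]
  right_inv f := by simp [tr_tr, tr_zero]
  map_mul' := map_mul _
  map_add' := map_add _

lemma eval_tr (v x : σ → K) (f : MvPolynomial σ K) : eval x (tr v f) = eval (x + v) f := by
  have : ((aeval x : MvPolynomial σ K →ₐ[K] K).comp (tr v)) = aeval (x + v) := by
    ext i
    simp [tr_X]
  have h := congrArg (fun F : MvPolynomial σ K →ₐ[K] K => F f) this
  simpa [aeval_eq_eval] using h

lemma totalDegree_tr (v : σ → K) (f : MvPolynomial σ K) :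
    (tr v f).totalDegree ≤ f.totalDegree := by
  unfold tr
  rw [aeval_def, eval₂_eq]
  refine (totalDegree_finsetSum _ _).trans (Finset.sup_le fun d hd => ?_)
  refine (totalDegree_mul _ _).trans ?_
  have h1 : ((algebraMap K (MvPolynomial σ K)) (coeff d f)).totalDegree = 0 := by
    rw [algebraMap_eq]; exact totalDegree_C _
  rw [h1, zero_add]
  refine (totalDegree_finsetProd _ _).trans ?_
  refine (Finset.sum_le_sum (g := fun i => d i) fun i _ => ?_).trans ?_
  · refine (totalDegree_pow _ _).trans ?_
    have : (X i + C (v i) : MvPolynomial σ K).totalDegree ≤ 1 := by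
      refine (totalDegree_add _ _).trans (max_le ?_ ?_)
      · exact (totalDegree_X (R := K) i).le
      · simp
    nlinarith
  · exact le_totalDegree hd

lemma comap_comap_tr (v w : σ → K) (p : Ideal (MvPolynomial σ K)) :
    Ideal.comap (tr v) (Ideal.comap (tr w) p) = Ideal.comap (tr (w + v)) p := by
  ext f
  simp only [Ideal.mem_comap]
  rw [tr_tr]

lemma comap_zero (p : Ideal (MvPolynomial σ K)) : Ideal.comap (tr (0 : σ → K)) p = p := by
  ext f
  simp only [Ideal.mem_comap, tr_zero]

lemma height_comap_tr (v : σ → K) (p : Ideal (MvPolynomial σ K)) :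
    (Ideal.comap (tr v) p).height = p.height :=
  RingEquiv.height_comap (trE v) p

section main

variable {r m : ℕ} (φ : Fin m → Fin r → K)

/-- the point `sum l_j phi_j` -/
def pt (l : Fin m → ℕ) : Fin r → K := ∑ j, (l j : K) • φ j

lemma pt_add (l l' : Fin m → ℕ) : pt φ (fun j => l j + l' j) = pt φ l + pt φ l' := by
  simp [pt, add_smul, Finset.sum_add_distrib]

/-- generators of `I_k` -/
def gens (D : ℕ) (P : MvPolynomial (Fin r) K) (k : ℕ) : Set (MvPolynomial (Fin r) K) :=
  {q | ∃ l : Fin m → ℕ, (∀ j, l j ≤ k * D) ∧ q = tr (pt φ l) P}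

lemma gens_mono (D : ℕ) (P : MvPolynomial (Fin r) K) {k k' : ℕ} (h : k ≤ k') :
    gens φ D P k ⊆ gens φ D P k' := by
  rintro q ⟨l, hl, rfl⟩
  exact ⟨l, fun j => (hl j).trans (Nat.mul_le_mul_right _ h), rfl⟩

/-- pigeonhole for the heights -/
lemma pigeon (h : ℕ → ℕ∞) (r : ℕ) (h0 : 1 ≤ h 0) (hr : h r ≤ r) (hm : ∀ k, h k ≤ h (k + 1)) :
    ∃ k, k < r ∧ h k = h (k + 1) := by
  by_contra hcon
  push Not at hcon
  have key : ∀ k, k ≤ r → ((k + 1 : ℕ) : ℕ∞) ≤ h k := by
    intro k
    induction k with
    | zero => intro _; simpa using h0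
    | succ k ih =>
      intro hk
      have h1 := ih (by omega)
      have h2 : h k < h (k + 1) := lt_of_le_of_ne (hm k) (hcon k (by omega))
      have h3 := Order.add_one_le_of_lt (lt_of_le_of_lt h1 h2)
      simpa using h3
  have h1 := (key r le_rfl).trans hr
  have h2 : r + 1 ≤ r := by exact_mod_cast h1
  omega

end main

end I_ZE

open I_ZE MvPolynomial in
theorem ZE_pf (hBez : S_Bez) (hStab : S_Stab) : S_ZE := by
  classical
  intro K _ _ r m φ M D P hP0 hPM hvan
  -- the ideals
  let I : ℕ → Ideal (MvPolynomial (Fin r) K) := fun k => Ideal.span (gens φ D P k)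
  have hmono : ∀ k, I k ≤ I (k + 1) := fun k => Ideal.span_mono (gens_mono φ D P (by omega))
  have hdim : ringKrullDim (MvPolynomial (Fin r) K) = (r : WithBot ℕ∞) := by
    rw [MvPolynomial.ringKrullDim_of_isNoetherianRing]
    simp
  have : FiniteRingKrullDim (MvPolynomial (Fin r) K) := by
    rw [finiteRingKrullDim_iff_ne_bot_and_top, hdim]
    constructor
    · exact (WithBot.natCast_ne_bot r)
    · intro h
      have : ((r : ℕ∞) : WithBot ℕ∞) = ((⊤ : ℕ∞) : WithBot ℕ∞) := by simpa using h
      have := WithBot.coe_injective this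
      exact (ENat.natCast_ne_top r) this
  have hht : ∀ p : Ideal (MvPolynomial (Fin r) K), p ≠ ⊤ → p.height ≤ (r : ℕ∞) := by
    intro p hp
    have h1 := Ideal.height_le_ringKrullDim_of_ne_top hp
    rw [hdim] at h1
    exact_mod_cast h1
  have hIr : ∀ k, k ≤ r → I k ≠ ⊤ := by
    intro k hk htop
    have hle : I k ≤ RingHom.ker (eval (0 : Fin r → K)) := by
      refine Ideal.span_le.mpr ?_
      rintro q ⟨l, hl, rfl⟩
      simp only [SetLike.mem_coe, RingHom.mem_ker]
      rw [eval_tr, zero_add]
      exact hvan l (fun j => (hl j).trans (Nat.mul_le_mul_right _ hk))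
    rw [htop] at hle
    have h1 : (1 : MvPolynomial (Fin r) K) ∈ RingHom.ker (eval (0 : Fin r → K)) :=
      hle Submodule.mem_top
    simp [RingHom.mem_ker] at h1
  have h0 : 1 ≤ (I 0).height := by
    rw [Order.one_le_iff_ne_zero]
    intro h
    rw [Ideal.height_eq_zero_iff_eq_bot] at h
    have hP : P ∈ I 0 := by
      refine Ideal.subset_span ⟨fun _ => 0, fun j => by simp, ?_⟩
      have : pt φ (fun _ => 0) = 0 := by simp [pt]
      rw [this, tr_zero]
    rw [h] at hP
    exact hP0 (by simpa using hP)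
  obtain ⟨k, hkr, hk⟩ := pigeon (fun k => (I k).height) r h0 (hht _ (hIr r le_rfl))
    (fun k => Ideal.height_mono (hmono k))
  -- the height
  obtain ⟨c, hc⟩ : ∃ c : ℕ, (I (k + 1)).height = c := by
    have : (I (k + 1)).height ≠ ⊤ := by
      intro h
      have h1 := hht _ (hIr (k + 1) hkr)
      rw [h] at h1
      exact absurd h1 (by simp)
    exact ⟨_, (ENat.natCast_toNat this).symm⟩
  obtain ⟨p, hpp, hIp, hph⟩ := Ideal.exists_isPrime_height_eq hc
  have hc1 : 1 ≤ c := by
    have h1 : (1 : ℕ∞) ≤ (I (k + 1)).height := h0.trans (Ideal.height_mono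
      (Ideal.span_mono (gens_mono φ D P (by omega))))
    rw [hc] at h1
    exact_mod_cast h1
  obtain ⟨U, hU, hdimU⟩ := hStab K (Fin r) p hpp
  rw [hph, Fintype.card_fin] at hdimU
  have hdimU' : c + Module.finrank K U ≤ r := by exact_mod_cast hdimU
  refine ⟨U, ?_, ?_⟩
  · rintro rfl
    simp at hdimU'
    omega
  intro J hJ
  -- the family of translates
  let ext : (J → Fin (D + 1)) → Fin m → ℕ := fun l j => if h : j ∈ J then (l ⟨j, h⟩ : ℕ) else 0
  have hext : ∀ l j, ext l j ≤ D := by
    intro l j
    simp only [ext]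
    split_ifs with h
    · have := (l ⟨j, h⟩).2; omega
    · omega
  have hinj : Function.Injective (fun l : J → Fin (D + 1) => Ideal.comap (tr (pt φ (ext l))) p) := by
    intro l l' hll
    simp only at hll
    have h1 : Ideal.comap (tr (pt φ (ext l) - pt φ (ext l'))) p = p := by
      have h2 := congrArg (fun q => Ideal.comap (tr (-(pt φ (ext l')))) q) hll
      simp only [comap_comap_tr] at h2
      rw [add_neg_cancel, comap_zero, ← sub_eq_add_neg] at h2
      exact h2
    have h3 : pt φ (ext l) - pt φ (ext l') ∈ U := (hU _).mpr h1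
    have h4 : pt φ (ext l) - pt φ (ext l') =
        ∑ j, (((ext l j : ℤ) - (ext l' j : ℤ) : ℤ) : K) • φ j := by
      simp [pt, sub_smul, Finset.sum_sub_distrib]
    rw [h4] at h3
    have h5 := hJ (fun j => (ext l j : ℤ) - (ext l' j : ℤ)) (by
      intro j hj
      simp [ext, hj]) h3
    funext ⟨j, hj⟩
    have h6 := congrFun h5 j
    simp only [ext, hj, dif_pos, Pi.zero_apply] at h6
    apply Fin.ext
    omega
  let F : Finset (Ideal (MvPolynomial (Fin r) K)) :=
    Finset.univ.image (fun l : J → Fin (D + 1) => Ideal.comap (tr (pt φ (ext l))) p)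
  have hFcard : F.card = (D + 1) ^ J.card := by
    rw [Finset.card_image_of_injective _ hinj]
    simp
  have hbound : F.card ≤ 2 ^ (Fintype.card (Fin r)) * (M + 1) ^ c := by
    refine hBez K (Fin r) M c (gens φ D P k) ?_ F ?_
    · rintro g ⟨l, hl, rfl⟩
      exact (totalDegree_tr _ _).trans hPM
    · intro q hq
      obtain ⟨l, -, rfl⟩ := Finset.mem_image.mp hq
      have hheight : (Ideal.comap (tr (pt φ (ext l))) p).height = c := by
        rw [height_comap_tr, hph]
      refine ⟨?_, hheight⟩
      have : (Ideal.comap (tr (pt φ (ext l))) p).IsPrime := Ideal.comap_isPrime _ _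
      refine Ideal.mem_minimalPrimes_of_height_le ?_ ?_
      · refine Ideal.span_le.mpr ?_
        rintro g ⟨l', hl', rfl⟩
        simp only [SetLike.mem_coe, Ideal.mem_comap]
        rw [tr_tr]
        refine hIp (Ideal.subset_span ⟨fun j => ext l j + l' j, fun j => ?_, ?_⟩)
        · have h1 := hext l j
          have h2 := hl' j
          calc ext l j + l' j ≤ D + k * D := by omega
            _ = (k + 1) * D := by ring
        · rw [pt_add]
      · rw [hheight]
        change (c : ℕ∞) ≤ (I k).height
        rw [hk, hc]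
  rw [hFcard, Fintype.card_fin] at hbound
  refine hbound.trans (Nat.mul_le_mul_left _ (Nat.pow_le_pow_right (by omega) (by omega)))

end Pool.Agent.Work.MP_8da9ea_nt.SI
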