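import Pool.Agent.Work.MP_8da9ea_nt.SI.I_B1
import Pool.Agent.Work.MP_8da9ea_nt.SI.I_Red
import Pool.Agent.Work.MP_8da9ea_nt.SI.I_Def
import Pool.Agent.Work.MP_8da9ea_nt.SI.I_Cnt
import Pool.Agent.Work.MP_8da9ea_nt.SI.I_Sq
import Pool.Agent.Work.MP_8da9ea_nt.SI.I_Loc
import Pool.Agent.Work.MP_8da9ea_nt.SI.I_Bez
import Pool.Agent.Work.MP_8da9ea_nt.SI.I_Stab
import Pool.Agent.Work.MP_8da9ea_nt.SI.I_ZE

/-! # PROJECT SI, part B: assembly -/

set_option autoImplicit false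

namespace Pool.Agent.Work.MP_8da9ea_nt.SI

theorem all_Cnt : S_Cnt := Cnt_pf Red_pf (Def_pf B1_pf)

theorem all_Free : S_Free := Free_pf B1_pf Loc_pf

/-- Bezout for minimal primes of a given height. -/
theorem all_Bez : S_Bez := Bez_pf all_Cnt (Sq_pf B1_pf) Loc_pf all_Free

theorem all_Stab : S_Stab := Stab_pf all_Free

/-- The sharp zero estimate for `K^r`. -/
theorem ZE_all : S_ZE := ZE_pf all_Bez all_Stab

end Pool.Agent.Work.MP_8da9ea_nt.SI
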