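import Pool.Agent.Work.MP_327059_nt.FR.Asm
import Pool.Agent.Work.MP_8da9ea_nt.SI.PartB
import Pool.Agent.Work.MP_8da9ea_nt.SI.I_CritE
import Pool.Agent.Work.MP_8da9ea_nt.SI.I_RedN
import Pool.Agent.Work.MP_8da9ea_nt.SI.I_Minor
import Pool.Agent.Work.MP_8da9ea_nt.SI.I_UpE
import Pool.Agent.Work.MP_8da9ea_nt.SI.I_Fam
import Pool.Agent.Work.MP_8da9ea_nt.SI.I_Dual
import Pool.Agent.Work.MP_8da9ea_nt.SI.I_NOa
import Pool.Agent.Work.MP_8da9ea_nt.SI.I_NO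
import Pool.Agent.Work.MP_8da9ea_nt.SI.I_PsiU
import Pool.Agent.Work.MP_8da9ea_nt.SI.I_SubJ
import Pool.Agent.Work.MP_8da9ea_nt.SI.I_TrI
import Pool.Agent.Work.MP_8da9ea_nt.SI.I_Sbt
import Pool.Agent.Work.MP_8da9ea_nt.SI.I_StV
import Pool.Agent.Work.MP_8da9ea_nt.SI.I_StA
import Pool.Agent.Work.MP_8da9ea_nt.SI.I_StZ
import Pool.Agent.Work.MP_8da9ea_nt.SI.I_StB
import Pool.Agent.Work.MP_8da9ea_nt.SI.I_StC
import Pool.Agent.Work.MP_8da9ea_nt.SI.I_StD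
import Pool.Agent.Work.MP_8da9ea_nt.SI.I_Step
import Pool.Agent.Work.MP_8da9ea_nt.SI.I_Chain
import Pool.Agent.Work.MP_8da9ea_nt.SI.I_TISm
import Pool.Agent.Work.MP_8da9ea_nt.SI.I_TIS
import Pool.Agent.Work.MP_8da9ea_nt.SI.I_FunD
import Pool.Agent.Work.MP_8da9ea_nt.SI.I_EmbS
import Pool.Agent.Work.MP_8da9ea_nt.SI.I_RobA
import Pool.Agent.Work.MP_8da9ea_nt.SI.I_Rel2
import Pool.Agent.Work.MP_8da9ea_nt.SI.I_UPC2
import Pool.Agent.Work.MP_8da9ea_nt.SI.I_Ax22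
import Pool.Agent.Work.MP_8da9ea_nt.SI.I_CoreS
import Pool.Agent.Work.MP_8da9ea_nt.SI.I_CovS
import Pool.Agent.Work.MP_8da9ea_nt.SI.I_SI

/-!
# PROJECT SI: assembly
-/

set_option autoImplicit false

namespace Pool.Agent.Work.MP_8da9ea_nt.SI

open Pool.Agent.Work.MP_327059_nt.GL Pool.Agent.Work.MP_327059_nt.FR

theorem z_Fam : S_Fam := pr_Fam pr_RedN pr_Minor pr_UpE

theorem z_Dual : S_Dual := pr_Dual ZE_all

theorem z_NOa : S_NOa := pr_NOa CritE_pf z_Fam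

theorem z_NO : S_NO := pr_NO z_NOa z_Dual

theorem z_PsiU : S_PsiU := pr_PsiU y_PLg x_Tay

theorem z_TrI : S_TrI := pr_TrI x_TrCount x_TrBasis

theorem z_StV : S_StV := pr_StV z_PsiU y_Valr

theorem z_StZ : S_StZ := pr_StZ x_Tensor y_ZEr

theorem z_StD : S_StD := pr_StD x_ManyInd

theorem z_RobA : S_RobA := pr_RobA pr_EmbS

theorem z_UPC2 : S_UPC2 := pr_UPC2 pr_Rel2

theorem z_Ax22 : S_Ax22 := pr_Ax22 x_AxOut

theorem z_StA : S_StA := pr_StA x_Crit y_Valr z_TrI pr_Sbt z_StV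

theorem z_Step : S_Step := pr_Step pr_SubJ z_StA z_StZ pr_StB pr_StC z_StD

theorem z_Chain : S_Chain := pr_Chain z_Step

theorem z_TISm : S_TISm := pr_TISm z_Chain z_NO

theorem z_TIS : S_TIS := pr_TIS z_TISm x_TrCount x_TrBasis

theorem z_CoreS : S_CoreS := pr_CoreS pr_FunD z_RobA z_TIS x_TrCount

theorem z_CovS : S_CovS := pr_CovS z_UPC2 z_Ax22 y_Lin2 y_Grow z_CoreS

/-- **Theorem S-inf.** -/
theorem z_SI : S_SI := pr_SI z_CovS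

end Pool.Agent.Work.MP_8da9ea_nt.SI
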