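import Pool.Agent.Work.MP_8da9ea_nt.SI.Stmts2
import Pool.Agent.Work.MP_327059_nt.FR.Ax2

/-!
# Ax22: the output of the Ax type argument, two relations
-/

set_option autoImplicit false

namespace Pool.Agent.Work.MP_8da9ea_nt.SI

open Pool.Agent.ED Pool.Agent.Work.MP_327059_nt.FL Pool.Agent.Work.MP_327059_nt.GL
  Pool.Agent.Work.MP_327059_nt.FR

/-- The rank of the forms. -/
theorem Ax22_rk {n m : ℕ} (l : Fin n → ℂ) (b : Fin m → ℂ) (ι : ℂ →+* ℂ)
    (xd : Derivation ℚ ℂ ℂ → Derivation ℚ ℂ ℂ) (v : Fin n → ℂ) (a : Fin 2 → Option (Fin m) → ℂ)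
    (h : NS2 l b ι xd v a) :
    rk (fun i => ι (l i)) (fun i j => ι (Complex.exp (b j * l i))) v + 1 ≤ m := by
  classical
  obtain ⟨h1, h2, h3, h4, h5⟩ := h
  let L : (Fin 2 → ℂ) →ₗ[ℂ] Module.Dual ℂ (Option (Fin m) → ℂ) :=
    { toFun := fun c => Fintype.linearCombination ℂ (fun o => c 0 * a 0 o + c 1 * a 1 o)
      map_add' := by
        intro c c'
        apply LinearMap.ext
        intro u
        rw [LinearMap.add_apply]
        simp only [Fintype.linearCombination_apply, Pi.add_apply, smul_eq_mul]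
        rw [← Finset.sum_add_distrib]
        exact Finset.sum_congr rfl fun o _ => by ring
      map_smul' := by
        intro s c
        apply LinearMap.ext
        intro u
        rw [LinearMap.smul_apply]
        simp only [Fintype.linearCombination_apply, Pi.smul_apply, smul_eq_mul, RingHom.id_apply]
        rw [Finset.mul_sum]
        exact Finset.sum_congr rfl fun o _ => by ring }
  have hL : ∀ c u, L c u = ∑ o, u o * (c 0 * a 0 o + c 1 * a 1 o) := fun c u => by
    change Fintype.linearCombination ℂ (fun o => c 0 * a 0 o + c 1 * a 1 o) u = _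
    rw [Fintype.linearCombination_apply]
    exact Finset.sum_congr rfl fun o _ => by rw [smul_eq_mul]
  have hLi : LinearMap.ker L = ⊥ := by
    rw [LinearMap.ker_eq_bot']
    intro c hc
    rw [Fintype.linearIndependent_iff] at h4
    funext i
    refine h4 c ?_ i
    rw [Fin.sum_univ_two]
    funext o
    have h6 : L c (Pi.single o 1) = 0 := by rw [hc]; rfl
    rw [hL, Finset.sum_eq_single o] at h6
    · rw [Pi.single_eq_same, one_mul] at h6
      exact h6
    · intro o' _ ho'
      rw [Pi.single_eq_of_ne ho', zero_mul]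
    · intro h7
      exact absurd (Finset.mem_univ o) h7
  set D := (TT v).map (om (fun i => ι (l i)) (fun i j => ι (Complex.exp (b j * l i))) v) with hD
  have hann : ∀ c, L c ∈ D.dualAnnihilator := by
    intro c
    rw [Submodule.mem_dualAnnihilator]
    rintro w ⟨E, hE, rfl⟩
    obtain ⟨s, δ, cc, hc⟩ := der_span ι xd h1
      (Sum.elim l (fun q : Fin n × Fin m => Complex.exp (b q.2 * l q.1))) E
    have hx : ∀ i, E (ι (l i)) = ∑ k, cc k * ι (δ k (l i)) := fun i => hc (Sum.inl i)
    have hy : ∀ i j, E (ι (Complex.exp (b j * l i))) =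
        ∑ k, cc k * ι (δ k (Complex.exp (b j * l i))) := fun i j => hc (Sum.inr (i, j))
    have e1 : ∑ i, v i * E (ι (l i)) = ∑ k, cc k * ∑ i, v i * ι (δ k (l i)) := by
      simp only [hx, Finset.mul_sum]
      rw [Finset.sum_comm]
      exact Finset.sum_congr rfl fun k _ => Finset.sum_congr rfl fun i _ => by ring
    have e2 : ∀ j, ∑ i, v i * (E (ι (Complex.exp (b j * l i))) / ι (Complex.exp (b j * l i))) =
        ∑ k, cc k * ∑ i, v i * (ι (δ k (Complex.exp (b j * l i))) /
          ι (Complex.exp (b j * l i))) := by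
      intro j
      simp only [hy, Finset.mul_sum, Finset.sum_div]
      rw [Finset.sum_comm]
      exact Finset.sum_congr rfl fun k _ => Finset.sum_congr rfl fun i _ => by ring
    have e3 : ∀ u : Fin 2, (∑ i, v i * E (ι (l i))) * a u none + ∑ j,
        (∑ i, v i * (E (ι (Complex.exp (b j * l i))) / ι (Complex.exp (b j * l i)))) *
          a u (some j) = 0 := by
      intro u
      rw [e1]
      simp only [e2]
      have e4 : (∑ k, cc k * ∑ i, v i * ι (δ k (l i))) * a u none +
          ∑ j, (∑ k, cc k * ∑ i, v i * (ι (δ k (Complex.exp (b j * l i))) /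
            ι (Complex.exp (b j * l i)))) * a u (some j) =
          ∑ k, cc k * (a u none * ∑ i, v i * ι (δ k (l i)) +
            ∑ j, a u (some j) * ∑ i, v i * (ι (δ k (Complex.exp (b j * l i))) /
              ι (Complex.exp (b j * l i)))) := by
        simp only [mul_add, Finset.sum_add_distrib]
        congr 1
        · rw [Finset.sum_mul]
          exact Finset.sum_congr rfl fun k _ => by ring
        · simp only [Finset.mul_sum, Finset.sum_mul]
          rw [Finset.sum_comm]
          refine Finset.sum_congr rfl fun k _ => Finset.sum_congr rfl fun j _ =>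
            Finset.sum_congr rfl fun i _ => by ring
      rw [e4]
      refine Finset.sum_eq_zero fun k _ => ?_
      rw [h5 u (δ k), mul_zero]
    rw [hL, Fintype.sum_option]
    change (∑ i, v i * E (ι (l i))) * (c 0 * a 0 none + c 1 * a 1 none) + ∑ j,
        (∑ i, v i * (E (ι (Complex.exp (b j * l i))) / ι (Complex.exp (b j * l i)))) *
          (c 0 * a 0 (some j) + c 1 * a 1 (some j)) = 0
    have e5 : (∑ i, v i * E (ι (l i))) * (c 0 * a 0 none + c 1 * a 1 none) + ∑ j,
        (∑ i, v i * (E (ι (Complex.exp (b j * l i))) / ι (Complex.exp (b j * l i)))) *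
          (c 0 * a 0 (some j) + c 1 * a 1 (some j)) =
        c 0 * ((∑ i, v i * E (ι (l i))) * a 0 none + ∑ j,
        (∑ i, v i * (E (ι (Complex.exp (b j * l i))) / ι (Complex.exp (b j * l i)))) *
          a 0 (some j)) + c 1 * ((∑ i, v i * E (ι (l i))) * a 1 none + ∑ j,
        (∑ i, v i * (E (ι (Complex.exp (b j * l i))) / ι (Complex.exp (b j * l i)))) *
          a 1 (some j)) := by
      simp only [mul_add, Finset.sum_add_distrib, Finset.mul_sum]
      have e6 : ∀ u : Fin 2, ∀ j, (∑ i, v i * (E (ι (Complex.exp (b j * l i))) /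
          ι (Complex.exp (b j * l i)))) * (c u * a u (some j)) =
          c u * ((∑ i, v i * (E (ι (Complex.exp (b j * l i))) /
          ι (Complex.exp (b j * l i)))) * a u (some j)) := fun u j => by ring
      simp only [e6]
      ring
    rw [e5, e3 0, e3 1, mul_zero, mul_zero, add_zero]
  have hrange : LinearMap.range L ≤ D.dualAnnihilator := by
    rintro _ ⟨c, rfl⟩
    exact hann c
  have h6 := Submodule.finrank_mono hrange
  have h7 : Module.finrank ℂ (LinearMap.range L) = 2 := by
    rw [LinearMap.finrank_range_of_inj (LinearMap.ker_eq_bot.1 hLi),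
      Module.finrank_fintype_fun_eq_card, Fintype.card_fin]
  have h8 := Subspace.finrank_add_finrank_dualAnnihilator_eq D
  rw [Module.finrank_fintype_fun_eq_card, Fintype.card_option, Fintype.card_fin] at h8
  unfold rk
  rw [← hD]
  omega

theorem pr_Ax22 (h0 : S_AxOut) : S_Ax22 := by
  classical
  intro n m l b ι xd v a hNS
  have hrk := Ax22_rk l b ι xd v a hNS
  obtain ⟨h1, h2, h3, h4, h5⟩ := hNS
  obtain ⟨G, hG⟩ := h0 n m (fun i => ι (l i)) (fun i j => ι (Complex.exp (b j * l i))) v
    (fun i j => (map_ne_zero ι).2 (Complex.exp_ne_zero _))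
  let y0 : Fin n → Fin m → ℂ := fun i j => Complex.exp (b j * l i)
  -- dual derivations
  have hdual : ∀ (k : ℕ) (f : Fin k → ℂ), AlgebraicIndependent ℚ f →
      ∃ D : Fin k → Derivation ℚ ℂ ℂ, ∀ a b, D a (f b) = if a = b then 1 else 0 := by
    intro k f hf
    have h6 : ∀ a : Fin k, ∃ δ : Derivation ℚ ℂ ℂ, ∀ b, δ (f b) = if a = b then 1 else 0 :=
      fun a => exists_derivation hf _
    choose D hD using h6
    exact ⟨D, hD⟩
  have hA : ∀ (k : ℕ) (f : Fin k → ℂ), AlgebraicIndependent ℚ f →
      (∀ t, ∃ ξ ∈ G, f t = mon y0 ξ) → ug G v + k + 1 ≤ m := by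
    intro k f hf hfm
    obtain ⟨D, hD⟩ := hdual k f hf
    have h6 := hG k (fun t => ι (f t)) (fun t => by
      right
      obtain ⟨ξ, hξ, he⟩ := hfm t
      exact ⟨ξ, hξ, by rw [he, Ax2_mon]⟩) (Ax2_dual v _ (fun a => xd (D a))
        (fun a i => h2 _ _) (fun a b => by
          rw [h1, hD]
          split_ifs
          · exact map_one ι
          · exact map_zero ι))
    omega
  let P : ℕ → Prop := fun k => ∃ f : Fin k → ℂ, AlgebraicIndependent ℚ f ∧
    ∀ t, ∃ ξ ∈ G, f t = mon y0 ξ
  have hP0 : P 0 := ⟨Fin.elim0, algebraicIndependent_empty_type_iff.2 (algebraMap ℚ ℂ).injective,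
    fun t => Fin.elim0 t⟩
  have hPm : ∀ k, P k → k ≤ m := by
    rintro k ⟨f, hf, hfm⟩
    have := hA k f hf hfm
    omega
  set k0 := Nat.findGreatest P m with hk0
  obtain ⟨f, hf, hfm⟩ : P k0 := Nat.findGreatest_spec (Nat.zero_le m) hP0
  have hmax : ¬ P (k0 + 1) := by
    intro h6
    have h7 := hPm _ h6
    exact absurd (Nat.le_findGreatest h7 h6) (by omega)
  refine ⟨G, k0, f, hf, ?_, hA k0 f hf hfm, ?_⟩
  · intro ξ hξ
    by_contra hno
    apply hmax
    have htr : Transcendental (Algebra.adjoin ℚ (Set.range f)) (mon y0 ξ) := by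
      intro h6
      exact hno (IntermediateField.isAlgebraic_adjoin_iff.2 h6)
    have h7 := (hf.option_iff_transcendental (mon y0 ξ)).2 htr
    refine ⟨fun t => (finSuccEquiv k0 t).elim (mon y0 ξ) f, ?_, ?_⟩
    · exact h7.comp (finSuccEquiv k0) (finSuccEquiv k0).injective
    · intro t
      refine Fin.cases ?_ (fun t => ?_) t
      · refine ⟨ξ, hξ, ?_⟩
        change (finSuccEquiv k0 0).elim (mon y0 ξ) f = mon y0 ξ
        rw [finSuccEquiv_zero]
        rfl
      · change ∃ ξ_1 ∈ G, (finSuccEquiv k0 t.succ).elim (mon y0 ξ) f = mon y0 ξ_1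
        rw [finSuccEquiv_succ]
        exact hfm t
  · by_cases hall : ∀ i, AlgOver f (l i)
    · exact Or.inl hall
    · right
      push Not at hall
      obtain ⟨i0, hi0⟩ := hall
      -- a derivation killing `f` and not `l i0`
      obtain ⟨δ, hδ, hδ0⟩ : ∃ δ : Derivation ℚ ℂ ℂ, (∀ s ∈ Set.range f, δ s = 0) ∧
          δ (l i0) ≠ 0 := by
        by_contra hcon
        push Not at hcon
        exact hi0 (isAlgebraic_of_derivation (Set.range f) (l i0) (fun X hX => hcon X hX))
      set θ : ℂ := ∑ i, v i * ι (l i) with hθ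
      have hxθ : ∀ D, xd D θ = ∑ i, v i * ι (D (l i)) := by
        intro D
        rw [hθ, map_sum]
        refine Finset.sum_congr rfl fun i _ => ?_
        rw [Derivation.leibniz, h2, smul_zero, add_zero, h1, smul_eq_mul]
      have hτ : xd δ θ ≠ 0 := by
        rw [hxθ]
        intro h6
        exact hδ0 (congrFun (h3 _ h6) i0)
      obtain ⟨D, hD⟩ := hdual k0 f hf
      let Dθ : Derivation ℚ ℂ ℂ := (xd δ θ)⁻¹ • xd δ
      have hDθ : ∀ z, Dθ z = (xd δ θ)⁻¹ * xd δ z := fun z => rfl
      let E : Fin (k0 + 1) → Derivation ℚ ℂ ℂ :=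
        Fin.cons Dθ (fun a => xd (D a) - (xd (D a) θ) • Dθ)
      let F : Fin (k0 + 1) → ℂ := Fin.cons θ (fun t => ι (f t))
      have hE0 : E 0 = Dθ := rfl
      have hEs : ∀ a, ∀ z, E (Fin.succ a) z = xd (D a) z - xd (D a) θ * Dθ z := fun a z => rfl
      have hF0 : F 0 = θ := rfl
      have hFs : ∀ a, F (Fin.succ a) = ι (f a) := fun a => rfl
      have hDθθ : Dθ θ = 1 := by rw [hDθ, inv_mul_cancel₀ hτ]
      have hDθf : ∀ t, Dθ (ι (f t)) = 0 := by
        intro t
        rw [hDθ, h1, hδ _ ⟨t, rfl⟩, map_zero, mul_zero]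
      have hDθv : ∀ i, Dθ (v i) = 0 := fun i => by rw [hDθ, h2, mul_zero]
      have hEv : ∀ a i, E a (v i) = 0 := by
        intro a i
        refine Fin.cases ?_ (fun a => ?_) a
        · rw [hE0]; exact hDθv i
        · rw [hEs, h2, hDθv]; ring
      have hEF : ∀ a b, E a (F b) = if a = b then 1 else 0 := by
        intro a b
        refine Fin.cases ?_ (fun a => ?_) a
        · refine Fin.cases ?_ (fun b => ?_) b
          · rw [hE0, hF0, hDθθ, if_pos rfl]
          · rw [hE0, hFs, hDθf, if_neg (Fin.succ_ne_zero b).symm]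
        · refine Fin.cases ?_ (fun b => ?_) b
          · rw [hEs, hF0, hDθθ, if_neg (Fin.succ_ne_zero a)]; ring
          · rw [hEs, hFs, hDθf, h1, hD]
            by_cases hab : a = b
            · rw [if_pos hab, if_pos (by rw [hab]), map_one]; ring
            · rw [if_neg hab, if_neg (fun h => hab (Fin.succ_injective _ h)), map_zero]; ring
      have h6 := hG (k0 + 1) F (fun t => by
        refine Fin.cases ?_ (fun t => ?_) t
        · left; rfl
        · right
          obtain ⟨ξ, hξ, he⟩ := hfm t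
          exact ⟨ξ, hξ, by rw [hFs, he, Ax2_mon]⟩) (Ax2_dual v F E hEv hEF)
      omega

end Pool.Agent.Work.MP_8da9ea_nt.SI
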