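import Pool.Agent.Work.MP_8da9ea_nt.SI.StmtsB

/-! Item [8da9ea SI B1]: maximal ideals of `K[x_sigma]` have height `|sigma|`. -/

set_option autoImplicit false

namespace Pool.Agent.Work.MP_8da9ea_nt.SI

open MvPolynomial

namespace I_B1

/-- The statement for one index type. -/
def Good (K : Type) [Field K] (σ : Type) : Prop :=
  ∀ (P : Ideal (MvPolynomial σ K)), P.IsMaximal → P.height = ((Nat.card σ : ℕ) : ℕ∞)

theorem good_equiv (K : Type) [Field K] {σ τ : Type} (e : σ ≃ τ) (h : Good K σ) : Good K τ := by
  intro P hP
  let E : MvPolynomial σ K ≃+* MvPolynomial τ K := (renameEquiv K e).toRingEquiv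
  have hmax : (P.comap E).IsMaximal := Ideal.comap_isMaximal_of_equiv E
  have h1 := h (P.comap E) hmax
  have h2 : (P.comap E).height = P.height := RingEquiv.height_comap E P
  rw [← h2, h1, Nat.card_congr e]

theorem good_pempty (K : Type) [Field K] : Good K PEmpty := by
  intro P hP
  let E : MvPolynomial PEmpty K ≃+* K := isEmptyRingEquiv K PEmpty
  have hmax : (P.map E).IsMaximal := Ideal.map_isMaximal_of_equiv E
  have h0 : P.map E = ⊥ := by
    rcases Ideal.eq_bot_or_top (P.map E) with h | h
    · exact h
    · exact absurd h hmax.ne_top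
  have h2 : (P.map E).height = P.height := RingEquiv.height_map E P
  rw [← h2, h0]
  simp

theorem good_option (K : Type) [Field K] {σ : Type} [Finite σ] (h : Good K σ) :
    Good K (Option σ) := by
  intro P hP
  let E : MvPolynomial (Option σ) K ≃+* Polynomial (MvPolynomial σ K) :=
    (optionEquivLeft K σ).toRingEquiv
  have hmax : (P.map E).IsMaximal := Ideal.map_isMaximal_of_equiv E
  have h2 : (P.map E).height = P.height := RingEquiv.height_map E P
  set Q := P.map E with hQ
  have hmax2 : (Q.under (MvPolynomial σ K)).IsMaximal :=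
    Polynomial.isMaximal_comap_C_of_isJacobsonRing Q
  have hlies : Q.LiesOver (Q.under (MvPolynomial σ K)) := ⟨rfl⟩
  have h3 := Polynomial.height_eq_height_add_one (Q.under (MvPolynomial σ K)) Q
  rw [← h2, h3, h _ hmax2, Finite.card_option]
  push_cast
  rfl

end I_B1

theorem B1_pf : S_B1 := by
  intro K _ σ _
  change I_B1.Good K σ
  induction σ using Finite.induction_empty_option with
  | of_equiv e H => exact I_B1.good_equiv K e H
  | h_empty => exact I_B1.good_pempty K
  | h_option IH => exact I_B1.good_option K IH

end Pool.Agent.Work.MP_8da9ea_nt.SI
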