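import Pool.Agent.Work.MP_8da9ea_nt.SI.Stmts

/-!
# PROJECT SI: item NO
-/

set_option autoImplicit false

namespace Pool.Agent.Work.MP_8da9ea_nt.SI

open MvPolynomial Pool.Agent.Work.MP_327059_nt.GL Pool.Agent.Work.MP_327059_nt.FR

/-- The forms span. -/
theorem NO_span {r m s : ℕ} {φ : Fin m → Fin r → ℂ} (hM : Mn s φ) (h : s * r < m) :
    Submodule.span ℂ (Set.range φ) = ⊤ := by
  by_contra hne
  have h1 := hM _ hne
  have h2 : rkU φ (Submodule.span ℂ (Set.range φ)) = m := by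
    unfold rkU
    have h3 : (((Submodule.span ℂ (Set.range φ)).restrictScalars ℚ).comap
        (Fintype.linearCombination ℚ φ)) = ⊤ := by
      rw [eq_top_iff]
      intro x _
      rw [Submodule.mem_comap, Submodule.restrictScalars_mem, Fintype.linearCombination_apply]
      refine Submodule.sum_mem _ fun j _ => ?_
      exact Submodule.smul_of_tower_mem _ (x j) (Submodule.subset_span ⟨j, rfl⟩)
    rw [h3, finrank_top, Module.finrank_fin_fun]
  rw [h2] at h1
  have h4 : Module.finrank ℂ (Submodule.span ℂ (Set.range φ)) ≤ r := by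
    have := Submodule.finrank_le (Submodule.span ℂ (Set.range φ))
    rwa [Module.finrank_fin_fun] at this
  have h5 := Nat.mul_le_mul_left s h4
  omega

/-- The coordinates are combinations of the values of the forms. -/
theorem NO_coord {r m s : ℕ} {φ : Fin m → Fin r → ℂ} (hM : Mn s φ) (h : s * r < m) :
    ∃ c : Fin r → Fin m → ℂ, ∀ z : Fin r → ℂ, ∀ k, z k = ∑ j, c k j * ∑ l, φ j l * z l := by
  have hs := NO_span hM h
  have hex : ∀ k : Fin r, ∃ c : Fin m → ℂ, ∑ j, c j • φ j = Pi.single k 1 := by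
    intro k
    have h1 : (Pi.single k (1 : ℂ) : Fin r → ℂ) ∈ Submodule.span ℂ (Set.range φ) := by
      rw [hs]; exact Submodule.mem_top
    exact (Submodule.mem_span_range_iff_exists_fun ℂ).mp h1
  choose c hc using hex
  refine ⟨c, fun z k => ?_⟩
  have h1 : ∀ l, ∑ j, c k j * φ j l = if l = k then 1 else 0 := by
    intro l
    have h2 := congrFun (hc k) l
    rw [Finset.sum_apply] at h2
    simp only [Pi.smul_apply, smul_eq_mul] at h2
    rw [h2, Pi.single_apply]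
  calc z k = ∑ l, (if l = k then 1 else 0) * z l := by simp
    _ = ∑ l, (∑ j, c k j * φ j l) * z l := by
        refine Finset.sum_congr rfl fun l _ => ?_
        rw [h1 l]
    _ = ∑ j, c k j * ∑ l, φ j l * z l := by
        simp only [Finset.sum_mul, Finset.mul_sum]
        rw [Finset.sum_comm]
        refine Finset.sum_congr rfl fun j _ => Finset.sum_congr rfl fun l _ => ?_
        ring

/-- The condition of `S_Dual`. -/
theorem NO_dual {r m s q T : ℕ} {φ : Fin m → Fin r → ℂ} (hr : 1 ≤ r) (hM : Mn s φ)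
    (h : s * r < m) (hq : 1 ≤ q) (hT : 4 ^ r < T) (U : Submodule ℂ (Fin r → ℂ)) (hU : U ≠ ⊤) :
    2 ^ r * (T ^ ((2 * r * s + 1) * q) + 1) ^ (r - Module.finrank ℂ U) <
      (T ^ (2 * r * q) + 1) ^ (m - rkU φ U) := by
  have hT1 : 1 ≤ T := by
    have : 0 < 4 ^ r := by positivity
    omega
  have hu : Module.finrank ℂ U < r := by
    have := Submodule.finrank_lt hU
    rwa [Module.finrank_fin_fun] at this
  set u := Module.finrank ℂ U with hudef
  have hrk := hM U hU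
  rw [← hudef] at hrk
  obtain ⟨v, hv⟩ : ∃ v, r = u + v := ⟨r - u, by omega⟩
  have hv1 : 1 ≤ v := by omega
  have hvr : v ≤ r := by omega
  have hsub : r - u = v := by omega
  rw [hsub]
  have hm : s * v + 1 ≤ m - rkU φ U := by
    have h1 : s * r = s * u + s * v := by rw [hv]; ring
    omega
  set W := T ^ ((2 * r * s + 1) * q) with hW
  have hW1 : 1 ≤ W := Nat.one_le_pow _ _ hT1
  calc 2 ^ r * (W + 1) ^ v ≤ 2 ^ r * (2 * W) ^ v := by
        apply Nat.mul_le_mul_left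
        exact Nat.pow_le_pow_left (by omega) v
    _ = 2 ^ r * 2 ^ v * W ^ v := by rw [mul_pow, mul_assoc]
    _ ≤ 2 ^ r * 2 ^ r * W ^ v := by
        apply Nat.mul_le_mul_right
        apply Nat.mul_le_mul_left
        exact Nat.pow_le_pow_right (by norm_num) hvr
    _ = 4 ^ r * T ^ ((2 * r * s + 1) * q * v) := by
        have h4 : 2 ^ r * 2 ^ r = 4 ^ r := by rw [← mul_pow]; norm_num
        rw [hW, ← pow_mul, h4]
    _ < T * T ^ ((2 * r * s + 1) * q * v) := by
        apply Nat.mul_lt_mul_of_pos_right hT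
        positivity
    _ = T ^ ((2 * r * s + 1) * q * v + 1) := by rw [pow_succ, mul_comm]
    _ ≤ T ^ (2 * r * q * (s * v + 1)) := by
        apply Nat.pow_le_pow_right hT1
        have h1 : q * v + 1 ≤ 2 * r * q := by
          have h2 : q * v ≤ q * r := Nat.mul_le_mul_left _ hvr
          have h3 : 1 ≤ r * q := Nat.mul_pos hr hq
          nlinarith
        nlinarith
    _ = (T ^ (2 * r * q)) ^ (s * v + 1) := by rw [← pow_mul]
    _ ≤ (T ^ (2 * r * q) + 1) ^ (s * v + 1) := Nat.pow_le_pow_left (Nat.le_succ _) _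
    _ ≤ (T ^ (2 * r * q) + 1) ^ (m - rkU φ U) := Nat.pow_le_pow_right (Nat.succ_pos _) hm

/-- `‖u‖ ≤ 2 ‖exp u - 1‖` for small `u`. -/
theorem NO_exp {u : ℂ} (h : ‖u‖ ≤ 1 / 2) : ‖u‖ ≤ 2 * ‖Complex.exp u - 1‖ := by
  have h1 := Complex.norm_exp_sub_one_sub_id_le (x := u) (by linarith)
  have h2 : ‖u‖ ≤ ‖Complex.exp u - 1‖ + ‖Complex.exp u - 1 - u‖ := by
    have h3 : u = (Complex.exp u - 1) - (Complex.exp u - 1 - u) := by ring
    calc ‖u‖ = ‖(Complex.exp u - 1) - (Complex.exp u - 1 - u)‖ := by rw [← h3]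
      _ ≤ _ := norm_sub_le _ _
  have h4 : ‖u‖ ^ 2 ≤ ‖u‖ / 2 := by nlinarith [norm_nonneg u]
  linarith

theorem pr_NO (h1 : S_NOa) (h2 : S_Dual) : S_NO := by
  intro r m s τ a hr hsr hτ
  set q := a * (τ + 1) + a + 2 with hq
  set E := 2 * r * q + (2 * r * s + 1) * q with hE
  refine ⟨E * (r + m + 4 + τ) + 1, ?_⟩
  intro φ hφ hM N w hw
  obtain ⟨C, hC1, hC⟩ := h1 r m τ φ hφ N w hw
  obtain ⟨c, hc⟩ := NO_coord hM hsr
  set Φ1 : ℝ := ∑ j, ∑ k, ‖φ j k‖ with hΦ1
  set Cb : ℝ := ∑ k, ∑ j, ‖c k j‖ with hCb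
  have hΦ0 : 0 ≤ Φ1 := Finset.sum_nonneg fun j _ => Finset.sum_nonneg fun k _ => norm_nonneg _
  have hCb0 : 0 ≤ Cb := Finset.sum_nonneg fun j _ => Finset.sum_nonneg fun k _ => norm_nonneg _
  refine ⟨⌈C * ((r : ℝ) + 2) ^ (r + m + 4 + τ)⌉₊ + 4 ^ r + 1 + ⌈2 * Φ1⌉₊ + ⌈2 * Cb⌉₊, ?_⟩
  intro T hT t ht hwt
  by_contra hne
  have h4r : 0 < 4 ^ r := by positivity
  have hT4 : 4 ^ r < T := by omega
  have hT1 : 1 ≤ T := by omega
  have hTC : C * ((r : ℝ) + 2) ^ (r + m + 4 + τ) ≤ T := by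
    refine (Nat.le_ceil _).trans ?_
    exact_mod_cast (show ⌈C * ((r : ℝ) + 2) ^ (r + m + 4 + τ)⌉₊ ≤ T by omega)
  have hTΦ : 2 * Φ1 ≤ T := by
    refine (Nat.le_ceil _).trans ?_
    exact_mod_cast (show ⌈2 * Φ1⌉₊ ≤ T by omega)
  have hTCb : 2 * Cb ≤ T := by
    refine (Nat.le_ceil _).trans ?_
    exact_mod_cast (show ⌈2 * Cb⌉₊ ≤ T by omega)
  have hTr : (1 : ℝ) ≤ T := by exact_mod_cast hT1
  -- the maximal coordinate
  obtain ⟨k0, hk0⟩ : ∃ k0 : Fin r, ∀ k, ‖wt w t k‖ ≤ ‖wt w t k0‖ := by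
    have : Nonempty (Fin r) := ⟨⟨0, hr⟩⟩
    obtain ⟨k0, -, hk0⟩ := Finset.exists_max_image Finset.univ (fun k => ‖wt w t k‖)
      Finset.univ_nonempty
    exact ⟨k0, fun k => hk0 k (Finset.mem_univ _)⟩
  set ε := ‖wt w t k0‖ with hε
  have hε0 : 0 < ε := by
    rcases (norm_nonneg (wt w t k0)).eq_or_lt with h | h
    · exfalso
      apply hne
      funext k
      have h3 := hk0 k
      rw [← hε] at h
      rw [← h] at h3
      exact norm_le_zero_iff.mp h3
    · exact h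
  have hεT : ε ≤ Real.exp (-((T : ℝ) ^ (E * (r + m + 4 + τ) + 1))) := hwt k0
  have hεT1 : ε ≤ 1 / ((T : ℝ) + 1) := by
    refine hεT.trans ?_
    have h3 : (T : ℝ) ≤ (T : ℝ) ^ (E * (r + m + 4 + τ) + 1) := le_self_pow₀ hTr (by omega)
    rw [Real.exp_neg, ← one_div]
    apply one_div_le_one_div_of_le (by linarith)
    calc (T : ℝ) + 1 ≤ Real.exp T := Real.add_one_le_exp _
      _ ≤ _ := Real.exp_le_exp.mpr h3
  set L := -Real.log ε with hL
  have hLε : Real.exp (-L) = ε := by rw [hL, neg_neg, Real.exp_log hε0]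
  have hLT : (T : ℝ) ^ (E * (r + m + 4 + τ) + 1) ≤ L := by
    have h3 := Real.log_le_log hε0 hεT
    rw [Real.log_exp] at h3
    rw [hL]
    linarith
  -- the parameters
  have hA1 : 1 ≤ T ^ a := Nat.one_le_pow _ _ hT1
  have hAM : T ^ a ≤ T ^ ((2 * r * s + 1) * q) := by
    apply Nat.pow_le_pow_right hT1
    have h3 : a ≤ q := by omega
    calc a ≤ 1 * q := by omega
      _ ≤ (2 * r * s + 1) * q := Nat.mul_le_mul_right _ (by omega)
  have hD : ((r * T ^ (2 * r * q) + 2 : ℕ) : ℝ) ≤ ((r : ℝ) + 2) * (T : ℝ) ^ (2 * r * q) := by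
    push_cast
    have h3 : (1 : ℝ) ≤ (T : ℝ) ^ (2 * r * q) := one_le_pow₀ hTr
    nlinarith
  have hD0 : (0 : ℝ) ≤ ((r * T ^ (2 * r * q) + 2 : ℕ) : ℝ) := Nat.cast_nonneg _
  have hr2 : (1 : ℝ) ≤ (r : ℝ) + 2 := by
    have : (0 : ℝ) ≤ r := Nat.cast_nonneg _
    linarith
  have hcond1 : C * (((r * T ^ (2 * r * q) + 2 : ℕ) : ℝ) * ((T ^ a : ℕ) : ℝ)) ^ τ ≤
      ((T ^ ((2 * r * s + 1) * q) : ℕ) : ℝ) := by
    calc C * (((r * T ^ (2 * r * q) + 2 : ℕ) : ℝ) * ((T ^ a : ℕ) : ℝ)) ^ τ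
        ≤ C * (((r : ℝ) + 2) * (T : ℝ) ^ (2 * r * q) * (T : ℝ) ^ a) ^ τ := by
          apply mul_le_mul_of_nonneg_left _ (by linarith)
          apply pow_le_pow_left₀ (by positivity)
          push_cast
          push_cast at hD
          apply mul_le_mul_of_nonneg_right hD (by positivity)
      _ = C * ((r : ℝ) + 2) ^ τ * (T : ℝ) ^ ((2 * r * q + a) * τ) := by
          rw [mul_assoc ((r : ℝ) + 2), ← pow_add, mul_pow, ← pow_mul, ← mul_assoc]
      _ ≤ T * (T : ℝ) ^ ((2 * r * q + a) * τ) := by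
          apply mul_le_mul_of_nonneg_right _ (by positivity)
          refine le_trans ?_ hTC
          apply mul_le_mul_of_nonneg_left _ (by linarith)
          exact pow_le_pow_right₀ hr2 (by omega)
      _ = (T : ℝ) ^ ((2 * r * q + a) * τ + 1) := by rw [pow_succ, mul_comm]
      _ ≤ (T : ℝ) ^ ((2 * r * s + 1) * q) := by
          apply pow_le_pow_right₀ hTr
          have h3 : 2 * r * q * τ ≤ 2 * r * q * s := Nat.mul_le_mul_left _ hτ
          have h4 : a * τ + 1 ≤ q := by rw [hq]; nlinarith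
          nlinarith
      _ = _ := by push_cast; rfl
  have hcond2 : C * (((r * T ^ (2 * r * q) + 2 : ℕ) : ℝ) *
      ((T ^ ((2 * r * s + 1) * q) : ℕ) : ℝ)) ^ (r + m + 4 + τ) ≤ L := by
    refine le_trans ?_ hLT
    calc C * (((r * T ^ (2 * r * q) + 2 : ℕ) : ℝ) *
          ((T ^ ((2 * r * s + 1) * q) : ℕ) : ℝ)) ^ (r + m + 4 + τ)
        ≤ C * (((r : ℝ) + 2) * (T : ℝ) ^ (2 * r * q) *
          (T : ℝ) ^ ((2 * r * s + 1) * q)) ^ (r + m + 4 + τ) := by
          apply mul_le_mul_of_nonneg_left _ (by linarith)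
          apply pow_le_pow_left₀ (by positivity)
          push_cast
          push_cast at hD
          apply mul_le_mul_of_nonneg_right hD (by positivity)
      _ = C * ((r : ℝ) + 2) ^ (r + m + 4 + τ) * (T : ℝ) ^ (E * (r + m + 4 + τ)) := by
          rw [mul_assoc ((r : ℝ) + 2), ← pow_add, ← hE, mul_pow, ← pow_mul, ← mul_assoc]
      _ ≤ T * (T : ℝ) ^ (E * (r + m + 4 + τ)) :=
          mul_le_mul_of_nonneg_right hTC (by positivity)
      _ = _ := by rw [pow_succ, mul_comm]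
  obtain ⟨η, B, hη, hB, hx⟩ := hC (r * T ^ (2 * r * q) + 2) (T ^ ((2 * r * s + 1) * q)) (T ^ a) L t
    (by omega) hA1 hAM hcond1 hcond2 ht (fun k => by rw [hLε]; exact hk0 k)
  have hη1 := h2 r m φ (T ^ (2 * r * q)) (T ^ ((2 * r * s + 1) * q))
    (fun U hU => NO_dual hr hM hsr (by omega) hT4 U hU) η B hB hx
  -- the contradiction
  have hε1 : ε * ((T : ℝ) + 1) ≤ 1 := by
    rwa [le_div_iff₀ (by linarith)] at hεT1
  have hval : ∀ j, ‖∑ k, φ j k * wt w t k‖ ≤ 2 * ε ^ 2 := by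
    intro j
    have h3 : ‖∑ k, φ j k * wt w t k‖ ≤ Φ1 * ε := by
      calc ‖∑ k, φ j k * wt w t k‖ ≤ ∑ k, ‖φ j k * wt w t k‖ := norm_sum_le _ _
        _ ≤ ∑ k, ‖φ j k‖ * ε := by
            refine Finset.sum_le_sum fun k _ => ?_
            rw [norm_mul]
            exact mul_le_mul_of_nonneg_left (hk0 k) (norm_nonneg _)
        _ = (∑ k, ‖φ j k‖) * ε := by rw [Finset.sum_mul]
        _ ≤ Φ1 * ε := by
            apply mul_le_mul_of_nonneg_right _ hε0.le
            exact Finset.single_le_sum (f := fun j => ∑ k, ‖φ j k‖)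
              (fun j _ => Finset.sum_nonneg fun k _ => norm_nonneg _) (Finset.mem_univ j)
    have h4 : ‖∑ k, φ j k * wt w t k‖ ≤ 1 / 2 := by nlinarith
    have h5 := hη j
    rw [hη1 j, norm_sub_rev] at h5
    have h6 : Real.exp (-(2 * L)) = ε ^ 2 := by
      rw [← hLε, sq, ← Real.exp_add]
      congr 1
      ring
    rw [h6] at h5
    have h7 := NO_exp h4
    linarith
  have h3 : ε ≤ Cb * (2 * ε ^ 2) := by
    calc ε = ‖∑ j, c k0 j * ∑ l, φ j l * wt w t l‖ := by rw [hε, ← hc]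
      _ ≤ ∑ j, ‖c k0 j * ∑ l, φ j l * wt w t l‖ := norm_sum_le _ _
      _ ≤ ∑ j, ‖c k0 j‖ * (2 * ε ^ 2) := by
          refine Finset.sum_le_sum fun j _ => ?_
          rw [norm_mul]
          exact mul_le_mul_of_nonneg_left (hval j) (norm_nonneg _)
      _ = (∑ j, ‖c k0 j‖) * (2 * ε ^ 2) := by rw [Finset.sum_mul]
      _ ≤ Cb * (2 * ε ^ 2) := by
          apply mul_le_mul_of_nonneg_right _ (by positivity)
          exact Finset.single_le_sum (f := fun k => ∑ j, ‖c k j‖)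
            (fun k _ => Finset.sum_nonneg fun j _ => norm_nonneg _) (Finset.mem_univ k0)
  have h4 : 2 * Cb * ε < 1 := by nlinarith
  nlinarith

end Pool.Agent.Work.MP_8da9ea_nt.SI
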