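import Mathlib
import Pool.Agent.Work.MP_8da9ea_nt.SI.Stmts
import Pool.Agent.Work.MP_327059_nt.GL.StmtsT

/-!
# PROJECT SI, item StD: a small form lowers the dimension of the subspace
-/

set_option autoImplicit false

namespace Pool.Agent.Work.MP_8da9ea_nt.SI

open MvPolynomial Pool.Agent.Work.MP_327059_nt.GL Pool.Agent.Work.MP_327059_nt.FR

/-- The points of integral combinations. -/
lemma StD_wt {r N N' : ℕ} (w : Fin N → Fin r → ℂ) (t : Fin N' → Fin N → ℤ) (s : Fin N' → ℤ)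
    (k : Fin r) : wt w (fun i => ∑ j, s j * t j i) k = ∑ j, (s j : ℂ) * wt w (t j) k := by
  unfold wt
  push_cast
  simp only [Finset.sum_mul, Finset.mul_sum]
  rw [Finset.sum_comm]
  exact Finset.sum_congr rfl fun j _ => Finset.sum_congr rfl fun i _ => by ring

/-- The new coefficients. -/
noncomputable def StD_c {r h : ℕ} (c : Fin r → Fin (h + 1) → ℂ) (χ : Fin (h + 1) → ℂ)
    (l0 : Fin (h + 1)) : Fin r → Fin h → ℂ :=
  fun k l => c k (l0.succAbove l) - χ (l0.succAbove l) * c k l0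

lemma StD_chart {r h : ℕ} (hr : h < r) {K : Fin (h + 1) → Fin r} {c : Fin r → Fin (h + 1) → ℂ}
    (hc : Chart K c) {χ : Fin (h + 1) → ℂ} {l0 : Fin (h + 1)} (hχ : ∀ l, ‖χ l‖ ≤ 1) :
    Chart (K ∘ l0.succAbove) (StD_c c χ l0) := by
  constructor
  · intro k l
    have h1 : (2 : ℝ) ^ (r - h) = 2 ^ (r - (h + 1)) + 2 ^ (r - (h + 1)) := by
      have : r - h = (r - (h + 1)) + 1 := by omega
      rw [this, pow_succ]; ring
    rw [h1]
    unfold StD_c
    refine (norm_sub_le _ _).trans (add_le_add (hc.1 _ _) ?_)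
    rw [norm_mul]
    calc ‖χ (l0.succAbove l)‖ * ‖c k l0‖ ≤ 1 * 2 ^ (r - (h + 1)) :=
          mul_le_mul (hχ _) (hc.1 _ _) (norm_nonneg _) zero_le_one
      _ = _ := one_mul _
  · intro l l'
    unfold StD_c
    simp only [Function.comp]
    rw [hc.2, hc.2, if_neg (Fin.succAbove_ne l0 l)]
    simp

lemma StD_sum {h : ℕ} (l0 : Fin (h + 1)) (f : Fin (h + 1) → ℂ) :
    ∑ l : Fin h, f (l0.succAbove l) = ∑ l, f l - f l0 := by
  rw [Fin.sum_univ_succAbove f l0]; ring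

lemma StD_indep {N N' N'' : ℕ} (t : Fin N' → Fin N → ℤ) (σ : Fin N'' → Fin N' → ℤ)
    (ht : LinearIndependent ℚ (fun j => (fun i => (t j i : ℚ))))
    (hσ : LinearIndependent ℚ (fun j => (fun i => (σ j i : ℚ)))) :
    LinearIndependent ℚ (fun q => (fun i => ((∑ j, σ q j * t j i : ℤ) : ℚ))) := by
  have h1 := hσ.map' (Fintype.linearCombination ℚ (fun j => (fun i => (t j i : ℚ))))
    (LinearMap.ker_eq_bot.2 ht.fintypeLinearCombination_injective)
  have h2 : (fun q => (fun i => ((∑ j, σ q j * t j i : ℤ) : ℚ))) =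
      (Fintype.linearCombination ℚ (fun j => (fun i => (t j i : ℚ)))) ∘
        (fun j => (fun i => (σ j i : ℚ))) := by
    funext q i
    simp [Fintype.linearCombination_apply]
  rw [h2]
  exact h1

lemma StD_exp {Q' N r T : ℕ} (hT : 4 ^ N + 16 * N + 2 ^ (r + 2) + 16 ≤ T) :
    ((2 * N * T : ℕ) + 2 ^ r : ℝ) * Real.exp (-((T : ℝ) ^ (Q' + 1))) ≤
      Real.exp (-((T : ℝ) ^ Q')) := by
  have hTr : (4 : ℝ) ^ N + 16 * N + 2 ^ (r + 2) + 16 ≤ T := by exact_mod_cast hT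
  have h4 : (0 : ℝ) < 4 ^ N := by positivity
  have h2 : (0 : ℝ) < 2 ^ r := by positivity
  have h22 : (2 : ℝ) ^ (r + 2) = 4 * 2 ^ r := by rw [pow_add]; ring
  have hN0 : (0 : ℝ) ≤ N := Nat.cast_nonneg N
  have hT16 : (16 : ℝ) ≤ T := by linarith
  have h1 : ((2 * N * T : ℕ) + 2 ^ r : ℝ) ≤ Real.exp ((T : ℝ) - 1) := by
    have h3 := Real.quadratic_le_exp_of_nonneg (by linarith : (0 : ℝ) ≤ (T : ℝ) - 1)
    push_cast
    have h5 : (T : ℝ) * (16 * N + 4 * 2 ^ r + 14) ≤ T * (T - 2) :=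
      mul_le_mul_of_nonneg_left (by linarith) (by linarith)
    have h6 : (0 : ℝ) ≤ N * T := by positivity
    have h7 : (2 : ℝ) ^ r ≤ T * 2 ^ r := le_mul_of_one_le_left h2.le (by linarith)
    nlinarith
  have h3 : (T : ℝ) - 1 ≤ (T : ℝ) ^ (Q' + 1) - (T : ℝ) ^ Q' := by
    have h5 : (1 : ℝ) ≤ (T : ℝ) ^ Q' := one_le_pow₀ (by linarith)
    have h6 : (T : ℝ) ^ (Q' + 1) - (T : ℝ) ^ Q' = (T : ℝ) ^ Q' * (T - 1) := by
      rw [pow_succ]; ring
    rw [h6]
    exact le_mul_of_one_le_left (by linarith) h5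
  calc ((2 * N * T : ℕ) + 2 ^ r : ℝ) * Real.exp (-((T : ℝ) ^ (Q' + 1)))
      ≤ Real.exp ((T : ℝ) - 1) * Real.exp (-((T : ℝ) ^ (Q' + 1))) :=
        mul_le_mul_of_nonneg_right h1 (Real.exp_pos _).le
    _ = Real.exp ((T : ℝ) - 1 + -((T : ℝ) ^ (Q' + 1))) := (Real.exp_add _ _).symm
    _ ≤ _ := Real.exp_le_exp.2 (by linarith)

lemma StD_near {r N h N' N'' a Q' T : ℕ} (hr : h < r) (hN : N' ≤ N)
    (hT : 4 ^ N + 16 * N + 2 ^ (r + 2) + 16 ≤ T)
    (w : Fin N → Fin r → ℂ) (K : Fin (h + 1) → Fin r)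
    (c : Fin r → Fin (h + 1) → ℂ) (t : Fin N' → Fin N → ℤ) (hnear : IsNear T (Q' + 1) a w K c t)
    (χ : Fin (h + 1) → ℂ) (l0 : Fin (h + 1)) (hχ0 : χ l0 = 1) (hχ : ∀ l, ‖χ l‖ ≤ 1)
    (σ : Fin N'' → Fin N' → ℤ) (hσ : LinearIndependent ℚ (fun j => (fun i => (σ j i : ℚ))))
    (hσb : ∀ q j, |σ q j| ≤ ((2 * T : ℕ) : ℤ))
    (hσs : ∀ q, ‖∑ l, χ l * ∑ j, (σ q j : ℂ) * wt w (t j) (K l)‖ ≤
      Real.exp (-((T : ℝ) ^ (Q' + 1)))) : Near T Q' (a + 2) w h N'' := by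
  obtain ⟨hch, hti, htb, hcl⟩ := hnear
  have hp4 : 0 < 4 ^ N := by positivity
  have hp2 : 0 < 2 ^ (r + 2) := by positivity
  have hT1 : 1 ≤ T := by omega
  refine ⟨K ∘ l0.succAbove, StD_c c χ l0, fun q i => ∑ j, σ q j * t j i,
    StD_chart hr hch hχ, StD_indep t σ hti hσ, ?_, ?_⟩
  · intro q i
    have h1 : |∑ j, σ q j * t j i| ≤ ∑ j : Fin N', ((2 * T : ℕ) : ℤ) * ((T ^ a : ℕ) : ℤ) := by
      refine (Finset.abs_sum_le_sum_abs _ _).trans (Finset.sum_le_sum fun j _ => ?_)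
      rw [abs_mul]
      exact mul_le_mul (hσb q j) (htb j i) (abs_nonneg _) (by positivity)
    refine h1.trans ?_
    rw [Finset.sum_const, Finset.card_univ, Fintype.card_fin, nsmul_eq_mul]
    have h2 : N' * ((2 * T) * T ^ a) ≤ T ^ (a + 2) := by
      have h3 : N' * 2 ≤ T := by
        omega
      calc N' * ((2 * T) * T ^ a) = (N' * 2) * (T * T ^ a) := by ring
        _ ≤ T * (T * T ^ a) := Nat.mul_le_mul_right _ h3
        _ = T ^ (a + 2) := by ring
    exact_mod_cast h2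
  · intro q k
    have e1 : ∀ k, wt w (fun i => ∑ j, σ q j * t j i) k = ∑ j, (σ q j : ℂ) * wt w (t j) k :=
      fun k => StD_wt w t (σ q) k
    simp only [e1, Function.comp]
    set u : Fin r → ℂ := fun k => ∑ j, (σ q j : ℂ) * wt w (t j) k with hu
    change ‖u k - ∑ l, StD_c c χ l0 k l * u (K (l0.succAbove l))‖ ≤ _
    have e2 : ∑ l, StD_c c χ l0 k l * u (K (l0.succAbove l)) =
        ∑ l, c k l * u (K l) - c k l0 * ∑ l, χ l * u (K l) := by
      have f1 := StD_sum l0 (fun l => c k l * u (K l))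
      have f2 := StD_sum l0 (fun l => χ l * u (K l))
      have f3 : ∑ l, StD_c c χ l0 k l * u (K (l0.succAbove l)) =
          ∑ l, c k (l0.succAbove l) * u (K (l0.succAbove l)) -
            c k l0 * ∑ l, χ (l0.succAbove l) * u (K (l0.succAbove l)) := by
        rw [Finset.mul_sum, ← Finset.sum_sub_distrib]
        exact Finset.sum_congr rfl fun l _ => by unfold StD_c; ring
      rw [f3, f1, f2, hχ0]
      ring
    have e3 : u k - ∑ l, StD_c c χ l0 k l * u (K (l0.succAbove l)) =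
        (∑ j, (σ q j : ℂ) * (wt w (t j) k - ∑ l, c k l * wt w (t j) (K l))) +
          c k l0 * ∑ l, χ l * u (K l) := by
      rw [e2]
      have f4 : ∑ l, c k l * u (K l) = ∑ j, (σ q j : ℂ) * ∑ l, c k l * wt w (t j) (K l) := by
        simp only [hu, Finset.mul_sum]
        rw [Finset.sum_comm]
        exact Finset.sum_congr rfl fun j _ => Finset.sum_congr rfl fun l _ => by ring
      rw [f4]
      simp only [mul_sub, Finset.sum_sub_distrib]
      rw [hu]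
      ring
    rw [e3]
    have hsig : ∀ j, ‖(σ q j : ℂ)‖ ≤ ((2 * T : ℕ) : ℝ) := by
      intro j
      rw [Complex.norm_intCast]
      exact_mod_cast hσb q j
    have b1 : ‖∑ j, (σ q j : ℂ) * (wt w (t j) k - ∑ l, c k l * wt w (t j) (K l))‖ ≤
        ((2 * N * T : ℕ) : ℝ) * Real.exp (-((T : ℝ) ^ (Q' + 1))) := by
      refine (norm_sum_le _ _).trans ?_
      calc ∑ j, ‖(σ q j : ℂ) * (wt w (t j) k - ∑ l, c k l * wt w (t j) (K l))‖
          ≤ ∑ _j : Fin N', ((2 * T : ℕ) : ℝ) * Real.exp (-((T : ℝ) ^ (Q' + 1))) := by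
            refine Finset.sum_le_sum fun j _ => ?_
            rw [norm_mul]
            exact mul_le_mul (hsig j) (hcl j k) (norm_nonneg _) (Nat.cast_nonneg _)
        _ = ((N' * (2 * T) : ℕ) : ℝ) * Real.exp (-((T : ℝ) ^ (Q' + 1))) := by
            rw [Finset.sum_const, Finset.card_univ, Fintype.card_fin, nsmul_eq_mul]
            push_cast; ring
        _ ≤ _ := by
            apply mul_le_mul_of_nonneg_right _ (Real.exp_pos _).le
            have : N' * (2 * T) ≤ 2 * N * T := by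
              calc N' * (2 * T) ≤ N * (2 * T) := Nat.mul_le_mul_right _ hN
                _ = 2 * N * T := by ring
            exact_mod_cast this
    have b2 : ‖c k l0 * ∑ l, χ l * u (K l)‖ ≤ 2 ^ r * Real.exp (-((T : ℝ) ^ (Q' + 1))) := by
      rw [norm_mul]
      refine mul_le_mul ?_ (hσs q) (norm_nonneg _) (by positivity)
      exact (hch.1 k l0).trans (pow_le_pow_right₀ (by norm_num) (by omega))
    calc ‖(∑ j, (σ q j : ℂ) * (wt w (t j) k - ∑ l, c k l * wt w (t j) (K l))) +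
          c k l0 * ∑ l, χ l * u (K l)‖
        ≤ ((2 * N * T : ℕ) : ℝ) * Real.exp (-((T : ℝ) ^ (Q' + 1))) +
          2 ^ r * Real.exp (-((T : ℝ) ^ (Q' + 1))) := (norm_add_le _ _).trans (add_le_add b1 b2)
      _ = ((2 * N * T : ℕ) + 2 ^ r : ℝ) * Real.exp (-((T : ℝ) ^ (Q' + 1))) := by ring
      _ ≤ _ := StD_exp hT

theorem pr_StD (hMI : S_ManyInd) : S_StD := by
  intro r a Q'
  refine ⟨Q' + 1, fun B => ⟨B + 1, fun N w => ⟨4 ^ N + 16 * N + 2 ^ (r + 2) + 16, ?_⟩⟩⟩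
  intro T hT h N' hr K c t hnear ⟨χ, l0, hχ0, hχ, hcard⟩
  have hN : N' ≤ N := by
    have := hnear.2.1.fintype_card_le_finrank
    simpa using this
  have hp4 : 0 < 4 ^ N := by positivity
  have hp2 : 0 < 2 ^ (r + 2) := by positivity
  have hT1 : 1 ≤ T := by omega
  by_cases hk : N' ≤ B + 1
  · have h0 : N' - (B + 1) = 0 := by omega
    rw [h0]
    exact StD_near hr hN hT w K c t hnear χ l0 hχ0 hχ (N'' := 0) (fun q => q.elim0)
      (linearIndependent_empty_type) (fun q => q.elim0) (fun q => q.elim0)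
  · obtain ⟨rr, hrr⟩ : ∃ rr, N' = rr + B + 2 := ⟨N' - B - 2, by omega⟩
    have h1 : N' - (B + 1) = rr + 1 := by omega
    rw [h1]
    have hlt : (2 * (2 * T) + 1) ^ rr < Set.ncard {s : Fin N' → ℤ | (∀ i, |s i| ≤ ((2 * T : ℕ) : ℤ)) ∧
        s ∈ {s : Fin N' → ℤ | ‖∑ l, χ l * ∑ j, (s j : ℂ) * wt w (t j) (K l)‖ ≤
          Real.exp (-((T : ℝ) ^ (Q' + 1)))}} := by
      have hTB : 0 < T ^ B := by positivity
      refine lt_of_mul_lt_mul_left (a := T ^ B) ?_ (Nat.zero_le _)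
      refine lt_of_lt_of_le ?_ hcard
      have k1 : (2 * (2 * T) + 1) ^ rr ≤ 4 ^ rr * (T + 1) ^ rr := by
        rw [← mul_pow]
        exact Nat.pow_le_pow_left (by omega) _
      have k2 : T ^ B ≤ (T + 1) ^ B := Nat.pow_le_pow_left (by omega) _
      have k3 : 4 ^ rr < (T + 1) ^ 2 := by
        have : 4 ^ rr ≤ 4 ^ N := Nat.pow_le_pow_right (by norm_num) (by omega)
        calc 4 ^ rr ≤ 4 ^ N := this
          _ < T + 1 := by omega
          _ ≤ (T + 1) ^ 2 := Nat.le_self_pow (by norm_num) _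
      calc T ^ B * (2 * (2 * T) + 1) ^ rr ≤ (T + 1) ^ B * (4 ^ rr * (T + 1) ^ rr) :=
            Nat.mul_le_mul k2 k1
        _ = 4 ^ rr * ((T + 1) ^ B * (T + 1) ^ rr) := by ring
        _ < (T + 1) ^ 2 * ((T + 1) ^ B * (T + 1) ^ rr) := by
            apply Nat.mul_lt_mul_of_pos_right k3
            positivity
        _ = (T + 1) ^ (rr + B + 2) := by ring
        _ = (T + 1) ^ N' := by rw [hrr]
    obtain ⟨σ, hσΛ, hσb, hσi⟩ := hMI N' (2 * T) rr _ hlt
    exact StD_near hr hN hT w K c t hnear χ l0 hχ0 hχ σ hσi hσb (fun q => hσΛ q)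

end Pool.Agent.Work.MP_8da9ea_nt.SI
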