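import Pool.Agent.Work.MP_8da9ea_nt.EC.End

/-!
# The lower bounds for the points on one line
-/

set_option autoImplicit false

namespace Pool.Agent.Work.MP_8da9ea_nt.SI

open Pool.Agent.Work.MP_8da9ea_nt.EC Pool.Agent.Work.MP_8da9ea_nt.EB
  Pool.Agent.Work.MP_327059_nt.GL Pool.Agent.Work.MP_8da9ea_nt.S Pool.Agent.Work.MP_8da9ea_nt.TG

/-- Lattices with generic invariant: the part of `t` in `F` is on the line through `z`. -/
theorem gen_line {m : ℕ} (b : Fin m → ℂ) (z : ℂ) (hSch : Sch b z)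
    (halg : ∀ j, IsAlgebraic ℚ (b j)) (hb : LinearIndependent ℚ b) (S : Set ℂ) (hS : S.Countable)
    (ω₁ ω₂ : ℂ) (him : (ω₂ / ω₁).im ≠ 0) (hj : jInv ω₁ ω₂ ∉ CD.cl S) (s k : ℕ) (t : Fin s → ℂ)
    (p : Fin k → ℂ) (d : ℕ) (t₀ : Fin d → ℂ)
    (hI : Inn (CD.cl S) t (Fin.append (fun j => b j * z) t₀)) (ρ : ℕ) (y : Fin ρ → ℂ)
    (hy : ∀ i, IsAlgebraic (bigField ω₁ ω₂ t p) (y i)) (hyc : ClInd S y) (N : ℕ)
    (hN : N + d ≤ tDim t + 3 + kDim2 ω₁ ω₂ p + max 1 ρ) : HasTrdeg (bigField ω₁ ω₂ t p) N := by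
  classical
  have hCM : ¬ IsCM ω₁ ω₂ := CD.closed_not_CM (CD.closed_cl S) him hj
  have hk : kDim2 ω₁ ω₂ p = 2 * pDim ω₁ ω₂ p := by
    unfold kDim2 pDim
    rw [if_neg hCM]
  obtain ⟨a, M, A, hMF, hMe, hA, hdim⟩ := x_TSel (CD.cl S) (CD.closed_cl S).kap s m d t
    (fun j => b j * z) t₀ hI
  obtain ⟨sg, hsg⟩ := sub_sch b z hSch halg hb a A hA
  have hexp : ∀ M : Fin s → ℤ, Complex.exp (∑ l, (M l : ℂ) * t l) ∈ bigField ω₁ ω₂ t p := by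
    intro M
    rw [Complex.exp_sum]
    refine prod_mem fun l _ => ?_
    rw [Complex.exp_int_mul]
    exact zpow_mem (bigField_exp ω₁ ω₂ t p l) _
  have hsum : ∀ i, (∑ j, (A i j : ℂ) * b j) * z = ∑ j, (A i j : ℂ) * (b j * z) := by
    intro i
    rw [Finset.sum_mul]
    exact Finset.sum_congr rfl fun j _ => by ring
  have hT : HasTrdeg (bigField ω₁ ω₂ t p ⊓ CD.cl S) a := by
    refine ⟨_, ?_, hsg⟩
    intro i
    have key : ∀ v : Fin a ⊕ Fin a,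
        Sum.elim (fun i => (∑ j, (A i j : ℂ) * b j) * z)
          (fun i => Complex.exp ((∑ j, (A i j : ℂ) * b j) * z)) v ∈
            bigField ω₁ ω₂ t p ⊓ CD.cl S := by
      rintro (i | i)
      · simp only [Sum.elim_inl]
        rw [hsum i]
        obtain ⟨n, hn⟩ := Complex.exp_eq_exp_iff_exists_int.1 (hMe i).symm
        rw [hn]
        refine ⟨add_mem (sum_mem fun l _ => mul_mem (intCast_mem _ _) (big_t _ _ _ _ l))
          (mul_mem (intCast_mem _ _) (big_pi' him t p)),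
          add_mem (hMF i) (mul_mem (intCast_mem _ _) (CD.closed_cl S).kap)⟩
      · simp only [Sum.elim_inr]
        rw [hsum i, ← hMe i]
        exact ⟨hexp _, CD.closed_exp (CD.closed_cl S) (hMF i)⟩
    exact key _
  have h5 := CD.all_mov (t := t) (p := p) CD.prf_Lin CD.prf_Lin2 CD.prf_Lin3 CD.prf_Add CD.end_Mul
    him hS hj y (fun i => CD.mem_acl.2 (hy i)) hyc
  have h6 := h5.hasTrdeg hT
  exact h6.mono le_rfl (by omega)

/-- Lattices with invariant in `F`: the exponentials `e^{u_i}` are independent over the field of the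
lattice, the part of `t` in `F` is spanned by `u` and `t₀`, the part of `p` by `p₀`. -/
theorem fix_line (S : Set ℂ) (hS : S.Countable) (τ ω₁ : ℂ) (hτ : 0 < τ.im) (h1 : ω₁ ≠ 0)
    (hτF : τ ∈ CD.cl S) {r : ℕ} (u : Fin r → ℂ)
    (hind : AlgebraicIndependent (bigField 1 τ (![] : Fin 0 → ℂ) (![] : Fin 0 → ℂ))
      (fun i => Complex.exp (u i)))
    (s n : ℕ) (t : Fin s → ℂ) (p : Fin n → ℂ) (d d' : ℕ) (t₀ : Fin d → ℂ) (p₀ : Fin d' → ℂ)
    (hI : Inn (CD.cl S) t (Fin.append u t₀)) (hIE : InnE (CD.cl S) ω₁ (ω₁ * τ) p p₀)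
    (ρ : ℕ) (y : Fin ρ → ℂ) (hy : ∀ i, IsAlgebraic (bigField ω₁ (ω₁ * τ) t p) (y i))
    (hyc : ClInd S y) (e : ℕ)
    (he : HasTrdeg (bigField 1 τ (![] : Fin 0 → ℂ) (![] : Fin 0 → ℂ)) e) (N : ℕ)
    (hN : N + d + 2 * d' ≤ e + tDim t + kDim2 ω₁ (ω₁ * τ) p +
      max ρ (min 1 (modDim (CD.cl S) t + modDim2 (CD.cl S) ω₁ (ω₁ * τ) p))) :
    HasTrdeg (bigField ω₁ (ω₁ * τ) t p) N := by
  classical
  have hdiv : ω₁ * τ / ω₁ = τ := mul_div_cancel_left₀ _ h1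
  have him : (ω₁ * τ / ω₁).im ≠ 0 := by
    rw [hdiv]
    exact hτ.ne'
  obtain ⟨a, M, A, hMF, hMe, hA, hadim⟩ := x_TSel (CD.cl S) (CD.closed_cl S).kap s r d t u t₀ hI
  have hIE' : InnE (CD.cl S) ω₁ (ω₁ * τ) p (Fin.append (![] : Fin 0 → ℂ) p₀) := by
    intro g hg hgF
    obtain ⟨h, q, q', hh, heq⟩ := hIE g hg hgF
    refine ⟨Fin.append (![] : Fin 0 → ℂ) h, q, q', ?_, ?_⟩
    · intro i
      refine Fin.addCases (fun i => i.elim0) (fun i => ?_) i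
      rw [Fin.append_right]
      exact hh i
    · rw [heq, Fin.sum_univ_add]
      simp only [Fin.append_right, Finset.univ_eq_empty, Finset.sum_empty, zero_add]
  obtain ⟨b, g, G, σ, hg, hgF, hgG, hσ, hGE, hGrow, hbdim⟩ := x_PSel (CD.cl S) ω₁ (ω₁ * τ)
    (by rw [hdiv]; exact hτ) (by rw [hdiv]; exact hτF) n 0 d' p ![] p₀ hIE'
  have hb0 : b = 0 := by
    rcases Nat.eq_zero_or_pos b with h0 | h0
    · exact h0
    · exfalso
      have h2 := hGrow (fun _ => 1) (fun _ => by simpa using EB.I_GCoreE0.isE_rat _ 1)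
        (fun l => l.elim0)
      have h3 := congrFun h2 ⟨0, h0⟩
      simp at h3
  subst hb0
  have hs := mono_indep _ u hind A hA
  have h3 : ∀ i, Complex.exp (∑ j, (A i j : ℂ) * u j) ∈
      CD.acl (bigField ω₁ (ω₁ * τ) t p) ⊓ CD.cl S := by
    intro i
    rw [← hMe i]
    exact ⟨CD.texp_mem t p (M i), CD.closed_exp (CD.closed_cl S) (hMF i)⟩
  have hL : bigField 1 τ (![] : Fin 0 → ℂ) (![] : Fin 0 → ℂ) ≤
      CD.acl (bigField ω₁ (ω₁ * τ) t p) ⊓ CD.cl S :=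
    le_inf ((big_base h1 t p).trans (CD.le_acl _))
      (CD.closed_big (CD.closed_cl S) (one_mem _) hτF (fun l => l.elim0) (fun l => l.elim0))
  have h5 := Tower_pf (bigField 1 τ (![] : Fin 0 → ℂ) (![] : Fin 0 → ℂ))
    (bigField 1 τ (![] : Fin 0 → ℂ) (![] : Fin 0 → ℂ))
    (CD.acl (bigField ω₁ (ω₁ * τ) t p) ⊓ CD.cl S) (CD.le_acl _) hL e a (Fin a) _ he
    (by rw [Fintype.card_fin]) hs h3
  have hj : jInv ω₁ (ω₁ * τ) ∈ CD.cl S :=
    (CD.closed_jiff (CD.closed_cl S) him).2 (by rw [hdiv]; exact hτF)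
  have h6 := CD.all_fix (t := t) (p := p) CD.prf_Lin CD.prf_Lin2 CD.prf_Add CD.end_Mul
    him hS hj y (fun i => CD.mem_acl.2 (hy i)) hyc
  have h7 : CD.RelTr (CD.acl (CD.acl (bigField ω₁ (ω₁ * τ) t p))) (CD.cl S) _ :=
    h6.mono (CD.le_acl _) le_rfl le_rfl
  have h8 := CD.hasTrdeg_acl (h7.hasTrdeg h5)
  exact h8.mono le_rfl (by omega)

open EC.I_AlgL in
/-- The same for an arbitrary basis of an arbitrary lattice. -/
theorem fix_line' (S : Set ℂ) (hS : S.Countable) (ω₁ ω₂ : ℂ) (him : (ω₂ / ω₁).im ≠ 0)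
    (hj : jInv ω₁ ω₂ ∈ CD.cl S) {r : ℕ} (u : Fin r → ℂ)
    (hind : AlgebraicIndependent (bigField 1 (ω₂ / ω₁) (![] : Fin 0 → ℂ) (![] : Fin 0 → ℂ))
      (fun i => Complex.exp (u i)))
    (s n : ℕ) (t : Fin s → ℂ) (p : Fin n → ℂ) (d d' : ℕ) (t₀ : Fin d → ℂ) (p₀ : Fin d' → ℂ)
    (hI : Inn (CD.cl S) t (Fin.append u t₀)) (hIE : InnE (CD.cl S) ω₁ ω₂ p p₀)
    (ρ : ℕ) (y : Fin ρ → ℂ) (hy : ∀ i, IsAlgebraic (bigField ω₁ ω₂ t p) (y i))
    (hyc : ClInd S y) (e : ℕ)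
    (he : HasTrdeg (bigField 1 (ω₂ / ω₁) (![] : Fin 0 → ℂ) (![] : Fin 0 → ℂ)) e) (N : ℕ)
    (hN : N + d + 2 * d' ≤ e + tDim t + kDim2 ω₁ ω₂ p +
      max ρ (min 1 (modDim (CD.cl S) t + modDim2 (CD.cl S) ω₁ ω₂ p))) :
    HasTrdeg (bigField ω₁ ω₂ t p) N := by
  have h1 : ω₁ ≠ 0 := by
    rintro rfl
    simp at him
  have hτF : ω₂ / ω₁ ∈ CD.cl S := (CD.closed_jiff (CD.closed_cl S) him).1 hj
  rcases lt_or_gt_of_ne him with hlt | hgt
  · -- `τ = -ω₂ / ω₁`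
    have hω' : -ω₂ = ω₁ * (-(ω₂ / ω₁)) := by field_simp
    have hlt' : 0 < (-(ω₂ / ω₁)).im := by simpa using hlt
    have e1 : bigField ω₁ (ω₁ * (-(ω₂ / ω₁))) t p = bigField ω₁ ω₂ t p := by
      rw [← hω', bigField_neg]
    have e2 : modDim2 (CD.cl S) ω₁ (ω₁ * (-(ω₂ / ω₁))) p = modDim2 (CD.cl S) ω₁ ω₂ p := by
      rw [← hω', modDim2_neg]
    have e3 : kDim2 ω₁ (ω₁ * (-(ω₂ / ω₁))) p = kDim2 ω₁ ω₂ p := by
      rw [← hω', kDim2_neg]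
    have e4 : bigField 1 (-(ω₂ / ω₁)) (![] : Fin 0 → ℂ) (![] : Fin 0 → ℂ) =
        bigField 1 (ω₂ / ω₁) (![] : Fin 0 → ℂ) (![] : Fin 0 → ℂ) := bigField_neg _ _ _ _
    have h8 : InnE (CD.cl S) ω₁ (ω₁ * (-(ω₂ / ω₁))) p p₀ := by
      apply InnE_neg
      rw [← hω', neg_neg]
      exact hIE
    have h9 := fix_line S hS (-(ω₂ / ω₁)) ω₁ hlt' h1 (neg_mem hτF) u (by rw [e4]; exact hind) s n
      t p d d' t₀ p₀ hI h8 ρ y (by rw [e1]; exact hy) hyc e (by rw [e4]; exact he) N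
      (by rw [e2, e3]; exact hN)
    rw [e1] at h9
    exact h9
  · have hω : ω₂ = ω₁ * (ω₂ / ω₁) := by field_simp
    have h9 := fix_line S hS (ω₂ / ω₁) ω₁ hgt h1 hτF u hind s n t p d d' t₀ p₀ hI
      (by rw [← hω]; exact hIE) ρ y (by rw [← hω]; exact hy) hyc e he N (by rw [← hω]; exact hN)
    rw [← hω] at h9
    exact h9

end Pool.Agent.Work.MP_8da9ea_nt.SI
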